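import Pool.Agent.Helper79.Pyj.Defs

/-! M10e: the case of denominator one -/

set_option maxHeartbeats 2000000

namespace Pyj

open Complex Finset

/-- explicit value of the rotation. -/
theorem rot_pa_eq (n : ℕ) (y : ℤ) :
    rot (pa n y) = (((2 * (y : ℝ) + 1) ^ 2 - (2 ^ (n + 1)) ^ 2) /
        ((2 * (y : ℝ) + 1) ^ 2 + (2 ^ (n + 1)) ^ 2) : ℝ)
      + ((2 * (2 * (y : ℝ) + 1) * 2 ^ (n + 1)) /
        ((2 * (y : ℝ) + 1) ^ 2 + (2 ^ (n + 1)) ^ 2) : ℝ) * I := by
  have hN : (0 : ℝ) < 2 ^ (n + 1) := by positivity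
  set N : ℝ := 2 ^ (n + 1) with hNdef
  set x : ℝ := 2 * (y : ℝ) + 1 with hx
  have hpos : (0 : ℝ) < x ^ 2 + N ^ 2 := by positivity
  have ha : ((pa n y : GaussianInt) : ℂ) = (x : ℂ) + (N : ℂ) * I := by
    rw [pa, GaussianInt.toComplex_def']
    push_cast [hx, hNdef]
    ring
  have hs : ((star (pa n y) : GaussianInt) : ℂ) = (x : ℂ) - (N : ℂ) * I := by
    rw [GaussianInt.toComplex_star, ha, map_add, map_mul, Complex.conj_ofReal, Complex.conj_ofReal,
      Complex.conj_I]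
    ring
  have hs0 : (x : ℂ) - (N : ℂ) * I ≠ 0 := by
    intro h
    have h1 := congrArg Complex.im h
    simp at h1
    exact hN.ne' h1
  have hpc : ((x : ℂ) ^ 2 + (N : ℂ) ^ 2) ≠ 0 := by
    have : (((x ^ 2 + N ^ 2 : ℝ)) : ℂ) ≠ 0 := by exact_mod_cast hpos.ne'
    push_cast at this
    exact this
  rw [rot, ha, hs, div_eq_iff hs0]
  push_cast
  field_simp
  linear_combination (2 * (N : ℂ) ^ 2 * x) * Complex.I_sq

theorem rot_pa_re (n : ℕ) (y : ℤ) : (rot (pa n y)).re =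
    ((2 * (y : ℝ) + 1) ^ 2 - (2 ^ (n + 1)) ^ 2) / ((2 * (y : ℝ) + 1) ^ 2 + (2 ^ (n + 1)) ^ 2) := by
  rw [rot_pa_eq]
  simp only [Complex.add_re, Complex.ofReal_re, Complex.mul_re, Complex.I_re, Complex.ofReal_im,
    Complex.I_im, mul_zero, mul_one, sub_zero, add_zero]

theorem rot_pa_im (n : ℕ) (y : ℤ) : (rot (pa n y)).im =
    (2 * (2 * (y : ℝ) + 1) * 2 ^ (n + 1)) / ((2 * (y : ℝ) + 1) ^ 2 + (2 ^ (n + 1)) ^ 2) := by
  rw [rot_pa_eq]
  simp only [Complex.add_im, Complex.ofReal_re, Complex.mul_im, Complex.I_re, Complex.ofReal_im,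
    Complex.I_im, mul_zero, mul_one, zero_add, add_zero]

theorem rot_lipschitz (n : ℕ) (y y' : ℤ) :
    ‖rot (pa n y) - rot (pa n y')‖ ≤ 2 * |(y : ℝ) - y'| / 2 ^ n := by
  have hN : (0 : ℝ) < 2 ^ (n + 1) := by positivity
  have hN2 : (2 : ℝ) ^ (n + 1) = 2 * 2 ^ n := by rw [pow_succ]; ring
  set N : ℝ := 2 ^ (n + 1) with hNdef
  have hval : ∀ w : ℤ, ((pa n w : GaussianInt) : ℂ) = ((2 * (w : ℝ) + 1 : ℝ) : ℂ) + (N : ℂ) * I := by
    intro w
    rw [pa, GaussianInt.toComplex_def']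
    push_cast [hNdef]
    ring
  have hval' : ∀ w : ℤ, ((star (pa n w) : GaussianInt) : ℂ)
      = ((2 * (w : ℝ) + 1 : ℝ) : ℂ) - (N : ℂ) * I := by
    intro w
    rw [GaussianInt.toComplex_star, hval, map_add, map_mul, Complex.conj_ofReal,
      Complex.conj_ofReal, Complex.conj_I]
    ring
  have hnorm : ∀ w : ℤ, N ≤ ‖((2 * (w : ℝ) + 1 : ℝ) : ℂ) - (N : ℂ) * I‖ := by
    intro w
    have h1 := Complex.abs_im_le_norm (((2 * (w : ℝ) + 1 : ℝ) : ℂ) - (N : ℂ) * I)
    have h2 : (((2 * (w : ℝ) + 1 : ℝ) : ℂ) - (N : ℂ) * I).im = -N := by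
      simp
    rw [h2, abs_neg, abs_of_pos hN] at h1
    exact h1
  have hne : ∀ w : ℤ, ((2 * (w : ℝ) + 1 : ℝ) : ℂ) - (N : ℂ) * I ≠ 0 := by
    intro w h
    have := hnorm w
    rw [h, norm_zero] at this
    linarith
  have hdiff : rot (pa n y) - rot (pa n y') =
      (4 * N * ((y' : ℝ) - y) : ℝ) * I / ((((2 * (y : ℝ) + 1 : ℝ) : ℂ) - (N : ℂ) * I)
        * (((2 * (y' : ℝ) + 1 : ℝ) : ℂ) - (N : ℂ) * I)) := by
    rw [rot, rot, hval, hval, hval', hval', div_sub_div _ _ (hne y) (hne y')]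
    congr 1
    push_cast
    ring
  rw [hdiff, norm_div, norm_mul, norm_mul, Complex.norm_I, Complex.norm_real, mul_one,
    Real.norm_eq_abs, abs_mul, abs_of_pos (by positivity : (0 : ℝ) < 4 * N), abs_sub_comm]
  have hden : N * N ≤ ‖((2 * (y : ℝ) + 1 : ℝ) : ℂ) - (N : ℂ) * I‖
      * ‖((2 * (y' : ℝ) + 1 : ℝ) : ℂ) - (N : ℂ) * I‖ :=
    mul_le_mul (hnorm y) (hnorm y') hN.le (norm_nonneg _)
  calc 4 * N * |(y : ℝ) - y'| / (‖((2 * (y : ℝ) + 1 : ℝ) : ℂ) - (N : ℂ) * I‖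
      * ‖((2 * (y' : ℝ) + 1 : ℝ) : ℂ) - (N : ℂ) * I‖)
      ≤ 4 * N * |(y : ℝ) - y'| / (N * N) := by
        apply div_le_div_of_nonneg_left (by positivity) (by positivity) hden
    _ = 2 * |(y : ℝ) - y'| / 2 ^ n := by
        rw [hN2]
        field_simp
        ring

/-- discrete intermediate value theorem. -/
theorem discrete_ivt (f : ℤ → ℝ) (δ : ℝ) (hf : ∀ y, |f (y + 1) - f y| ≤ δ) (p q : ℤ) (hpq : p ≤ q)
    (k : ℝ) (h1 : f p ≤ k) (h2 : k ≤ f q) : ∃ y, p ≤ y ∧ y ≤ q ∧ |f y - k| ≤ δ := by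
  have hδ : 0 ≤ δ := (abs_nonneg _).trans (hf 0)
  induction q, hpq using Int.leInduction with
  | base =>
    refine ⟨p, le_rfl, le_rfl, ?_⟩
    have : f p = k := le_antisymm h1 h2
    rw [this, sub_self, abs_zero]
    exact hδ
  | succ q hpq ih =>
    rcases le_total k (f q) with h | h
    · obtain ⟨y, hy1, hy2, hy3⟩ := ih h
      exact ⟨y, hy1, by omega, hy3⟩
    · refine ⟨q, hpq, by omega, ?_⟩
      have h3 := hf q
      rw [abs_le] at h3
      rw [abs_le]
      constructor <;> linarith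

theorem discrete_ivt' (f : ℤ → ℝ) (δ : ℝ) (hf : ∀ y, |f (y + 1) - f y| ≤ δ) (p q lo hi : ℤ)
    (hp1 : lo ≤ p) (hp2 : p ≤ hi) (hq1 : lo ≤ q) (hq2 : q ≤ hi)
    (k : ℝ) (h1 : f p ≤ k) (h2 : k ≤ f q) : ∃ y, lo ≤ y ∧ y ≤ hi ∧ |f y - k| ≤ δ := by
  rcases le_total p q with h | h
  · obtain ⟨y, hy1, hy2, hy3⟩ := discrete_ivt f δ hf p q h k h1 h2
    exact ⟨y, by omega, by omega, hy3⟩
  · obtain ⟨y, hy1, hy2, hy3⟩ := discrete_ivt (fun y => -f y) δ (by
      intro y
      have := hf y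
      rw [abs_sub_comm] at this
      convert this using 2
      ring) q p h (-k) (by linarith) (by linarith)
    refine ⟨y, by omega, by omega, ?_⟩
    rw [abs_sub_comm] at hy3
    convert hy3 using 2
    ring

theorem near_count (f : ℤ → ℝ) (δ ε : ℝ) (hf : ∀ y y' : ℤ, |f y - f y'| ≤ δ * |(y : ℝ) - y'|)
    (n : ℕ) (k : ℝ) (y0 : ℤ) (h1 : -2 ^ n ≤ y0) (h2 : y0 ≤ 2 ^ n - 1) (h3 : |f y0 - k| ≤ δ)
    (R : ℕ) (hR : R ≤ 2 ^ n) (hδR : δ * R ≤ ε) :
    R ≤ ((pop n).filter fun y => |f y - k| ≤ ε).card := by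
  have hδ : 0 ≤ δ := (abs_nonneg _).trans h3
  rcases Nat.eq_zero_or_pos R with h0 | hRpos
  · rw [h0]; exact Nat.zero_le _
  have hR' : (R : ℤ) ≤ 2 ^ n := by exact_mod_cast hR
  have hgood : ∀ y : ℤ, |y - y0| ≤ R - 1 → |f y - k| ≤ ε := by
    intro y hy
    have hy' : |(y : ℝ) - y0| ≤ R - 1 := by exact_mod_cast hy
    calc |f y - k| = |(f y - f y0) + (f y0 - k)| := by ring_nf
      _ ≤ |f y - f y0| + |f y0 - k| := abs_add_le _ _
      _ ≤ δ * |(y : ℝ) - y0| + δ := add_le_add (hf _ _) h3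
      _ ≤ δ * (R - 1) + δ := by
          have := mul_le_mul_of_nonneg_left hy' hδ
          linarith
      _ = δ * R := by ring
      _ ≤ ε := hδR
  by_cases hside : y0 + R ≤ 2 ^ n
  · have hsub : Finset.Ico y0 (y0 + R) ⊆ (pop n).filter fun y => |f y - k| ≤ ε := by
      intro y hy
      rw [Finset.mem_Ico] at hy
      rw [Finset.mem_filter, pop, Finset.mem_Ico]
      refine ⟨⟨by omega, by omega⟩, hgood y ?_⟩
      rw [abs_le]
      constructor <;> omega
    have := Finset.card_le_card hsub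
    rw [Int.card_Ico] at this
    have h4 : (y0 + R - y0).toNat = R := by
      have : y0 + R - y0 = (R : ℤ) := by ring
      rw [this, Int.toNat_natCast]
    omega
  · have hsub : Finset.Ioc (y0 - R) y0 ⊆ (pop n).filter fun y => |f y - k| ≤ ε := by
      intro y hy
      rw [Finset.mem_Ioc] at hy
      rw [Finset.mem_filter, pop, Finset.mem_Ico]
      refine ⟨⟨by omega, by omega⟩, hgood y ?_⟩
      rw [abs_le]
      constructor <;> omega
    have := Finset.card_le_card hsub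
    rw [Int.card_Ioc] at this
    have h4 : (y0 - (y0 - R)).toNat = R := by
      have : y0 - (y0 - R) = (R : ℤ) := by ring
      rw [this, Int.toNat_natCast]
    omega

open Classical in
theorem hits_ge (f : ℤ → ℝ) (ε : ℝ) (hε : ε < 1 / 2) (n : ℕ) (K : Finset ℤ) (R : ℕ)
    (h : ∀ k ∈ K, R ≤ ((pop n).filter fun y => |f y - (k : ℝ)| ≤ ε).card) :
    K.card * R ≤ ((pop n).filter fun y => Hit ε (f y)).card := by
  have hsub : K.biUnion (fun k => (pop n).filter fun y => |f y - (k : ℝ)| ≤ ε)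
      ⊆ (pop n).filter fun y => Hit ε (f y) := by
    intro y hy
    obtain ⟨k, hk, hy⟩ := Finset.mem_biUnion.mp hy
    obtain ⟨h1, h2⟩ := Finset.mem_filter.mp hy
    exact Finset.mem_filter.mpr ⟨h1, k, h2⟩
  refine le_trans ?_ (Finset.card_le_card hsub)
  rw [Finset.card_biUnion]
  · calc K.card * R = ∑ _k ∈ K, R := by rw [Finset.sum_const, smul_eq_mul]
      _ ≤ _ := Finset.sum_le_sum h
  · intro k _ k' _ hkk'
    rw [Function.onFun, Finset.disjoint_left]
    intro y hy hy'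
    obtain ⟨_, h2⟩ := Finset.mem_filter.mp hy
    obtain ⟨_, h3⟩ := Finset.mem_filter.mp hy'
    apply hkk'
    have h4 : |(k : ℝ) - k'| < 1 := by
      calc |(k : ℝ) - k'| = |(f y - k') - (f y - k)| := by ring_nf
        _ ≤ |f y - k'| + |f y - k| := abs_sub _ _
        _ < 1 := by linarith
    have h5 : |k - k'| < 1 := by exact_mod_cast h4
    rw [Int.abs_lt_one_iff] at h5
    omega

theorem mul_rot_re_lipschitz (n : ℕ) (γ : ℂ) (y y' : ℤ) :
    |(γ * rot (pa n y)).re - (γ * rot (pa n y')).re| ≤ 2 * ‖γ‖ / 2 ^ n * |(y : ℝ) - y'| := by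
  rw [← Complex.sub_re, ← mul_sub]
  calc |(γ * (rot (pa n y) - rot (pa n y'))).re| ≤ ‖γ * (rot (pa n y) - rot (pa n y'))‖ :=
        Complex.abs_re_le_norm _
    _ = ‖γ‖ * ‖rot (pa n y) - rot (pa n y')‖ := norm_mul _ _
    _ ≤ ‖γ‖ * (2 * |(y : ℝ) - y'| / 2 ^ n) :=
        mul_le_mul_of_nonneg_left (rot_lipschitz n y y') (norm_nonneg _)
    _ = 2 * ‖γ‖ / 2 ^ n * |(y : ℝ) - y'| := by ring

theorem rot_norm_le (a : GaussianInt) : ‖rot a‖ ≤ 1 := by
  rw [rot, norm_div, GaussianInt.toComplex_star, Complex.norm_conj]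
  exact div_self_le_one _

theorem pop_card_real (n : ℕ) : ((pop n).card : ℝ) = 2 * 2 ^ n := by
  rw [pop, Int.card_Ico]
  have h : (2 : ℤ) ^ n - -2 ^ n = ((2 * 2 ^ n : ℕ) : ℤ) := by push_cast; ring
  rw [h, Int.toNat_natCast]
  push_cast
  ring

/-- numerical bounds for the rotation at the end and in the middle of the population. -/
theorem end_bounds (n : ℕ) (hn : 10 ≤ n) :
    |(rot (pa n (2 ^ n - 1))).re| ≤ 1 / 2 ^ n ∧ 1 / 2 ≤ (rot (pa n (2 ^ n - 1))).im ∧
    (rot (pa n (-2 ^ n))).re = (rot (pa n (2 ^ n - 1))).re ∧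
    (rot (pa n (-2 ^ n))).im = -(rot (pa n (2 ^ n - 1))).im ∧
    (rot (pa n 0)).re ≤ -3 / 4 ∧ |(rot (pa n 0)).im| ≤ 1 / 2 := by
  rw [rot_pa_re, rot_pa_im, rot_pa_re, rot_pa_im, rot_pa_re, rot_pa_im]
  have hK : (1024 : ℝ) ≤ 2 ^ n := by
    calc (1024 : ℝ) = 2 ^ 10 := by norm_num
      _ ≤ 2 ^ n := pow_le_pow_right₀ (by norm_num) hn
  have hN2 : (2 : ℝ) ^ (n + 1) = 2 * 2 ^ n := by rw [pow_succ]; ring
  rw [hN2]
  push_cast
  set k : ℝ := 2 ^ n with hk
  have hk0 : 0 < k := by linarith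
  have hpos : 0 < (2 * (k - 1) + 1) ^ 2 + (2 * k) ^ 2 := by positivity
  have hpos2 : 0 < (2 * (0 : ℝ) + 1) ^ 2 + (2 * k) ^ 2 := by positivity
  refine ⟨?_, ?_, ?_, ?_, ?_, ?_⟩
  · rw [abs_div, abs_of_pos hpos, div_le_div_iff₀ hpos hk0, abs_of_nonpos (by nlinarith)]
    nlinarith
  · rw [div_le_div_iff₀ (by norm_num) hpos]
    nlinarith
  · congr 1 <;> ring
  · rw [← neg_div]
    congr 1 <;> ring
  · rw [div_le_div_iff₀ hpos2 (by norm_num)]
    nlinarith
  · rw [abs_div, abs_of_pos hpos2, div_le_div_iff₀ hpos2 (by norm_num),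
      abs_of_nonneg (by positivity)]
    nlinarith

open Classical in
theorem arc (t n : ℕ) (ht : 40 ≤ t) (γ : ℂ) (hγ : ‖γ‖ * 2 ^ (t + 10) ≤ 2 ^ n) :
    ((pop n).card : ℝ) ≤ 2 ^ (t + 10) *
      ((pop n).filter fun y => Hit ((1 / 2) ^ t) (γ * rot (pa n y)).re).card := by
  have hG0 : 0 ≤ ‖γ‖ := norm_nonneg _
  set G : ℝ := ‖γ‖ with hG
  have hT : (0 : ℝ) < 2 ^ t := by positivity
  have hT40 : (2 : ℝ) ^ 40 ≤ 2 ^ t := pow_le_pow_right₀ (by norm_num) ht
  have hP : (0 : ℝ) < 2 ^ n := by positivity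
  have hT10 : (2 : ℝ) ^ (t + 10) = 1024 * 2 ^ t := by rw [pow_add]; norm_num; ring
  have hεT : ((1 : ℝ) / 2) ^ t = 1 / 2 ^ t := by rw [one_div_pow]
  have hcard := pop_card_real n
  rcases le_or_gt G ((1 / 2) ^ t) with hsmall | hbig
  · -- everything hits
    have hall : (pop n).filter (fun y => Hit ((1 / 2) ^ t) (γ * rot (pa n y)).re) = pop n := by
      apply Finset.filter_true_of_mem
      intro y _
      refine ⟨0, ?_⟩
      rw [Int.cast_zero, sub_zero]
      calc |(γ * rot (pa n y)).re| ≤ ‖γ * rot (pa n y)‖ := Complex.abs_re_le_norm _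
        _ = G * ‖rot (pa n y)‖ := norm_mul _ _
        _ ≤ G * 1 := mul_le_mul_of_nonneg_left (rot_norm_le _) hG0
        _ ≤ _ := by linarith
    rw [hall, hcard, hT10]
    nlinarith
  · have hGpos : 0 < G := lt_trans (by positivity) hbig
    have hGT : 1 < G * 2 ^ t := by
      rw [hεT, div_lt_iff₀ hT] at hbig
      exact hbig
    set X : ℝ := 2 ^ n / (2 * 2 ^ t * G) with hX
    have hden : 0 < 2 * 2 ^ t * G := by positivity
    have hX512 : 512 ≤ X := by
      rw [hX, le_div_iff₀ hden]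
      rw [hT10] at hγ
      linarith
    have hXle : X ≤ 2 ^ n := by
      rw [hX, div_le_iff₀ hden]
      nlinarith
    set R : ℕ := ⌊X⌋₊ with hR
    have hRX : (R : ℝ) ≤ X := Nat.floor_le (by linarith)
    have hXR : X < R + 1 := Nat.lt_floor_add_one X
    have hRn : R ≤ 2 ^ n := by
      have : (R : ℝ) ≤ 2 ^ n := hRX.trans hXle
      exact_mod_cast this
    have hRhalf : X / 2 ≤ R := by linarith
    set δ : ℝ := 2 * G / 2 ^ n with hδ
    have hδ0 : 0 ≤ δ := by positivity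
    have hδR : δ * R ≤ (1 / 2) ^ t := by
      calc δ * R ≤ δ * X := mul_le_mul_of_nonneg_left hRX hδ0
        _ = (1 / 2) ^ t := by
            rw [hεT, hδ, hX]
            field_simp
    set f : ℤ → ℝ := fun y => (γ * rot (pa n y)).re with hf
    have hLip : ∀ y y' : ℤ, |f y - f y'| ≤ δ * |(y : ℝ) - y'| := mul_rot_re_lipschitz n γ
    have hLip1 : ∀ y : ℤ, |f (y + 1) - f y| ≤ δ := by
      intro y
      have := hLip (y + 1) y
      push_cast at this
      rwa [add_sub_cancel_left, abs_one, mul_one] at this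
    have hε : ((1 : ℝ) / 2) ^ t < 1 / 2 := by
      rw [hεT, div_lt_div_iff₀ hT (by norm_num)]
      have : (2 : ℝ) < 2 ^ 40 := by norm_num
      linarith
    have hn10 : 10 ≤ n := by
      have h1 : (2 : ℝ) ^ 10 < 2 ^ n := by
        rw [hT10] at hγ
        have : (2 : ℝ) ^ 10 = 1024 := by norm_num
        rw [this]
        nlinarith
      exact le_of_lt ((pow_lt_pow_iff_right₀ (by norm_num)).mp h1)
    have hn1 : (1 : ℤ) ≤ 2 ^ n := one_le_pow₀ (by norm_num)
    obtain ⟨e1, e2, e3, e4, e5, e6⟩ := end_bounds n hn10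
    have hval : ∀ y : ℤ, f y = γ.re * (rot (pa n y)).re - γ.im * (rot (pa n y)).im := fun y =>
      Complex.mul_re _ _
    have hf1 := hval (2 ^ n - 1)
    have hf2 := hval (-2 ^ n)
    have hf0 := hval 0
    rw [e3, e4] at hf2
    set c1 := (rot (pa n (2 ^ n - 1))).re with hc1
    set s1 := (rot (pa n (2 ^ n - 1))).im with hs1
    set c0 := (rot (pa n 0)).re with hc0
    set s0 := (rot (pa n 0)).im with hs0
    have hu : |γ.re| ≤ G := Complex.abs_re_le_norm γ
    have hv : |γ.im| ≤ G := Complex.abs_im_le_norm γ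
    -- it is enough to find enough integers
    suffices hK : ∃ K : Finset ℤ, (∀ k ∈ K, ∃ y : ℤ, -2 ^ n ≤ y ∧ y ≤ 2 ^ n - 1 ∧
        |f y - (k : ℝ)| ≤ δ) ∧ G ≤ 128 * K.card by
      obtain ⟨K, hK1, hK2⟩ := hK
      have hge := hits_ge f ((1 / 2) ^ t) hε n K R (by
        intro k hk
        obtain ⟨y, hy1, hy2, hy3⟩ := hK1 k hk
        exact near_count f δ _ hLip n k y hy1 hy2 hy3 R hRn hδR)
      have hge' : (K.card : ℝ) * R ≤ ((pop n).filter fun y => Hit ((1 / 2) ^ t) (f y)).card := by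
        exact_mod_cast hge
      rw [hcard, hT10]
      have hKX : (K.card : ℝ) * (X / 2) ≤ (K.card : ℝ) * R :=
        mul_le_mul_of_nonneg_left hRhalf (Nat.cast_nonneg _)
      have hfin : 2 * 2 ^ n ≤ 1024 * 2 ^ t * ((K.card : ℝ) * (X / 2)) := by
        have h1 : 1024 * 2 ^ t * ((K.card : ℝ) * (X / 2)) = 256 * (K.card / G) * 2 ^ n := by
          rw [hX]
          field_simp
          ring
        rw [h1]
        have h2 : 1 / 128 ≤ (K.card : ℝ) / G := by
          rw [div_le_div_iff₀ (by norm_num) hGpos]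
          linarith
        nlinarith
      calc 2 * 2 ^ n ≤ 1024 * 2 ^ t * ((K.card : ℝ) * (X / 2)) := hfin
        _ ≤ 1024 * 2 ^ t * ((K.card : ℝ) * R) := by
            apply mul_le_mul_of_nonneg_left hKX (by positivity)
        _ ≤ _ := mul_le_mul_of_nonneg_left hge' (by positivity)
    rcases le_or_gt G 128 with hG128 | hG128
    · -- one zero is enough
      refine ⟨{0}, ?_, by simpa using hG128⟩
      intro k hk
      rw [Finset.mem_singleton] at hk
      rw [hk, Int.cast_zero]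
      have hsum : |f (2 ^ n - 1) + f (-2 ^ n)| ≤ δ := by
        rw [hf1, hf2]
        have : γ.re * c1 - γ.im * s1 + (γ.re * c1 - γ.im * -s1) = 2 * (γ.re * c1) := by ring
        rw [this, abs_mul, abs_mul, abs_of_pos (by norm_num : (0 : ℝ) < 2), hδ, mul_div_assoc]
        apply mul_le_mul_of_nonneg_left _ (by norm_num)
        calc |γ.re| * |c1| ≤ G * (1 / 2 ^ n) := mul_le_mul hu e1 (abs_nonneg _) hG0
          _ = G / 2 ^ n := by ring
      rw [abs_le] at hsum
      rcases le_total (f (2 ^ n - 1)) 0 with h1 | h1 <;> rcases le_total (f (-2 ^ n)) 0 with h2 | h2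
      · refine ⟨2 ^ n - 1, by omega, le_rfl, ?_⟩
        rw [sub_zero, abs_le]
        constructor <;> linarith
      · exact discrete_ivt' f δ hLip1 (2 ^ n - 1) (-2 ^ n) (-2 ^ n) (2 ^ n - 1) (by omega) le_rfl
          le_rfl (by omega) 0 h1 h2
      · exact discrete_ivt' f δ hLip1 (-2 ^ n) (2 ^ n - 1) (-2 ^ n) (2 ^ n - 1) le_rfl (by omega)
          (by omega) le_rfl 0 h2 h1
      · refine ⟨2 ^ n - 1, by omega, le_rfl, ?_⟩
        rw [sub_zero, abs_le]
        constructor <;> linarith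
    · -- many integers
      have hne : (pop n).Nonempty := ⟨0, by rw [pop, Finset.mem_Ico]; constructor <;> omega⟩
      obtain ⟨p, hp, hpmin⟩ := Finset.exists_min_image (pop n) f hne
      obtain ⟨q, hq, hqmax⟩ := Finset.exists_max_image (pop n) f hne
      rw [pop, Finset.mem_Ico] at hp hq
      have hm0 : (0 : ℤ) ∈ pop n := by rw [pop, Finset.mem_Ico]; constructor <;> omega
      have hm1 : (2 ^ n - 1 : ℤ) ∈ pop n := by rw [pop, Finset.mem_Ico]; constructor <;> omega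
      have hm2 : (-2 ^ n : ℤ) ∈ pop n := by rw [pop, Finset.mem_Ico]; constructor <;> omega
      have a0 := hpmin 0 hm0
      have a1 := hpmin _ hm1
      have a2 := hpmin _ hm2
      have b0 := hqmax 0 hm0
      have b1 := hqmax _ hm1
      have b2 := hqmax _ hm2
      set W : ℝ := f q - f p with hW
      have hW1 : |f (-2 ^ n) - f (2 ^ n - 1)| ≤ W := by
        rw [abs_le]; constructor <;> linarith
      have hW2 : |(f (2 ^ n - 1) + f (-2 ^ n)) / 2 - f 0| ≤ W := by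
        rw [abs_le]; constructor <;> linarith
      have hv1 : |γ.im| ≤ W := by
        rw [hf1, hf2] at hW1
        have : γ.re * c1 - γ.im * -s1 - (γ.re * c1 - γ.im * s1) = γ.im * (2 * s1) := by ring
        rw [this, abs_mul, abs_of_pos (by linarith : (0 : ℝ) < 2 * s1)] at hW1
        exact (le_mul_of_one_le_right (abs_nonneg _) (by linarith)).trans hW1
      have hu1 : |γ.re| ≤ 2 * W + |γ.im| := by
        rw [hf1, hf2, hf0] at hW2
        have h1 : γ.re * (c1 - c0) = ((γ.re * c1 - γ.im * s1 + (γ.re * c1 - γ.im * -s1)) / 2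
            - (γ.re * c0 - γ.im * s0)) - γ.im * s0 := by ring
        have h2 : |γ.re * (c1 - c0)| ≤ W + |γ.im| * (1 / 2) := by
          rw [h1]
          calc _ ≤ _ := abs_sub _ _
            _ ≤ W + |γ.im * s0| := add_le_add hW2 le_rfl
            _ ≤ W + |γ.im| * (1 / 2) := by
                rw [abs_mul]
                have := mul_le_mul_of_nonneg_left e6 (abs_nonneg γ.im)
                linarith
        have h3 : 1 / 2 ≤ c1 - c0 := by
          have h4 := (abs_le.mp e1).1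
          have h5 : (1 : ℝ) / 2 ^ n ≤ 1 / 4 := by
            apply one_div_le_one_div_of_le (by norm_num)
            calc (4 : ℝ) = 2 ^ 2 := by norm_num
              _ ≤ 2 ^ n := pow_le_pow_right₀ (by norm_num) (by omega)
          linarith
        rw [abs_mul, abs_of_pos (by linarith : (0 : ℝ) < c1 - c0)] at h2
        have h6 := mul_le_mul_of_nonneg_left h3 (abs_nonneg γ.re)
        linarith
      have hGW : G ≤ 4 * W := by
        have := Complex.norm_le_abs_re_add_abs_im γ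
        linarith
      refine ⟨Finset.Icc ⌈f p⌉ ⌊f q⌋, ?_, ?_⟩
      · intro k hk
        rw [Finset.mem_Icc] at hk
        exact discrete_ivt' f δ hLip1 p q (-2 ^ n) (2 ^ n - 1) hp.1 (by omega) hq.1 (by omega) k
          (Int.ceil_le.mp hk.1) (Int.le_floor.mp hk.2)
      · rw [Int.card_Icc]
        have h1 : ((⌊f q⌋ + 1 - ⌈f p⌉ : ℤ) : ℝ) ≤ ((⌊f q⌋ + 1 - ⌈f p⌉).toNat : ℝ) := by
          exact_mod_cast Int.self_le_toNat _
        push_cast at h1
        have h2 := Int.lt_floor_add_one (f q)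
        have h3 := Int.ceil_lt_add_one (f p)
        linarith

end Pyj
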