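import Pool.Agent.Helper79.Pyj.Defs

/-! M10a: the exponential sum over the circle -/

namespace Pyj

open Complex Finset

/-- the affine circle `X² + Y² = 1` over `F_q`. -/
def circ (q : ℕ) [Fact q.Prime] : Finset (ZMod q × ZMod q) :=
  (univ : Finset (ZMod q × ZMod q)).filter (fun P => P.1 ^ 2 + P.2 ^ 2 = 1)

lemma mem_circ {q : ℕ} [Fact q.Prime] {P : ZMod q × ZMod q} :
    P ∈ circ q ↔ P.1 ^ 2 + P.2 ^ 2 = 1 := by
  simp [circ]

/-- the exponential sum over the circle at the frequency `v`. -/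
noncomputable def csum (q : ℕ) [Fact q.Prime] (v : ZMod q × ZMod q) : ℂ :=
  ∑ P ∈ circ q, ZMod.stdAddChar (v.1 * P.1 + v.2 * P.2)

/-- rotation of a frequency. -/
def crot {q : ℕ} [Fact q.Prime] (R v : ZMod q × ZMod q) : ZMod q × ZMod q :=
  (R.1 * v.1 - R.2 * v.2, R.2 * v.1 + R.1 * v.2)

lemma csum_crot {q : ℕ} [Fact q.Prime] {R : ZMod q × ZMod q} (hR : R ∈ circ q)
    (v : ZMod q × ZMod q) : csum q (crot R v) = csum q v := by
  unfold csum
  rw [mem_circ] at hR
  refine Finset.sum_bij' (fun P _ => (R.1 * P.1 + R.2 * P.2, -R.2 * P.1 + R.1 * P.2))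
    (fun P _ => (R.1 * P.1 - R.2 * P.2, R.2 * P.1 + R.1 * P.2)) ?_ ?_ ?_ ?_ ?_
  · intro P hP
    rw [mem_circ] at hP ⊢
    linear_combination (P.1 ^ 2 + P.2 ^ 2) * hR + hP
  · intro P hP
    rw [mem_circ] at hP ⊢
    linear_combination (P.1 ^ 2 + P.2 ^ 2) * hR + hP
  · intro P hP
    ext
    · linear_combination P.1 * hR
    · linear_combination P.2 * hR
  · intro P hP
    ext
    · linear_combination P.1 * hR
    · linear_combination P.2 * hR
  · intro P hP
    congr 1
    simp only [crot]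
    ring

lemma two_ne_zero_zmod {q : ℕ} [Fact q.Prime] (hq : q ≠ 2) : (2 : ZMod q) ≠ 0 := by
  intro h
  have h2 : ((2 : ℕ) : ZMod q) = 0 := by exact_mod_cast h
  rw [ZMod.natCast_eq_zero_iff] at h2
  exact hq ((Nat.prime_dvd_prime_iff_eq (Fact.out : q.Prime) Nat.prime_two).mp h2)

lemma crot_inj {q : ℕ} [Fact q.Prime] (hq : q ≠ 2) {v : ZMod q × ZMod q} (hv : v ≠ 0)
    {R R' : ZMod q × ZMod q} (hR : R ∈ circ q) (hR' : R' ∈ circ q)
    (h : crot R v = crot R' v) : R = R' := by
  have h2 := two_ne_zero_zmod hq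
  rw [mem_circ] at hR hR'
  obtain ⟨c, s⟩ := R
  obtain ⟨c', s'⟩ := R'
  obtain ⟨a, b⟩ := v
  simp only [crot, Prod.mk.injEq] at h
  obtain ⟨h1, h3⟩ := h
  simp only at hR hR'
  have hn : (c - c') ^ 2 + (s - s') ^ 2 = 0 := by
    by_cases ha : a = 0
    · have hb : b ≠ 0 := by
        intro hb; exact hv (by rw [ha, hb]; rfl)
      have : b * ((c - c') ^ 2 + (s - s') ^ 2) = 0 := by
        linear_combination (c - c') * h3 - (s - s') * h1
      exact (mul_eq_zero.mp this).resolve_left hb
    · have : a * ((c - c') ^ 2 + (s - s') ^ 2) = 0 := by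
        linear_combination (c - c') * h1 + (s - s') * h3
      exact (mul_eq_zero.mp this).resolve_left ha
  have h1' : c * c' + s * s' = 1 := by
    have : 2 * (c * c' + s * s' - 1) = 0 := by
      linear_combination hR + hR' - hn
    have := (mul_eq_zero.mp this).resolve_left h2
    linear_combination this
  have h0 : (s * c' - c * s') = 0 := by
    have : (s * c' - c * s') ^ 2 = 0 := by
      linear_combination (c' ^ 2 + s' ^ 2) * hR + hR' - (c * c' + s * s' + 1) * h1'
    exact pow_eq_zero_iff (two_ne_zero) |>.mp this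
  ext
  · simp only
    linear_combination (-c) * hR' + c' * h1' - s' * h0
  · simp only
    linear_combination (-s) * hR' + s' * h1' + c' * h0

/-- a line meets the circle in at most two points: two points of the circle with a given nonzero
sum `V` are determined up to order. -/
lemma circ_pair {q : ℕ} [Fact q.Prime] (hq : q ≠ 2) {V P P' : ZMod q × ZMod q} (hV : V ≠ 0)
    (hP : P ∈ circ q) (hP2 : V - P ∈ circ q) (hP' : P' ∈ circ q) (hP2' : V - P' ∈ circ q) :
    P' = P ∨ P' = V - P := by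
  have h2 := two_ne_zero_zmod hq
  rw [mem_circ] at hP hP2 hP' hP2'
  obtain ⟨a, b⟩ := V
  obtain ⟨x, y⟩ := P
  obtain ⟨x', y'⟩ := P'
  simp only [Prod.mk_sub_mk] at hP hP2 hP' hP2' ⊢
  have e1 : 2 * (a * x + b * y) = a ^ 2 + b ^ 2 := by linear_combination hP - hP2
  have e2 : 2 * (a * x' + b * y') = a ^ 2 + b ^ 2 := by linear_combination hP' - hP2'
  have e3 : a * (x - x') + b * (y - y') = 0 := by
    have : 2 * (a * (x - x') + b * (y - y')) = 0 := by linear_combination e1 - e2
    exact (mul_eq_zero.mp this).resolve_left h2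
  have e4 : (x + x') * (x - x') + (y + y') * (y - y') = 0 := by linear_combination hP - hP'
  by_cases hd : x - x' = 0 ∧ y - y' = 0
  · left
    ext
    · simp only; linear_combination - hd.1
    · simp only; linear_combination - hd.2
  · right
    have e5 : a * (y + y') - b * (x + x') = 0 := by
      by_cases hx : x - x' = 0
      · have hy : y - y' ≠ 0 := fun hy => hd ⟨hx, hy⟩
        have : (y - y') * (a * (y + y') - b * (x + x')) = 0 := by
          linear_combination a * e4 - (x + x') * e3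
        exact (mul_eq_zero.mp this).resolve_left hy
      · have : (x - x') * (a * (y + y') - b * (x + x')) = 0 := by
          linear_combination - b * e4 + (y + y') * e3
        exact (mul_eq_zero.mp this).resolve_left hx
    -- N ≠ 0
    have hN : a ^ 2 + b ^ 2 ≠ 0 := by
      intro hN
      have f1 : a * x + b * y = 0 := by
        have : 2 * (a * x + b * y) = 0 := by rw [e1, hN]
        exact (mul_eq_zero.mp this).resolve_left h2
      have fa : a = 0 := by
        have : a ^ 2 = 0 := by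
          linear_combination (a * x - b * y) * f1 - a ^ 2 * hP + y ^ 2 * hN
        exact pow_eq_zero_iff (two_ne_zero) |>.mp this
      have fb : b = 0 := by
        have : b ^ 2 = 0 := by linear_combination hN - a * fa
        exact pow_eq_zero_iff (two_ne_zero) |>.mp this
      exact hV (by rw [fa, fb]; rfl)
    -- x + x' = a
    have g1 : (a ^ 2 + b ^ 2) * (x + x' - a) = 0 := by
      have : 2 * ((a ^ 2 + b ^ 2) * (x + x' - a)) = 0 := by
        linear_combination a * e1 + a * e2 - 2 * b * e5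
      exact (mul_eq_zero.mp this).resolve_left h2
    have g2 : (a ^ 2 + b ^ 2) * (y + y' - b) = 0 := by
      have : 2 * ((a ^ 2 + b ^ 2) * (y + y' - b)) = 0 := by
        linear_combination b * e1 + b * e2 + 2 * a * e5
      exact (mul_eq_zero.mp this).resolve_left h2
    have g1' := (mul_eq_zero.mp g1).resolve_left hN
    have g2' := (mul_eq_zero.mp g2).resolve_left hN
    ext
    · simp only; linear_combination g1'
    · simp only; linear_combination g2'

lemma circ_card_le {q : ℕ} [Fact q.Prime] : (circ q).card ≤ 2 * q := by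
  have h := Finset.card_le_mul_card_image_of_maps_to (s := circ q)
    (t := (univ : Finset (ZMod q))) (f := fun P => P.1) (fun _ _ => mem_univ _) 2 ?_
  · simpa [ZMod.card] using h
  · intro x _
    by_cases hne : ((circ q).filter fun P => P.1 = x).Nonempty
    · obtain ⟨P, hP⟩ := hne
      rw [mem_filter, mem_circ] at hP
      have hsub : ((circ q).filter fun P => P.1 = x) ⊆ {(x, P.2), (x, -P.2)} := by
        intro P' hP'
        rw [mem_filter, mem_circ] at hP'
        have : P'.2 ^ 2 = P.2 ^ 2 := by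
          have := hP'.1
          rw [hP'.2, ← hP.2] at this
          linear_combination this - hP.1
        rw [mem_insert, mem_singleton]
        rcases sq_eq_sq_iff_eq_or_eq_neg.mp this with h | h
        · left; exact Prod.ext hP'.2 h
        · right; exact Prod.ext hP'.2 h
      exact (card_le_card hsub).trans (card_le_two)
    · rw [not_nonempty_iff_eq_empty.mp hne]
      simp

lemma circ_rep_le_two {q : ℕ} [Fact q.Prime] (hq : q ≠ 2) {V : ZMod q × ZMod q} (hV : V ≠ 0) :
    ((circ q ×ˢ circ q).filter fun x => x.1 + x.2 = V).card ≤ 2 := by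
  by_cases hne : ((circ q ×ˢ circ q).filter fun x => x.1 + x.2 = V).Nonempty
  · obtain ⟨x, hx⟩ := hne
    rw [mem_filter, mem_product] at hx
    have hsub : ((circ q ×ˢ circ q).filter fun x => x.1 + x.2 = V) ⊆
        {(x.1, V - x.1), (V - x.1, x.1)} := by
      intro y hy
      rw [mem_filter, mem_product] at hy
      have hx2 : V - x.1 = x.2 := by rw [← hx.2]; abel
      have hy2 : V - y.1 = y.2 := by rw [← hy.2]; abel
      rw [mem_insert, mem_singleton]
      rcases circ_pair hq hV hx.1.1 (by rw [hx2]; exact hx.1.2) hy.1.1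
        (by rw [hy2]; exact hy.1.2) with h | h
      · left
        exact Prod.ext h (by simp only; rw [← h, hy2])
      · right
        refine Prod.ext h ?_
        simp only
        rw [← hy2, h]; abel
    exact (card_le_card hsub).trans (card_le_two)
  · rw [not_nonempty_iff_eq_empty.mp hne]
    simp

lemma circ_rep_le {q : ℕ} [Fact q.Prime] (V : ZMod q × ZMod q) :
    ((circ q ×ˢ circ q).filter fun x => x.1 + x.2 = V).card ≤ (circ q).card := by
  refine card_le_card_of_injOn (fun x => x.1) ?_ ?_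
  · intro x hx
    rw [mem_coe, mem_filter, mem_product] at hx
    exact hx.1.1
  · intro x hx y hy hxy
    rw [mem_coe, mem_filter, mem_product] at hx hy
    simp only at hxy
    refine Prod.ext hxy ?_
    have h1 := hx.2
    rw [hxy, ← hy.2] at h1
    exact add_left_cancel h1

/-- additive quadruples in the circle. -/
lemma circ_energy {q : ℕ} [Fact q.Prime] (hq : q ≠ 2) :
    (((circ q ×ˢ circ q) ×ˢ (circ q ×ˢ circ q)).filter
      fun x => x.1.1 + x.1.2 = x.2.1 + x.2.2).card ≤ 3 * (circ q).card ^ 2 := by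
  rw [card_filter, sum_product_right]
  have h1 : ∀ y ∈ circ q ×ˢ circ q,
      (∑ x ∈ circ q ×ˢ circ q, if x.1 + x.2 = y.1 + y.2 then 1 else 0) ≤
        2 + (if y.1 + y.2 = 0 then (circ q).card else 0) := by
    intro y _
    rw [← card_filter]
    by_cases hy : y.1 + y.2 = 0
    · rw [if_pos hy]
      exact (circ_rep_le _).trans (Nat.le_add_left _ _)
    · rw [if_neg hy]
      exact circ_rep_le_two hq hy
  refine (sum_le_sum h1).trans ?_
  rw [sum_add_distrib, sum_const, card_product, ← sum_filter, sum_const, smul_eq_mul, smul_eq_mul]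
  have h2 := circ_rep_le (q := q) 0
  nlinarith [Nat.mul_le_mul_right (circ q).card h2]

/-- orthogonality of characters of `F_q²`. -/
lemma char_sum {q : ℕ} [Fact q.Prime] (U : ZMod q × ZMod q) :
    ∑ v : ZMod q × ZMod q, (ZMod.stdAddChar (v.1 * U.1 + v.2 * U.2) : ℂ) =
      if U = 0 then (q : ℂ) ^ 2 else 0 := by
  rw [← univ_product_univ, sum_product]
  have h1 : ∀ a : ZMod q, ∑ b : ZMod q, (ZMod.stdAddChar (a * U.1 + b * U.2) : ℂ) =
      ZMod.stdAddChar (a * U.1) * ∑ b : ZMod q, (ZMod.stdAddChar (b * U.2) : ℂ) := by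
    intro a
    rw [mul_sum]
    exact sum_congr rfl fun b _ => by rw [AddChar.map_add_eq_mul]
  simp only [h1]
  rw [← sum_mul, AddChar.sum_mulShift _ (ZMod.isPrimitive_stdAddChar q),
    AddChar.sum_mulShift _ (ZMod.isPrimitive_stdAddChar q), ZMod.card]
  by_cases hU : U = 0
  · rw [if_pos hU, if_pos (by rw [hU]; rfl), if_pos (by rw [hU]; rfl)]
    ring
  · rw [if_neg hU]
    by_cases h1 : U.1 = 0
    · have h2 : U.2 ≠ 0 := fun h2 => hU (Prod.ext h1 h2)
      rw [if_neg h2, Nat.cast_zero, mul_zero]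
    · rw [if_neg h1, Nat.cast_zero, zero_mul]

lemma csum_pow {q : ℕ} [Fact q.Prime] (v : ZMod q × ZMod q) :
    ((‖csum q v‖ ^ 4 : ℝ) : ℂ) = ∑ x ∈ (circ q ×ˢ circ q) ×ˢ (circ q ×ˢ circ q),
      (ZMod.stdAddChar (v.1 * (x.1.1 + x.1.2 - (x.2.1 + x.2.2)).1 +
        v.2 * (x.1.1 + x.1.2 - (x.2.1 + x.2.2)).2) : ℂ) := by
  have h1 : ((‖csum q v‖ ^ 4 : ℝ) : ℂ) =
      (csum q v * csum q v) * ((starRingEnd ℂ) (csum q v) * (starRingEnd ℂ) (csum q v)) := by
    have := Complex.mul_conj' (csum q v)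
    push_cast
    linear_combination (-(csum q v * (starRingEnd ℂ) (csum q v)) - (‖csum q v‖ : ℂ) ^ 2) * this
  rw [h1]
  unfold csum
  rw [map_sum, sum_mul_sum, sum_mul_sum, ← sum_product', ← sum_product', sum_mul_sum, 
    ← sum_product']
  refine sum_congr rfl fun x _ => ?_
  rw [← AddChar.map_neg_eq_conj, ← AddChar.map_neg_eq_conj, ← AddChar.map_add_eq_mul,
    ← AddChar.map_add_eq_mul, ← AddChar.map_add_eq_mul]
  congr 1
  simp only [Prod.fst_sub, Prod.fst_add, Prod.snd_sub, Prod.snd_add]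
  ring

lemma csum_moment {q : ℕ} [Fact q.Prime] (hq : q ≠ 2) :
    ∑ v : ZMod q × ZMod q, ‖csum q v‖ ^ 4 ≤ (q : ℝ) ^ 2 * (3 * (circ q).card ^ 2) := by
  have h1 : ((∑ v : ZMod q × ZMod q, ‖csum q v‖ ^ 4 : ℝ) : ℂ) = (q : ℂ) ^ 2 *
      (((circ q ×ˢ circ q) ×ˢ (circ q ×ˢ circ q)).filter
      fun x => x.1.1 + x.1.2 = x.2.1 + x.2.2).card := by
    rw [ofReal_sum]
    simp only [csum_pow]
    rw [sum_comm]
    simp only [char_sum, sub_eq_zero]
    rw [← sum_filter, sum_const, nsmul_eq_mul, mul_comm]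
  have h2 : (∑ v : ZMod q × ZMod q, ‖csum q v‖ ^ 4 : ℝ) = (q : ℝ) ^ 2 *
      (((circ q ×ˢ circ q) ×ˢ (circ q ×ˢ circ q)).filter
      fun x => x.1.1 + x.1.2 = x.2.1 + x.2.2).card := by
    exact_mod_cast h1
  rw [h2]
  have h3 := circ_energy (q := q) hq
  have h4 : ((((circ q ×ˢ circ q) ×ˢ (circ q ×ˢ circ q)).filter
      fun x => x.1.1 + x.1.2 = x.2.1 + x.2.2).card : ℝ) ≤ 3 * (circ q).card ^ 2 := by
    exact_mod_cast h3
  exact mul_le_mul_of_nonneg_left h4 (by positivity)

theorem circle_sum (q : ℕ) [Fact q.Prime] (hq : q ≠ 2) (α β : ZMod q) (h : ¬ (α = 0 ∧ β = 0)) :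
    ‖∑ P ∈ (univ : Finset (ZMod q × ZMod q)).filter (fun P => P.1 ^ 2 + P.2 ^ 2 = 1),
      ZMod.stdAddChar (α * P.1 + β * P.2)‖ ^ 4 ≤ 6 * (q : ℝ) ^ 3 := by
  have hv : (α, β) ≠ (0 : ZMod q × ZMod q) := by
    intro h0
    rw [Prod.mk_eq_zero] at h0
    exact h h0
  change ‖csum q (α, β)‖ ^ 4 ≤ _
  -- the orbit
  have h1 : ((circ q).card : ℝ) * ‖csum q (α, β)‖ ^ 4 ≤
      (q : ℝ) ^ 2 * (3 * (circ q).card ^ 2) := by
    refine le_trans ?_ (csum_moment hq)
    have h2 : ∑ R ∈ circ q, ‖csum q (crot R (α, β))‖ ^ 4 =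
        ((circ q).card : ℝ) * ‖csum q (α, β)‖ ^ 4 := by
      rw [sum_congr rfl fun R hR => by rw [csum_crot hR], sum_const, nsmul_eq_mul]
    rw [← h2, ← sum_image (s := circ q) (g := fun R => crot R (α, β))
      (f := fun w => ‖csum q w‖ ^ 4)]
    · exact sum_le_univ_sum_of_nonneg fun w => by positivity
    · intro R hR R' hR' hRR
      exact crot_inj hq hv hR hR' hRR
  have h0 : 0 < ((circ q).card : ℝ) := by
    have : 0 < (circ q).card := card_pos.mpr ⟨(1, 0), by rw [mem_circ]; ring⟩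
    exact_mod_cast this
  have h3 : ‖csum q (α, β)‖ ^ 4 ≤ (q : ℝ) ^ 2 * (3 * (circ q).card) := by
    have : ((circ q).card : ℝ) * ‖csum q (α, β)‖ ^ 4 ≤
        ((circ q).card : ℝ) * ((q : ℝ) ^ 2 * (3 * (circ q).card)) := by
      refine h1.trans (le_of_eq ?_)
      ring
    exact le_of_mul_le_mul_left this h0
  refine h3.trans ?_
  have h4 : ((circ q).card : ℝ) ≤ 2 * q := by exact_mod_cast circ_card_le (q := q)
  have : (q : ℝ) ^ 2 * (3 * (circ q).card) ≤ (q : ℝ) ^ 2 * (3 * (2 * q)) := by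
    gcongr
  refine this.trans (le_of_eq ?_)
  ring

end Pyj
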