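import Pool.Agent.Helper79.Pyj.Defs

/-! M5a: Fejer kernel and the counting lemma -/

namespace Pyj

open Complex Finset

theorem fejer_small (K : ℕ) (ε θ : ℝ) (hε : 0 < ε) (hK : 4 / ε ^ 2 ≤ K) (hθ : ¬ Hit (ε / 2) θ) :
    ‖∑ j ∈ range K, exp (2 * Real.pi * I * (j * θ))‖ ^ 2 ≤ K / 4 := by
  set z : ℂ := exp (2 * Real.pi * I * θ) with hz
  have h1 : ∑ j ∈ range K, exp (2 * Real.pi * I * (j * θ)) = ∑ j ∈ range K, z ^ j := by
    refine sum_congr rfl fun j _ => ?_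
    rw [hz, ← Complex.exp_nat_mul]
    congr 1
    ring
  have hnz : ‖z‖ = 1 := by
    rw [hz]
    have : (2 * Real.pi * I * θ : ℂ) = ((2 * Real.pi * θ : ℝ) : ℂ) * I := by push_cast; ring
    rw [this, Complex.norm_exp_ofReal_mul_I]
  -- distance to the nearest integer
  have hm : ε / 2 < |θ - round θ| := by
    by_contra hcon
    exact hθ ⟨round θ, not_lt.mp hcon⟩
  have hm2 : |θ - round θ| ≤ 1 / 2 := abs_sub_round θ
  have hsin : 2 * |θ - round θ| ≤ |Real.sin (Real.pi * θ)| := by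
    have e1 : Real.sin (Real.pi * (θ - round θ)) = (-1) ^ (round θ) * Real.sin (Real.pi * θ) := by
      rw [← Real.sin_sub_int_mul_pi]
      congr 1
      ring
    have e2 : |Real.sin (Real.pi * (θ - round θ))| = |Real.sin (Real.pi * θ)| := by
      rw [e1, abs_mul, abs_zpow, abs_neg, abs_one, one_zpow, one_mul]
    rw [← e2]
    have e3 : |Real.pi * (θ - round θ)| ≤ Real.pi / 2 := by
      rw [abs_mul, abs_of_pos Real.pi_pos]
      nlinarith [Real.pi_pos]
    refine le_trans (le_of_eq ?_) (Real.mul_abs_le_abs_sin e3)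
    rw [abs_mul, abs_of_pos Real.pi_pos]
    field_simp
  have hz1 : 2 * ε ≤ ‖z - 1‖ := by
    have e1 : (2 * Real.pi * I * θ : ℂ) = I * ((2 * Real.pi * θ : ℝ) : ℂ) := by push_cast; ring
    rw [hz, e1, Complex.norm_exp_I_mul_ofReal_sub_one]
    rw [Real.norm_eq_abs, abs_mul]
    have e2 : 2 * Real.pi * θ / 2 = Real.pi * θ := by ring
    rw [e2, abs_of_pos (by norm_num : (0 : ℝ) < 2)]
    linarith
  have hz0 : z ≠ 1 := by
    intro h
    rw [h, sub_self, norm_zero] at hz1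
    linarith
  have hS : ‖∑ j ∈ range K, z ^ j‖ ≤ 1 / ε := by
    rw [geom_sum_eq hz0, norm_div]
    have e1 : ‖z ^ K - 1‖ ≤ 2 := by
      refine (norm_sub_le _ _).trans ?_
      rw [norm_pow, hnz, one_pow, norm_one]
      norm_num
    rw [div_le_div_iff₀ (by linarith) hε]
    nlinarith
  rw [h1]
  have hS2 : ‖∑ j ∈ range K, z ^ j‖ ^ 2 ≤ (1 / ε) ^ 2 := pow_le_pow_left₀ (norm_nonneg _) hS 2
  refine hS2.trans ?_
  have : (1 / ε) ^ 2 = (4 / ε ^ 2) / 4 := by field_simp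
  rw [this]
  linarith

/-- orthogonality: the second moment over all `s ∈ F_p`. -/
lemma second_moment {ι : Type*} [Fintype ι] [DecidableEq ι] (p : ℕ) [Fact p.Prime]
    (c : ι → ℂ) (hc : ∀ i, ‖c i‖ = 1) (y : ι → ZMod p) (m : ZMod p) (hm : m ≠ 0) :
    ∑ s : ZMod p, ‖∑ i, c i * ZMod.stdAddChar (m * (s * y i))‖ ^ 2 ≤
      p * ((univ.filter fun ii : ι × ι => y ii.1 = y ii.2).card : ℝ) := by
  have h1 : ((∑ s : ZMod p, ‖∑ i, c i * ZMod.stdAddChar (m * (s * y i))‖ ^ 2 : ℝ) : ℂ) =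
      ∑ ii : ι × ι, c ii.1 * (starRingEnd ℂ) (c ii.2) *
        (if y ii.1 = y ii.2 then (p : ℂ) else 0) := by
    rw [ofReal_sum]
    have h2 : ∀ s : ZMod p, ((‖∑ i, c i * ZMod.stdAddChar (m * (s * y i))‖ ^ 2 : ℝ) : ℂ) =
        ∑ ii : ι × ι, c ii.1 * (starRingEnd ℂ) (c ii.2) *
          (ZMod.stdAddChar (s * (m * (y ii.1 - y ii.2))) : ℂ) := by
      intro s
      rw [ofReal_pow, ← Complex.mul_conj', map_sum, sum_mul_sum, ← sum_product', univ_product_univ]
      refine sum_congr rfl fun ii _ => ?_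
      rw [map_mul (starRingEnd ℂ), ← AddChar.map_neg_eq_conj]
      have : (ZMod.stdAddChar (s * (m * (y ii.1 - y ii.2))) : ℂ) =
          ZMod.stdAddChar (m * (s * y ii.1)) * ZMod.stdAddChar (-(m * (s * y ii.2))) := by
        rw [← AddChar.map_add_eq_mul]
        congr 1
        ring
      rw [this]
      ring
    simp only [h2]
    rw [sum_comm]
    refine sum_congr rfl fun ii _ => ?_
    rw [← mul_sum, AddChar.sum_mulShift _ (ZMod.isPrimitive_stdAddChar p), ZMod.card]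
    congr 1
    by_cases hy : y ii.1 = y ii.2
    · rw [if_pos hy, if_pos (by rw [hy, sub_self, mul_zero])]
    · rw [if_neg hy, if_neg (mul_ne_zero hm (sub_ne_zero.mpr hy)), Nat.cast_zero]
  have h0 : 0 ≤ ∑ s : ZMod p, ‖∑ i, c i * ZMod.stdAddChar (m * (s * y i))‖ ^ 2 := by
    positivity
  calc ∑ s : ZMod p, ‖∑ i, c i * ZMod.stdAddChar (m * (s * y i))‖ ^ 2
      = ‖((∑ s : ZMod p, ‖∑ i, c i * ZMod.stdAddChar (m * (s * y i))‖ ^ 2 : ℝ) : ℂ)‖ := by
        rw [Complex.norm_real, Real.norm_eq_abs, abs_of_nonneg h0]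
    _ = ‖∑ ii : ι × ι, c ii.1 * (starRingEnd ℂ) (c ii.2) *
        (if y ii.1 = y ii.2 then (p : ℂ) else 0)‖ := by rw [h1]
    _ ≤ ∑ ii : ι × ι, ‖c ii.1 * (starRingEnd ℂ) (c ii.2) *
        (if y ii.1 = y ii.2 then (p : ℂ) else 0)‖ := norm_sum_le _ _
    _ = ∑ ii : ι × ι, (if y ii.1 = y ii.2 then (p : ℝ) else 0) := by
        refine sum_congr rfl fun ii _ => ?_
        rw [norm_mul, norm_mul, RCLike.norm_conj, hc, hc, one_mul, one_mul]
        split_ifs
        · rw [Complex.norm_natCast]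
        · rw [norm_zero]
    _ = p * ((univ.filter fun ii : ι × ι => y ii.1 = y ii.2).card : ℝ) := by
        rw [← sum_filter, sum_const, nsmul_eq_mul, mul_comm]

/-- if the Fejér energy is small then some correlations are large. -/
lemma energy_lower {ι : Type*} [Fintype ι] (K : ℕ) (hK : 0 < K) (A : ι → ℕ → ℂ)
    (hA : ∀ i j, ‖A i j‖ = 1)
    (h : ∑ i, ‖∑ j ∈ range K, A i j‖ ^ 2 ≤ (Fintype.card ι : ℝ) * K / 2) :
    (Fintype.card ι : ℝ) ^ 2 / 4 ≤
      ∑ jj ∈ (range K).offDiag, ‖∑ i, A i jj.1 * (starRingEnd ℂ) (A i jj.2)‖ ^ 2 := by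
  have h1 : ((∑ i, ‖∑ j ∈ range K, A i j‖ ^ 2 : ℝ) : ℂ) =
      (Fintype.card ι : ℂ) * K +
        ∑ jj ∈ (range K).offDiag, ∑ i, A i jj.1 * (starRingEnd ℂ) (A i jj.2) := by
    rw [ofReal_sum]
    have h2 : ∀ i, ((‖∑ j ∈ range K, A i j‖ ^ 2 : ℝ) : ℂ) =
        (K : ℂ) + ∑ jj ∈ (range K).offDiag, A i jj.1 * (starRingEnd ℂ) (A i jj.2) := by
      intro i
      rw [ofReal_pow, ← Complex.mul_conj', map_sum, sum_mul_sum, ← sum_product',
        ← diag_union_offDiag, sum_union (disjoint_diag_offDiag _), sum_diag]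
      congr 1
      rw [sum_congr rfl fun j _ => by rw [Complex.mul_conj', hA], sum_const, card_range]
      simp
    simp only [h2]
    rw [sum_add_distrib, sum_const, sum_comm (s := univ), nsmul_eq_mul, card_univ]
  have h2 : (Fintype.card ι : ℝ) * K / 2 ≤
      ∑ jj ∈ (range K).offDiag, ‖∑ i, A i jj.1 * (starRingEnd ℂ) (A i jj.2)‖ := by
    have e1 : ((Fintype.card ι : ℝ) * K - ∑ i, ‖∑ j ∈ range K, A i j‖ ^ 2 : ℝ) =
        -(∑ jj ∈ (range K).offDiag, ∑ i, A i jj.1 * (starRingEnd ℂ) (A i jj.2)) := by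
      rw [ofReal_sub, h1]
      push_cast
      ring
    have e2 : ‖(((Fintype.card ι : ℝ) * K - ∑ i, ‖∑ j ∈ range K, A i j‖ ^ 2 : ℝ) : ℂ)‖ ≤
        ∑ jj ∈ (range K).offDiag, ‖∑ i, A i jj.1 * (starRingEnd ℂ) (A i jj.2)‖ := by
      rw [e1, norm_neg]
      exact norm_sum_le _ _
    rw [Complex.norm_real, Real.norm_eq_abs] at e2
    have e3 := le_abs_self ((Fintype.card ι : ℝ) * K - ∑ i, ‖∑ j ∈ range K, A i j‖ ^ 2)
    linarith
  have h3 := sq_sum_le_card_mul_sum_sq (s := (range K).offDiag)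
    (f := fun jj => ‖∑ i, A i jj.1 * (starRingEnd ℂ) (A i jj.2)‖)
  have h4 : (((range K).offDiag.card : ℕ) : ℝ) ≤ (K : ℝ) ^ 2 := by
    rw [offDiag_card, card_range]
    have : K * K - K ≤ K ^ 2 := by
      rw [pow_two]; exact Nat.sub_le _ _
    exact_mod_cast this
  have h5 : ((Fintype.card ι : ℝ) * K / 2) ^ 2 ≤
      (∑ jj ∈ (range K).offDiag, ‖∑ i, A i jj.1 * (starRingEnd ℂ) (A i jj.2)‖) ^ 2 :=
    pow_le_pow_left₀ (by positivity) h2 2
  have h6 : ((Fintype.card ι : ℝ) * K / 2) ^ 2 ≤ (K : ℝ) ^ 2 *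
      ∑ jj ∈ (range K).offDiag, ‖∑ i, A i jj.1 * (starRingEnd ℂ) (A i jj.2)‖ ^ 2 := by
    refine h5.trans (h3.trans ?_)
    exact mul_le_mul_of_nonneg_right h4 (by positivity)
  have hK' : (0 : ℝ) < (K : ℝ) ^ 2 := by positivity
  have h7 : (K : ℝ) ^ 2 * ((Fintype.card ι : ℝ) ^ 2 / 4) ≤ (K : ℝ) ^ 2 *
      ∑ jj ∈ (range K).offDiag, ‖∑ i, A i jj.1 * (starRingEnd ℂ) (A i jj.2)‖ ^ 2 := by
    refine le_trans (le_of_eq ?_) h6
    ring
  exact le_of_mul_le_mul_left h7 hK'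

open Classical in
theorem count_bad {ι : Type*} [Fintype ι] [Nonempty ι] (p : ℕ) [Fact p.Prime] (K B : ℕ)
    (hKp : K < p) (ε τ : ℝ) (hε : 0 < ε) (hK : 4 / ε ^ 2 ≤ K) (hτ : τ ≤ 1 / (4 * K))
    (x : ι → ℝ) (y : ι → ZMod p)
    (hcoll : p * (univ.filter fun ii : ι × ι => y ii.1 = y ii.2).card ≤ B * Fintype.card ι ^ 2)
    (S : Finset (ZMod p))
    (hS : ∀ s ∈ S, ((univ.filter fun i => Hit (ε / 2) (x i + ((s * y i).val : ℝ) / p)).card : ℝ)
      ≤ τ * Fintype.card ι) :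
    S.card ≤ 4 * K ^ 2 * B := by
  have hKpos : (0 : ℝ) < K := lt_of_lt_of_le (by positivity) hK
  have hK0 : 0 < K := by exact_mod_cast hKpos
  have hι : (0 : ℝ) < Fintype.card ι := by exact_mod_cast Fintype.card_pos
  have hp0 : (p : ℝ) ≠ 0 := by exact_mod_cast (Fact.out : p.Prime).ne_zero
  -- the terms
  set A : ZMod p → ι → ℕ → ℂ := fun s i j =>
    exp (2 * Real.pi * I * (j * x i)) * ZMod.stdAddChar ((j : ZMod p) * (s * y i)) with hAdef
  have hexpA : ∀ s i (j : ℕ), exp (2 * Real.pi * I *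
      (j * ((x i + ((s * y i).val : ℝ) / p : ℝ) : ℂ))) = A s i j := by
    intro s i j
    have e1 : (ZMod.stdAddChar ((j : ZMod p) * (s * y i)) : ℂ) =
        exp (2 * Real.pi * I * (j * ((s * y i).val : ℂ) / p)) := by
      have : ((j : ZMod p) * (s * y i)) = (((j * (s * y i).val : ℕ) : ℤ) : ZMod p) := by
        push_cast
        rw [ZMod.natCast_zmod_val]
      rw [this, ZMod.stdAddChar_coe]
      congr 1
      push_cast
      ring
    simp only [hAdef]
    rw [e1, ← Complex.exp_add]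
    congr 1
    push_cast
    ring
  have hnexp : ∀ r : ℝ, ‖exp (2 * Real.pi * I * (r : ℂ))‖ = 1 := by
    intro r
    have : (2 * Real.pi * I * (r : ℂ)) = ((2 * Real.pi * r : ℝ) : ℂ) * I := by push_cast; ring
    rw [this, Complex.norm_exp_ofReal_mul_I]
  have hAnorm : ∀ s i j, ‖A s i j‖ = 1 := by
    intro s i j
    rw [← hexpA]
    have : ((j : ℂ) * ((x i + ((s * y i).val : ℝ) / p : ℝ) : ℂ)) =
        (((j : ℝ) * (x i + ((s * y i).val : ℝ) / p) : ℝ) : ℂ) := by push_cast; ring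
    rw [this]
    exact hnexp _
  -- the energy upper bound for s ∈ S
  have hupper : ∀ s ∈ S, ∑ i, ‖∑ j ∈ range K, A s i j‖ ^ 2 ≤ (Fintype.card ι : ℝ) * K / 2 := by
    intro s hs
    have hb := hS s hs
    have h1 : ∀ i, ‖∑ j ∈ range K, A s i j‖ ^ 2 ≤
        (if Hit (ε / 2) (x i + ((s * y i).val : ℝ) / p) then (K : ℝ) ^ 2 else 0) + K / 4 := by
      intro i
      by_cases hi : Hit (ε / 2) (x i + ((s * y i).val : ℝ) / p)
      · rw [if_pos hi]
        have : ‖∑ j ∈ range K, A s i j‖ ≤ K := by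
          refine (norm_sum_le _ _).trans ?_
          rw [sum_congr rfl fun j _ => hAnorm s i j, sum_const, card_range]
          simp
        have := pow_le_pow_left₀ (norm_nonneg _) this 2
        linarith
      · rw [if_neg hi, zero_add]
        have := fejer_small K ε _ hε hK hi
        rw [sum_congr rfl fun j _ => hexpA s i j] at this
        exact this
    refine (sum_le_sum fun i _ => h1 i).trans ?_
    rw [sum_add_distrib, ← sum_filter, sum_const, sum_const, nsmul_eq_mul, nsmul_eq_mul, card_univ]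
    have h2 : ((univ.filter fun i => Hit (ε / 2) (x i + ((s * y i).val : ℝ) / p)).card : ℝ) *
        (K : ℝ) ^ 2 ≤ (Fintype.card ι : ℝ) * K / 4 := by
      have h3 : ((univ.filter fun i => Hit (ε / 2) (x i + ((s * y i).val : ℝ) / p)).card : ℝ) ≤
          1 / (4 * K) * Fintype.card ι := hb.trans (mul_le_mul_of_nonneg_right hτ hι.le)
      refine (mul_le_mul_of_nonneg_right h3 (by positivity)).trans (le_of_eq ?_)
      field_simp
    linarith
  -- pointwise lower bound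
  have hlower : ∀ s ∈ S, (Fintype.card ι : ℝ) ^ 2 / 4 ≤
      ∑ jj ∈ (range K).offDiag, ‖∑ i, A s i jj.1 * (starRingEnd ℂ) (A s i jj.2)‖ ^ 2 :=
    fun s hs => energy_lower K hK0 (A s) (hAnorm s) (hupper s hs)
  -- the second moment
  have hmom : ∀ jj ∈ (range K).offDiag,
      ∑ s : ZMod p, ‖∑ i, A s i jj.1 * (starRingEnd ℂ) (A s i jj.2)‖ ^ 2 ≤
        B * (Fintype.card ι : ℝ) ^ 2 := by
    intro jj hjj
    rw [mem_offDiag, mem_range, mem_range] at hjj
    have hm : ((jj.1 : ZMod p) - (jj.2 : ZMod p)) ≠ 0 := by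
      intro h0
      rw [sub_eq_zero, ZMod.natCast_eq_natCast_iff, Nat.ModEq,
        Nat.mod_eq_of_lt (hjj.1.trans hKp), Nat.mod_eq_of_lt (hjj.2.1.trans hKp)] at h0
      exact hjj.2.2 h0
    have h1 := second_moment p (fun i => exp (2 * Real.pi * I * (((jj.1 : ℝ) * x i -
      (jj.2 : ℝ) * x i : ℝ) : ℂ))) (fun i => hnexp _) y _ hm
    have h2 : ∀ s : ZMod p, ∑ i, A s i jj.1 * (starRingEnd ℂ) (A s i jj.2) =
        ∑ i, exp (2 * Real.pi * I * (((jj.1 : ℝ) * x i - (jj.2 : ℝ) * x i : ℝ) : ℂ)) *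
          ZMod.stdAddChar (((jj.1 : ZMod p) - (jj.2 : ZMod p)) * (s * y i)) := by
      intro s
      refine sum_congr rfl fun i _ => ?_
      simp only [hAdef]
      rw [map_mul (starRingEnd ℂ), ← AddChar.map_neg_eq_conj, ← Complex.exp_conj]
      have e1 : (ZMod.stdAddChar (((jj.1 : ZMod p) - (jj.2 : ZMod p)) * (s * y i)) : ℂ) =
          ZMod.stdAddChar ((jj.1 : ZMod p) * (s * y i)) *
            ZMod.stdAddChar (-((jj.2 : ZMod p) * (s * y i))) := by
        rw [← AddChar.map_add_eq_mul]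
        congr 1
        ring
      have e2 : exp (2 * Real.pi * I * (((jj.1 : ℝ) * x i - (jj.2 : ℝ) * x i : ℝ) : ℂ)) =
          exp (2 * Real.pi * I * (jj.1 * x i)) *
            exp ((starRingEnd ℂ) (2 * Real.pi * I * (jj.2 * x i))) := by
        rw [← Complex.exp_add]
        congr 1
        simp only [map_mul, Complex.conj_ofReal, Complex.conj_I, map_ofNat, map_natCast]
        push_cast
        ring
      rw [e1, e2]
      ring
    simp only [h2]
    refine h1.trans ?_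
    have h3 : ((p * (univ.filter fun ii : ι × ι => y ii.1 = y ii.2).card : ℕ) : ℝ) ≤
        ((B * Fintype.card ι ^ 2 : ℕ) : ℝ) := by exact_mod_cast hcoll
    push_cast at h3
    exact h3
  -- total
  have htot : (S.card : ℝ) * ((Fintype.card ι : ℝ) ^ 2 / 4) ≤
      (K : ℝ) ^ 2 * (B * (Fintype.card ι : ℝ) ^ 2) := by
    calc (S.card : ℝ) * ((Fintype.card ι : ℝ) ^ 2 / 4)
        = ∑ s ∈ S, (Fintype.card ι : ℝ) ^ 2 / 4 := by rw [sum_const, nsmul_eq_mul]
      _ ≤ ∑ s ∈ S, ∑ jj ∈ (range K).offDiag,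
          ‖∑ i, A s i jj.1 * (starRingEnd ℂ) (A s i jj.2)‖ ^ 2 := sum_le_sum hlower
      _ ≤ ∑ s : ZMod p, ∑ jj ∈ (range K).offDiag,
          ‖∑ i, A s i jj.1 * (starRingEnd ℂ) (A s i jj.2)‖ ^ 2 :=
          sum_le_univ_sum_of_nonneg fun s => by positivity
      _ = ∑ jj ∈ (range K).offDiag, ∑ s : ZMod p,
          ‖∑ i, A s i jj.1 * (starRingEnd ℂ) (A s i jj.2)‖ ^ 2 := sum_comm
      _ ≤ ∑ jj ∈ (range K).offDiag, B * (Fintype.card ι : ℝ) ^ 2 := sum_le_sum hmom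
      _ = (((range K).offDiag.card : ℕ) : ℝ) * (B * (Fintype.card ι : ℝ) ^ 2) := by
          rw [sum_const, nsmul_eq_mul]
      _ ≤ (K : ℝ) ^ 2 * (B * (Fintype.card ι : ℝ) ^ 2) := by
          refine mul_le_mul_of_nonneg_right ?_ (by positivity)
          rw [offDiag_card, card_range]
          have : K * K - K ≤ K ^ 2 := by
            rw [pow_two]; exact Nat.sub_le _ _
          exact_mod_cast this
  have hfin : (S.card : ℝ) ≤ 4 * (K : ℝ) ^ 2 * B := by
    have h2 : (Fintype.card ι : ℝ) ^ 2 * (S.card : ℝ) ≤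
        (Fintype.card ι : ℝ) ^ 2 * (4 * (K : ℝ) ^ 2 * B) := by linarith
    exact le_of_mul_le_mul_left h2 (by positivity)
  exact_mod_cast hfin

end Pyj
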