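import Pool.Agent.Helper79.Pyj.Defs
import Pool.Agent.Helper79.Pyj.Fejer
import Pool.Agent.Helper79.Pyj.Circle

/-! M10b: a block, coprime case -/

namespace Pyj

open Complex Finset

open Classical in
/-- abstract Fejér lower bound for the number of hits -/
theorem fejer_lower {ι : Type*} (s : Finset ι) (θ : ι → ℝ) (K : ℕ) (ε Δ : ℝ) (hε : 0 < ε)
    (hK : 4 / ε ^ 2 ≤ K) (hΔ0 : 0 ≤ Δ)
    (hΔ : ∀ m : ℤ, m ≠ 0 → |m| < K → ‖∑ j ∈ s, exp (2 * Real.pi * I * (m * θ j))‖ ≤ Δ) :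
    (K : ℝ) * s.card - K ^ 2 * Δ
      ≤ K ^ 2 * (s.filter fun j => Hit (ε / 2) (θ j)).card + s.card * (K / 4) := by
  set S : ι → ℂ := fun j => ∑ h ∈ range K, exp (2 * Real.pi * I * (h * θ j)) with hS
  -- upper bound
  have hup : ∑ j ∈ s, ‖S j‖ ^ 2
      ≤ K ^ 2 * (s.filter fun j => Hit (ε / 2) (θ j)).card + s.card * (K / 4) := by
    have h1 : ∀ j ∈ s, ‖S j‖ ^ 2 ≤ (if Hit (ε / 2) (θ j) then (K : ℝ) ^ 2 else 0) + K / 4 := by
      intro j _
      split_ifs with hit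
      · have h2 : ‖S j‖ ≤ K := by
          refine (norm_sum_le _ _).trans ?_
          have : ∀ h ∈ range K, ‖exp (2 * Real.pi * I * (h * θ j))‖ ≤ 1 := by
            intro h _
            rw [norm_exp]
            simp
          refine (sum_le_sum this).trans ?_
          simp
        have h3 : (0 : ℝ) ≤ K / 4 := by positivity
        have h4 : ‖S j‖ ^ 2 ≤ (K : ℝ) ^ 2 := by gcongr
        linarith
      · have := fejer_small K ε (θ j) hε hK hit
        rw [zero_add]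
        exact this
    refine (sum_le_sum h1).trans (le_of_eq ?_)
    rw [sum_add_distrib, ← sum_filter, sum_const, sum_const, nsmul_eq_mul, nsmul_eq_mul]
    ring
  -- lower bound
  have hlow : (K : ℝ) * s.card - K ^ 2 * Δ ≤ ∑ j ∈ s, ‖S j‖ ^ 2 := by
    have e1 : ∀ j, ‖S j‖ ^ 2 = ∑ h ∈ range K, ∑ h' ∈ range K,
        (exp (2 * Real.pi * I * ((((h : ℤ) - (h' : ℤ) : ℤ) : ℂ) * θ j))).re := by
      intro j
      have e2 : ((‖S j‖ ^ 2 : ℝ) : ℂ) = S j * (starRingEnd ℂ) (S j) := by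
        rw [mul_conj, normSq_eq_norm_sq]
      have e3 : S j * (starRingEnd ℂ) (S j) = ∑ h ∈ range K, ∑ h' ∈ range K,
          exp (2 * Real.pi * I * ((((h : ℤ) - (h' : ℤ) : ℤ) : ℂ) * θ j)) := by
        rw [hS]
        simp only
        rw [map_sum, sum_mul_sum]
        refine sum_congr rfl fun h _ => sum_congr rfl fun h' _ => ?_
        rw [← exp_conj, ← exp_add]
        congr 1
        simp only [map_mul, conj_ofReal, conj_I, map_natCast, map_ofNat]
        push_cast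
        ring
      have e4 := congrArg Complex.re (e2.trans e3)
      rw [ofReal_re] at e4
      rw [e4, re_sum]
      refine sum_congr rfl fun h _ => ?_
      rw [re_sum]
    have e5 : ∑ j ∈ s, ‖S j‖ ^ 2 = ∑ h ∈ range K, ∑ h' ∈ range K,
        (∑ j ∈ s, exp (2 * Real.pi * I * ((((h : ℤ) - (h' : ℤ) : ℤ) : ℂ) * θ j))).re := by
      simp only [e1]
      rw [sum_comm]
      refine sum_congr rfl fun h _ => ?_
      rw [sum_comm]
      refine sum_congr rfl fun h' _ => ?_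
      rw [re_sum]
    rw [e5]
    have h6 : ∀ h ∈ range K, (s.card : ℝ) - K * Δ ≤ ∑ h' ∈ range K,
        (∑ j ∈ s, exp (2 * Real.pi * I * ((((h : ℤ) - (h' : ℤ) : ℤ) : ℂ) * θ j))).re := by
      intro h hh
      have h7 : ∀ h' ∈ range K, (if h = h' then (s.card : ℝ) else 0) - Δ ≤
          (∑ j ∈ s, exp (2 * Real.pi * I * ((((h : ℤ) - (h' : ℤ) : ℤ) : ℂ) * θ j))).re := by
        intro h' hh'
        rw [mem_range] at hh hh'
        by_cases heq : h = h'
        · subst heq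
          simp only [sub_self, Int.cast_zero, zero_mul, mul_zero, exp_zero, if_true]
          simp
          exact hΔ0
        · rw [if_neg heq, zero_sub]
          have h8 := hΔ ((h : ℤ) - h') (by omega) (by rw [abs_lt]; omega)
          have h9 := (abs_le.mp ((abs_re_le_norm _).trans h8)).1
          exact h9
      refine le_trans (le_of_eq ?_) (sum_le_sum h7)
      rw [sum_sub_distrib, sum_ite_eq, if_pos hh, sum_const, card_range, nsmul_eq_mul]
    refine le_trans (le_of_eq ?_) (sum_le_sum h6)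
    rw [sum_const, card_range, nsmul_eq_mul]
    ring
  exact hlow.trans hup

/-! ### rational parametrisation of the circle -/

section circ

variable {F : Type*} [Field F]

theorem circ_param (h2 : (2 : F) ≠ 0) {N x : F} (hN : N ≠ 0) (hx : x ^ 2 + N ^ 2 ≠ 0) :
    ((x ^ 2 - N ^ 2) * (x ^ 2 + N ^ 2)⁻¹) ^ 2 + (2 * x * N * (x ^ 2 + N ^ 2)⁻¹) ^ 2 = 1 ∧
    1 - (x ^ 2 - N ^ 2) * (x ^ 2 + N ^ 2)⁻¹ ≠ 0 ∧
    N * (2 * x * N * (x ^ 2 + N ^ 2)⁻¹) / (1 - (x ^ 2 - N ^ 2) * (x ^ 2 + N ^ 2)⁻¹) = x := by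
  have e1 : 1 - (x ^ 2 - N ^ 2) * (x ^ 2 + N ^ 2)⁻¹ = 2 * N ^ 2 * (x ^ 2 + N ^ 2)⁻¹ := by
    field_simp
    ring
  have h1 : 2 * N ^ 2 * (x ^ 2 + N ^ 2)⁻¹ ≠ 0 := by
    have := inv_ne_zero hx
    positivity
  refine ⟨?_, ?_, ?_⟩
  · field_simp
    ring
  · rw [e1]; exact h1
  · rw [e1]
    field_simp

theorem circ_inv (h2 : (2 : F) ≠ 0) {N X Y : F} (hN : N ≠ 0) (hP : X ^ 2 + Y ^ 2 = 1)
    (hX : 1 - X ≠ 0) :
    (N * Y / (1 - X)) ^ 2 + N ^ 2 ≠ 0 ∧
    ((N * Y / (1 - X)) ^ 2 - N ^ 2) * ((N * Y / (1 - X)) ^ 2 + N ^ 2)⁻¹ = X ∧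
    2 * (N * Y / (1 - X)) * N * ((N * Y / (1 - X)) ^ 2 + N ^ 2)⁻¹ = Y := by
  have e1 : (N * Y / (1 - X)) ^ 2 + N ^ 2 = 2 * N ^ 2 / (1 - X) := by
    field_simp
    linear_combination hP
  have e2 : (N * Y / (1 - X)) ^ 2 - N ^ 2 = 2 * N ^ 2 * X / (1 - X) := by
    field_simp
    linear_combination hP
  have h1 : 2 * N ^ 2 / (1 - X) ≠ 0 := div_ne_zero (by positivity) hX
  refine ⟨by rw [e1]; exact h1, ?_, ?_⟩
  · rw [e1, e2]
    field_simp
  · rw [e1]
    field_simp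

end circ

/-! ### the exponential sum over a block -/

/-- first coordinate of the parametrisation -/
def cX {F : Type*} [Field F] (N x : F) : F := (x ^ 2 - N ^ 2) * (x ^ 2 + N ^ 2)⁻¹

/-- second coordinate of the parametrisation -/
def cY {F : Type*} [Field F] (N x : F) : F := 2 * x * N * (x ^ 2 + N ^ 2)⁻¹

theorem sum_block (q : ℕ) [Fact q.Prime] (h2 : (2 : ZMod q) ≠ 0) {N x0 E2 : ZMod q} (hN : N ≠ 0)
    (hE2 : E2 ≠ 0) (f : ZMod q → ZMod q → ℂ) :
    ∑ j ∈ (range q).filter (fun j : ℕ => (x0 + E2 * (j : ZMod q)) ^ 2 + N ^ 2 ≠ 0),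
      f (cX N (x0 + E2 * (j : ZMod q))) (cY N (x0 + E2 * (j : ZMod q)))
    = ∑ P ∈ ((univ : Finset (ZMod q × ZMod q)).filter (fun P => P.1 ^ 2 + P.2 ^ 2 = 1)).filter
        (fun P => 1 - P.1 ≠ 0), f P.1 P.2 := by
  have hq := (Fact.out : q.Prime)
  refine sum_nbij' (fun j : ℕ => (cX N (x0 + E2 * (j : ZMod q)), cY N (x0 + E2 * (j : ZMod q))))
    (fun P => (((N * P.2 / (1 - P.1) - x0) * E2⁻¹ : ZMod q)).val) ?_ ?_ ?_ ?_ ?_
  · intro j hj
    rw [mem_filter] at hj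
    have := circ_param h2 hN hj.2
    rw [mem_filter, mem_filter]
    exact ⟨⟨mem_univ _, this.1⟩, this.2.1⟩
  · intro P hP
    rw [mem_filter, mem_filter] at hP
    have := circ_inv h2 hN hP.1.2 hP.2
    rw [mem_filter, mem_range]
    refine ⟨ZMod.val_lt _, ?_⟩
    rw [ZMod.natCast_val, ZMod.cast_id]
    have e : x0 + E2 * ((N * P.2 / (1 - P.1) - x0) * E2⁻¹) = N * P.2 / (1 - P.1) := by
      rw [mul_comm _ E2⁻¹, ← mul_assoc, mul_inv_cancel₀ hE2]
      ring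
    rw [e]
    exact this.1
  · intro j hj
    rw [mem_filter, mem_range] at hj
    have := circ_param h2 hN hj.2
    have h3 : N * cY N (x0 + E2 * (j : ZMod q)) / (1 - cX N (x0 + E2 * (j : ZMod q)))
        = x0 + E2 * (j : ZMod q) := this.2.2
    show (((N * cY N (x0 + E2 * (j : ZMod q)) / (1 - cX N (x0 + E2 * (j : ZMod q))) - x0)
      * E2⁻¹ : ZMod q)).val = j
    rw [h3]
    have e : (x0 + E2 * (j : ZMod q) - x0) * E2⁻¹ = j := by
      rw [add_sub_cancel_left, mul_comm, ← mul_assoc, inv_mul_cancel₀ hE2, one_mul]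
    rw [e, ZMod.val_natCast, Nat.mod_eq_of_lt hj.1]
  · intro P hP
    rw [mem_filter, mem_filter] at hP
    have := circ_inv h2 hN hP.1.2 hP.2
    have e : x0 + E2 * ((((N * P.2 / (1 - P.1) - x0) * E2⁻¹ : ZMod q)).val : ZMod q)
        = N * P.2 / (1 - P.1) := by
      rw [ZMod.natCast_val, ZMod.cast_id, mul_comm _ E2⁻¹, ← mul_assoc, mul_inv_cancel₀ hE2]
      ring
    show (cX N (x0 + E2 * ((((N * P.2 / (1 - P.1) - x0) * E2⁻¹ : ZMod q)).val : ZMod q)),
      cY N (x0 + E2 * ((((N * P.2 / (1 - P.1) - x0) * E2⁻¹ : ZMod q)).val : ZMod q))) = P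
    rw [e]
    exact Prod.ext this.2.1 this.2.2
  · intro j _
    rfl

theorem norm_sum_block (q : ℕ) [Fact q.Prime] (hq2 : q ≠ 2) (h2 : (2 : ZMod q) ≠ 0)
    {N x0 E2 : ZMod q} (hN : N ≠ 0)
    (hE2 : E2 ≠ 0) (α β : ZMod q) (hαβ : ¬ (α = 0 ∧ β = 0)) {R : ℝ} (hR0 : 0 ≤ R)
    (hR : 6 * (q : ℝ) ^ 3 ≤ R ^ 4) :
    ‖∑ j ∈ (range q).filter (fun j : ℕ => (x0 + E2 * (j : ZMod q)) ^ 2 + N ^ 2 ≠ 0),
      (ZMod.stdAddChar (α * cX N (x0 + E2 * (j : ZMod q))
        + β * cY N (x0 + E2 * (j : ZMod q))) : ℂ)‖ ≤ R + 1 := by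
  rw [sum_block q h2 hN hE2 (fun X Y => (ZMod.stdAddChar (α * X + β * Y) : ℂ))]
  set T := (univ : Finset (ZMod q × ZMod q)).filter (fun P => P.1 ^ 2 + P.2 ^ 2 = 1) with hT
  have h1 := sum_filter_add_sum_filter_not T (fun P => 1 - P.1 ≠ 0)
    (fun P => (ZMod.stdAddChar (α * P.1 + β * P.2) : ℂ))
  have e : T.filter (fun P => ¬ (1 - P.1 ≠ 0)) = {(1, 0)} := by
    ext P
    rw [mem_filter, hT, mem_filter, mem_singleton, not_not]
    constructor
    · rintro ⟨⟨_, h3⟩, h4⟩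
      have h5 : P.1 = 1 := by linear_combination -h4
      have h6 : P.2 = 0 := by
        rw [h5] at h3
        have : P.2 ^ 2 = 0 := by linear_combination h3
        exact pow_eq_zero_iff two_ne_zero |>.mp this
      exact Prod.ext h5 h6
    · rintro rfl
      simp
  rw [e, sum_singleton] at h1
  have h3 := circle_sum q hq2 α β hαβ
  rw [← hT] at h3
  have h4 : ‖∑ P ∈ T, (ZMod.stdAddChar (α * P.1 + β * P.2) : ℂ)‖ ≤ R :=
    le_of_pow_le_pow_left₀ (by norm_num) hR0 (h3.trans hR)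
  have h6 : ∑ P ∈ T.filter (fun P => 1 - P.1 ≠ 0), (ZMod.stdAddChar (α * P.1 + β * P.2) : ℂ)
      = (∑ P ∈ T, (ZMod.stdAddChar (α * P.1 + β * P.2) : ℂ))
        - (ZMod.stdAddChar (α * 1 + β * 0 : ZMod q) : ℂ) := by
    rw [← h1]
    simp
  rw [h6]
  refine (norm_sub_le _ _).trans ?_
  have h7 : ‖(ZMod.stdAddChar (α * 1 + β * 0 : ZMod q) : ℂ)‖ = 1 := by
    rw [ZMod.stdAddChar_apply, Circle.norm_coe]
  rw [h7]
  linarith

theorem exp_frac (q E : ℕ) [NeZero q] [NeZero E] (u v : ℤ) (huv : u * E + v * q = 1) (k : ℤ) :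
    exp (2 * Real.pi * I * ((k : ℂ) / ((q * E : ℕ) : ℂ)))
      = (ZMod.stdAddChar ((u * k : ℤ) : ZMod q) : ℂ) * ZMod.stdAddChar ((v * k : ℤ) : ZMod E) := by
  rw [ZMod.stdAddChar_coe, ZMod.stdAddChar_coe, ← exp_add]
  congr 1
  have hq : (q : ℂ) ≠ 0 := by exact_mod_cast NeZero.ne q
  have hE : (E : ℂ) ≠ 0 := by exact_mod_cast NeZero.ne E
  have h : (u : ℂ) * E + v * q = 1 := by exact_mod_cast huv
  push_cast
  field_simp
  linear_combination (-(k : ℂ)) * h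

theorem Hit_add_int {ε x : ℝ} (k : ℤ) (h : Hit ε x) : Hit ε (x + k) := by
  obtain ⟨m, hm⟩ := h
  refine ⟨m + k, ?_⟩
  have : x + k - ((m + k : ℤ) : ℝ) = x - m := by push_cast; ring
  rw [this]
  exact hm

theorem norm_pa (n : ℕ) (y : ℤ) : (pa n y).norm = (2 * y + 1) ^ 2 + (2 ^ (n + 1)) ^ 2 := by
  unfold pa
  rw [Zsqrtd.norm_def]
  ring

theorem re_mul_sq (n : ℕ) (b : GaussianInt) (y : ℤ) : (b * pa n y ^ 2).re
    = b.re * ((2 * y + 1) ^ 2 - (2 ^ (n + 1)) ^ 2) - b.im * (2 * (2 * y + 1) * 2 ^ (n + 1)) := by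
  unfold pa
  rw [sq]
  simp only [Zsqrtd.re_mul, Zsqrtd.im_mul]
  ring

/-- uniqueness of inverses -/
theorem inv_unique {m a x y : ℤ} (hx : m ∣ x * a - 1) (hy : m ∣ y * a - 1) : m ∣ x - y := by
  have h1 : m ∣ x * (y * a - 1) - y * (x * a - 1) := dvd_sub (dvd_mul_of_dvd_right hy _)
    (dvd_mul_of_dvd_right hx _)
  have h2 : x * (y * a - 1) - y * (x * a - 1) = -(x - y) := by ring
  rw [h2] at h1
  exact (dvd_neg).mp h1

open Classical in
theorem block_coprime_nat (t n q E : ℕ) (ht : 40 ≤ t) (hq : q.Prime) (hqt : 2 ^ (9 * t) < q)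
    (hE : 0 < E) (hqE : ¬ q ∣ E) (b : GaussianInt) (hb : ¬ ((q : ℤ) ∣ b.re ∧ (q : ℤ) ∣ b.im))
    (ρ : ℝ) (y0 : ℤ) :
    (q : ℝ) ≤ 2 ^ (2 * t + 4) *
      ((range q).filter fun j : ℕ => ATest n ((1 / 2) ^ (t + 1)) (q * E) b ρ (y0 + E * j)).card := by
  have hfact : Fact q.Prime := ⟨hq⟩
  have hEz : NeZero E := ⟨hE.ne'⟩
  have hq0 : 0 < q := hq.pos
  have hpow : 2 ^ (2 * t + 4) ≤ 2 ^ (9 * t) := Nat.pow_le_pow_right (by norm_num) (by omega)
  have hq2 : 2 < q := by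
    have : 2 ^ 1 ≤ 2 ^ (9 * t) := Nat.pow_le_pow_right (by norm_num) (by omega)
    have h3 : 2 ≤ 2 ^ (9 * t) := by simpa using this
    omega
  have h2 : (2 : ZMod q) ≠ 0 := by
    intro h0
    have : ((2 : ℕ) : ZMod q) = 0 := by exact_mod_cast h0
    rw [ZMod.natCast_eq_zero_iff] at this
    have := Nat.le_of_dvd (by norm_num) this
    omega
  by_cases hex : ∃ j ∈ range q, ∃ N' : ℤ, ((q * E : ℕ) : ℤ) ∣ N' * (pa n (y0 + E * j)).norm - 1
  swap
  · -- all tests are vacuous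
    have e : ((range q).filter fun j : ℕ => ATest n ((1 / 2) ^ (t + 1)) (q * E) b ρ (y0 + E * j))
        = range q := by
      rw [filter_eq_self]
      intro j hj N' hN'
      exact absurd ⟨j, hj, N', hN'⟩ hex
    rw [e, card_range]
    have h1 : (1 : ℝ) ≤ 2 ^ (2 * t + 4) := one_le_pow₀ (by norm_num)
    have h3 : (0 : ℝ) ≤ q := by positivity
    nlinarith
  obtain ⟨j0, hj0, N0', hN0⟩ := hex
  -- notation
  set x0 : ZMod q := ((2 * y0 + 1 : ℤ) : ZMod q) with hx0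
  set E2 : ZMod q := ((2 * E : ℤ) : ZMod q) with hE2
  set NN : ZMod q := ((2 ^ (n + 1) : ℤ) : ZMod q) with hNN
  have hxj : ∀ j : ℕ, ((2 * (y0 + E * j) + 1 : ℤ) : ZMod q) = x0 + E2 * (j : ZMod q) := by
    intro j
    rw [hx0, hE2]
    push_cast
    ring
  have hnorm : ∀ j : ℕ, (((pa n (y0 + E * j)).norm : ℤ) : ZMod q)
      = (x0 + E2 * (j : ZMod q)) ^ 2 + NN ^ 2 := by
    intro j
    rw [norm_pa, ← hxj, hNN]
    push_cast
    ring
  have hNN0 : NN ≠ 0 := by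
    rw [hNN]
    push_cast
    exact pow_ne_zero _ h2
  have hEq : (E : ZMod q) ≠ 0 := by
    intro h0
    rw [ZMod.natCast_eq_zero_iff] at h0
    exact hqE h0
  have hE20 : E2 ≠ 0 := by
    rw [hE2]
    push_cast
    exact mul_ne_zero h2 hEq
  set s := (range q).filter (fun j : ℕ => (x0 + E2 * (j : ZMod q)) ^ 2 + NN ^ 2 ≠ 0) with hs
  -- divisibility by E
  have hdE : ((E : ℕ) : ℤ) ∣ ((q * E : ℕ) : ℤ) := by
    push_cast
    exact dvd_mul_left _ _
  have hdq : ((q : ℕ) : ℤ) ∣ ((q * E : ℕ) : ℤ) := by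
    push_cast
    exact dvd_mul_right _ _
  have hEN : ∀ j : ℕ, (E : ℤ) ∣ N0' * (pa n (y0 + E * j)).norm - 1 := by
    intro j
    have h3 : (E : ℤ) ∣ N0' * (pa n (y0 + E * j0)).norm - 1 := hdE.trans hN0
    have h4 : N0' * (pa n (y0 + E * j)).norm - 1 = (N0' * (pa n (y0 + E * j0)).norm - 1)
        + E * (N0' * (4 * (j - j0) * (2 * y0 + 1 + E * (j + j0)))) := by
      rw [norm_pa, norm_pa]
      ring
    rw [h4]
    exact dvd_add h3 (dvd_mul_right _ _)
  have hinv : ∀ j ∈ s, ∃ N' : ℤ, ((q * E : ℕ) : ℤ) ∣ N' * (pa n (y0 + E * j)).norm - 1 := by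
    intro j hj
    rw [hs, mem_filter] at hj
    have c1 : IsCoprime ((pa n (y0 + E * j)).norm) (q : ℤ) := by
      rw [isCoprime_comm]
      have hp : Prime (q : ℤ) := Nat.prime_iff_prime_int.mp hq
      refine (hp.coprime_iff_not_dvd).mpr ?_
      intro h5
      have h6 := (ZMod.intCast_zmod_eq_zero_iff_dvd _ q).mpr h5
      rw [hnorm] at h6
      exact hj.2 h6
    have c2 : IsCoprime ((pa n (y0 + E * j)).norm) (E : ℤ) := by
      obtain ⟨c, hc⟩ := hEN j
      exact ⟨N0', -c, by linear_combination hc⟩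
    obtain ⟨a, c, hac⟩ := c1.mul_right c2
    refine ⟨a, ⟨-c, ?_⟩⟩
    push_cast
    linear_combination hac
  choose! Nv hNv using hinv
  set θ : ℕ → ℝ := fun j => (((b * pa n (y0 + E * j) ^ 2).re * Nv j : ℤ) : ℝ) / ((q * E : ℕ) : ℝ) + ρ
    with hθ
  set K : ℕ := 2 ^ (2 * t + 2) with hK
  -- hits pass the test
  have hqEne : ((q * E : ℕ) : ℝ) ≠ 0 := by
    have : 0 < q * E := Nat.mul_pos hq0 hE
    exact_mod_cast this.ne'
  have hpass1 : ∀ j ∈ s, Hit ((1 / 2) ^ (t + 1)) (θ j) →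
      ATest n ((1 / 2) ^ (t + 1)) (q * E) b ρ (y0 + E * j) := by
    intro j hj hit N' hN'
    obtain ⟨k, hk⟩ := inv_unique hN' (hNv j hj)
    have h5 : (((b * pa n (y0 + E * j) ^ 2).re * N' : ℤ) : ℝ) / ((q * E : ℕ) : ℝ) + ρ
        = θ j + (((b * pa n (y0 + E * j) ^ 2).re * k : ℤ) : ℝ) := by
      have h6 : N' = Nv j + ((q * E : ℕ) : ℤ) * k := by linarith
      rw [hθ, h6]
      simp only
      rw [Int.cast_mul, Int.cast_mul, Int.cast_mul, Int.cast_add, Int.cast_mul, Int.cast_natCast]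
      field_simp
      ring
    rw [h5]
    exact Hit_add_int _ hit
  have hpass2 : ∀ j ∈ range q \ s, ATest n ((1 / 2) ^ (t + 1)) (q * E) b ρ (y0 + E * j) := by
    intro j hj N' hN'
    exfalso
    rw [mem_sdiff, hs, mem_filter, not_and, not_not] at hj
    have h5 := hj.2 hj.1
    rw [← hnorm] at h5
    have h6 : ((N' * (pa n (y0 + E * j)).norm - 1 : ℤ) : ZMod q) = 0 :=
      (ZMod.intCast_zmod_eq_zero_iff_dvd _ q).mpr (hdq.trans hN')
    rw [Int.cast_sub, Int.cast_mul, h5, mul_zero, Int.cast_one, zero_sub, neg_eq_zero] at h6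
    exact one_ne_zero h6
  have hcount : (((s.filter fun j => Hit ((1 / 2) ^ (t + 1)) (θ j)).card : ℝ)
      + ((q : ℝ) - s.card)) ≤
      ((range q).filter fun j : ℕ => ATest n ((1 / 2) ^ (t + 1)) (q * E) b ρ (y0 + E * j)).card := by
    have hsub : s ⊆ range q := filter_subset _ _
    have hdisj : Disjoint (s.filter fun j => Hit ((1 / 2) ^ (t + 1)) (θ j)) (range q \ s) := by
      rw [Finset.disjoint_left]
      intro j hj hj'
      rw [mem_filter] at hj
      rw [mem_sdiff] at hj'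
      exact hj'.2 hj.1
    have h5 : (s.filter fun j => Hit ((1 / 2) ^ (t + 1)) (θ j)) ∪ (range q \ s) ⊆
        ((range q).filter fun j : ℕ => ATest n ((1 / 2) ^ (t + 1)) (q * E) b ρ (y0 + E * j)) := by
      intro j hj
      rw [mem_union] at hj
      rw [mem_filter]
      rcases hj with hj | hj
      · rw [mem_filter] at hj
        exact ⟨hsub hj.1, hpass1 j hj.1 hj.2⟩
      · exact ⟨(mem_sdiff.mp hj).1, hpass2 j hj⟩
    have h6 := card_le_card h5
    rw [card_union_of_disjoint hdisj, card_sdiff_of_subset hsub, card_range] at h6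
    have h7 : s.card ≤ q := by
      have := card_le_card hsub
      rwa [card_range] at this
    have h8 : (((s.filter fun j => Hit ((1 / 2) ^ (t + 1)) (θ j)).card + (q - s.card) : ℕ) : ℝ) ≤
      ((range q).filter fun j : ℕ => ATest n ((1 / 2) ^ (t + 1)) (q * E) b ρ (y0 + E * j)).card := by
      exact_mod_cast h6
    rw [Nat.cast_add, Nat.cast_sub h7] at h8
    exact h8
  -- the exponential sums
  have hcop : IsCoprime (E : ℤ) (q : ℤ) := by
    rw [Nat.isCoprime_iff_coprime]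
    exact ((Nat.Prime.coprime_iff_not_dvd hq).mpr hqE).symm
  obtain ⟨u, v, huv⟩ := hcop
  have hu0 : (u : ZMod q) ≠ 0 := by
    intro h0
    have h5 := congrArg (fun z : ℤ => (z : ZMod q)) huv
    simp only [Int.cast_add, Int.cast_mul, Int.cast_natCast, ZMod.natCast_self, mul_zero, add_zero,
      Int.cast_one, h0, zero_mul] at h5
    exact zero_ne_one h5
  set R : ℝ := (q : ℝ) / 2 ^ (2 * t + 4) with hR
  have hR0 : 0 ≤ R := by positivity
  have hqr : (2 : ℝ) ^ (9 * t) ≤ q := by exact_mod_cast hqt.le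
  have hR4 : 6 * (q : ℝ) ^ 3 ≤ R ^ 4 := by
    rw [hR, div_pow, le_div_iff₀ (by positivity), ← pow_mul]
    have h5 : (6 : ℝ) * 2 ^ ((2 * t + 4) * 4) ≤ q := by
      calc (6 : ℝ) * 2 ^ ((2 * t + 4) * 4) ≤ 2 ^ 3 * 2 ^ ((2 * t + 4) * 4) := by gcongr; norm_num
        _ = 2 ^ (8 * t + 19) := by rw [← pow_add]; congr 1; ring
        _ ≤ 2 ^ (9 * t) := pow_le_pow_right₀ (by norm_num) (by omega)
        _ ≤ q := hqr
    have h6 : (0 : ℝ) ≤ (q : ℝ) ^ 3 := by positivity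
    calc 6 * (q : ℝ) ^ 3 * 2 ^ ((2 * t + 4) * 4) = (q : ℝ) ^ 3 * (6 * 2 ^ ((2 * t + 4) * 4)) := by
          ring
      _ ≤ (q : ℝ) ^ 3 * q := by gcongr
      _ = (q : ℝ) ^ 4 := by ring
  have hsum : ∀ m : ℤ, m ≠ 0 → |m| < K →
      ‖∑ j ∈ s, exp (2 * Real.pi * I * (m * θ j))‖ ≤ R + 1 := by
    intro m hm0 hmK
    have hmq : (m : ZMod q) ≠ 0 := by
      intro h0
      rw [ZMod.intCast_zmod_eq_zero_iff_dvd] at h0
      have h5 := Int.le_of_dvd (abs_pos.mpr hm0) ((dvd_abs _ _).mpr h0)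
      have h6 : K ≤ 2 ^ (2 * t + 4) := by
        rw [hK]
        exact Nat.pow_le_pow_right (by norm_num) (by omega)
      omega
    set W : ZMod E := (((b * pa n y0 ^ 2).re : ℤ) : ZMod E) * (N0' : ZMod E) with hW
    have hVE : ∀ j ∈ s, (((b * pa n (y0 + E * j) ^ 2).re * Nv j : ℤ) : ZMod E) = W := by
      intro j hj
      rw [Int.cast_mul, hW]
      congr 1
      · rw [re_mul_sq, re_mul_sq]
        push_cast
        rw [ZMod.natCast_self]
        ring
      · have h5 : (E : ℤ) ∣ Nv j - N0' := inv_unique (hdE.trans (hNv j hj)) (hEN j)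
        have h6 := (ZMod.intCast_zmod_eq_zero_iff_dvd _ E).mpr h5
        rw [Int.cast_sub, sub_eq_zero] at h6
        exact h6
    set α : ZMod q := (u : ZMod q) * m * b.re with hα
    set β : ZMod q := -((u : ZMod q) * m * b.im) with hβ
    have hVq : ∀ j ∈ s, ((u * (m * ((b * pa n (y0 + E * j) ^ 2).re * Nv j)) : ℤ) : ZMod q)
        = α * cX NN (x0 + E2 * (j : ZMod q)) + β * cY NN (x0 + E2 * (j : ZMod q)) := by
      intro j hj
      have hj2 := (mem_filter.mp hj).2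
      have h5 : (Nv j : ZMod q) = ((x0 + E2 * (j : ZMod q)) ^ 2 + NN ^ 2)⁻¹ := by
        have h6 := (ZMod.intCast_zmod_eq_zero_iff_dvd _ q).mpr (hdq.trans (hNv j hj))
        rw [Int.cast_sub, Int.cast_mul, hnorm, Int.cast_one, sub_eq_zero] at h6
        exact eq_inv_of_mul_eq_one_left h6
      have h7 : (((b * pa n (y0 + E * j) ^ 2).re : ℤ) : ZMod q)
          = (b.re : ZMod q) * ((x0 + E2 * (j : ZMod q)) ^ 2 - NN ^ 2)
            - (b.im : ZMod q) * (2 * (x0 + E2 * (j : ZMod q)) * NN) := by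
        rw [re_mul_sq, ← hxj, hNN]
        push_cast
        ring
      rw [Int.cast_mul, Int.cast_mul, Int.cast_mul, h7, h5, hα, hβ]
      unfold cX cY
      ring
    have hαβ : ¬ (α = 0 ∧ β = 0) := by
      rintro ⟨ha, hb'⟩
      apply hb
      have hum : (u : ZMod q) * m ≠ 0 := mul_ne_zero hu0 hmq
      constructor
      · rw [← ZMod.intCast_zmod_eq_zero_iff_dvd]
        exact (mul_eq_zero.mp ha).resolve_left hum
      · rw [← ZMod.intCast_zmod_eq_zero_iff_dvd]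
        exact (mul_eq_zero.mp (neg_eq_zero.mp hb')).resolve_left hum
    have key : ∀ j ∈ s, exp (2 * Real.pi * I * (m * θ j))
        = (exp (2 * Real.pi * I * (m * ρ)) * (ZMod.stdAddChar (((v * m : ℤ) : ZMod E) * W) : ℂ))
          * (ZMod.stdAddChar (α * cX NN (x0 + E2 * (j : ZMod q))
            + β * cY NN (x0 + E2 * (j : ZMod q))) : ℂ) := by
      intro j hj
      have h5 := exp_frac q E u v huv (m * ((b * pa n (y0 + E * j) ^ 2).re * Nv j))
      rw [hVq j hj] at h5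
      have h6 : ((v * (m * ((b * pa n (y0 + E * j) ^ 2).re * Nv j)) : ℤ) : ZMod E)
          = ((v * m : ℤ) : ZMod E) * W := by
        rw [← hVE j hj]
        push_cast
        ring
      rw [h6] at h5
      have h7 : (2 * Real.pi * I * (m * θ j) : ℂ) = 2 * Real.pi * I * (m * ρ)
          + 2 * Real.pi * I * (((m * ((b * pa n (y0 + E * j) ^ 2).re * Nv j) : ℤ) : ℂ)
            / ((q * E : ℕ) : ℂ)) := by
        rw [hθ]
        push_cast
        ring
      rw [h7, exp_add, h5]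
      ring
    rw [sum_congr rfl key, ← mul_sum, norm_mul, norm_mul]
    have h8 : ‖exp (2 * Real.pi * I * (m * ρ))‖ = 1 := by
      rw [norm_exp]
      simp
    have h9 : ‖(ZMod.stdAddChar (((v * m : ℤ) : ZMod E) * W) : ℂ)‖ = 1 := by
      rw [ZMod.stdAddChar_apply, Circle.norm_coe]
    rw [h8, h9, one_mul, one_mul]
    exact norm_sum_block q hq2.ne' h2 hNN0 hE20 α β hαβ hR0 hR4
  -- conclusion
  have hKr : (K : ℝ) = 2 ^ (2 * t + 2) := by rw [hK]; push_cast; rfl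
  have hfej := fejer_lower s θ K ((1 / 2) ^ t) (R + 1) (by positivity) (by
    rw [hKr, ← pow_mul, one_div, inv_pow, div_inv_eq_mul]
    apply le_of_eq
    rw [show (4 : ℝ) = 2 ^ 2 by norm_num, ← pow_add]
    congr 1
    ring) (by positivity) hsum
  have hε2 : ((1 / 2 : ℝ)) ^ t / 2 = (1 / 2) ^ (t + 1) := by rw [pow_succ]; ring
  rw [hε2] at hfej
  set Hn : ℝ := ((s.filter fun j => Hit ((1 / 2) ^ (t + 1)) (θ j)).card : ℝ) with hHn
  set An : ℝ := (((range q).filter fun j : ℕ =>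
    ATest n ((1 / 2) ^ (t + 1)) (q * E) b ρ (y0 + E * j)).card : ℝ) with hAn
  have hKpos : (0 : ℝ) < K := by rw [hKr]; positivity
  have h4K : (2 : ℝ) ^ (2 * t + 4) = 4 * K := by rw [hKr]; ring
  have hRK : 4 * K * R = q := by
    rw [hR, h4K]
    field_simp
  have hK1 : (1 : ℝ) ≤ K := by rw [hKr]; exact one_le_pow₀ (by norm_num)
  have h4Kq : 4 * (K : ℝ) ≤ q := by
    rw [← h4K]
    refine le_trans ?_ hqr
    exact_mod_cast hpow
  have hsq : (s.card : ℝ) ≤ q := by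
    have := card_le_card (filter_subset _ _ : s ⊆ range q)
    rw [card_range] at this
    exact_mod_cast this
  have hdiv : (3 / 4 : ℝ) * s.card - K * (R + 1) ≤ K * Hn := by
    have h5 : (K : ℝ) * ((3 / 4 : ℝ) * s.card - K * (R + 1)) ≤ K * (K * Hn) := by nlinarith
    exact le_of_mul_le_mul_left h5 hKpos
  rw [h4K]
  have h6 : 4 * (K : ℝ) * (Hn + ((q : ℝ) - s.card)) ≤ 4 * K * An := by gcongr
  have h7 : 0 ≤ (q : ℝ) - s.card := by linarith
  nlinarith

open Classical in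
/-- `block_coprime_nat`, with the index read in `ℤ`. -/
theorem block_coprime (t n q E : ℕ) (ht : 40 ≤ t) (hq : q.Prime) (hqt : 2 ^ (9 * t) < q)
    (hE : 0 < E) (hqE : ¬ q ∣ E) (b : GaussianInt) (hb : ¬ ((q : ℤ) ∣ b.re ∧ (q : ℤ) ∣ b.im))
    (ρ : ℝ) (y0 : ℤ) :
    (q : ℝ) ≤ 2 ^ (2 * t + 4) *
      ((range q).filter fun j => ATest n ((1 / 2) ^ (t + 1)) (q * E) b ρ (y0 + E * j)).card := by
  have h := block_coprime_nat t n q E ht hq hqt hE hqE b hb ρ y0
  have e : ((range q).filter fun j : ℕ => ATest n ((1 / 2) ^ (t + 1)) (q * E) b ρ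
      (y0 + E * j)).card
      = ((range q).filter fun j => ATest n ((1 / 2) ^ (t + 1)) (q * E) b ρ (y0 + E * j)).card := by
    refine card_bij (fun j _ => (j : ℤ)) ?_ ?_ ?_
    · intro j hj
      rw [mem_filter] at hj ⊢
      refine ⟨?_, hj.2⟩
      simp only [bind_def, pure_def, mem_sup, mem_range, mem_singleton]
      exact ⟨j, mem_range.mp hj.1, rfl⟩
    · intro i _ j _ hij
      exact_mod_cast hij
    · intro z hz
      rw [mem_filter] at hz
      obtain ⟨h1, h2⟩ := hz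
      simp only [bind_def, pure_def, mem_sup, mem_range, mem_singleton] at h1
      obtain ⟨j, hj, rfl⟩ := h1
      exact ⟨j, mem_filter.mpr ⟨mem_range.mpr hj, h2⟩, rfl⟩
  rw [e] at h
  exact h

end Pyj
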