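import Pool.Agent.Helper79.Pyj.Defs

/-! M10c: a block, the case `q ∣ E` -/

namespace Pyj

open Complex Finset

theorem norm_pa' (n : ℕ) (y : ℤ) :
    (pa n y).norm = (2 * y + 1) ^ 2 + (2 ^ (n + 1)) ^ 2 := by
  unfold pa
  rw [Zsqrtd.norm_def]
  ring

theorem re_mul_pa_sq (n : ℕ) (y : ℤ) (b : GaussianInt) :
    (b * pa n y ^ 2).re = b.re * ((2 * y + 1) ^ 2 - (2 ^ (n + 1)) ^ 2)
      - 2 * b.im * (2 * y + 1) * 2 ^ (n + 1) := by
  unfold pa
  rw [pow_two]
  simp only [Zsqrtd.re_mul, Zsqrtd.im_mul]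
  ring

theorem Hit.add_int {ε x : ℝ} (h : Hit ε x) (m : ℤ) : Hit ε (x + m) := by
  obtain ⟨k, hk⟩ := h
  refine ⟨k + m, ?_⟩
  push_cast
  rwa [add_sub_add_right_eq_sub]

/-- hits of an arithmetic progression with difference `κ / q` -/
theorem hits_ap (q : ℕ) (hq : q.Prime) (κ : ℤ) (hκ : ¬ (q : ℤ) ∣ κ) (c δ : ℝ) (hδ : 0 ≤ δ)
    (hδ1 : δ ≤ 1) (P : ℕ → Prop) [DecidablePred P]
    (hP : ∀ j < q, Hit δ (c + (κ * j : ℤ) / q) → P j) :
    δ * q - 1 ≤ (((range q).filter P).card : ℝ) := by
  have hq0 : (0 : ℝ) < q := by exact_mod_cast hq.pos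
  have hqz : (0 : ℤ) < q := by exact_mod_cast hq.pos
  have hcop : IsCoprime (q : ℤ) κ :=
    (Nat.prime_iff_prime_int.mp hq).coprime_iff_not_dvd.mpr hκ
  obtain ⟨u, κ', huv⟩ := hcop
  set m : ℕ := ⌊δ * q⌋₊ with hm
  have hmle : (m : ℝ) ≤ δ * q := Nat.floor_le (by positivity)
  have hmq : m ≤ q := by
    have : (m : ℝ) ≤ q := by nlinarith
    exact_mod_cast this
  set k0 : ℤ := ⌈-(c * q)⌉ with hk0
  have hk1 : -(c * q) ≤ k0 := Int.le_ceil _
  have hk2 : (k0 : ℝ) < -(c * q) + 1 := Int.ceil_lt_add_one _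
  have hcard : m ≤ ((range q).filter P).card := by
    have : (range m).card ≤ ((range q).filter P).card := by
      apply Finset.card_le_card_of_injOn (fun i : ℕ => ((k0 + i) * κ' % q).toNat)
      · intro i hi
        have hi' : i < m := by simpa using hi
        have h0 : 0 ≤ (k0 + i) * κ' % q := Int.emod_nonneg _ hqz.ne'
        have h1 : (k0 + i) * κ' % q < q := Int.emod_lt_of_pos _ hqz
        have hlt : ((k0 + i) * κ' % q).toNat < q := by omega
        simp only [Finset.coe_filter, Finset.mem_range, Set.mem_ofPred_eq]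
        refine ⟨hlt, hP _ hlt ?_⟩
        rw [Int.toNat_of_nonneg h0]
        -- κ * ((k0+i) κ' % q) ≡ k0 + i mod q
        obtain ⟨s, hs⟩ : ∃ s : ℤ, κ * ((k0 + i) * κ' % q) = (k0 + i) + q * s := by
          refine ⟨-(k0 + i) * u - κ * ((k0 + i) * κ' / q), ?_⟩
          have h2 := Int.emod_add_mul_ediv ((k0 + i) * κ') q
          have h3 : (k0 + i) * κ' % q = (k0 + i) * κ' - q * ((k0 + i) * κ' / q) := by linarith
          rw [h3]
          linear_combination (k0 + i) * huv
        rw [hs]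
        have h4 : c + (((k0 + i) + q * s : ℤ) : ℝ) / q = (c + (k0 + i) / q) + (s : ℤ) := by
          push_cast
          field_simp
          ring
        rw [h4]
        apply Hit.add_int
        refine ⟨0, ?_⟩
        have h5 : c + ((k0 : ℝ) + i) / q = (c * q + k0 + i) / q := by
          field_simp
          ring
        rw [Int.cast_zero, sub_zero, h5, abs_le]
        have hi'' : (i : ℝ) + 1 ≤ m := by exact_mod_cast hi'
        constructor
        · have : 0 ≤ (c * q + k0 + i) / q := by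
            apply div_nonneg _ hq0.le
            have : (0 : ℝ) ≤ i := Nat.cast_nonneg i
            linarith
          linarith
        · rw [div_le_iff₀ hq0]
          linarith
      · intro i hi i' hi' hii
        have hi1 : i < m := by simpa using hi
        have hi1' : i' < m := by simpa using hi'
        have h0 : 0 ≤ (k0 + i) * κ' % q := Int.emod_nonneg _ hqz.ne'
        have h0' : 0 ≤ (k0 + i') * κ' % q := Int.emod_nonneg _ hqz.ne'
        have h1 : (k0 + i) * κ' % q = (k0 + i') * κ' % q := by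
          have : ((k0 + i) * κ' % q).toNat = ((k0 + i') * κ' % q).toNat := hii
          omega
        have h2 : (q : ℤ) ∣ (k0 + i) * κ' - (k0 + i') * κ' := (Int.ModEq.dvd h1.symm)
        have h3 : (q : ℤ) ∣ (i : ℤ) - i' := by
          have : (i : ℤ) - i' = ((k0 + i) * κ' - (k0 + i') * κ') * κ + q * (u * (i - i')) := by
            linear_combination (-(i : ℤ) + i') * huv
          rw [this]
          exact dvd_add (h2.mul_right _) (dvd_mul_right _ _)
        have h4 : |(i : ℤ) - i'| < q := by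
          rw [abs_lt]
          omega
        have h5 := Int.eq_zero_of_abs_lt_dvd h3 h4
        omega
    simpa using this
  have h6 : δ * q - 1 < m := Nat.sub_one_lt_floor _
  have h7 : (m : ℝ) ≤ (((range q).filter P).card : ℝ) := by exact_mod_cast hcard
  linarith

open Classical in
theorem card_filter_cast (q : ℕ) (P : ℤ → Prop) :
    ((range q).filter fun j => P j).card = ((range q).filter fun j : ℕ => P (j : ℤ)).card := by
  have h1 : ((do let a ← range q; pure (a : ℤ)) : Finset ℤ) =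
      (range q).image (fun a : ℕ => (a : ℤ)) := by
    ext x
    simp [Finset.bind_def, Finset.pure_def]
  rw [h1, Finset.filter_image, Finset.card_image_of_injective _ Nat.cast_injective]

open Classical in
theorem block_dvd_nat (t n q E : ℕ) (ht : 40 ≤ t) (hq : q.Prime) (hqt : 2 ^ (9 * t) < q)
    (hE : 0 < E) (hqE : q ∣ E) (b : GaussianInt) (hb : ¬ ((q : ℤ) ∣ b.re ∧ (q : ℤ) ∣ b.im))
    (ρ : ℝ) (y0 : ℤ)
    (hy0 : ¬ (q : ℤ) ∣ b.im * (2 * y0 + 1) ^ 2 + 2 ^ (n + 2) * b.re * (2 * y0 + 1)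
        - b.im * 4 ^ (n + 1)) :
    (q : ℝ) ≤ 2 ^ (2 * t + 4) *
      ((range q).filter fun j : ℕ => ATest n ((1 / 2) ^ (t + 1)) (q * E) b ρ (y0 + E * j)).card := by
  have hq0 : (0 : ℝ) < q := by exact_mod_cast hq.pos
  have hE0 : (0 : ℝ) < E := by exact_mod_cast hE
  have hqp : Prime (q : ℤ) := Nat.prime_iff_prime_int.mp hq
  set T : ℤ := 2 ^ (n + 1) with hT
  set x0 : ℤ := 2 * y0 + 1 with hx0
  set N0 : ℤ := x0 ^ 2 + T ^ 2 with hN0
  have hqE' : (q : ℤ) ∣ (E : ℤ) := by exact_mod_cast hqE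
  have hNj : ∀ j : ℕ, (pa n (y0 + E * j)).norm = N0 + E * (4 * x0 * j + 4 * E * j ^ 2) := by
    intro j
    rw [norm_pa', hN0, hx0, ← hT]
    ring
  by_cases hcop : IsCoprime N0 ((q * E : ℕ) : ℤ)
  · -- main case
    obtain ⟨N0', v, hN0'⟩ := hcop
    set R0 : ℤ := b.re * (x0 ^ 2 - T ^ 2) - 2 * b.im * x0 * T with hR0
    set κ : ℤ := 4 * N0' * (b.re * x0 - b.im * T) - 4 * x0 * R0 * N0' ^ 2 with hκ
    have h2big : 4 < q := by
      have : 2 ^ 3 ≤ 2 ^ (9 * t) := Nat.pow_le_pow_right (by norm_num) (by omega)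
      omega
    have hκq : ¬ (q : ℤ) ∣ κ := by
      intro hdvd
      have hqN : (q : ℤ) ∣ N0' * N0 - 1 := by
        refine ⟨-(v * E), ?_⟩
        push_cast at hN0'
        linear_combination hN0'
      have h1 : κ = 4 * N0' ^ 2 * T * (b.im * x0 ^ 2 + 2 * T * b.re * x0 - b.im * T ^ 2)
          - 4 * N0' * (b.re * x0 - b.im * T) * (N0' * N0 - 1) := by
        rw [hκ, hR0, hN0]
        ring
      have h2 : (q : ℤ) ∣ 4 * N0' ^ 2 * T * (b.im * x0 ^ 2 + 2 * T * b.re * x0 - b.im * T ^ 2) := by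
        have : 4 * N0' ^ 2 * T * (b.im * x0 ^ 2 + 2 * T * b.re * x0 - b.im * T ^ 2) =
            κ + 4 * N0' * (b.re * x0 - b.im * T) * (N0' * N0 - 1) := by
          rw [h1]; ring
        rw [this]
        exact dvd_add hdvd (hqN.mul_left _)
      rcases hqp.dvd_or_dvd h2 with h3 | h3
      · rcases hqp.dvd_or_dvd h3 with h4 | h4
        · rcases hqp.dvd_or_dvd h4 with h5 | h5
          · have := Int.le_of_dvd (by norm_num) h5
            omega
          · have h6 := hqp.dvd_of_dvd_pow h5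
            have h7 : (q : ℤ) ∣ 1 := by
              have : (1 : ℤ) = N0' * N0 - (N0' * N0 - 1) := by ring
              rw [this]
              exact dvd_sub (h6.mul_right _) hqN
            exact hqp.not_isUnit (isUnit_of_dvd_one h7)
        · rw [hT] at h4
          have h5 := hqp.dvd_of_dvd_pow h4
          have := Int.le_of_dvd (by norm_num) h5
          omega
      · apply hy0
        have h4 : b.im * x0 ^ 2 + 2 ^ (n + 2) * b.re * x0 - b.im * 4 ^ (n + 1) =
            b.im * x0 ^ 2 + 2 * T * b.re * x0 - b.im * T ^ 2 := by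
          have h5 : (4 : ℤ) ^ (n + 1) = T ^ 2 := by
            rw [hT, ← pow_mul, mul_comm, pow_mul]
            norm_num
          rw [h5, hT]
          ring
        rw [h4]
        exact h3
    have hmain : ∀ j < q, Hit ((1 / 2 : ℝ) ^ (t + 1))
        (((R0 * N0' : ℤ) : ℝ) / (q * E) + ρ + (κ * j : ℤ) / q) →
        ATest n ((1 / 2) ^ (t + 1)) (q * E) b ρ (y0 + E * j) := by
      intro j _ hhit N' hN'
      have hdvd : ((q * E : ℕ) : ℤ) ∣ (b * pa n (y0 + E * j) ^ 2).re * N' -
          (R0 * N0' + E * (κ * j)) := by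
        rw [← ZMod.intCast_zmod_eq_zero_iff_dvd] at hN' ⊢
        have hee : ((E : ℤ) : ZMod (q * E)) * ((E : ℤ) : ZMod (q * E)) = 0 := by
          rw [← Int.cast_mul, ZMod.intCast_zmod_eq_zero_iff_dvd]
          push_cast
          exact mul_dvd_mul hqE' dvd_rfl
        have hn0 : (N0' : ZMod (q * E)) * (N0 : ZMod (q * E)) = 1 := by
          have := congrArg (Int.cast : ℤ → ZMod (q * E)) hN0'
          push_cast at this
          have h0 : (q : ZMod (q * E)) * (E : ZMod (q * E)) = 0 := by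
            rw [← Nat.cast_mul]
            exact ZMod.natCast_self _
          rw [h0] at this
          simpa using this
        rw [hNj] at hN'
        push_cast at hN' hee ⊢
        rw [re_mul_pa_sq, ← hT]
        have hR : b.re * ((2 * (y0 + E * j) + 1) ^ 2 - T ^ 2) - 2 * b.im * (2 * (y0 + E * j) + 1) * T
            = R0 + 4 * E * j * (b.re * x0 - b.im * T) + 4 * b.re * (E * E) * j ^ 2 := by
          rw [hR0, hx0]
          ring
        rw [hR, hκ]
        push_cast
        generalize (E : ZMod (q * E)) = e at *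
        generalize (N0' : ZMod (q * E)) = n0' at *
        generalize (N0 : ZMod (q * E)) = n0 at *
        generalize (N' : ZMod (q * E)) = n' at *
        generalize (x0 : ZMod (q * E)) = x at *
        generalize (j : ZMod (q * E)) = i at *
        generalize (R0 : ZMod (q * E)) = r0 at *
        generalize (b.re : ZMod (q * E)) = b1 at *
        generalize (b.im : ZMod (q * E)) = b2 at *
        generalize (T : ZMod (q * E)) = τ at *
        have ha : (n0 + e * (4 * x * i + 4 * e * i ^ 2)) * (n0' - 4 * e * x * i * n0' ^ 2) = 1 := by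
          linear_combination (1 - 4 * e * x * i * n0') * hn0 +
            (4 * i ^ 2 * (n0' - 4 * e * x * i * n0' ^ 2) - 16 * x ^ 2 * i ^ 2 * n0' ^ 2) * hee
        have hn' : n' = n0' - 4 * e * x * i * n0' ^ 2 := by
          have h1 : n' * (n0 + e * (4 * x * i + 4 * e * i ^ 2)) = 1 := by
            linear_combination hN'
          calc n' = n' * ((n0 + e * (4 * x * i + 4 * e * i ^ 2)) *
              (n0' - 4 * e * x * i * n0' ^ 2)) := by rw [ha, mul_one]
            _ = (n' * (n0 + e * (4 * x * i + 4 * e * i ^ 2))) *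
              (n0' - 4 * e * x * i * n0' ^ 2) := by ring
            _ = _ := by rw [h1, one_mul]
        rw [hn']
        linear_combination (4 * b1 * i ^ 2 * (n0' - 4 * e * x * i * n0' ^ 2) -
          16 * i ^ 2 * (b1 * x - b2 * τ) * x * n0' ^ 2) * hee
      obtain ⟨s, hs⟩ := hdvd
      have h1 : (((b * pa n (y0 + E * j) ^ 2).re * N' : ℤ) : ℝ) / ((q * E : ℕ) : ℝ) + ρ =
          (((R0 * N0' : ℤ) : ℝ) / (q * E) + ρ + (κ * j : ℤ) / q) + (s : ℤ) := by
        have h2 : (b * pa n (y0 + E * j) ^ 2).re * N' =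
            R0 * N0' + E * (κ * j) + ((q * E : ℕ) : ℤ) * s := by linarith
        rw [h2]
        push_cast
        field_simp
        ring
      rw [h1]
      exact hhit.add_int s
    have hap := hits_ap q hq κ hκq (((R0 * N0' : ℤ) : ℝ) / (q * E) + ρ) ((1 / 2 : ℝ) ^ (t + 1))
      (by positivity) (pow_le_one₀ (by norm_num) (by norm_num))
      (fun j => ATest n ((1 / 2) ^ (t + 1)) (q * E) b ρ (y0 + E * j)) hmain
    have hq' : (2 : ℝ) ^ (9 * t) < q := by exact_mod_cast hqt
    have h1 : (2 : ℝ) ^ (2 * t + 4) * ((1 / 2 : ℝ) ^ (t + 1) * q - 1) ≤ 2 ^ (2 * t + 4) *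
      ((range q).filter fun j : ℕ => ATest n ((1 / 2) ^ (t + 1)) (q * E) b ρ (y0 + E * j)).card :=
      mul_le_mul_of_nonneg_left hap (by positivity)
    refine le_trans ?_ h1
    have h2 : (2 : ℝ) ^ (2 * t + 4) * ((1 / 2 : ℝ) ^ (t + 1) * q - 1) =
        2 ^ (t + 3) * q - 2 ^ (2 * t + 4) := by
      have : (2 : ℝ) ^ (2 * t + 4) = 2 ^ (t + 3) * 2 ^ (t + 1) := by
        rw [← pow_add]
        congr 1
        ring
      rw [mul_sub, this, mul_one, one_div, inv_pow]
      field_simp
    rw [h2]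
    have h3 : (2 : ℝ) ^ (2 * t + 4) ≤ 2 ^ (9 * t) :=
      pow_le_pow_right₀ (by norm_num) (by omega)
    have h4 : (2 : ℝ) ≤ 2 ^ (t + 3) := by
      calc (2 : ℝ) = 2 ^ 1 := by norm_num
        _ ≤ _ := pow_le_pow_right₀ (by norm_num) (by omega)
    nlinarith
  · -- vacuous case
    have hall : ((range q).filter fun j : ℕ =>
        ATest n ((1 / 2) ^ (t + 1)) (q * E) b ρ (y0 + E * j)) = range q := by
      apply Finset.filter_true_of_mem
      intro j _ N' hN'
      exfalso
      apply hcop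
      obtain ⟨s, hs⟩ := hN'
      have h1 : IsCoprime (pa n (y0 + E * j)).norm (E : ℤ) := by
        refine ⟨N', -(q * s), ?_⟩
        push_cast at hs
        linear_combination hs
      rw [hNj] at h1
      have h2 : IsCoprime N0 (E : ℤ) := by
        exact IsCoprime.of_add_mul_left_left h1
      have h3 : IsCoprime N0 (q : ℤ) := h2.of_isCoprime_of_dvd_right hqE'
      push_cast
      exact h3.mul_right h2
    rw [hall, Finset.card_range]
    have : (1 : ℝ) ≤ 2 ^ (2 * t + 4) := one_le_pow₀ (by norm_num)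
    nlinarith

open Classical in
theorem block_dvd (t n q E : ℕ) (ht : 40 ≤ t) (hq : q.Prime) (hqt : 2 ^ (9 * t) < q)
    (hE : 0 < E) (hqE : q ∣ E) (b : GaussianInt) (hb : ¬ ((q : ℤ) ∣ b.re ∧ (q : ℤ) ∣ b.im))
    (ρ : ℝ) (y0 : ℤ)
    (hy0 : ¬ (q : ℤ) ∣ b.im * (2 * y0 + 1) ^ 2 + 2 ^ (n + 2) * b.re * (2 * y0 + 1)
        - b.im * 4 ^ (n + 1)) :
    (q : ℝ) ≤ 2 ^ (2 * t + 4) *
      ((range q).filter fun j => ATest n ((1 / 2) ^ (t + 1)) (q * E) b ρ (y0 + E * j)).card := by
  rw [card_filter_cast q (fun j => ATest n ((1 / 2) ^ (t + 1)) (q * E) b ρ (y0 + E * j))]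
  exact block_dvd_nat t n q E ht hq hqt hE hqE b hb ρ y0 hy0

end Pyj
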