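import Pool.Agent.Helper79.Pyj.Defs

/-! M4: shifting the box by words; first moment -/

namespace Pyj

open Complex Finset

theorem card_fiber_le {κ : Type*} [Fintype κ] {L : ℕ} (i : κ) (c : ℕ)
    (s : Finset (κ → Fin L)) (hs : ∀ e ∈ s, (e i : ℕ) = c) :
    s.card ≤ L ^ (Fintype.card κ - 1) := by
  classical
  have h1 : s.card ≤ (Finset.univ : Finset ({j // j ≠ i} → Fin L)).card := by
    apply Finset.card_le_card_of_injOn (fun (e : κ → Fin L) (j : {j // j ≠ i}) => e j)
    · intro e _
      simp
    · intro e he e' he' hee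
      funext j
      by_cases hj : j = i
      · subst hj
        exact Fin.ext ((hs e he).trans (hs e' he').symm)
      · exact congrFun hee ⟨j, hj⟩
  refine h1.trans (le_of_eq ?_)
  rw [Finset.card_univ, Fintype.card_fun, Fintype.card_fin, Fintype.card_subtype_compl,
    Fintype.card_subtype_eq]

theorem box_update {κ : Type*} [Fintype κ] [DecidableEq κ] (g : κ → ℂ) {L : ℕ} (e : κ → Fin L)
    (i : κ) (c : Fin L) (hc : (c : ℕ) = (e i : ℕ) + 1) :
    box g (Function.update e i c) = box g e * g i := by
  unfold box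
  rw [← Finset.mul_prod_erase Finset.univ _ (Finset.mem_univ i),
    ← Finset.mul_prod_erase Finset.univ (fun j => g j ^ (e j : ℕ)) (Finset.mem_univ i)]
  have : ∀ j ∈ Finset.univ.erase i, g j ^ ((Function.update e i c) j : ℕ) = g j ^ (e j : ℕ) := by
    intro j hj
    rw [Function.update_of_ne (Finset.ne_of_mem_erase hj)]
  rw [Finset.prod_congr rfl this, Function.update_self, hc, pow_succ]
  ring

theorem cnt_mul_gen {κ : Type*} [Fintype κ] (g : κ → ℂ) (L : ℕ) (P : ℂ → Prop) (i : κ) :
    cnt g L (fun x => P (x * g i)) ≤ cnt g L P + L ^ (Fintype.card κ - 1) := by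
  classical
  unfold cnt
  rw [← Finset.card_filter_add_card_filter_not (s := Finset.univ.filter fun e : κ → Fin L =>
    P (box g e * g i)) (fun e : κ → Fin L => (e i : ℕ) + 1 < L)]
  apply add_le_add
  · apply Finset.card_le_card_of_injOn
      (fun e => if h : (e i : ℕ) + 1 < L then Function.update e i ⟨(e i : ℕ) + 1, h⟩ else e)
    · intro e he
      simp only [Finset.coe_filter, Finset.mem_filter, Finset.mem_univ, true_and,
        Set.mem_ofPred_eq] at he ⊢
      rw [dif_pos he.2, box_update g e i ⟨(e i : ℕ) + 1, he.2⟩ rfl]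
      exact he.1
    · intro e he e' he' hee
      simp only [Finset.coe_filter, Finset.mem_filter, Finset.mem_univ, true_and,
        Set.mem_ofPred_eq] at he he' hee
      rw [dif_pos he.2, dif_pos he'.2] at hee
      funext j
      by_cases hj : j = i
      · subst hj
        have := congrFun hee j
        rw [Function.update_self, Function.update_self] at this
        have h2 := congrArg Fin.val this
        simp only at h2
        exact Fin.ext (by omega)
      · have := congrFun hee j
        rw [Function.update_of_ne hj, Function.update_of_ne hj] at this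
        exact this
  · apply card_fiber_le i (L - 1)
    intro e he
    simp only [Finset.mem_filter, Finset.mem_univ, true_and] at he
    have := (e i).2
    omega

theorem cnt_div_gen {κ : Type*} [Fintype κ] (g : κ → ℂ) (hg : ∀ i, g i ≠ 0) (L : ℕ)
    (P : ℂ → Prop) (i : κ) :
    cnt g L (fun x => P (x * (g i)⁻¹)) ≤ cnt g L P + L ^ (Fintype.card κ - 1) := by
  classical
  unfold cnt
  rw [← Finset.card_filter_add_card_filter_not (s := Finset.univ.filter fun e : κ → Fin L =>
    P (box g e * (g i)⁻¹)) (fun e : κ → Fin L => 0 < (e i : ℕ))]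
  apply add_le_add
  · apply Finset.card_le_card_of_injOn
      (fun e => Function.update e i ⟨(e i : ℕ) - 1, by have := (e i).2; omega⟩)
    · intro e he
      simp only [Finset.coe_filter, Finset.mem_filter, Finset.mem_univ, true_and,
        Set.mem_ofPred_eq] at he ⊢
      have h1 : box g e = box g (Function.update e i ⟨(e i : ℕ) - 1, by have := (e i).2; omega⟩)
          * g i := by
        rw [← box_update g (Function.update e i ⟨(e i : ℕ) - 1, by have := (e i).2; omega⟩) i (e i)
          (by rw [Function.update_self]; simp only; omega), Function.update_idem,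
          Function.update_eq_self]
      have h2 := he.1
      rw [h1, mul_assoc, mul_inv_cancel₀ (hg i), mul_one] at h2
      exact h2
    · intro e he e' he' hee
      simp only [Finset.coe_filter, Finset.mem_filter, Finset.mem_univ, true_and,
        Set.mem_ofPred_eq] at he he' hee
      funext j
      by_cases hj : j = i
      · subst hj
        have := congrFun hee j
        rw [Function.update_self, Function.update_self] at this
        have h2 := congrArg Fin.val this
        simp only at h2
        exact Fin.ext (by omega)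
      · have := congrFun hee j
        rw [Function.update_of_ne hj, Function.update_of_ne hj] at this
        exact this
  · apply card_fiber_le i 0
    intro e he
    simp only [Finset.mem_filter, Finset.mem_univ, true_and] at he
    omega

theorem cnt_word {κ : Type*} [Fintype κ] (g : κ → ℂ) (hg : ∀ i, g i ≠ 0) (L : ℕ)
    (P : ℂ → Prop) {n : ℕ} {v : ℂ} (hv : Word g n v) :
    cnt g L (fun x => P (x * v)) ≤ cnt g L P + n * L ^ (Fintype.card κ - 1) := by
  induction hv generalizing P with
  | one n =>
    simp only [mul_one]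
    exact Nat.le_add_right _ _
  | @mul n v i h ih =>
    have h1 := ih (fun y => P (y * g i))
    have h2 := cnt_mul_gen g L P i
    have h3 : cnt g L (fun x => P (x * (v * g i))) = cnt g L (fun x => P (x * v * g i)) := by
      congr 1
      funext x
      rw [mul_assoc]
    rw [h3]
    calc cnt g L (fun x => P (x * v * g i)) ≤ _ := h1
      _ ≤ (cnt g L P + L ^ (Fintype.card κ - 1)) + n * L ^ (Fintype.card κ - 1) :=
        Nat.add_le_add_right h2 _
      _ = _ := by ring
  | @div n v i h ih =>
    have h1 := ih (fun y => P (y * (g i)⁻¹))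
    have h2 := cnt_div_gen g hg L P i
    have h3 : cnt g L (fun x => P (x * (v * (g i)⁻¹))) = cnt g L (fun x => P (x * v * (g i)⁻¹)) := by
      congr 1
      funext x
      rw [mul_assoc]
    rw [h3]
    calc cnt g L (fun x => P (x * v * (g i)⁻¹)) ≤ _ := h1
      _ ≤ (cnt g L P + L ^ (Fintype.card κ - 1)) + n * L ^ (Fintype.card κ - 1) :=
        Nat.add_le_add_right h2 _
      _ = _ := by ring

theorem Word.mono {κ : Type*} {g : κ → ℂ} {n m : ℕ} {v : ℂ} (h : Word g n v) (hnm : n ≤ m) :
    Word g m v := by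
  induction h generalizing m with
  | one n => exact Word.one m
  | @mul n v i h ih =>
    obtain ⟨m', rfl⟩ : ∃ m', m = m' + 1 := ⟨m - 1, by omega⟩
    exact Word.mul i (ih (by omega))
  | @div n v i h ih =>
    obtain ⟨m', rfl⟩ : ∃ m', m = m' + 1 := ⟨m - 1, by omega⟩
    exact Word.div i (ih (by omega))

theorem Word.append {κ : Type*} {g : κ → ℂ} {n m : ℕ} {v v' : ℂ} (h : Word g n v)
    (h' : Word g m v') : Word g (n + m) (v * v') := by
  induction h' with
  | one m =>
    rw [mul_one]
    exact h.mono (Nat.le_add_right _ _)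
  | @mul m v' i h' ih =>
    rw [← mul_assoc]
    exact Word.mul i ih
  | @div m v' i h' ih =>
    rw [← mul_assoc]
    exact Word.div i ih

theorem Word.inv {κ : Type*} {g : κ → ℂ} {n : ℕ} {v : ℂ} (h : Word g n v) : Word g n v⁻¹ := by
  induction h with
  | one n =>
    rw [inv_one]
    exact Word.one n
  | @mul m v' i h' ih =>
    rw [mul_inv]
    exact Word.div i ih
  | @div m v' i h' ih =>
    rw [mul_inv, inv_inv]
    exact Word.mul i ih

theorem Word.gen {κ : Type*} (g : κ → ℂ) (i : κ) : Word g 1 (g i) := by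
  have := Word.mul i (Word.one (g := g) 0)
  rwa [one_mul] at this

theorem Word.pow {κ : Type*} {g : κ → ℂ} {n : ℕ} {v : ℂ} (h : Word g n v) (m : ℕ) :
    Word g (m * n) (v ^ m) := by
  induction m with
  | zero =>
    rw [pow_zero]
    exact Word.one _
  | succ m ih =>
    rw [pow_succ, Nat.succ_mul]
    exact ih.append h

theorem Word.zpow {κ : Type*} {g : κ → ℂ} {n : ℕ} {v : ℂ} (h : Word g n v) (j : ℤ) (m : ℕ)
    (hj : |j| ≤ m) : Word g (m * n) (v ^ j) := by
  have h1 : j.natAbs ≤ m := by
    rw [Int.abs_eq_natAbs] at hj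
    exact_mod_cast hj
  have h2 : Word g (m * n) (v ^ j.natAbs) := (h.pow j.natAbs).mono (Nat.mul_le_mul_right _ h1)
  rcases Int.natAbs_eq j with hj' | hj'
  · rw [hj', zpow_natCast]
    exact h2
  · rw [hj', zpow_neg, zpow_natCast]
    exact h2.inv

theorem Word.prod {κ : Type*} {g : κ → ℂ} {n : ℕ} {σ : Type*} (S : Finset σ) (v : σ → ℂ)
    (h : ∀ s ∈ S, Word g n (v s)) : Word g (S.card * n) (∏ s ∈ S, v s) := by
  classical
  induction S using Finset.induction_on with
  | empty =>
    rw [Finset.prod_empty]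
    exact Word.one _
  | insert a S ha ih =>
    rw [Finset.prod_insert ha, Finset.card_insert_of_notMem ha, mul_comm (v a), Nat.succ_mul]
    exact (ih fun s hs => h s (Finset.mem_insert_of_mem hs)).append (h a (Finset.mem_insert_self _ _))

/-- The number of exponents `e` such that `box e` shifted by the word `v` is a hit. -/
theorem cnt_hit {κ : Type*} [Fintype κ] [Nonempty κ] (g : κ → ℂ) (hg : ∀ i, g i ≠ 0)
    (L : ℕ) (hL : 0 < L) (ε p0 : ℝ) (z : ℂ) (N : ℕ)
    (hz : (cnt g L (fun x => Hit ε (z * x).re) : ℝ) ≤ p0 * (L : ℝ) ^ Fintype.card κ)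
    (v : ℂ) (hv : Word g N v) :
    (cnt g L (fun x => Hit ε (z * x * v).re) : ℝ) ≤ (p0 + N / L) * (L : ℝ) ^ Fintype.card κ := by
  have h1 := cnt_word g hg L (fun x => Hit ε (z * x).re) hv
  have h2 : cnt g L (fun x => Hit ε (z * x * v).re) = cnt g L (fun x => Hit ε (z * (x * v)).re) := by
    congr 1
    funext x
    rw [mul_assoc]
  rw [h2]
  have h3 : ((cnt g L (fun x => Hit ε (z * (x * v)).re) : ℕ) : ℝ) ≤
      (cnt g L (fun x => Hit ε (z * x).re) : ℝ) + N * (L : ℝ) ^ (Fintype.card κ - 1) := by
    exact_mod_cast h1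
  have hk : 0 < Fintype.card κ := Fintype.card_pos
  have hL' : (0 : ℝ) < L := by exact_mod_cast hL
  have h4 : (N : ℝ) / L * (L : ℝ) ^ Fintype.card κ = N * (L : ℝ) ^ (Fintype.card κ - 1) := by
    obtain ⟨k, hk'⟩ : ∃ k, Fintype.card κ = k + 1 := ⟨Fintype.card κ - 1, by omega⟩
    rw [hk', Nat.add_sub_cancel, pow_succ]
    field_simp
  rw [add_mul, h4]
  linarith

open Classical in
theorem good_point {κ : Type*} [Fintype κ] [Nonempty κ] (g : κ → ℂ) (hg : ∀ i, ‖g i‖ = 1)
    (L : ℕ) (hL : 0 < L)
    {ι : Type*} [Fintype ι] [Nonempty ι] (w : ι → ℂ) (n1 : ℕ) (hw : ∀ i, Word g n1 (w i))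
    (Us : Finset ℂ) (n2 : ℕ) (hU : ∀ u ∈ Us, Word g n2 u)
    {σ : Type*} (𝒮 : Finset σ) (h𝒮 : 𝒮.Nonempty) (v : σ → ℂ) (n3 : ℕ)
    (hv : ∀ S ∈ 𝒮, Word g n3 (v S))
    (V : Finset ℂ) (n4 : ℕ) (hV : ∀ v' ∈ V, Word g n4 v')
    (Wf : Finset ℂ) (n5 : ℕ) (hWf : ∀ w' ∈ Wf, Word g n5 w')
    (ε τ p0 : ℝ) (hτ : 0 < τ) (z : ℂ) (N : ℕ) (hN : n1 + n2 + n3 + n4 + n5 ≤ N)
    (hz : (cnt g L (fun x => Hit ε (z * x).re) : ℝ) ≤ p0 * (L : ℝ) ^ Fintype.card κ)
    (hsmall : (Wf.card + 2 * V.card * Us.card / τ) * (p0 + N / L) < 1) :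
    ∃ z0 : ℂ, (∀ w' ∈ Wf, ¬ Hit ε (z0 * w').re) ∧
      ∀ v' ∈ V, 𝒮.card < 2 * (𝒮.filter fun S => ∀ u ∈ Us, BadW w ε τ (z0 * v' * v S * u)).card := by
  have hg0 : ∀ i, g i ≠ 0 := by
    intro i h
    have := hg i
    rw [h, norm_zero] at this
    norm_num at this
  have hL' : (0 : ℝ) < L := by exact_mod_cast hL
  set B : ℝ := (L : ℝ) ^ Fintype.card κ with hB
  have hBpos : 0 < B := by positivity
  set p1 : ℝ := p0 + N / L with hp1
  have hcnt : ∀ u : ℂ, Word g N u →
      (cnt g L (fun x => Hit ε (z * x * u).re) : ℝ) ≤ p1 * B :=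
    fun u hu => cnt_hit g hg0 L hL ε p0 z N hz u hu
  have hι : (0 : ℝ) < Fintype.card ι := by exact_mod_cast Fintype.card_pos
  -- Markov for one word
  have hM : ∀ u : ℂ, (∀ i, Word g N (u * w i)) →
      (((Finset.univ.filter fun e : κ → Fin L => ¬ BadW w ε τ (z * box g e * u)).card : ℕ) : ℝ)
        * τ ≤ p1 * B := by
    intro u hu
    have h1 : (((Finset.univ.filter fun e : κ → Fin L =>
        ¬ BadW w ε τ (z * box g e * u)).card : ℕ) : ℝ) * (τ * Fintype.card ι) ≤
        ∑ e : κ → Fin L, ((Finset.univ.filter fun i =>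
          Hit ε (z * box g e * u * w i).re).card : ℝ) := by
      rw [← nsmul_eq_mul, ← Finset.sum_const]
      refine (Finset.sum_le_sum ?_).trans (Finset.sum_le_sum_of_subset_of_nonneg
        (Finset.filter_subset _ _) ?_)
      · intro e he
        rw [Finset.mem_filter] at he
        have := he.2
        unfold BadW at this
        push Not at this
        exact this.le
      · intro e _ _
        positivity
    have h2 : ∑ e : κ → Fin L, ((Finset.univ.filter fun i =>
          Hit ε (z * box g e * u * w i).re).card : ℝ) =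
        ∑ i : ι, (cnt g L (fun x => Hit ε (z * x * (u * w i)).re) : ℝ) := by
      unfold cnt
      simp_rw [Finset.card_filter]
      push_cast
      rw [Finset.sum_comm]
      simp_rw [mul_assoc]
    have h3 : ∑ i : ι, (cnt g L (fun x => Hit ε (z * x * (u * w i)).re) : ℝ) ≤
        Fintype.card ι * (p1 * B) := by
      have := Finset.sum_le_card_nsmul (Finset.univ : Finset ι)
        (fun i => (cnt g L (fun x => Hit ε (z * x * (u * w i)).re) : ℝ)) (p1 * B)
        (fun i _ => hcnt _ (hu i))
      rw [nsmul_eq_mul, Finset.card_univ] at this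
      exact this
    have h4 : ((((Finset.univ.filter fun e : κ → Fin L =>
        ¬ BadW w ε τ (z * box g e * u)).card : ℕ) : ℝ) * τ) * Fintype.card ι ≤
        (p1 * B) * Fintype.card ι := by
      calc _ = (((Finset.univ.filter fun e : κ → Fin L =>
        ¬ BadW w ε τ (z * box g e * u)).card : ℕ) : ℝ) * (τ * Fintype.card ι) := by ring
        _ ≤ _ := h1
        _ = _ := h2
        _ ≤ _ := h3
        _ = _ := by ring
    exact le_of_mul_le_mul_right h4 hι
  -- the events
  set G : ℂ → ℂ → Finset σ := fun z0 v' =>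
    𝒮.filter fun S => ∀ u ∈ Us, BadW w ε τ (z0 * v' * v S * u) with hGdef
  have hE2 : ∀ v' ∈ V, (((Finset.univ.filter fun e : κ → Fin L =>
      2 * (G (z * box g e) v').card ≤ 𝒮.card).card : ℕ) : ℝ) * τ ≤ 2 * Us.card * (p1 * B) := by
    intro v' hv'
    have h𝒮c : (0 : ℝ) < 𝒮.card := by exact_mod_cast h𝒮.card_pos
    have h1 : (((Finset.univ.filter fun e : κ → Fin L =>
      2 * (G (z * box g e) v').card ≤ 𝒮.card).card : ℕ) : ℝ) * 𝒮.card ≤
        ∑ e : κ → Fin L, 2 * ∑ S ∈ 𝒮, ∑ u ∈ Us,
          (if ¬ BadW w ε τ (z * box g e * v' * v S * u) then (1 : ℝ) else 0) := by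
      rw [← nsmul_eq_mul, ← Finset.sum_const]
      refine (Finset.sum_le_sum ?_).trans (Finset.sum_le_sum_of_subset_of_nonneg
        (Finset.filter_subset _ _) ?_)
      · intro e he
        rw [Finset.mem_filter] at he
        have h2 := he.2
        have h3 : (G (z * box g e) v').card +
            (𝒮.filter fun S => ¬ ∀ u ∈ Us, BadW w ε τ (z * box g e * v' * v S * u)).card
              = 𝒮.card := by
          rw [hGdef]
          exact Finset.card_filter_add_card_filter_not (s := 𝒮) _
        have h4 : 𝒮.card ≤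
            2 * (𝒮.filter fun S => ¬ ∀ u ∈ Us, BadW w ε τ (z * box g e * v' * v S * u)).card := by
          omega
        have h5 : ((𝒮.filter fun S =>
            ¬ ∀ u ∈ Us, BadW w ε τ (z * box g e * v' * v S * u)).card : ℝ) ≤
            ∑ S ∈ 𝒮, ∑ u ∈ Us,
              (if ¬ BadW w ε τ (z * box g e * v' * v S * u) then (1 : ℝ) else 0) := by
          rw [Finset.card_filter]
          push_cast
          apply Finset.sum_le_sum
          intro S _
          split_ifs with hS
          · apply Finset.sum_nonneg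
            intro i _
            split_ifs <;> norm_num
          · push Not at hS
            obtain ⟨u, hu, hbad⟩ := hS
            have := Finset.single_le_sum (f := fun u =>
              (if ¬ BadW w ε τ (z * box g e * v' * v S * u) then (1 : ℝ) else 0))
              (fun i _ => by split_ifs <;> norm_num) hu
            simp only [hbad, not_false_eq_true, if_true] at this
            exact this
        have h6 : (𝒮.card : ℝ) ≤ 2 * ((𝒮.filter fun S =>
            ¬ ∀ u ∈ Us, BadW w ε τ (z * box g e * v' * v S * u)).card : ℝ) := by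
          exact_mod_cast h4
        linarith
      · intro e _ _
        have : ∀ S ∈ 𝒮, 0 ≤ ∑ u ∈ Us,
            (if ¬ BadW w ε τ (z * box g e * v' * v S * u) then (1 : ℝ) else 0) :=
          fun S _ => Finset.sum_nonneg fun u _ => by split_ifs <;> norm_num
        have := Finset.sum_nonneg this
        positivity
    have h2 : ∑ e : κ → Fin L, 2 * ∑ S ∈ 𝒮, ∑ u ∈ Us,
          (if ¬ BadW w ε τ (z * box g e * v' * v S * u) then (1 : ℝ) else 0) =
        2 * ∑ S ∈ 𝒮, ∑ u ∈ Us, (((Finset.univ.filter fun e : κ → Fin L =>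
          ¬ BadW w ε τ (z * box g e * (v' * v S * u))).card : ℕ) : ℝ) := by
      rw [← Finset.mul_sum, Finset.sum_comm]
      congr 1
      apply Finset.sum_congr rfl
      intro S _
      rw [Finset.sum_comm]
      apply Finset.sum_congr rfl
      intro u _
      rw [Finset.card_filter]
      push_cast
      simp_rw [mul_assoc]
    have h3 : (∑ S ∈ 𝒮, ∑ u ∈ Us, (((Finset.univ.filter fun e : κ → Fin L =>
          ¬ BadW w ε τ (z * box g e * (v' * v S * u))).card : ℕ) : ℝ)) * τ ≤
        𝒮.card * (Us.card * (p1 * B)) := by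
      rw [Finset.sum_mul]
      have : ∀ S ∈ 𝒮, (∑ u ∈ Us, (((Finset.univ.filter fun e : κ → Fin L =>
          ¬ BadW w ε τ (z * box g e * (v' * v S * u))).card : ℕ) : ℝ)) * τ ≤
          Us.card * (p1 * B) := by
        intro S hS
        rw [Finset.sum_mul]
        have := Finset.sum_le_card_nsmul Us
          (fun u => (((Finset.univ.filter fun e : κ → Fin L =>
          ¬ BadW w ε τ (z * box g e * (v' * v S * u))).card : ℕ) : ℝ) * τ) (p1 * B) ?_
        · rw [nsmul_eq_mul] at this
          exact this
        · intro u hu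
          apply hM
          intro i
          have := (((hV v' hv').append (hv S hS)).append (hU u hu)).append (hw i)
          exact this.mono (by omega)
      have := Finset.sum_le_card_nsmul 𝒮 _ _ this
      rw [nsmul_eq_mul] at this
      exact this
    have h4 : ((((Finset.univ.filter fun e : κ → Fin L =>
      2 * (G (z * box g e) v').card ≤ 𝒮.card).card : ℕ) : ℝ) * τ) * 𝒮.card ≤
        (2 * Us.card * (p1 * B)) * 𝒮.card := by
      calc _ = ((((Finset.univ.filter fun e : κ → Fin L =>
      2 * (G (z * box g e) v').card ≤ 𝒮.card).card : ℕ) : ℝ) * 𝒮.card) * τ := by ring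
        _ ≤ (∑ e : κ → Fin L, 2 * ∑ S ∈ 𝒮, ∑ u ∈ Us,
          (if ¬ BadW w ε τ (z * box g e * v' * v S * u) then (1 : ℝ) else 0)) * τ :=
            mul_le_mul_of_nonneg_right h1 hτ.le
        _ = 2 * ((∑ S ∈ 𝒮, ∑ u ∈ Us, (((Finset.univ.filter fun e : κ → Fin L =>
          ¬ BadW w ε τ (z * box g e * (v' * v S * u))).card : ℕ) : ℝ)) * τ) := by
            rw [h2]; ring
        _ ≤ 2 * (𝒮.card * (Us.card * (p1 * B))) := by linarith
        _ = _ := by ring
    exact le_of_mul_le_mul_right h4 h𝒮c
  have hE3 : (((Finset.univ.filter fun e : κ → Fin L =>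
      ∃ w' ∈ Wf, Hit ε (z * box g e * w').re).card : ℕ) : ℝ) ≤ Wf.card * (p1 * B) := by
    have h1 : (((Finset.univ.filter fun e : κ → Fin L =>
      ∃ w' ∈ Wf, Hit ε (z * box g e * w').re).card : ℕ) : ℝ) ≤
        ∑ w' ∈ Wf, (cnt g L (fun x => Hit ε (z * x * w').re) : ℝ) := by
      have : (Finset.univ.filter fun e : κ → Fin L =>
          ∃ w' ∈ Wf, Hit ε (z * box g e * w').re) ⊆
          Wf.biUnion fun w' => Finset.univ.filter fun e : κ → Fin L =>
            Hit ε (z * box g e * w').re := by
        intro e he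
        simp only [Finset.mem_filter, Finset.mem_univ, true_and, Finset.mem_biUnion] at he ⊢
        exact he
      have h2 := (Finset.card_le_card this).trans Finset.card_biUnion_le
      unfold cnt
      exact_mod_cast h2
    refine h1.trans ?_
    have := Finset.sum_le_card_nsmul Wf
      (fun w' => (cnt g L (fun x => Hit ε (z * x * w').re) : ℝ)) (p1 * B)
      (fun w' hw' => hcnt w' ((hWf w' hw').mono (by omega)))
    rw [nsmul_eq_mul] at this
    exact this
  -- conclusion
  by_contra hcon
  push Not at hcon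
  have hall : ∀ e : κ → Fin L, e ∈ (Finset.univ.filter fun e : κ → Fin L =>
      ∃ w' ∈ Wf, Hit ε (z * box g e * w').re) ∪
      V.biUnion fun v' => Finset.univ.filter fun e : κ → Fin L =>
        2 * (G (z * box g e) v').card ≤ 𝒮.card := by
    intro e
    by_cases h : ∀ w' ∈ Wf, ¬ Hit ε (z * box g e * w').re
    · obtain ⟨v', hv', h'⟩ := hcon (z * box g e) h
      rw [Finset.mem_union]
      right
      simp only [Finset.mem_filter, Finset.mem_univ, true_and, Finset.mem_biUnion]
      exact ⟨v', hv', h'⟩
    · push Not at h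
      rw [Finset.mem_union]
      left
      simp only [Finset.mem_filter, Finset.mem_univ, true_and]
      exact h
  have hc1 : B ≤ (((Finset.univ.filter fun e : κ → Fin L =>
      ∃ w' ∈ Wf, Hit ε (z * box g e * w').re).card : ℕ) : ℝ) +
      ∑ v' ∈ V, (((Finset.univ.filter fun e : κ → Fin L =>
        2 * (G (z * box g e) v').card ≤ 𝒮.card).card : ℕ) : ℝ) := by
    have h1 : (Finset.univ : Finset (κ → Fin L)).card ≤ _ :=
      Finset.card_le_card (fun e _ => hall e)
    have h2 := h1.trans ((Finset.card_union_le _ _).trans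
      (Nat.add_le_add_left Finset.card_biUnion_le _))
    rw [Finset.card_univ, Fintype.card_fun, Fintype.card_fin] at h2
    rw [hB]
    exact_mod_cast h2
  have hc2 : (∑ v' ∈ V, (((Finset.univ.filter fun e : κ → Fin L =>
        2 * (G (z * box g e) v').card ≤ 𝒮.card).card : ℕ) : ℝ)) ≤
      V.card * (2 * Us.card * (p1 * B) / τ) := by
    have := Finset.sum_le_card_nsmul V
      (fun v' => (((Finset.univ.filter fun e : κ → Fin L =>
        2 * (G (z * box g e) v').card ≤ 𝒮.card).card : ℕ) : ℝ)) (2 * Us.card * (p1 * B) / τ) ?_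
    · rw [nsmul_eq_mul] at this
      exact this
    · intro v' hv'
      rw [le_div_iff₀ hτ]
      exact hE2 v' hv'
  have hc3 : B ≤ ((Wf.card + 2 * V.card * Us.card / τ) * p1) * B := by
    calc B ≤ _ := hc1
      _ ≤ Wf.card * (p1 * B) + V.card * (2 * Us.card * (p1 * B) / τ) := add_le_add hE3 hc2
      _ = _ := by ring
  have hc4 : ((Wf.card + 2 * V.card * Us.card / τ) * p1) * B < 1 * B :=
    mul_lt_mul_of_pos_right hsmall hBpos
  linarith

end Pyj
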