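import Pool.Agent.Helper79.Pyj.Defs

/-! M1: greedy covering -/

namespace Pyj

open Complex Finset

private lemma two_mul_pow_le (m : ℕ) : 2 * m ^ (m + 1) ≤ (m + 1) ^ (m + 1) := by
  rcases Nat.eq_zero_or_pos m with rfl | hm
  · norm_num
  · have hm' : (0 : ℝ) < m := by exact_mod_cast hm
    have h1 : 1 + ((m + 1 : ℕ) : ℝ) * (1 / m) ≤ (1 + 1 / (m : ℝ)) ^ (m + 1) :=
      one_add_mul_le_pow (by
        have : (0 : ℝ) < 1 / m := by positivity
        linarith) _
    have h2 : (2 : ℝ) ≤ (1 + 1 / (m : ℝ)) ^ (m + 1) := by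
      refine le_trans ?_ h1
      push_cast
      have : ((m : ℝ) + 1) * (1 / m) = 1 + 1 / m := by field_simp
      rw [this]
      have : (0 : ℝ) < 1 / m := by positivity
      linarith
    have h3 : ((m : ℝ) + 1) ^ (m + 1) = (1 + 1 / (m : ℝ)) ^ (m + 1) * (m : ℝ) ^ (m + 1) := by
      rw [← mul_pow]
      congr 1
      field_simp
    have h4 : (2 : ℝ) * (m : ℝ) ^ (m + 1) ≤ ((m : ℝ) + 1) ^ (m + 1) := by
      rw [h3]
      exact mul_le_mul_of_nonneg_right h2 (by positivity)
    exact_mod_cast h4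

open Classical in
private lemma greedy_step {α β : Type*} (A : Finset α) (T : Finset β) (h : β → α → Prop)
    (k0 : ℕ) (hne : A.Nonempty)
    (hA : ∀ t ∈ T, A.card ≤ k0 * (A.filter (h t)).card) :
    ∃ a ∈ A, T.card ≤ k0 * (T.filter fun t => h t a).card := by
  by_contra hcon
  push Not at hcon
  have h1 : ∑ a ∈ A, (T.filter fun t => h t a).card = ∑ t ∈ T, (A.filter (h t)).card := by
    have e1 : ∀ a ∈ A, (T.filter fun t => h t a).card = ∑ t ∈ T, if h t a then 1 else 0 := by
      intro a _; rw [card_filter]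
    have e2 : ∀ t ∈ T, (A.filter (h t)).card = ∑ a ∈ A, if h t a then 1 else 0 := by
      intro t _; rw [card_filter]
    rw [sum_congr rfl e1, sum_congr rfl e2, sum_comm]
  have h2 : T.card * A.card ≤ k0 * ∑ t ∈ T, (A.filter (h t)).card := by
    rw [mul_sum, ← smul_eq_mul, ← sum_const]
    exact sum_le_sum hA
  have h3 : k0 * ∑ a ∈ A, (T.filter fun t => h t a).card < A.card * T.card := by
    rw [mul_sum, ← smul_eq_mul, ← sum_const]
    exact sum_lt_sum_of_nonempty hne hcon
  rw [h1] at h3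
  rw [mul_comm] at h2
  omega

open Classical in
private lemma greedy_many {α β : Type*} (A : Finset α) (T : Finset β) (h : β → α → Prop)
    (k0 : ℕ) (hk : 1 ≤ k0) (hne : A.Nonempty)
    (hA : ∀ t ∈ T, A.card ≤ k0 * (A.filter (h t)).card) (j : ℕ) :
    ∃ W ⊆ A, W.card ≤ j ∧
      k0 ^ j * (T.filter fun t => ∀ a ∈ W, ¬ h t a).card ≤ (k0 - 1) ^ j * T.card := by
  induction j with
  | zero => exact ⟨∅, by simp, by simp, by simp⟩
  | succ j ih =>
    obtain ⟨W, hW, hc, hr⟩ := ih
    set T' := T.filter fun t => ∀ a ∈ W, ¬ h t a with hT'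
    obtain ⟨a, ha, hh⟩ := greedy_step A T' h k0 hne
      (fun t ht => hA t (mem_filter.1 ht).1)
    refine ⟨insert a W, insert_subset ha hW, (card_insert_le _ _).trans (by omega), ?_⟩
    have e1 : (T.filter fun t => ∀ b ∈ insert a W, ¬ h t b) = T'.filter fun t => ¬ h t a := by
      ext t
      simp only [hT', mem_filter, mem_insert, forall_eq_or_imp]
      tauto
    rw [e1]
    have e2 := card_filter_add_card_filter_not (s := T') (fun t => h t a)
    have e3 : k0 * (T'.filter fun t => ¬ h t a).card ≤ (k0 - 1) * T'.card := by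
      have : k0 * T'.card = k0 * (T'.filter fun t => h t a).card +
          k0 * (T'.filter fun t => ¬ h t a).card := by rw [← mul_add, e2]
      obtain ⟨k, rfl⟩ : ∃ k, k0 = k + 1 := ⟨k0 - 1, by omega⟩
      simp only [Nat.add_sub_cancel]
      have h5 : (k + 1) * T'.card = k * T'.card + T'.card := by ring
      omega
    calc k0 ^ (j + 1) * (T'.filter fun t => ¬ h t a).card
        = k0 ^ j * (k0 * (T'.filter fun t => ¬ h t a).card) := by ring
      _ ≤ k0 ^ j * ((k0 - 1) * T'.card) := Nat.mul_le_mul_left _ e3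
      _ = (k0 - 1) * (k0 ^ j * T'.card) := by ring
      _ ≤ (k0 - 1) * ((k0 - 1) ^ j * T.card) := Nat.mul_le_mul_left _ hr
      _ = (k0 - 1) ^ (j + 1) * T.card := by ring

open Classical in
theorem greedy_cover {α β : Type*} (A : Finset α) (T : Finset β) (h : β → α → Prop) (k0 l : ℕ)
    (hne : A.Nonempty) (hT : T.card < 2 ^ l)
    (hA : ∀ t ∈ T, A.card ≤ k0 * (A.filter (h t)).card) :
    ∃ W ⊆ A, W.card ≤ k0 * l ∧ ∀ t ∈ T, ∃ a ∈ W, h t a := by
  induction l generalizing T with
  | zero =>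
    refine ⟨∅, by simp, by simp, fun t ht => ?_⟩
    have : T = ∅ := card_eq_zero.1 (by simpa using hT)
    rw [this] at ht; simp at ht
  | succ l ih =>
    rcases T.eq_empty_or_nonempty with h0 | ⟨t0, ht0⟩
    · exact ⟨∅, by simp, by simp, fun t ht => by rw [h0] at ht; simp at ht⟩
    have hk : 1 ≤ k0 := by
      by_contra hcon
      have : k0 = 0 := by omega
      have h1 := hA t0 ht0
      rw [this, zero_mul] at h1
      have := hne.card_pos
      omega
    obtain ⟨W, hW, hc, hr⟩ := greedy_many A T h k0 hk hne hA k0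
    set T' := T.filter fun t => ∀ a ∈ W, ¬ h t a with hT'
    have h1 : 2 * T'.card ≤ T.card := by
      obtain ⟨m, rfl⟩ : ∃ m, k0 = m + 1 := ⟨k0 - 1, by omega⟩
      simp only [Nat.add_sub_cancel] at hr
      have h2 := two_mul_pow_le m
      have hpos : 0 < (m + 1) ^ (m + 1) := by positivity
      have h3 : (m + 1) ^ (m + 1) * (2 * T'.card) ≤ (m + 1) ^ (m + 1) * T.card := by
        calc (m + 1) ^ (m + 1) * (2 * T'.card) = 2 * ((m + 1) ^ (m + 1) * T'.card) := by ring
          _ ≤ 2 * (m ^ (m + 1) * T.card) := Nat.mul_le_mul_left _ hr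
          _ = (2 * m ^ (m + 1)) * T.card := by ring
          _ ≤ (m + 1) ^ (m + 1) * T.card := Nat.mul_le_mul_right _ h2
      exact Nat.le_of_mul_le_mul_left h3 hpos
    obtain ⟨W', hW', hc', hr'⟩ := ih T' (by rw [pow_succ] at hT; omega)
      (fun t ht => hA t (mem_filter.1 ht).1)
    refine ⟨W ∪ W', union_subset hW hW', (card_union_le _ _).trans (by
      rw [mul_add, mul_one]; omega), fun t ht => ?_⟩
    by_cases hcov : ∃ a ∈ W, h t a
    · obtain ⟨a, ha, hta⟩ := hcov
      exact ⟨a, mem_union_left _ ha, hta⟩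
    · push Not at hcov
      obtain ⟨a, ha, hta⟩ := hr' t (mem_filter.2 ⟨ht, hcov⟩)
      exact ⟨a, mem_union_right _ ha, hta⟩

end Pyj
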