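import Pool.Agent.Helper79.Pyj.Defs
import Pool.Agent.Helper79.Pyj.Greedy

/-! M11: the quadratic fields -/

namespace Pyj

open Complex Finset

open Classical in
private lemma count_qr (q k X : ℕ) (hq : q.Prime) (hX : k * q ≤ X) :
    k * ((q - 1) / 2) ≤
      ((Icc 1 X).filter fun d => ∃ x : ℕ, 1 ≤ x ∧ x < q ∧ q ∣ x ^ 2 + d).card := by
  have h2 := hq.two_le
  have hndvd : ∀ x ∈ Icc 1 ((q - 1) / 2), 0 < x ^ 2 % q := by
    intro x hx
    rw [mem_Icc] at hx
    rw [Nat.pos_iff_ne_zero]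
    intro h0
    have h1 : q ∣ x := hq.dvd_of_dvd_pow (Nat.dvd_of_mod_eq_zero h0)
    have := Nat.le_of_dvd (by omega) h1
    omega
  have hc : (range k ×ˢ Icc 1 ((q - 1) / 2)).card = k * ((q - 1) / 2) := by
    rw [card_product, card_range, Nat.card_Icc]; simp
  rw [← hc]
  apply card_le_card_of_injOn (fun p : ℕ × ℕ => p.1 * q + (q - p.2 ^ 2 % q))
  · rintro ⟨j, x⟩ hp
    rw [mem_coe, mem_product, mem_range] at hp
    obtain ⟨hj, hx⟩ := hp
    have hpos := hndvd x hx
    rw [mem_Icc] at hx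
    have hlt : x ^ 2 % q < q := Nat.mod_lt _ (by omega)
    simp only [coe_filter, mem_Icc, Set.mem_ofPred_eq]
    refine ⟨⟨by omega, ?_⟩, x, hx.1, by omega, ?_⟩
    · have h3 : (j + 1) * q ≤ k * q := Nat.mul_le_mul_right _ hj
      have h4 : (j + 1) * q = j * q + q := by ring
      omega
    · refine ⟨x ^ 2 / q + j + 1, ?_⟩
      have h5 := Nat.div_add_mod (x ^ 2) q
      have h6 : q * (x ^ 2 / q + j + 1) = q * (x ^ 2 / q) + j * q + q := by ring
      omega
  · rintro ⟨j, x⟩ hp ⟨j', x'⟩ hp' heq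
    rw [mem_coe, mem_product, mem_range] at hp hp'
    obtain ⟨hj, hx⟩ := hp
    obtain ⟨hj', hx'⟩ := hp'
    have hpos := hndvd x hx
    have hpos' := hndvd x' hx'
    rw [mem_Icc] at hx hx'
    have hlt : x ^ 2 % q < q := Nat.mod_lt _ (by omega)
    have hlt' : x' ^ 2 % q < q := Nat.mod_lt _ (by omega)
    simp only at heq
    have e1 : j = (j * q + (q - x ^ 2 % q)) / q := by
      rw [mul_comm, Nat.mul_add_div (by omega), Nat.div_eq_of_lt (by omega), add_zero]
    have e2 : j' = (j' * q + (q - x' ^ 2 % q)) / q := by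
      rw [mul_comm, Nat.mul_add_div (by omega), Nat.div_eq_of_lt (by omega), add_zero]
    have hjj : j = j' := by rw [e1, heq, ← e2]
    subst hjj
    have hmod : x ^ 2 % q = x' ^ 2 % q := by omega
    have hdvd : (q : ℤ) ∣ ((x : ℤ) - x') * (x + x') := by
      have h7 : (x ^ 2 : ℕ) ≡ x' ^ 2 [MOD q] := hmod
      have h8 := (Nat.modEq_iff_dvd.1 h7)
      have h9 : ((x : ℤ) - x') * (x + x') = -(((x' ^ 2 : ℕ) : ℤ) - ((x ^ 2 : ℕ) : ℤ)) := by
        push_cast; ring
      rw [h9]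
      exact (dvd_neg).2 h8
    have hxx : x = x' := by
      rcases (Nat.prime_iff_prime_int.1 hq).dvd_or_dvd hdvd with h | h
      · by_contra hne
        have h10 : ((x : ℤ) - x') ≠ 0 := by omega
        have h11 := Int.le_of_dvd (by positivity : (0 : ℤ) < |(x : ℤ) - x'|) ((dvd_abs _ _).2 h)
        have h12 : |(x : ℤ) - x'| < q := by
          rw [abs_lt]; constructor <;> omega
        omega
      · exfalso
        have h13 : q ∣ x + x' := by exact_mod_cast h
        have := Nat.le_of_dvd (by omega) h13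
        omega
    rw [hxx]

private lemma word_facts (x d : ℕ) (hx : 1 ≤ x) :
    let a : ℂ := (x : ℂ) + I * ((Real.sqrt d : ℝ) : ℂ)
    let b : ℂ := (x : ℂ) - I * ((Real.sqrt d : ℝ) : ℂ)
    ‖a / b‖ = 1 ∧
      ((x ^ 2 + d : ℕ) : ℂ) * (a / b) = ((x : ℤ) ^ 2 - d : ℤ) +
        ((2 * x : ℤ) : ℂ) * (I * ((Real.sqrt d : ℝ) : ℂ)) ∧
      ((x ^ 2 + d : ℕ) : ℂ) * (a / b + (a / b)⁻¹) = ((2 * ((x : ℤ) ^ 2 - d) : ℤ) : ℂ) := by
  intro a b
  have hs : ((Real.sqrt d : ℝ) : ℂ) ^ 2 = (d : ℂ) := by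
    have : (Real.sqrt d) ^ 2 = (d : ℝ) := Real.sq_sqrt (by positivity)
    exact_mod_cast congrArg (fun r : ℝ => (r : ℂ)) this
  set s : ℂ := ((Real.sqrt d : ℝ) : ℂ) with hsdef
  have hab : a * b = ((x ^ 2 + d : ℕ) : ℂ) := by
    simp only [a, b]
    push_cast
    linear_combination (-s ^ 2) * I_sq + hs
  have hconj : (starRingEnd ℂ) a = b := by
    simp only [a, b, map_add, map_mul, conj_I, conj_ofReal, map_natCast]
    ring
  have ha : a ≠ 0 := by
    intro h
    have : a.re = 0 := by rw [h]; simp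
    simp [a] at this
    omega
  have hb : b ≠ 0 := by
    rw [← hconj]
    exact (map_ne_zero _).2 ha
  refine ⟨?_, ?_, ?_⟩
  · rw [norm_div, ← hconj, Complex.norm_conj, div_self]
    exact norm_ne_zero_iff.2 ha
  · rw [← hab]
    have : a * b * (a / b) = a ^ 2 := by field_simp
    rw [this]
    simp only [a]
    push_cast
    linear_combination (s ^ 2) * I_sq - hs
  · rw [← hab, inv_div]
    have : a * b * (a / b + b / a) = a ^ 2 + b ^ 2 := by field_simp
    rw [this]
    simp only [a, b]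
    push_cast
    linear_combination (2 * s ^ 2) * I_sq - 2 * hs

theorem fields (t : ℕ) (ht : 1 ≤ t) :
    ∃ 𝒟 : Finset ℕ, 𝒟.card ≤ 60 * t ∧ 1 ∈ 𝒟 ∧
      ∀ q, q.Prime → q ≤ 2 ^ (9 * t) → ∃ w : ℂ, ‖w‖ = 1 ∧ Gen 𝒟 (2 ^ (60 * t)) w ∧
        ∃ (C : ℕ) (b : ℤ), 0 < C ∧ C ≤ 2 ^ (60 * t) ∧ q ∣ C ∧ ¬ (q : ℤ) ∣ b ∧
          (C : ℂ) * (w + w⁻¹) = b := by
  classical
  set X : ℕ := 2 ^ (9 * t) with hX
  have hX512 : 512 ≤ X := by
    rw [hX]
    calc 512 = 2 ^ 9 := by norm_num
      _ ≤ 2 ^ (9 * t) := Nat.pow_le_pow_right (by norm_num) (by omega)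
  have hΛ : 8 * X ^ 2 ≤ 2 ^ (60 * t) := by
    rw [hX, ← pow_mul, show (8 : ℕ) = 2 ^ 3 by norm_num, ← pow_add]
    exact Nat.pow_le_pow_right (by norm_num) (by omega)
  have hΛ22 : 22 ≤ 2 ^ (60 * t) := by nlinarith
  obtain ⟨W, hWA, hWc, hW⟩ := greedy_cover (Icc 1 (2 * X)) ((Icc 3 X).filter Nat.Prime)
    (fun q d => ∃ x : ℕ, 1 ≤ x ∧ x < q ∧ q ∣ x ^ 2 + d) 6 (9 * t)
    ⟨1, by rw [mem_Icc]; omega⟩
    (by
      refine lt_of_le_of_lt (card_filter_le _ _) ?_
      rw [Nat.card_Icc, ← hX]; omega)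
    (by
      intro q hq
      rw [mem_filter, mem_Icc] at hq
      obtain ⟨⟨hq3, hqX⟩, hqp⟩ := hq
      have hodd : q % 2 = 1 := by
        rcases hqp.eq_two_or_odd with h | h <;> omega
      have hqpos : 0 < q := by omega
      set k := 2 * X / q with hk
      have hk1 : k * q ≤ 2 * X := Nat.div_mul_le_self _ _
      have hk2 : 2 * X < (k + 1) * q := by
        have := Nat.lt_mul_div_succ (2 * X) hqpos
        rw [hk, mul_comm (2 * X / q + 1)]; exact this
      have hk3 : 2 ≤ k := by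
        rw [hk, Nat.le_div_iff_mul_le hqpos]; omega
      have h1 := count_qr q k (2 * X) hqp hk1
      rw [Nat.card_Icc]
      have h2 : 2 * ((q - 1) / 2) = q - 1 := by omega
      obtain ⟨m, hm⟩ : ∃ m, (q - 1) / 2 = m := ⟨_, rfl⟩
      rw [hm] at h1 h2
      have hqm : q = 2 * m + 1 := by omega
      have hm1 : 1 ≤ m := by omega
      have h3 : 2 * X + 1 - 1 ≤ 6 * (k * m) := by
        have h4 : (k + 1) * q ≤ 6 * (k * m) + 1 := by
          rw [hqm]
          nlinarith
        omega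
      exact h3.trans (Nat.mul_le_mul_left _ h1))
  refine ⟨W ∪ {1, 15}, ?_, by simp, ?_⟩
  · refine (card_union_le _ _).trans ?_
    have : ({1, 15} : Finset ℕ).card ≤ 2 := card_le_two
    omega
  · intro q hq hqX
    have hq2 := hq.two_le
    rcases Nat.lt_or_ge 2 q with hq3 | hq3
    · obtain ⟨d, hd, x, hx1, hxq, hdvd⟩ := hW q (by
        rw [mem_filter, mem_Icc]; exact ⟨⟨hq3, hqX⟩, hq⟩)
      have hdA := mem_Icc.1 (hWA hd)
      obtain ⟨hw1, hw2, hw3⟩ := word_facts x d hx1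
      set w : ℂ := ((x : ℂ) + I * ((Real.sqrt d : ℝ) : ℂ)) /
        ((x : ℂ) - I * ((Real.sqrt d : ℝ) : ℂ)) with hw
      have hxX : x < X := lt_of_lt_of_le hxq hqX
      have hx2 : x ^ 2 ≤ X ^ 2 := Nat.pow_le_pow_left hxX.le 2
      have hXX : 2 * X ≤ X ^ 2 := by nlinarith
      have hCle : x ^ 2 + d ≤ 2 ^ (60 * t) := by
        have := hdA.2
        omega
      refine ⟨w, hw1, ⟨(x : ℤ) ^ 2 - d, 2 * x, x ^ 2 + d, d, by positivity, hCle, ?_, by omega,
        ?_, ?_⟩, x ^ 2 + d, 2 * ((x : ℤ) ^ 2 - d), by positivity, hCle, hdvd, ?_, hw3⟩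
      · exact mem_union_left _ hd
      · have h1 : |(x : ℤ) ^ 2 - d| ≤ (x : ℤ) ^ 2 + d := by
          rw [abs_le]
          constructor <;> nlinarith [sq_nonneg (x : ℤ)]
        have h2 : |(2 * x : ℤ)| = 2 * x := abs_of_nonneg (by positivity)
        rw [h2]
        have h3 : x ^ 2 + d + 2 * x * d ≤ 2 ^ (60 * t) := by
          have h4 : 2 * x * d ≤ 2 * X * (2 * X) :=
            Nat.mul_le_mul (by omega) hdA.2
          have := hdA.2
          nlinarith
        have h5 : ((x : ℤ) ^ 2 + d + 2 * x * d) ≤ ((2 ^ (60 * t) : ℕ) : ℤ) := by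
          exact_mod_cast h3
        push_cast at h5 ⊢
        linarith
      · exact hw2
      · intro hcon
        have hqi : Prime (q : ℤ) := Nat.prime_iff_prime_int.1 hq
        have h1 : (q : ℤ) ∣ ((x : ℤ) ^ 2 + d) := by exact_mod_cast hdvd
        have h2 : (q : ℤ) ∣ (2 * x) ^ 2 := by
          have h3 : ((2 * x : ℤ)) ^ 2 = 2 * ((x : ℤ) ^ 2 - d) + 2 * ((x : ℤ) ^ 2 + d) := by ring
          rw [h3]
          exact dvd_add hcon (Dvd.dvd.mul_left h1 2)
        have h4 := hqi.dvd_of_dvd_pow h2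
        rcases hqi.dvd_or_dvd h4 with h5 | h5
        · have h6 : q ∣ 2 := by exact_mod_cast h5
          have := Nat.le_of_dvd (by norm_num) h6
          omega
        · have h6 : q ∣ x := by exact_mod_cast h5
          have := Nat.le_of_dvd (by omega) h6
          omega
    · have hq2' : q = 2 := by omega
      subst hq2'
      set s : ℂ := ((Real.sqrt (15 : ℕ) : ℝ) : ℂ) with hsdef
      have hs : s ^ 2 = 15 := by
        have : (Real.sqrt (15 : ℕ)) ^ 2 = (15 : ℝ) := by
          rw [Real.sq_sqrt (by positivity)]; norm_num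
        rw [hsdef]
        exact_mod_cast congrArg (fun r : ℝ => (r : ℂ)) this
      set w : ℂ := (-7 + I * s) / 8 with hw
      have hww : w * ((-7 - I * s) / 8) = 1 := by
        rw [hw]
        linear_combination (-(s ^ 2) / 64) * I_sq + hs / 64
      have hinv : w⁻¹ = (-7 - I * s) / 8 := inv_eq_of_mul_eq_one_right hww
      have hconj : (starRingEnd ℂ) w = (-7 - I * s) / 8 := by
        simp only [hw, hsdef, map_div₀, map_add, map_mul, map_neg, conj_I, conj_ofReal, map_ofNat]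
        ring
      refine ⟨w, ?_, ⟨-7, 1, 8, 15, by norm_num, by omega, by simp, by norm_num, ?_, ?_⟩,
        4, -7, by norm_num, by omega, by norm_num, by decide, ?_⟩
      · have h1 : w * (starRingEnd ℂ) w = 1 := by rw [hconj]; exact hww
        rw [Complex.mul_conj] at h1
        have h2 : Complex.normSq w = 1 := by exact_mod_cast h1
        rw [Complex.normSq_eq_norm_sq] at h2
        nlinarith [norm_nonneg w]
      · norm_num
        exact_mod_cast hΛ22
      · rw [hw, hsdef]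
        push_cast
        ring
      · rw [hinv, hw]
        push_cast
        ring

end Pyj
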