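import Pool.Agent.Helper79.Pyj.Defs

/-! Reduction modulo a prime of `ℤ[i]` above `p` (used in `Recur` and `Level`) -/

namespace Pyj

open Complex Finset

theorem phi_exists (p : ℕ) [Fact p.Prime] (hp2 : p ≠ 2) (a : GaussianInt) (ha : a.norm = p) :
    ∃ φ : GaussianInt →+* ZMod p, φ (star a) = 0 ∧ φ a ≠ 0 := by
  have hp : p.Prime := Fact.out
  have hpZ : Prime (p : ℤ) := Nat.prime_iff_prime_int.mp hp
  have hn : a.re * a.re + a.im * a.im = p := by
    have := ha
    rw [Zsqrtd.norm_def] at this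
    linarith
  have him : ¬ (p : ℤ) ∣ a.im := by
    intro h
    have h1 : (p : ℤ) ∣ a.re * a.re := by
      have : a.re * a.re = p - a.im * a.im := by linarith
      rw [this]
      exact dvd_sub (dvd_refl _) (h.mul_right _)
    have h2 : (p : ℤ) ∣ a.re := by
      rcases hpZ.dvd_or_dvd h1 with h | h <;> exact h
    obtain ⟨u, hu⟩ := h
    obtain ⟨v, hv⟩ := h2
    have h3 : (p : ℤ) * ((p : ℤ) * (v * v + u * u) - 1) = 0 := by
      have : (p : ℤ) * ((p : ℤ) * (v * v + u * u)) = p := by
        rw [hu, hv] at hn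
        linarith
      linarith
    rcases mul_eq_zero.mp h3 with h | h
    · exact hpZ.ne_zero h
    · have : (p : ℤ) ∣ 1 := ⟨v * v + u * u, by linarith⟩
      exact hpZ.not_isUnit (isUnit_of_dvd_one this)
  have hre : ¬ (p : ℤ) ∣ a.re := by
    intro h
    apply him
    have h1 : (p : ℤ) ∣ a.im * a.im := by
      have : a.im * a.im = p - a.re * a.re := by linarith
      rw [this]
      exact dvd_sub (dvd_refl _) (h.mul_right _)
    rcases hpZ.dvd_or_dvd h1 with h | h <;> exact h
  have himz : (a.im : ZMod p) ≠ 0 := by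
    rw [Ne, ZMod.intCast_zmod_eq_zero_iff_dvd]
    exact him
  have hrez : (a.re : ZMod p) ≠ 0 := by
    rw [Ne, ZMod.intCast_zmod_eq_zero_iff_dvd]
    exact hre
  have hnz : (a.re : ZMod p) * a.re + a.im * a.im = 0 := by
    have := congrArg (fun z : ℤ => (z : ZMod p)) hn
    simpa using this
  let r : ZMod p := a.re / a.im
  have hr : r * r = ((-1 : ℤ) : ZMod p) := by
    have : r * r * (a.im * a.im) = -1 * (a.im * a.im) := by
      have h1 : r * a.im = a.re := div_mul_cancel₀ _ himz
      calc r * r * (a.im * a.im) = (r * a.im) * (r * a.im) := by ring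
        _ = a.re * a.re := by rw [h1]
        _ = -1 * (a.im * a.im) := by linear_combination hnz
    have h2 : (a.im : ZMod p) * a.im ≠ 0 := mul_ne_zero himz himz
    have := mul_right_cancel₀ h2 this
    rw [this]; push_cast; ring
  refine ⟨Zsqrtd.lift ⟨r, hr⟩, ?_, ?_⟩
  · rw [Zsqrtd.lift_apply_apply]
    simp only [Zsqrtd.re_star, Zsqrtd.im_star]
    have h1 : r * a.im = a.re := div_mul_cancel₀ _ himz
    push_cast
    linear_combination (-1 : ZMod p) * h1
  · rw [Zsqrtd.lift_apply_apply]
    have h1 : r * a.im = a.re := div_mul_cancel₀ _ himz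
    have h2 : (a.re : ZMod p) + a.im * r = 2 * a.re := by linear_combination h1
    simp only
    rw [h2]
    refine mul_ne_zero ?_ hrez
    intro h
    have h3 : ((2 : ℕ) : ZMod p) = 0 := by exact_mod_cast h
    rw [ZMod.natCast_eq_zero_iff] at h3
    have := (Nat.prime_dvd_prime_iff_eq hp Nat.prime_two).mp h3
    exact hp2 this

/-- `rot a = a² / p` for `N(a) = p`. -/
theorem rot_eq (p : ℕ) (hp : 0 < p) (a : GaussianInt) (ha : a.norm = p) :
    rot a = (a : ℂ) ^ 2 / p := by
  have h1 : ((star a : GaussianInt) : ℂ) * (a : ℂ) = p := by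
    have h := Zsqrtd.norm_eq_mul_conj a
    have h2 : ((a.norm : GaussianInt) : ℂ) = (a : ℂ) * ((star a : GaussianInt) : ℂ) := by
      rw [h]; simp
    rw [mul_comm, ← h2, ha]
    simp
  have hp' : (p : ℂ) ≠ 0 := by exact_mod_cast hp.ne'
  have hne : ((star a : GaussianInt) : ℂ) ≠ 0 := by
    intro h
    rw [h, zero_mul] at h1
    exact hp' h1.symm
  unfold rot
  rw [div_eq_div_iff hne hp', ← h1]
  ring

theorem rot_inv (a : GaussianInt) : (rot a)⁻¹ = rot (star a) := by
  unfold rot
  rw [inv_div, star_star]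

theorem norm_rot (a : GaussianInt) (ha : a ≠ 0) : ‖rot a‖ = 1 := by
  unfold rot
  rw [GaussianInt.toComplex_star, norm_div, RCLike.norm_conj]
  apply div_self
  rw [norm_ne_zero_iff, Ne, GaussianInt.toComplex_eq_zero]
  exact ha

theorem norm_star' (a : GaussianInt) : (star a).norm = a.norm := by
  rw [Zsqrtd.norm_conj]

end Pyj
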