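import Pool.Agent.Helper79.Pyj.Defs
import Pool.Agent.Helper79.Pyj.Phi
import Pool.Agent.Helper79.Pyj.Fejer

/-! M5b: the level lemma and the covering of the bad set -/

namespace Pyj

open Complex Finset

theorem re_coe (g : GaussianInt) : ((g : GaussianInt) : ℂ).re = (g.re : ℝ) := by
  rw [GaussianInt.toComplex_def]; simp

theorem im_coe (g : GaussianInt) : ((g : GaussianInt) : ℂ).im = (g.im : ℝ) := by
  rw [GaussianInt.toComplex_def]; simp

theorem two_re_phi (p : ℕ) (φ : GaussianInt →+* ZMod p) (h : GaussianInt) :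
    (2 : ZMod p) * (h.re : ZMod p) = φ h + φ (star h) := by
  rw [← map_add]
  have : h + star h = ((2 * h.re : ℤ) : GaussianInt) := by
    rw [Zsqrtd.ext_iff]
    simp [two_mul]
  rw [this, map_intCast]
  push_cast
  ring

theorem two_ne_zero_zmod_lv (p : ℕ) [Fact p.Prime] (hp2 : p ≠ 2) : (2 : ZMod p) ≠ 0 := by
  intro h
  have hp : p.Prime := Fact.out
  have h3 : ((2 : ℕ) : ZMod p) = 0 := by exact_mod_cast h
  rw [ZMod.natCast_eq_zero_iff] at h3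
  exact hp2 ((Nat.prime_dvd_prime_iff_eq hp Nat.prime_two).mp h3)

open Classical in
theorem level_aux {ι : Type*} [Fintype ι] [Nonempty ι] (w : ι → ℂ) (g0 : ι → GaussianInt)
    (D0 m p : ℕ) [Fact p.Prime] (a : GaussianInt) (K B : ℕ) (ε τ : ℝ)
    (hp2 : p ≠ 2) (ha : a.norm = p) (hcop : ¬ p ∣ D0 * m)
    (hw1 : ∀ i, ‖w i‖ = 1) (hg0 : ∀ i, ((g0 i : GaussianInt) : ℂ) = D0 * w i)
    (hε : 0 < ε) (hK : 4 / ε ^ 2 ≤ K) (hKp : K < p) (hτ : τ ≤ 1 / (4 * K))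
    (φ : GaussianInt →+* ZMod p) (hφ0 : φ (star a) = 0) (hφ1 : φ a ≠ 0)
    (hrich : p * (Finset.univ.filter fun x : ι × ι => φ (g0 x.1) = φ (g0 x.2)).card
      ≤ B * Fintype.card ι ^ 2) (β : ℂ) :
    ∃ S : Finset (ZMod p), S.card ≤ 4 * K ^ 2 * B ∧ ∀ (c : GaussianInt) (α : ℂ),
      ‖α - β - ((D0 * m : ℕ) : ℂ) * (c : ℂ)‖ ≤ ε / 2 → BadW w ε τ (α * rot a) → φ c ∈ S := by
  have hp : p.Prime := Fact.out
  have hpR : (p : ℝ) ≠ 0 := by exact_mod_cast hp.pos.ne'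
  have hpC : (p : ℂ) ≠ 0 := by exact_mod_cast hp.pos.ne'
  have h2 := two_ne_zero_zmod_lv p hp2
  have hm : (m : ZMod p) ≠ 0 := by
    rw [Ne, ZMod.natCast_eq_zero_iff]
    exact fun h => hcop (h.mul_left _)
  have ha0 : a ≠ 0 := by
    intro h0
    rw [h0, Zsqrtd.norm_zero] at ha
    exact hp.pos.ne (by exact_mod_cast ha)
  set x : ι → ℝ := fun i => (β * rot a * w i).re with hx
  set y : ι → ZMod p := fun i => φ (g0 i) with hy
  set T : Finset (ZMod p) := Finset.univ.filter fun s : ZMod p =>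
    ((Finset.univ.filter fun i => Hit (ε / 2) (x i + ((s * y i).val : ℝ) / p)).card : ℝ)
      ≤ τ * Fintype.card ι with hT
  have hTc : T.card ≤ 4 * K ^ 2 * B :=
    count_bad p K B hKp ε τ hε hK hτ x y hrich T (fun s hs => (Finset.mem_filter.mp hs).2)
  set κ : ZMod p := (m : ZMod p) * (2 : ZMod p)⁻¹ * φ a ^ 2 with hκ
  have hκ0 : κ ≠ 0 := mul_ne_zero (mul_ne_zero hm (inv_ne_zero h2)) (pow_ne_zero _ hφ1)
  refine ⟨T.image fun s => κ⁻¹ * s, Finset.card_image_le.trans hTc, ?_⟩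
  intro c α hα hbad
  rw [Finset.mem_image]
  refine ⟨κ * φ c, ?_, by rw [inv_mul_cancel_left₀ hκ0]⟩
  rw [hT, Finset.mem_filter]
  refine ⟨Finset.mem_univ _, ?_⟩
  unfold BadW at hbad
  refine le_trans (Nat.cast_le.mpr ?_) hbad
  apply Finset.card_le_card
  intro i hi
  rw [Finset.mem_filter] at hi ⊢
  refine ⟨Finset.mem_univ _, ?_⟩
  obtain ⟨k', hk'⟩ := hi.2
  -- the Gaussian integer h
  set h : GaussianInt := c * a ^ 2 * g0 i with hh
  have hstar : φ (star h) = 0 := by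
    rw [hh]
    simp only [star_mul', star_pow, map_mul, map_pow, hφ0]
    ring
  have h2re : (2 : ZMod p) * (h.re : ZMod p) = φ h := by
    rw [two_re_phi, hstar, add_zero]
  have hval : ((κ * φ c * y i : ZMod p)) = (((m : ℤ) * h.re : ℤ) : ZMod p) := by
    have : φ h = φ c * φ a ^ 2 * φ (g0 i) := by
      rw [hh]; simp only [map_mul, map_pow]
    have h3 : κ * φ c * y i = (m : ZMod p) * (2 : ZMod p)⁻¹ * φ h := by
      rw [this, hκ, hy]; ring
    rw [h3, ← h2re]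
    push_cast
    field_simp
  have hex : ∃ k : ℤ, (((κ * φ c * y i).val : ℕ) : ℤ) = m * h.re + p * k := by
    have h4 : ((((κ * φ c * y i).val : ℕ) : ℤ) : ZMod p) = (((m : ℤ) * h.re : ℤ) : ZMod p) := by
      rw [← hval]
      simp
    rw [ZMod.intCast_eq_intCast_iff_dvd_sub] at h4
    obtain ⟨k, hk⟩ := h4
    exact ⟨-k, by linarith⟩
  obtain ⟨k, hk⟩ := hex
  have hkR : (((κ * φ c * y i).val : ℕ) : ℝ) = m * h.re + p * k := by
    exact_mod_cast hk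
  have hMc : (((D0 * m : ℕ) : ℂ) * (c : ℂ) * rot a * w i).re = m * h.re / p := by
    have h5 : ((D0 * m : ℕ) : ℂ) * (c : ℂ) * rot a * w i = ((m / p : ℝ) : ℂ) * ((h : GaussianInt) : ℂ) := by
      rw [rot_eq p hp.pos a ha, hh]
      simp only [map_mul, map_pow, hg0]
      push_cast
      field_simp
    rw [h5, Complex.re_ofReal_mul, re_coe]
    ring
  refine ⟨k' - k, ?_⟩
  have h6 : (α * rot a * w i).re - ((k' - k : ℤ) : ℝ)
      = ((α - β - ((D0 * m : ℕ) : ℂ) * (c : ℂ)) * rot a * w i).re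
        + (x i + (((κ * φ c * y i).val : ℕ) : ℝ) / p - k') := by
    have h7 : α * rot a * w i = (α - β - ((D0 * m : ℕ) : ℂ) * (c : ℂ)) * rot a * w i
        + β * rot a * w i + ((D0 * m : ℕ) : ℂ) * (c : ℂ) * rot a * w i := by ring
    rw [h7, Complex.add_re, Complex.add_re, hMc, hkR, hx]
    push_cast
    field_simp
    ring
  rw [h6]
  have h8 : |((α - β - ((D0 * m : ℕ) : ℂ) * (c : ℂ)) * rot a * w i).re| ≤ ε / 2 := by
    refine (Complex.abs_re_le_norm _).trans ?_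
    rw [norm_mul, norm_mul, norm_rot a ha0, hw1]
    linarith
  calc _ ≤ |((α - β - ((D0 * m : ℕ) : ℂ) * (c : ℂ)) * rot a * w i).re|
        + |x i + (((κ * φ c * y i).val : ℕ) : ℝ) / p - k'| := abs_add_le _ _
    _ ≤ ε / 2 + ε / 2 := add_le_add h8 hk'
    _ = ε := by ring

theorem dvd_of_phi (p : ℕ) [Fact p.Prime] (hp2 : p ≠ 2) (φ : GaussianInt →+* ZMod p)
    (d : GaussianInt) (h0 : φ d = 0) (h1 : φ (star d) = 0) :
    ∃ g : GaussianInt, d = (p : GaussianInt) * g := by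
  have h2 := two_ne_zero_zmod_lv p hp2
  have hre : (d.re : ZMod p) = 0 := by
    have := two_re_phi p φ d
    rw [h0, h1, add_zero] at this
    exact (mul_eq_zero.mp this).resolve_left h2
  have him : (d.im : ZMod p) = 0 := by
    have hi : d - ((d.re : ℤ) : GaussianInt) = Zsqrtd.sqrtd * ((d.im : ℤ) : GaussianInt) := by
      rw [Zsqrtd.ext_iff]
      simp
    have hi2 := congrArg φ hi
    rw [map_sub, map_mul, map_intCast, map_intCast, h0, hre, sub_zero] at hi2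
    have hs : φ Zsqrtd.sqrtd ≠ 0 := by
      intro hs
      have h3 : (Zsqrtd.sqrtd : GaussianInt) * Zsqrtd.sqrtd = -1 := by
        rw [Zsqrtd.ext_iff]; simp
      have h4 := congrArg φ h3
      rw [map_mul, hs, map_neg, map_one, zero_mul] at h4
      exact one_ne_zero (neg_eq_zero.mp h4.symm)
    exact (mul_eq_zero.mp hi2.symm).resolve_left hs
  rw [ZMod.intCast_zmod_eq_zero_iff_dvd] at hre him
  obtain ⟨u, hu⟩ := hre
  obtain ⟨v, hv⟩ := him
  refine ⟨⟨u, v⟩, ?_⟩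
  rw [Zsqrtd.ext_iff]
  simp [hu, hv]

theorem level {ι : Type*} [Fintype ι] [Nonempty ι] (w : ι → ℂ) (g0 : ι → GaussianInt)
    (D0 m p : ℕ) (a : GaussianInt) (K B : ℕ) (ε τ : ℝ) (A : Set ℂ) (c : ℕ)
    (hp : p.Prime) (hp2 : p ≠ 2) (ha : a.norm = p) (hcop : ¬ p ∣ D0 * m)
    (hw1 : ∀ i, ‖w i‖ = 1) (hg0 : ∀ i, ((g0 i : GaussianInt) : ℂ) = D0 * w i)
    (hrich : Rich g0 p B) (hε : 0 < ε) (hK : 4 / ε ^ 2 ≤ K) (hKp : K < p)
    (hτ : τ ≤ 1 / (4 * K)) (hcov : Cov A (D0 * m) (ε / 2) c) :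
    Cov {α | α ∈ A ∧ BadW w ε τ (α * rot a) ∧ BadW w ε τ (α * (rot a)⁻¹)}
      (D0 * m * p) (ε / 2) (c * (4 * K ^ 2 * B) ^ 2) := by
  classical
  haveI : Fact p.Prime := ⟨hp⟩
  obtain ⟨φ, hφ0, hφ1⟩ := phi_exists p hp2 a ha
  obtain ⟨F, hFc, hF⟩ := hcov
  set φ' : GaussianInt →+* ZMod p := φ.comp (starRingEnd GaussianInt) with hφ'
  have hφ's : ∀ g, φ' g = φ (star g) := fun g => by
    rw [hφ']; simp [starRingEnd_apply]
  have haux1 : ∀ β : ℂ, ∃ S : Finset (ZMod p), S.card ≤ 4 * K ^ 2 * B ∧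
      ∀ (c : GaussianInt) (α : ℂ),
      ‖α - β - ((D0 * m : ℕ) : ℂ) * (c : ℂ)‖ ≤ ε / 2 → BadW w ε τ (α * rot a) → φ c ∈ S := by
    intro β
    refine level_aux w g0 D0 m p a K B ε τ hp2 ha hcop hw1 hg0 hε hK hKp hτ φ hφ0 hφ1 ?_ β
    convert hrich φ using 3
  have haux2 : ∀ β : ℂ, ∃ S : Finset (ZMod p), S.card ≤ 4 * K ^ 2 * B ∧
      ∀ (c : GaussianInt) (α : ℂ),
      ‖α - β - ((D0 * m : ℕ) : ℂ) * (c : ℂ)‖ ≤ ε / 2 → BadW w ε τ (α * rot (star a)) →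
        φ' c ∈ S := by
    intro β
    refine level_aux w g0 D0 m p (star a) K B ε τ hp2 ?_ hcop hw1 hg0 hε hK hKp hτ φ' ?_ ?_ ?_ β
    · rw [norm_star', ha]
    · rw [hφ's, star_star, hφ0]
    · rw [hφ's, star_star]; exact hφ1
    · convert hrich φ' using 3
  choose S1 hS1c hS1 using haux1
  choose S2 hS2c hS2 using haux2
  -- choose representatives
  let good : ℂ → ZMod p → ZMod p → GaussianInt → Prop := fun β s s' c =>
    φ c = s ∧ φ (star c) = s' ∧ ∃ α : ℂ, ‖α - β - ((D0 * m : ℕ) : ℂ) * (c : ℂ)‖ ≤ ε / 2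
  have hrep : ∀ (β : ℂ) (s s' : ZMod p), ∃ c : GaussianInt,
      (∃ c', good β s s' c') → good β s s' c := by
    intro β s s'
    by_cases h : ∃ c', good β s s' c'
    · obtain ⟨c', hc'⟩ := h
      exact ⟨c', fun _ => hc'⟩
    · exact ⟨0, fun h' => absurd h' h⟩
  choose rep hrep' using hrep
  refine ⟨F.biUnion fun β => ((S1 β) ×ˢ (S2 β)).image fun s =>
    β + ((D0 * m : ℕ) : ℂ) * (rep β s.1 s.2 : ℂ), ?_, ?_⟩
  · refine Finset.card_biUnion_le.trans ?_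
    calc ∑ β ∈ F, (((S1 β) ×ˢ (S2 β)).image fun s =>
          β + ((D0 * m : ℕ) : ℂ) * (rep β s.1 s.2 : ℂ)).card
        ≤ ∑ β ∈ F, (4 * K ^ 2 * B) ^ 2 := by
          refine Finset.sum_le_sum fun β _ => ?_
          refine Finset.card_image_le.trans ?_
          rw [Finset.card_product, sq]
          exact Nat.mul_le_mul (hS1c β) (hS2c β)
      _ = F.card * (4 * K ^ 2 * B) ^ 2 := by simp
      _ ≤ c * (4 * K ^ 2 * B) ^ 2 := Nat.mul_le_mul_right _ hFc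
  · rintro α ⟨hαA, hα1, hα2⟩
    obtain ⟨β, hβ, cc, hcc⟩ := hF α hαA
    rw [rot_inv] at hα2
    have h1 : φ cc ∈ S1 β := hS1 β cc α hcc hα1
    have h2 : φ (star cc) ∈ S2 β := by
      have := hS2 β cc α hcc hα2
      rwa [hφ's] at this
    have h3 : good β (φ cc) (φ (star cc)) cc := ⟨rfl, rfl, α, hcc⟩
    obtain ⟨h4, h5, _⟩ := hrep' β (φ cc) (φ (star cc)) ⟨cc, h3⟩
    set c1 := rep β (φ cc) (φ (star cc)) with hc1
    refine ⟨β + ((D0 * m : ℕ) : ℂ) * (c1 : ℂ), ?_, ?_⟩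
    · rw [Finset.mem_biUnion]
      refine ⟨β, hβ, ?_⟩
      rw [Finset.mem_image]
      exact ⟨(φ cc, φ (star cc)), Finset.mem_product.mpr ⟨h1, h2⟩, rfl⟩
    · obtain ⟨g, hg⟩ := dvd_of_phi p hp2 φ (cc - c1) (by rw [map_sub, h4, sub_self])
        (by rw [star_sub, map_sub, h5, sub_self])
      refine ⟨g, ?_⟩
      have h6 : (cc : ℂ) = (c1 : ℂ) + (p : ℂ) * (g : ℂ) := by
        have : cc = c1 + (p : GaussianInt) * g := by rw [← hg]; ring
        rw [this]; simp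
      have h7 : α - (β + ((D0 * m : ℕ) : ℂ) * (c1 : ℂ)) - ((D0 * m * p : ℕ) : ℂ) * (g : ℂ)
          = α - β - ((D0 * m : ℕ) : ℂ) * (cc : ℂ) := by
        rw [h6]; push_cast; ring
      rw [h7]
      exact hcc

/-- The grid covers everything. -/
theorem cov_univ (D0 t : ℕ) (hD0 : 0 < D0) :
    Cov Set.univ D0 ((1 / 2 : ℝ) ^ t / 2) ((D0 * 2 ^ (t + 2)) ^ 2) := by
  classical
  set T : ℕ := 2 ^ (t + 2) with hT
  have hTpos : 0 < T := by positivity
  have hTR : (0 : ℝ) < T := by exact_mod_cast hTpos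
  have key : ∀ x : ℝ, ∃ j ∈ Finset.range (D0 * T), ∃ g : ℤ,
      0 ≤ x - (j : ℝ) / T - D0 * g ∧ x - (j : ℝ) / T - D0 * g ≤ 1 / T := by
    intro x
    set N : ℤ := ⌊x * T⌋ with hN
    have hpos : (0 : ℤ) < (D0 * T : ℕ) := by exact_mod_cast Nat.mul_pos hD0 hTpos
    refine ⟨(N % (D0 * T : ℕ)).toNat, ?_, N / (D0 * T : ℕ), ?_⟩
    · rw [Finset.mem_range]
      have h1 := Int.emod_lt_of_pos N hpos
      have h2 := Int.emod_nonneg N hpos.ne'
      omega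
    · have h2 := Int.emod_nonneg N hpos.ne'
      have h3 : (((N % (D0 * T : ℕ)).toNat : ℕ) : ℝ) = ((N % (D0 * T : ℕ) : ℤ) : ℝ) := by
        have : (((N % (D0 * T : ℕ)).toNat : ℕ) : ℤ) = N % (D0 * T : ℕ) := Int.toNat_of_nonneg h2
        exact_mod_cast this
      have h4 : ((N % (D0 * T : ℕ) : ℤ) : ℝ) + (D0 * T : ℝ) * ((N / (D0 * T : ℕ) : ℤ) : ℝ) = N := by
        have := Int.emod_add_mul_ediv N (D0 * T : ℕ)
        have h5 := congrArg (fun z : ℤ => (z : ℝ)) this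
        push_cast at h5 ⊢
        exact h5
      have h6 : x - (((N % (D0 * T : ℕ)).toNat : ℕ) : ℝ) / T - D0 * ((N / (D0 * T : ℕ) : ℤ) : ℝ)
          = (x * T - N) / T := by
        rw [h3, ← h4]
        field_simp
        ring
      rw [h6]
      have h7 : (N : ℝ) ≤ x * T := Int.floor_le _
      have h8 : x * T < N + 1 := Int.lt_floor_add_one _
      constructor
      · apply div_nonneg _ hTR.le
        linarith
      · apply div_le_div_of_nonneg_right _ hTR.le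
        linarith
  refine ⟨(Finset.range (D0 * T) ×ˢ Finset.range (D0 * T)).image fun jk =>
    (⟨(jk.1 : ℝ) / T, (jk.2 : ℝ) / T⟩ : ℂ), ?_, ?_⟩
  · refine Finset.card_image_le.trans ?_
    rw [Finset.card_product, Finset.card_range, sq]
  · intro α _
    obtain ⟨j, hj, g1, h1, h2⟩ := key α.re
    obtain ⟨k, hk, g2, h3, h4⟩ := key α.im
    refine ⟨⟨(j : ℝ) / T, (k : ℝ) / T⟩, ?_, ⟨g1, g2⟩, ?_⟩
    · rw [Finset.mem_image]
      exact ⟨(j, k), Finset.mem_product.mpr ⟨hj, hk⟩, rfl⟩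
    · refine (Complex.norm_le_abs_re_add_abs_im _).trans ?_
      have hre : (α - (⟨(j : ℝ) / T, (k : ℝ) / T⟩ : ℂ) - (D0 : ℂ) * ((⟨g1, g2⟩ : GaussianInt) : ℂ)).re
          = α.re - (j : ℝ) / T - D0 * g1 := by
        simp [re_coe]
      have him : (α - (⟨(j : ℝ) / T, (k : ℝ) / T⟩ : ℂ) - (D0 : ℂ) * ((⟨g1, g2⟩ : GaussianInt) : ℂ)).im
          = α.im - (k : ℝ) / T - D0 * g2 := by
        simp [im_coe]
      rw [hre, him, abs_of_nonneg h1, abs_of_nonneg h3]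
      have h5 : (1 : ℝ) / T = (1 / 2) ^ t / 4 := by
        rw [hT]; push_cast
        rw [pow_add, one_div_pow]
        field_simp
        norm_num
      rw [h5] at h2 h4
      linarith

theorem cov_all {ι : Type*} [Fintype ι] [Nonempty ι] (w : ι → ℂ) (g0 : ι → GaussianInt)
    (D0 K B t : ℕ) (ε τ : ℝ) (hεt : ε = (1 / 2) ^ t) (P : Finset ℕ) (a : ℕ → GaussianInt)
    (hD0 : 0 < D0)
    (hP : ∀ p ∈ P, p.Prime ∧ p ≠ 2 ∧ (a p).norm = p ∧ ¬ p ∣ D0 ∧ K < p ∧ Rich g0 p B)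
    (hw1 : ∀ i, ‖w i‖ = 1) (hg0 : ∀ i, ((g0 i : GaussianInt) : ℂ) = D0 * w i)
    (hK : 4 / ε ^ 2 ≤ K) (hτ : τ ≤ 1 / (4 * K)) :
    Cov {α | ∀ p ∈ P, BadW w ε τ (α * rot (a p)) ∧ BadW w ε τ (α * (rot (a p))⁻¹)}
      (D0 * ∏ p ∈ P, p) (ε / 2) ((D0 * 2 ^ (t + 2)) ^ 2 * (4 * K ^ 2 * B) ^ (2 * P.card)) := by
  classical
  have hε : 0 < ε := by rw [hεt]; positivity
  induction P using Finset.induction_on with
  | empty =>
    have h := cov_univ D0 t hD0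
    rw [hεt]
    simpa using h
  | insert p P hpP ih =>
    have hP' : ∀ p ∈ P, p.Prime ∧ p ≠ 2 ∧ (a p).norm = p ∧ ¬ p ∣ D0 ∧ K < p ∧ Rich g0 p B :=
      fun q hq => hP q (Finset.mem_insert_of_mem hq)
    obtain ⟨hp1, hp2, hp3, hp4, hp5, hp6⟩ := hP p (Finset.mem_insert_self _ _)
    have hcop : ¬ p ∣ D0 * ∏ q ∈ P, q := by
      intro h
      rcases (Nat.Prime.dvd_mul hp1).mp h with h | h
      · exact hp4 h
      · obtain ⟨q, hq, hpq⟩ := (Prime.dvd_finsetProd_iff hp1.prime _).mp h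
        have := (Nat.prime_dvd_prime_iff_eq hp1 (hP' q hq).1).mp hpq
        rw [this] at hpP
        exact hpP hq
    have h := level w g0 D0 (∏ q ∈ P, q) p (a p) K B ε τ _ _ hp1 hp2 hp3 hcop hw1 hg0 hp6 hε hK
      hp5 hτ (ih hP')
    have hset : {α | α ∈ {α | ∀ p ∈ P, BadW w ε τ (α * rot (a p)) ∧
        BadW w ε τ (α * (rot (a p))⁻¹)} ∧ BadW w ε τ (α * rot (a p)) ∧
        BadW w ε τ (α * (rot (a p))⁻¹)} = {α | ∀ q ∈ insert p P, BadW w ε τ (α * rot (a q)) ∧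
        BadW w ε τ (α * (rot (a q))⁻¹)} := by
      ext α
      simp only [Set.mem_ofPred_eq, Finset.mem_insert, forall_eq_or_imp]
      exact and_comm
    rw [hset] at h
    have hM : D0 * (∏ q ∈ P, q) * p = D0 * ∏ q ∈ insert p P, q := by
      rw [Finset.prod_insert hpP]; ring
    have hC : (D0 * 2 ^ (t + 2)) ^ 2 * (4 * K ^ 2 * B) ^ (2 * P.card) * (4 * K ^ 2 * B) ^ 2
        = (D0 * 2 ^ (t + 2)) ^ 2 * (4 * K ^ 2 * B) ^ (2 * (insert p P).card) := by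
      rw [Finset.card_insert_of_notMem hpP]; ring
    rw [hM, hC] at h
    exact h

end Pyj
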