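import Pool.Agent.Helper79.Pyj.Defs
import Pool.Agent.Helper79.Pyj.Phi

/-! M8: recurrence by pigeonhole -/

namespace Pyj

open Complex Finset

open Classical in
/-- `∏_{p ∈ S} a_p² ∏_{p ∈ P \ S} p`. -/
noncomputable def recV (P : Finset ℕ) (a : ℕ → GaussianInt) (S : Finset ℕ) : GaussianInt :=
  ∏ p ∈ P, if p ∈ S then a p ^ 2 else (p : GaussianInt)

theorem recV_coe (P : Finset ℕ) (a : ℕ → GaussianInt)
    (hP : ∀ p ∈ P, p.Prime ∧ p ≠ 2 ∧ (a p).norm = p) (S : Finset ℕ) (hS : S ⊆ P) :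
    (recV P a S : ℂ) = ((∏ p ∈ P, p : ℕ) : ℂ) * ∏ p ∈ S, rot (a p) := by
  classical
  have h1 : ∏ p ∈ S, rot (a p) = ∏ p ∈ P, if p ∈ S then rot (a p) else 1 := by
    rw [Finset.prod_ite_mem, Finset.inter_eq_right.mpr hS]
  rw [h1, recV, map_prod]
  push_cast
  rw [← Finset.prod_mul_distrib]
  refine Finset.prod_congr rfl fun p hp => ?_
  obtain ⟨hp1, _, hp3⟩ := hP p hp
  have hpc : (p : ℂ) ≠ 0 := by exact_mod_cast hp1.pos.ne'
  split_ifs with h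
  · rw [rot_eq p hp1.pos (a p) hp3, map_pow]
    field_simp
  · simp

theorem recV_ne (P : Finset ℕ) (a : ℕ → GaussianInt)
    (hP : ∀ p ∈ P, p.Prime ∧ p ≠ 2 ∧ (a p).norm = p) (S S' : Finset ℕ) (hS : S ⊆ P)
    (l : ℕ) (hl : l ∈ S) (hl' : l ∉ S') : recV P a S ≠ recV P a S' := by
  classical
  intro heq
  have hlP := hS hl
  obtain ⟨hl1, hl2, hl3⟩ := hP l hlP
  haveI : Fact l.Prime := ⟨hl1⟩
  obtain ⟨φ, hφ0, hφ1⟩ := phi_exists l hl2 (a l) hl3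
  have h0 : φ (recV P a S') = 0 := by
    rw [recV, map_prod]
    apply Finset.prod_eq_zero hlP
    rw [if_neg hl', map_natCast]
    simp
  have h1 : φ (recV P a S) ≠ 0 := by
    rw [recV, map_prod, Finset.prod_ne_zero_iff]
    intro p hp
    obtain ⟨hp1, hp2, hp3⟩ := hP p hp
    by_cases hpl : p = l
    · subst hpl
      rw [if_pos hl, map_pow]
      exact pow_ne_zero _ hφ1
    · have hpz : ((p : ℕ) : ZMod l) ≠ 0 := by
        intro h
        rw [ZMod.natCast_eq_zero_iff] at h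
        exact hpl ((Nat.prime_dvd_prime_iff_eq hl1 hp1).mp h).symm
      split_ifs with h
      · rw [map_pow]
        apply pow_ne_zero
        intro h2
        have h3 := congrArg φ (Zsqrtd.norm_eq_mul_conj (a p))
        rw [map_mul, h2, zero_mul, hp3] at h3
        simp only [map_natCast, Int.cast_natCast] at h3
        exact hpz h3
      · rw [map_natCast]
        exact hpz
  rw [heq] at h1
  exact h1 h0

theorem recurrence (M : ℕ) (A : Set ℂ) (r : ℝ) (c : ℕ) (hcov : Cov A M r c) (hr : r ≤ 1 / 4)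
    (P : Finset ℕ) (a : ℕ → GaussianInt) (hP : ∀ p ∈ P, p.Prime ∧ p ≠ 2 ∧ (a p).norm = p)
    (z : ℂ) (𝒮 : Finset (Finset ℕ)) (hS : ∀ S ∈ 𝒮, S ⊆ P) (hc : c < 𝒮.card)
    (hz : ∀ S ∈ 𝒮, z * ∏ p ∈ S, rot (a p) ∈ A) :
    Tor M (4 * (∏ p ∈ P, p) ^ 2) ((∏ p ∈ P, p) ^ 2) z := by
  classical
  obtain ⟨F, hFc, hF⟩ := hcov
  set H : ℕ := ∏ p ∈ P, p with hH
  have hHpos : 0 < H := Finset.prod_pos fun p hp => (hP p hp).1.pos
  -- choose centres
  have hch : ∀ S : Finset ℕ, ∃ β : ℂ, ∃ g : GaussianInt, S ∈ 𝒮 →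
      β ∈ F ∧ ‖z * ∏ p ∈ S, rot (a p) - β - (M : ℂ) * (g : ℂ)‖ ≤ r := by
    intro S
    by_cases h : S ∈ 𝒮
    · obtain ⟨β, hβ, g, hg⟩ := hF _ (hz S h)
      exact ⟨β, g, fun _ => ⟨hβ, hg⟩⟩
    · exact ⟨0, 0, fun h' => absurd h' h⟩
  choose β g hβg using hch
  obtain ⟨S, hSm, S', hSm', hne, hβ⟩ := Finset.exists_ne_map_eq_of_card_lt_of_maps_to
    (lt_of_le_of_lt hFc hc) (f := β) (fun S hS => (hβg S hS).1)
  have hV : (recV P a S : ℂ) = (H : ℂ) * ∏ p ∈ S, rot (a p) := recV_coe P a hP S (hS S hSm)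
  have hV' : (recV P a S' : ℂ) = (H : ℂ) * ∏ p ∈ S', rot (a p) := recV_coe P a hP S' (hS S' hSm')
  have hnorm : ∀ T, T ⊆ P → ‖∏ p ∈ T, rot (a p)‖ = 1 := by
    intro T hT
    rw [norm_prod]
    apply Finset.prod_eq_one
    intro p hp
    apply norm_rot
    intro h0
    have := (hP p (hT hp)).2.2
    rw [h0, Zsqrtd.norm_zero] at this
    exact (hP p (hT hp)).1.pos.ne (by exact_mod_cast this)
  have hVne : recV P a S ≠ recV P a S' := by
    by_contra hcon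
    apply hne
    ext l
    constructor
    · intro hl
      by_contra hl'
      exact recV_ne P a hP S S' (hS S hSm) l hl hl' hcon
    · intro hl
      by_contra hl'
      exact recV_ne P a hP S' S (hS S' hSm') l hl hl' hcon.symm
  set ξ : GaussianInt := recV P a S - recV P a S' with hξ
  have hξ0 : ξ ≠ 0 := sub_ne_zero.mpr hVne
  have hξc : (ξ : ℂ) = (H : ℂ) * (∏ p ∈ S, rot (a p) - ∏ p ∈ S', rot (a p)) := by
    rw [hξ, map_sub, hV, hV']; ring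
  have hξn : ‖(ξ : ℂ)‖ ≤ 2 * H := by
    rw [hξc, norm_mul, Complex.norm_natCast]
    have : ‖∏ p ∈ S, rot (a p) - ∏ p ∈ S', rot (a p)‖ ≤ 2 := by
      refine (norm_sub_le _ _).trans ?_
      rw [hnorm S (hS S hSm), hnorm S' (hS S' hSm')]; norm_num
    calc (H : ℝ) * ‖∏ p ∈ S, rot (a p) - ∏ p ∈ S', rot (a p)‖ ≤ H * 2 := by gcongr
      _ = 2 * H := by ring
  -- the error
  set e1 : ℂ := z * ∏ p ∈ S, rot (a p) - β S - (M : ℂ) * (g S : ℂ) with he1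
  set e2 : ℂ := z * ∏ p ∈ S', rot (a p) - β S' - (M : ℂ) * (g S' : ℂ) with he2
  have he1n : ‖e1‖ ≤ 1 / 4 := ((hβg S hSm).2).trans hr
  have he2n : ‖e2‖ ≤ 1 / 4 := ((hβg S' hSm').2).trans hr
  have hmain : z * (ξ : ℂ) = (H : ℂ) * ((M : ℂ) * ((g S : ℂ) - (g S' : ℂ)) + (e1 - e2)) := by
    rw [hξc, he1, he2, hβ]; ring
  -- Q
  have hQn : ((ξ.norm.natAbs : ℕ) : ℤ) = ξ.norm := Int.natAbs_of_nonneg (GaussianInt.norm_nonneg ξ)
  have hQc : ((ξ.norm.natAbs : ℕ) : ℂ) = (ξ : ℂ) * ((star ξ : GaussianInt) : ℂ) := by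
    have h1 : ((ξ.norm.natAbs : ℕ) : ℂ) = ((ξ.norm : GaussianInt) : ℂ) := by
      rw [← hQn]; simp
    rw [h1, Zsqrtd.norm_eq_mul_conj, map_mul]
  have hQr : ((ξ.norm.natAbs : ℕ) : ℝ) = ‖(ξ : ℂ)‖ ^ 2 := by
    rw [← Complex.normSq_eq_norm_sq, ← GaussianInt.intCast_real_norm, ← hQn]
    simp
  refine ⟨ξ.norm.natAbs, ?_, ?_, (H : GaussianInt) * (g S - g S') * star ξ, ?_⟩
  · rw [Nat.one_le_iff_ne_zero, Int.natAbs_ne_zero]
    rw [Ne, GaussianInt.norm_eq_zero]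
    exact hξ0
  · have : ((ξ.norm.natAbs : ℕ) : ℝ) ≤ 4 * (H : ℝ) ^ 2 := by
      rw [hQr]
      calc ‖(ξ : ℂ)‖ ^ 2 ≤ (2 * H) ^ 2 := by gcongr
        _ = 4 * (H : ℝ) ^ 2 := by ring
    exact_mod_cast this
  · unfold Rep
    have h1 : ((ξ.norm.natAbs : ℕ) : ℂ) * z -
        (M : ℂ) * (((H : GaussianInt) * (g S - g S') * star ξ : GaussianInt) : ℂ)
        = (H : ℂ) * ((star ξ : GaussianInt) : ℂ) * (e1 - e2) := by
      rw [hQc]
      have : (ξ : ℂ) * ((star ξ : GaussianInt) : ℂ) * z = ((star ξ : GaussianInt) : ℂ) * (z * (ξ : ℂ)) := by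
        ring
      rw [this, hmain]
      simp only [map_mul, map_natCast, map_sub]
      ring
    rw [h1, norm_mul, norm_mul, Complex.norm_natCast, GaussianInt.toComplex_star, RCLike.norm_conj]
    have he : ‖e1 - e2‖ ≤ 1 / 2 := (norm_sub_le _ _).trans (by linarith)
    have : (H : ℝ) * ‖(ξ : ℂ)‖ * ‖e1 - e2‖ ≤ H * (2 * H) * (1 / 2) := by gcongr
    push_cast
    nlinarith

end Pyj
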