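import Pool.Agent.Helper79.Pyj.Defs

/-! M6: existence of the sampling family -/

namespace Pyj

open Complex Finset

/-- `∏_{l ∈ S} a_l² ∏_{l ∉ S} N(a_l)`. -/
def g0fam {r : ℕ} (a : Fin r → GaussianInt) (S : Finset (Fin r)) : GaussianInt :=
  ∏ l, if l ∈ S then a l ^ 2 else ((a l).norm : GaussianInt)

namespace W0

/-- the box -/
noncomputable def BB (Y : ℕ) : Finset (ℤ × ℤ) := (Icc (1 : ℤ) Y) ×ˢ (Icc (1 : ℤ) Y)

theorem card_BB (Y : ℕ) : (BB Y).card = Y ^ 2 := by
  unfold BB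
  rw [Finset.card_product, Int.card_Icc]
  have : (Y + 1 - 1 : ℤ).toNat = Y := by simp
  rw [this, sq]

theorem card_res (Y p : ℕ) (hp : 0 < p) (hpY : p ≤ Y) (c : ZMod p) :
    p * ((Icc (1 : ℤ) Y).filter fun x => ((x : ℤ) : ZMod p) = c).card ≤ 2 * Y := by
  obtain ⟨v, rfl⟩ := ZMod.intCast_surjective c
  have e : ((Icc (1 : ℤ) Y).filter fun x => ((x : ℤ) : ZMod p) = ((v : ℤ) : ZMod p)) =
      ((Ioc (0 : ℤ) Y).filter fun x => x ≡ v [ZMOD p]) := by
    ext x
    rw [Finset.mem_filter, Finset.mem_filter, Finset.mem_Icc, Finset.mem_Ioc,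
      ZMod.intCast_eq_intCast_iff]
    constructor
    · rintro ⟨h1, h2⟩; exact ⟨⟨by omega, h1.2⟩, h2⟩
    · rintro ⟨h1, h2⟩; exact ⟨⟨by omega, h1.2⟩, h2⟩
  rw [e]
  have h := Int.Ioc_filter_modEq_card (0 : ℤ) Y (r := p) (by exact_mod_cast hp) v
  have hp0 : (0 : ℚ) < p := by exact_mod_cast hp
  have h' : ((((Ioc (0 : ℤ) Y).filter fun x => x ≡ v [ZMOD p]).card : ℤ) : ℚ) ≤ (Y : ℚ) / p + 1 := by
    rw [h]
    push_cast
    refine max_le ?_ (by positivity)
    have h1 := Int.floor_le (((Y : ℚ) - v) / p)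
    have h2 := Int.lt_floor_add_one (((0 : ℚ) - v) / p)
    have h3 : ((Y : ℚ) - v) / p - ((0 : ℚ) - v) / p = Y / p := by ring
    push_cast at h1 h2 h3 ⊢
    linarith
  have h2 : (p : ℚ) * ((((Ioc (0 : ℤ) Y).filter fun x => x ≡ v [ZMOD p]).card : ℤ) : ℚ) ≤ Y + p := by
    calc _ ≤ (p : ℚ) * ((Y : ℚ) / p + 1) := mul_le_mul_of_nonneg_left h' hp0.le
      _ = Y + p := by field_simp
  have h3 : p * ((Ioc (0 : ℤ) Y).filter fun x => x ≡ v [ZMOD p]).card ≤ Y + p := by
    exact_mod_cast h2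
  omega

/-- fibre counting: if each row has few points -/
theorem card_rows (Y p K : ℕ) (Q : ℤ × ℤ → Prop) [DecidablePred Q]
    (h : ∀ y : ℤ, p * ((Icc (1 : ℤ) Y).filter fun x => Q (x, y)).card ≤ K) :
    p * ((BB Y).filter Q).card ≤ K * Y := by
  have h1 : ((BB Y).filter Q).card = ∑ y ∈ Icc (1 : ℤ) Y, ((Icc (1 : ℤ) Y).filter fun x => Q (x, y)).card := by
    unfold BB
    rw [Finset.card_filter, Finset.sum_product_right]
    refine Finset.sum_congr rfl fun y _ => ?_
    rw [Finset.card_filter]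
  rw [h1, Finset.mul_sum]
  calc _ ≤ ∑ _y ∈ Icc (1 : ℤ) Y, K := Finset.sum_le_sum fun y _ => h y
    _ = K * Y := by
      rw [Finset.sum_const, Int.card_Icc, smul_eq_mul]
      have : (Y + 1 - 1 : ℤ).toNat = Y := by simp
      rw [this, mul_comm]

theorem card_cols (Y p K : ℕ) (Q : ℤ × ℤ → Prop) [DecidablePred Q]
    (h : ∀ x : ℤ, p * ((Icc (1 : ℤ) Y).filter fun y => Q (x, y)).card ≤ K) :
    p * ((BB Y).filter Q).card ≤ K * Y := by
  have h1 : ((BB Y).filter Q).card = ∑ x ∈ Icc (1 : ℤ) Y, ((Icc (1 : ℤ) Y).filter fun y => Q (x, y)).card := by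
    unfold BB
    rw [Finset.card_filter, Finset.sum_product]
    refine Finset.sum_congr rfl fun y _ => ?_
    rw [Finset.card_filter]
  rw [h1, Finset.mul_sum]
  calc _ ≤ ∑ _y ∈ Icc (1 : ℤ) Y, K := Finset.sum_le_sum fun y _ => h y
    _ = K * Y := by
      rw [Finset.sum_const, Int.card_Icc, smul_eq_mul]
      have : (Y + 1 - 1 : ℤ).toNat = Y := by simp
      rw [this, mul_comm]

/-- nontrivial linear congruence -/
theorem card_lin (Y p : ℕ) (hp : p.Prime) (hpY : p ≤ Y) (α β : ZMod p) (h : α ≠ 0 ∨ β ≠ 0) :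
    p * ((BB Y).filter fun b => α * (b.1 : ZMod p) + β * (b.2 : ZMod p) = 0).card ≤ 2 * Y * Y := by
  have : Fact p.Prime := ⟨hp⟩
  rcases h with h | h
  · refine card_rows Y p (2 * Y) _ fun y => ?_
    refine le_trans (Nat.mul_le_mul_left p (Finset.card_le_card ?_))
      (card_res Y p hp.pos hpY (-(β * (y : ZMod p)) / α))
    intro x hx
    rw [Finset.mem_filter] at hx ⊢
    refine ⟨hx.1, ?_⟩
    rw [eq_div_iff h]
    linear_combination hx.2
  · refine card_cols Y p (2 * Y) _ fun x => ?_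
    refine le_trans (Nat.mul_le_mul_left p (Finset.card_le_card ?_))
      (card_res Y p hp.pos hpY (-(α * (x : ZMod p)) / β))
    intro y hy
    rw [Finset.mem_filter] at hy ⊢
    refine ⟨hy.1, ?_⟩
    rw [eq_div_iff h]
    linear_combination hy.2

/-- points with norm divisible by `p` -/
theorem card_quad (Y p : ℕ) (hp : p.Prime) (hpY : p ≤ Y) :
    p * ((BB Y).filter fun b => (p : ℤ) ∣ b.1 ^ 2 + b.2 ^ 2).card ≤ 4 * Y * Y := by
  have : Fact p.Prime := ⟨hp⟩
  refine card_rows Y p (4 * Y) _ fun y => ?_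
  rcases ((Icc (1 : ℤ) Y).filter fun x => (p : ℤ) ∣ x ^ 2 + y ^ 2).eq_empty_or_nonempty with h0 | ⟨x0, h0⟩
  · simp only at h0 ⊢
    rw [h0]; simp
  · rw [Finset.mem_filter] at h0
    have h1 := card_res Y p hp.pos hpY ((x0 : ℤ) : ZMod p)
    have h2 := card_res Y p hp.pos hpY (-((x0 : ℤ) : ZMod p))
    have hsub : ((Icc (1 : ℤ) Y).filter fun x => (p : ℤ) ∣ x ^ 2 + y ^ 2) ⊆
        ((Icc (1 : ℤ) Y).filter fun x => ((x : ℤ) : ZMod p) = ((x0 : ℤ) : ZMod p)) ∪
        ((Icc (1 : ℤ) Y).filter fun x => ((x : ℤ) : ZMod p) = -((x0 : ℤ) : ZMod p)) := by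
      intro x hx
      rw [Finset.mem_filter] at hx
      rw [Finset.mem_union, Finset.mem_filter, Finset.mem_filter]
      have e1 : ((x ^ 2 + y ^ 2 : ℤ) : ZMod p) = 0 := (ZMod.intCast_zmod_eq_zero_iff_dvd _ _).2 hx.2
      have e2 : ((x0 ^ 2 + y ^ 2 : ℤ) : ZMod p) = 0 := (ZMod.intCast_zmod_eq_zero_iff_dvd _ _).2 h0.2
      push_cast at e1 e2
      have e3 : ((x : ZMod p) - x0) * ((x : ZMod p) + x0) = 0 := by linear_combination e1 - e2
      rcases mul_eq_zero.1 e3 with h | h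
      · left; exact ⟨hx.1, sub_eq_zero.1 h⟩
      · right; exact ⟨hx.1, eq_neg_of_add_eq_zero_left h⟩
    have h3 := Finset.card_le_card hsub
    have h4 := le_trans h3 (Finset.card_union_le _ _)
    have h5 := Nat.mul_le_mul_left p h4
    simp only at h5 ⊢
    nlinarith

open Classical in
/-- good points of the box -/
noncomputable def GG (P : Finset ℕ) (Y : ℕ) : Finset (ℤ × ℤ) :=
  (BB Y).filter fun b => ∀ p ∈ P, ¬ (p : ℤ) ∣ b.1 ^ 2 + b.2 ^ 2

theorem card_GG (P : Finset ℕ) (Y : ℕ)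
    (hP : ∀ p ∈ P, p.Prime ∧ p ≠ 2 ∧ p ≤ Y) (hsum : ∑ p ∈ P, (8 : ℝ) / p ≤ 1 / 2) :
    (3 / 4 : ℝ) * Y ^ 2 ≤ (GG P Y).card := by
  classical
  have h1 : BB Y ⊆ GG P Y ∪ P.biUnion (fun p => (BB Y).filter fun b => (p : ℤ) ∣ b.1 ^ 2 + b.2 ^ 2) := by
    intro b hb
    rw [Finset.mem_union]
    by_cases h : ∀ p ∈ P, ¬ (p : ℤ) ∣ b.1 ^ 2 + b.2 ^ 2
    · left
      unfold GG
      rw [Finset.mem_filter]
      exact ⟨hb, h⟩
    · right
      push Not at h
      obtain ⟨p, hp, hd⟩ := h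
      rw [Finset.mem_biUnion]
      exact ⟨p, hp, Finset.mem_filter.2 ⟨hb, hd⟩⟩
  have h2 := le_trans (Finset.card_le_card h1) (Finset.card_union_le _ _)
  have h3 : ((P.biUnion (fun p => (BB Y).filter fun b => (p : ℤ) ∣ b.1 ^ 2 + b.2 ^ 2)).card : ℝ) ≤
      (1 / 4) * Y ^ 2 := by
    have h4 : (P.biUnion (fun p => (BB Y).filter fun b => (p : ℤ) ∣ b.1 ^ 2 + b.2 ^ 2)).card ≤
        ∑ p ∈ P, ((BB Y).filter fun b => (p : ℤ) ∣ b.1 ^ 2 + b.2 ^ 2).card := Finset.card_biUnion_le
    have h5 : ∀ p ∈ P, ((((BB Y).filter fun b => (p : ℤ) ∣ b.1 ^ 2 + b.2 ^ 2).card : ℕ) : ℝ) ≤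
        (Y : ℝ) ^ 2 / 2 * (8 / p) := by
      intro p hp
      have hq := card_quad Y p (hP p hp).1 (hP p hp).2.2
      have hp0 : (0 : ℝ) < p := by exact_mod_cast (hP p hp).1.pos
      have hq' : (p : ℝ) * ((((BB Y).filter fun b => (p : ℤ) ∣ b.1 ^ 2 + b.2 ^ 2).card : ℕ) : ℝ) ≤
          4 * Y * Y := by exact_mod_cast hq
      have e : (Y : ℝ) ^ 2 / 2 * (8 / p) = (4 * Y * Y) / p := by ring
      rw [e, le_div_iff₀ hp0]
      linarith
    calc _ ≤ ((∑ p ∈ P, ((BB Y).filter fun b => (p : ℤ) ∣ b.1 ^ 2 + b.2 ^ 2).card : ℕ) : ℝ) := by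
          exact_mod_cast h4
      _ = ∑ p ∈ P, ((((BB Y).filter fun b => (p : ℤ) ∣ b.1 ^ 2 + b.2 ^ 2).card : ℕ) : ℝ) := by
          push_cast; rfl
      _ ≤ ∑ p ∈ P, (Y : ℝ) ^ 2 / 2 * (8 / p) := Finset.sum_le_sum h5
      _ = (Y : ℝ) ^ 2 / 2 * ∑ p ∈ P, (8 : ℝ) / p := by rw [Finset.mul_sum]
      _ ≤ (Y : ℝ) ^ 2 / 2 * (1 / 2) := mul_le_mul_of_nonneg_left hsum (by positivity)
      _ = _ := by ring
  rw [card_BB] at h2
  have h2' : ((Y : ℝ)) ^ 2 ≤ (GG P Y).card +
      ((P.biUnion (fun p => (BB Y).filter fun b => (p : ℤ) ∣ b.1 ^ 2 + b.2 ^ 2)).card : ℝ) := by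
    exact_mod_cast h2
  linarith

/-- the swap trick -/
theorem swap {r : ℕ} {α : Type} [DecidableEq α] (G : Finset α) (l : Fin r)
    (f : (Fin r → α) → ℕ) :
    ∑ a ∈ Fintype.piFinset (fun _ : Fin r => G), ∑ b ∈ G, f (Function.update a l b) =
      G.card * ∑ a ∈ Fintype.piFinset (fun _ : Fin r => G), f a := by
  have h1 : ∑ a ∈ Fintype.piFinset (fun _ : Fin r => G), ∑ b ∈ G, f (Function.update a l b) =
      ∑ x ∈ (Fintype.piFinset (fun _ : Fin r => G)) ×ˢ G, f (Function.update x.1 l x.2) := by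
    rw [Finset.sum_product]
  have h2 : G.card * ∑ a ∈ Fintype.piFinset (fun _ : Fin r => G), f a =
      ∑ x ∈ (Fintype.piFinset (fun _ : Fin r => G)) ×ˢ G, f x.1 := by
    rw [Finset.sum_product, Finset.mul_sum]
    refine Finset.sum_congr rfl fun a _ => ?_
    have e : ∑ y ∈ G, f (a, y).1 = ∑ _y ∈ G, f a := rfl
    rw [e, Finset.sum_const, smul_eq_mul]
  rw [h1, h2]
  refine Finset.sum_bij' (fun x _ => (Function.update x.1 l x.2, x.1 l))
    (fun x _ => (Function.update x.1 l x.2, x.1 l)) ?_ ?_ ?_ ?_ ?_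
  · intro x hx
    rw [Finset.mem_product, Fintype.mem_piFinset] at hx ⊢
    refine ⟨fun m => ?_, hx.1 l⟩
    by_cases h : m = l
    · subst h; simp only [Function.update_self]; exact hx.2
    · simp only [Function.update_of_ne h]; exact hx.1 m
  · intro x hx
    rw [Finset.mem_product, Fintype.mem_piFinset] at hx ⊢
    refine ⟨fun m => ?_, hx.1 l⟩
    by_cases h : m = l
    · subst h; simp only [Function.update_self]; exact hx.2
    · simp only [Function.update_of_ne h]; exact hx.1 m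
  · intro x hx
    simp
  · intro x hx
    simp
  · intro x hx
    rfl

/-- point to Gaussian integer -/
def AA (b : ℤ × ℤ) : GaussianInt := ⟨b.1, b.2⟩

theorem norm_AA (b : ℤ × ℤ) : (AA b).norm = b.1 ^ 2 + b.2 ^ 2 := by
  simp [AA, Zsqrtd.norm_def]
  ring

/-- one-variable count -/
theorem card_one (P : Finset ℕ) (Y r p : ℕ) (hp : p.Prime) (hp2 : p ≠ 2) (hpY : p ≤ Y)
    (hpP : p ∈ P) (φ : GaussianInt →+* ZMod p) (S S' : Finset (Fin r)) (l : Fin r)
    (hl : l ∈ S) (hl' : l ∉ S') (a : Fin r → ℤ × ℤ)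
    (ha : ∀ m, a m ∈ GG P Y) :
    p * ((GG P Y).filter fun b => φ (g0fam (fun m => AA (Function.update a l b m)) S) =
      φ (g0fam (fun m => AA (Function.update a l b m)) S')).card ≤ 2 * Y * Y := by
  classical
  have : Fact p.Prime := ⟨hp⟩
  -- values of `φ`
  set j : ZMod p := φ Zsqrtd.sqrtd with hj
  have hφ : ∀ b : ℤ × ℤ, φ (AA b) = (b.1 : ZMod p) + (b.2 : ZMod p) * j := by
    intro b
    have e : AA b = (b.1 : GaussianInt) + (b.2 : GaussianInt) * Zsqrtd.sqrtd := by
      rw [Zsqrtd.ext_iff]; simp [AA]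
    rw [e, map_add, map_mul, map_intCast, map_intCast]
  have hj2 : j * j = -1 := by
    have e : (Zsqrtd.sqrtd : GaussianInt) * Zsqrtd.sqrtd = -1 := by
      rw [Zsqrtd.ext_iff]; simp
    rw [hj, ← map_mul, e, map_neg, map_one]
  have hN : ∀ b : ℤ × ℤ, φ ((AA b).norm : GaussianInt) =
      φ (AA b) * ((b.1 : ZMod p) - (b.2 : ZMod p) * j) := by
    intro b
    rw [norm_AA, hφ, map_intCast]
    push_cast
    linear_combination ((b.2 : ZMod p)) ^ 2 * hj2
  have hGne : ∀ b ∈ GG P Y, φ (AA b) ≠ 0 ∧ φ ((AA b).norm : GaussianInt) ≠ 0 := by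
    intro b hb
    unfold GG at hb
    rw [Finset.mem_filter] at hb
    have h1 : φ ((AA b).norm : GaussianInt) ≠ 0 := by
      rw [norm_AA, map_intCast]
      intro h
      exact hb.2 p hpP ((ZMod.intCast_zmod_eq_zero_iff_dvd _ _).1 h)
    refine ⟨fun h => h1 ?_, h1⟩
    rw [hN, h, zero_mul]
  -- the two products
  let X : Finset (Fin r) → ZMod p := fun T =>
    ∏ m ∈ Finset.univ.erase l, (if m ∈ T then φ (AA (a m)) ^ 2 else φ ((AA (a m)).norm : GaussianInt))
  have hX : ∀ T, X T ≠ 0 := by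
    intro T
    refine Finset.prod_ne_zero_iff.2 fun m _ => ?_
    split_ifs
    · exact pow_ne_zero _ (hGne _ (ha m)).1
    · exact (hGne _ (ha m)).2
  have hval : ∀ (T : Finset (Fin r)) (b : ℤ × ℤ),
      φ (g0fam (fun m => AA (Function.update a l b m)) T) =
      (if l ∈ T then φ (AA b) ^ 2 else φ ((AA b).norm : GaussianInt)) * X T := by
    intro T b
    unfold g0fam
    rw [map_prod, ← Finset.mul_prod_erase Finset.univ _ (Finset.mem_univ l)]
    congr 1
    · simp only [Function.update_self]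
      split_ifs
      · rw [map_pow]
      · rfl
    · refine Finset.prod_congr rfl fun m hm => ?_
      have hml : m ≠ l := Finset.ne_of_mem_erase hm
      simp only [Function.update_of_ne hml]
      split_ifs
      · rw [map_pow]
      · rfl
  have hne : (X S - X S') ≠ 0 ∨ (X S + X S') * j ≠ 0 := by
    by_contra hcon
    push Not at hcon
    have hj0 : j ≠ 0 := by
      intro h
      rw [h] at hj2
      simp at hj2
    have h1 : X S + X S' = 0 := by
      rcases mul_eq_zero.1 hcon.2 with h | h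
      · exact h
      · exact absurd h hj0
    have h2 : (2 : ZMod p) * X S = 0 := by linear_combination hcon.1 + h1
    have h20 : (2 : ZMod p) ≠ 0 := by
      intro h
      have h3 : ((2 : ℕ) : ZMod p) = 0 := by exact_mod_cast h
      rw [ZMod.natCast_eq_zero_iff] at h3
      exact hp2 ((Nat.prime_dvd_prime_iff_eq hp Nat.prime_two).1 h3)
    rcases mul_eq_zero.1 h2 with h | h
    · exact h20 h
    · exact hX S h
  refine le_trans (Nat.mul_le_mul_left p (Finset.card_le_card ?_))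
    (card_lin Y p hp hpY (X S - X S') ((X S + X S') * j) hne)
  intro b hb
  rw [Finset.mem_filter] at hb
  have hbG := hb.1
  have heq := hb.2
  rw [hval, hval, if_pos hl, if_neg hl', hN] at heq
  unfold GG at hbG
  rw [Finset.mem_filter] at hbG ⊢
  refine ⟨hbG.1, ?_⟩
  have hb0 := (hGne b hb.1).1
  have h5 : φ (AA b) * (φ (AA b) * X S) = φ (AA b) *
      (((b.1 : ZMod p) - (b.2 : ZMod p) * j) * X S') := by linear_combination heq
  have h6 := mul_left_cancel₀ hb0 h5
  rw [hφ] at h6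
  linear_combination h6

/-- equality modulo the prime `(p, i - j)` -/
def EE (p j : ℕ) (g g' : GaussianInt) : Prop :=
  ((g.re + g.im * j : ℤ) : ZMod p) = ((g'.re + g'.im * j : ℤ) : ZMod p)

/-- residues whose square is `-1` -/
def JJ (p : ℕ) : Finset ℕ := (range p).filter fun j => p ∣ j ^ 2 + 1

theorem card_JJ (p : ℕ) (hp : p.Prime) : (JJ p).card ≤ 2 := by
  have : Fact p.Prime := ⟨hp⟩
  rcases (JJ p).eq_empty_or_nonempty with h0 | ⟨j0, h0⟩
  · rw [h0]; simp
  · have hsub : JJ p ⊆ {j0, p - j0} := by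
      intro j hj
      unfold JJ at hj h0
      rw [Finset.mem_filter, Finset.mem_range] at hj h0
      rw [Finset.mem_insert, Finset.mem_singleton]
      have e1 : ((j ^ 2 + 1 : ℕ) : ZMod p) = 0 := (ZMod.natCast_eq_zero_iff _ _).2 hj.2
      have e2 : ((j0 ^ 2 + 1 : ℕ) : ZMod p) = 0 := (ZMod.natCast_eq_zero_iff _ _).2 h0.2
      push_cast at e1 e2
      have e3 : ((j : ZMod p) - j0) * ((j : ZMod p) + j0) = 0 := by linear_combination e1 - e2
      rcases mul_eq_zero.1 e3 with h | h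
      · left
        have h1 : (j : ZMod p) = j0 := sub_eq_zero.1 h
        rw [ZMod.natCast_eq_natCast_iff'] at h1
        rwa [Nat.mod_eq_of_lt hj.1, Nat.mod_eq_of_lt h0.1] at h1
      · right
        have h1 : ((j + j0 : ℕ) : ZMod p) = 0 := by exact_mod_cast h
        rw [ZMod.natCast_eq_zero_iff] at h1
        obtain ⟨c, hc⟩ := h1
        have hc2 : c < 2 := by
          by_contra hcon
          push Not at hcon
          have : p * 2 ≤ p * c := Nat.mul_le_mul_left p hcon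
          omega
        interval_cases c
        · -- both are zero
          have hj0 : j = 0 := by omega
          rw [hj0] at hj
          have := Nat.dvd_one.1 (by simpa using hj.2)
          exact absurd this hp.one_lt.ne'
        · omega
    refine le_trans (Finset.card_le_card hsub) ?_
    exact Finset.card_le_two

theorem exists_hom (p j : ℕ) (hj : p ∣ j ^ 2 + 1) : ∃ φ : GaussianInt →+* ZMod p,
    ∀ g : GaussianInt, φ g = ((g.re + g.im * j : ℤ) : ZMod p) := by
  have h1 : ((j : ZMod p)) * j = ((-1 : ℤ) : ZMod p) := by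
    have e1 : ((j ^ 2 + 1 : ℕ) : ZMod p) = 0 := (ZMod.natCast_eq_zero_iff _ _).2 hj
    push_cast at e1 ⊢
    linear_combination e1
  refine ⟨Zsqrtd.lift ⟨(j : ZMod p), h1⟩, fun g => ?_⟩
  rw [Zsqrtd.lift_apply_apply]
  push_cast
  rfl

open Classical in
/-- number of coincidences -/
noncomputable def CC {r : ℕ} (p j : ℕ) (a : Fin r → GaussianInt) : ℕ :=
  ((Finset.univ : Finset (Finset (Fin r) × Finset (Fin r))).filter fun x =>
    EE p j (g0fam a x.1) (g0fam a x.2)).card

theorem sum_CC (P : Finset ℕ) (Y r : ℕ) (hY : 1 ≤ Y)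
    (hP : ∀ p ∈ P, p.Prime ∧ p ≠ 2 ∧ p ≤ Y) (hsum : ∑ p ∈ P, (8 : ℝ) / p ≤ 1 / 2)
    (hr : Y ≤ 2 ^ r) (p j : ℕ) (hp : p ∈ P) (hj : j ∈ JJ p) :
    ∑ a ∈ Fintype.piFinset (fun _ : Fin r => GG P Y), p * CC p j (fun m => AA (a m)) ≤
      4 * 4 ^ r * (GG P Y).card ^ r := by
  classical
  set G := GG P Y with hG
  obtain ⟨φ, hφ⟩ := exists_hom p j (by
    unfold JJ at hj; rw [Finset.mem_filter] at hj; exact hj.2)
  have hGcard := card_GG P Y hP hsum
  rw [← hG] at hGcard
  have hGpos : 0 < G.card := by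
    have : (0 : ℝ) < G.card := by
      have h1 : (1 : ℝ) ≤ Y := by exact_mod_cast hY
      nlinarith
    exact_mod_cast this
  have h2Y : 2 * Y * Y ≤ 3 * G.card := by
    have : (2 : ℝ) * Y * Y ≤ 3 * G.card := by nlinarith
    exact_mod_cast this
  have hcardpi : (Fintype.piFinset (fun _ : Fin r => G)).card = G.card ^ r := by
    rw [Fintype.card_piFinset_const]
  have hEE : ∀ g g' : GaussianInt, EE p j g g' ↔ φ g = φ g' := by
    intro g g'; unfold EE; rw [hφ, hφ]
  -- exchange sums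
  have h1 : ∑ a ∈ Fintype.piFinset (fun _ : Fin r => G), p * CC p j (fun m => AA (a m)) =
      ∑ x : Finset (Fin r) × Finset (Fin r), p * ((Fintype.piFinset (fun _ : Fin r => G)).filter
        fun a => φ (g0fam (fun m => AA (a m)) x.1) = φ (g0fam (fun m => AA (a m)) x.2)).card := by
    rw [← Finset.mul_sum, ← Finset.mul_sum]
    congr 1
    unfold CC
    simp only [Finset.card_filter, hEE]
    rw [Finset.sum_comm]
  rw [h1]
  -- off diagonal, with a separating index
  have hoff1 : ∀ (S S' : Finset (Fin r)) (l : Fin r), l ∈ S → l ∉ S' →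
      p * ((Fintype.piFinset (fun _ : Fin r => G)).filter
        fun a => φ (g0fam (fun m => AA (a m)) S) = φ (g0fam (fun m => AA (a m)) S')).card ≤
        3 * G.card ^ r := by
    intro S S' l hl hl'
    have hsw := swap G l (fun a : Fin r → ℤ × ℤ =>
      if φ (g0fam (fun m => AA (a m)) S) = φ (g0fam (fun m => AA (a m)) S') then 1 else 0)
    rw [← Finset.card_filter] at hsw
    have hle : p * ∑ a ∈ Fintype.piFinset (fun _ : Fin r => G), ∑ b ∈ G,
        (if φ (g0fam (fun m => AA (Function.update a l b m)) S) =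
          φ (g0fam (fun m => AA (Function.update a l b m)) S') then 1 else 0) ≤
        G.card ^ r * (2 * Y * Y) := by
      rw [Finset.mul_sum]
      calc _ ≤ ∑ _a ∈ Fintype.piFinset (fun _ : Fin r => G), 2 * Y * Y := by
            refine Finset.sum_le_sum fun a ha => ?_
            rw [← Finset.card_filter]
            rw [Fintype.mem_piFinset] at ha
            exact card_one P Y r p (hP p hp).1 (hP p hp).2.1 (hP p hp).2.2 hp φ S S' l hl hl' a ha
        _ = _ := by rw [Finset.sum_const, hcardpi, smul_eq_mul]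
    rw [hsw] at hle
    have h5 : G.card * (p * ((Fintype.piFinset (fun _ : Fin r => G)).filter
        fun a => φ (g0fam (fun m => AA (a m)) S) = φ (g0fam (fun m => AA (a m)) S')).card) ≤
        G.card * (3 * G.card ^ r) := by
      calc _ = p * (G.card * ((Fintype.piFinset (fun _ : Fin r => G)).filter
        fun a => φ (g0fam (fun m => AA (a m)) S) = φ (g0fam (fun m => AA (a m)) S')).card) := by ring
        _ ≤ G.card ^ r * (2 * Y * Y) := hle
        _ ≤ G.card ^ r * (3 * G.card) := Nat.mul_le_mul_left _ h2Y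
        _ = _ := by ring
    exact Nat.le_of_mul_le_mul_left h5 hGpos
  have hoff : ∀ (S S' : Finset (Fin r)), S ≠ S' →
      p * ((Fintype.piFinset (fun _ : Fin r => G)).filter
        fun a => φ (g0fam (fun m => AA (a m)) S) = φ (g0fam (fun m => AA (a m)) S')).card ≤
        3 * G.card ^ r := by
    intro S S' hne
    have hex : ∃ l, (l ∈ S ∧ l ∉ S') ∨ (l ∈ S' ∧ l ∉ S) := by
      by_contra hcon
      push Not at hcon
      exact hne (Finset.ext fun l => ⟨(hcon l).1, (hcon l).2⟩)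
    obtain ⟨l, hl | hl⟩ := hex
    · exact hoff1 S S' l hl.1 hl.2
    · have := hoff1 S' S l hl.1 hl.2
      have e : ((Fintype.piFinset (fun _ : Fin r => G)).filter
        fun a => φ (g0fam (fun m => AA (a m)) S) = φ (g0fam (fun m => AA (a m)) S')) =
        ((Fintype.piFinset (fun _ : Fin r => G)).filter
        fun a => φ (g0fam (fun m => AA (a m)) S') = φ (g0fam (fun m => AA (a m)) S)) := by
        refine Finset.filter_congr fun a _ => ?_
        exact eq_comm
      rw [e]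
      exact this
  have hall : ∀ x : Finset (Fin r) × Finset (Fin r),
      p * ((Fintype.piFinset (fun _ : Fin r => G)).filter
        fun a => φ (g0fam (fun m => AA (a m)) x.1) = φ (g0fam (fun m => AA (a m)) x.2)).card ≤
        (if x.1 = x.2 then p * G.card ^ r else 0) + 3 * G.card ^ r := by
    intro x
    by_cases h : x.1 = x.2
    · rw [if_pos h]
      refine le_trans (Nat.mul_le_mul_left p (Finset.card_filter_le _ _)) ?_
      rw [hcardpi]
      omega
    · rw [if_neg h, zero_add]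
      exact hoff _ _ h
  refine le_trans (Finset.sum_le_sum fun x _ => hall x) ?_
  rw [Finset.sum_add_distrib, Finset.sum_const, Finset.card_univ, Fintype.card_prod,
    Fintype.card_finset, Fintype.card_fin, Fintype.sum_prod_type]
  have hdiag : ∑ x : Finset (Fin r), ∑ y : Finset (Fin r),
      (if x = y then p * G.card ^ r else 0) = 2 ^ r * (p * G.card ^ r) := by
    simp only [Finset.sum_ite_eq, Finset.mem_univ, if_true, Finset.sum_const, Finset.card_univ,
      Fintype.card_finset, Fintype.card_fin, smul_eq_mul]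
  rw [hdiag, smul_eq_mul]
  have hpr : p ≤ 2 ^ r := le_trans (hP p hp).2.2 hr
  have e4 : (4 : ℕ) ^ r = 2 ^ r * 2 ^ r := by
    rw [← mul_pow]; norm_num
  rw [e4]
  have h7 : 2 ^ r * (p * G.card ^ r) ≤ 2 ^ r * (2 ^ r * G.card ^ r) :=
    Nat.mul_le_mul_left _ (Nat.mul_le_mul_right _ hpr)
  nlinarith

end W0

open W0 in
theorem exists_W0 (P : Finset ℕ) (Y r : ℕ) (hY : 1 ≤ Y)
    (hP : ∀ p ∈ P, p.Prime ∧ p ≠ 2 ∧ p ≤ Y) (hsum : ∑ p ∈ P, (8 : ℝ) / p ≤ 1 / 2)
    (hr : Y ≤ 2 ^ r) :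
    ∃ a : Fin r → GaussianInt,
      (∀ l, 1 ≤ (a l).re ∧ (a l).re ≤ Y ∧ 1 ≤ (a l).im ∧ (a l).im ≤ Y) ∧
      (∀ l, ∀ p ∈ P, ¬ (p : ℤ) ∣ (a l).norm) ∧
      ∀ p ∈ P, Rich (g0fam a) p (18 * P.card) := by
  classical
  have hGcard := card_GG P Y hP hsum
  have hGpos : 0 < (GG P Y).card := by
    have : (0 : ℝ) < (GG P Y).card := by
      have h1 : (1 : ℝ) ≤ Y := by exact_mod_cast hY
      nlinarith
    exact_mod_cast this
  have hcardpi : (Fintype.piFinset (fun _ : Fin r => GG P Y)).card = (GG P Y).card ^ r := by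
    rw [Fintype.card_piFinset_const]
  have hne : (Fintype.piFinset (fun _ : Fin r => GG P Y)).Nonempty := by
    rw [← Finset.card_pos, hcardpi]
    exact pow_pos hGpos r
  have htot : ∑ a ∈ Fintype.piFinset (fun _ : Fin r => GG P Y),
      ∑ p ∈ P, ∑ j ∈ JJ p, p * CC p j (fun m => AA (a m)) ≤
      ∑ _a ∈ Fintype.piFinset (fun _ : Fin r => GG P Y), 8 * P.card * 4 ^ r := by
    rw [Finset.sum_const, hcardpi, smul_eq_mul, Finset.sum_comm]
    calc _ = ∑ p ∈ P, ∑ j ∈ JJ p, ∑ a ∈ Fintype.piFinset (fun _ : Fin r => GG P Y),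
          p * CC p j (fun m => AA (a m)) := by
          refine Finset.sum_congr rfl fun p _ => ?_
          rw [Finset.sum_comm]
      _ ≤ ∑ p ∈ P, ∑ j ∈ JJ p, 4 * 4 ^ r * (GG P Y).card ^ r :=
          Finset.sum_le_sum fun p hp => Finset.sum_le_sum fun j hj =>
            sum_CC P Y r hY hP hsum hr p j hp hj
      _ ≤ ∑ p ∈ P, 2 * (4 * 4 ^ r * (GG P Y).card ^ r) := by
          refine Finset.sum_le_sum fun p hp => ?_
          rw [Finset.sum_const, smul_eq_mul]
          exact Nat.mul_le_mul_right _ (card_JJ p (hP p hp).1)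
      _ = _ := by
          rw [Finset.sum_const, smul_eq_mul]
          ring
  obtain ⟨a, ha, hle⟩ := Finset.exists_le_of_sum_le hne htot
  rw [Fintype.mem_piFinset] at ha
  refine ⟨fun m => AA (a m), fun l => ?_, fun l p hp => ?_, fun p hp φ => ?_⟩
  · have h1 := ha l
    unfold GG BB at h1
    rw [Finset.mem_filter, Finset.mem_product, Finset.mem_Icc, Finset.mem_Icc] at h1
    exact ⟨h1.1.1.1, h1.1.1.2, h1.1.2.1, h1.1.2.2⟩
  · have h1 := ha l
    unfold GG at h1
    rw [Finset.mem_filter] at h1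
    rw [norm_AA]
    exact h1.2 p hp
  · have : Fact p.Prime := ⟨(hP p hp).1⟩
    set j0 : ZMod p := φ Zsqrtd.sqrtd with hj0
    have hj2 : j0 * j0 = -1 := by
      have e : (Zsqrtd.sqrtd : GaussianInt) * Zsqrtd.sqrtd = -1 := by
        rw [Zsqrtd.ext_iff]; simp
      rw [hj0, ← map_mul, e, map_neg, map_one]
    have hcast : ((j0.val : ℕ) : ZMod p) = j0 := ZMod.natCast_zmod_val j0
    have hJ : j0.val ∈ JJ p := by
      unfold JJ
      rw [Finset.mem_filter, Finset.mem_range]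
      refine ⟨ZMod.val_lt j0, ?_⟩
      rw [← ZMod.natCast_eq_zero_iff]
      push_cast
      rw [hcast]
      linear_combination hj2
    have hφ : ∀ g : GaussianInt, φ g = ((g.re + g.im * j0.val : ℤ) : ZMod p) := by
      intro g
      have e : g = (g.re : GaussianInt) + (g.im : GaussianInt) * Zsqrtd.sqrtd := by
        rw [Zsqrtd.ext_iff]; simp
      conv_lhs => rw [e]
      rw [map_add, map_mul, map_intCast, map_intCast]
      push_cast
      rw [hcast]
    have h1 : p * CC p j0.val (fun m => AA (a m)) ≤ 8 * P.card * 4 ^ r := by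
      refine le_trans ?_ hle
      refine le_trans ?_ (Finset.single_le_sum (f := fun p => ∑ j ∈ JJ p,
        p * CC p j (fun m => AA (a m))) (fun _ _ => Nat.zero_le _) hp)
      exact Finset.single_le_sum (f := fun j => p * CC p j (fun m => AA (a m)))
        (fun _ _ => Nat.zero_le _) hJ
    have e : (Finset.univ.filter fun x : Finset (Fin r) × Finset (Fin r) =>
        φ (g0fam (fun m => AA (a m)) x.1) = φ (g0fam (fun m => AA (a m)) x.2)).card =
        CC p j0.val (fun m => AA (a m)) := by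
      unfold CC EE
      simp only [hφ]
      congr!
    have h2 : p * (Finset.univ.filter fun x : Finset (Fin r) × Finset (Fin r) =>
        φ (g0fam (fun m => AA (a m)) x.1) = φ (g0fam (fun m => AA (a m)) x.2)).card ≤
        18 * P.card * Fintype.card (Finset (Fin r)) ^ 2 := by
      rw [e, Fintype.card_finset, Fintype.card_fin]
      have e4 : ((2 : ℕ) ^ r) ^ 2 = 4 ^ r := by
        rw [← pow_mul, mul_comm, pow_mul]
        norm_num
      rw [e4]
      refine le_trans h1 ?_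
      have : 0 ≤ P.card * 4 ^ r := Nat.zero_le _
      nlinarith
    convert h2

end Pyj
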