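import Pool.Agent.Helper79.Pyj.Defs
import Pool.Agent.Helper79.Pyj.W0

/-! Basic facts on `rot` and on the sampling family. -/

namespace Pyj

open Complex Finset

theorem exists_norm_eq (p : ℕ) (hp : p.Prime) (h4 : p % 4 = 1) :
    ∃ a : GaussianInt, a.norm = p := by
  have := Fact.mk hp
  obtain ⟨x, y, hxy⟩ := Nat.Prime.sq_add_sq (p := p) (by omega)
  refine ⟨⟨x, y⟩, ?_⟩
  rw [Zsqrtd.norm_def]
  have : ((x ^ 2 + y ^ 2 : ℕ) : ℤ) = p := by exact_mod_cast hxy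
  push_cast at this
  simp only
  linarith

open Classical in
/-- a Gaussian integer of norm `p` (for `p ≡ 1 mod 4` prime). -/
noncomputable def aa (p : ℕ) : GaussianInt :=
  if h : ∃ a : GaussianInt, a.norm = p then h.choose else 1

theorem norm_aa (p : ℕ) (hp : p.Prime) (h4 : p % 4 = 1) : (aa p).norm = p := by
  have h := exists_norm_eq p hp h4
  unfold aa
  rw [dif_pos h]
  exact h.choose_spec

theorem ne_zero_of_norm {a : GaussianInt} {p : ℕ} (hp : 0 < p) (h : a.norm = p) : a ≠ 0 := by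
  rintro rfl
  rw [Zsqrtd.norm_zero] at h
  have : p = 0 := by exact_mod_cast h.symm
  omega

theorem norm_mul_rot (a : GaussianInt) (ha : a ≠ 0) :
    (a.norm : ℂ) * rot a = ((a ^ 2 : GaussianInt) : ℂ) := by
  have h1 : ((star a : GaussianInt) : ℂ) ≠ 0 := by
    intro h
    rw [GaussianInt.toComplex_eq_zero] at h
    exact ha (star_eq_zero.mp h)
  have h2 : (a.norm : ℂ) = (a : ℂ) * ((star a : GaussianInt) : ℂ) := by
    have h3 : ((a.norm : GaussianInt)) = a * star a := Zsqrtd.norm_eq_mul_conj a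
    have := congrArg GaussianInt.toComplex h3
    rw [map_mul] at this
    rw [← this]
    simp
  unfold rot
  rw [h2, map_pow]
  field_simp

theorem norm_pos_of_ne {a : GaussianInt} (ha : a ≠ 0) : 0 < a.norm := GaussianInt.norm_pos.mpr ha

theorem natAbs_norm_cast (a : GaussianInt) : ((a.norm.natAbs : ℕ) : ℂ) = (a.norm : ℂ) := by
  have h : ((a.norm.natAbs : ℕ) : ℤ) = a.norm :=
    Int.natAbs_of_nonneg (GaussianInt.norm_nonneg a)
  calc ((a.norm.natAbs : ℕ) : ℂ) = (((a.norm.natAbs : ℕ) : ℤ) : ℂ) := (Int.cast_natCast _).symm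
    _ = _ := by rw [h]

theorem gen_rot {𝒟 : Finset ℕ} {Λ : ℕ} (h1 : 1 ∈ 𝒟) {a : GaussianInt} (ha : a ≠ 0)
    (hΛ : 2 * a.norm ≤ Λ) : Gen 𝒟 Λ (rot a) := by
  have hpos := norm_pos_of_ne ha
  refine ⟨(a ^ 2).re, (a ^ 2).im, a.norm.natAbs, 1, ?_, ?_, h1, one_pos, ?_, ?_⟩
  · omega
  · omega
  · have e1 : (a ^ 2).re = a.re * a.re - a.im * a.im := by
      rw [pow_two, Zsqrtd.re_mul]; ring
    have e2 : (a ^ 2).im = 2 * (a.re * a.im) := by
      rw [pow_two, Zsqrtd.im_mul]; ring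
    have e3 : a.norm = a.re * a.re + a.im * a.im := by
      rw [Zsqrtd.norm_def]; ring
    rw [e1, e2]
    have h2 : |a.re * a.re - a.im * a.im| ≤ a.norm := by
      rw [e3, abs_le]
      constructor <;> nlinarith [mul_self_nonneg a.re, mul_self_nonneg a.im]
    have h3 : |2 * (a.re * a.im)| ≤ a.norm := by
      rw [e3, abs_le]
      constructor <;> nlinarith [mul_self_nonneg (a.re + a.im), mul_self_nonneg (a.re - a.im)]
    push_cast
    linarith
  · rw [natAbs_norm_cast, norm_mul_rot a ha, GaussianInt.toComplex_def]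
    simp

/-- the denominator `D0`. -/
def D0fam {r : ℕ} (a : Fin r → GaussianInt) : ℕ := ∏ l, (a l).norm.natAbs

theorem g0fam_eq {r : ℕ} (a : Fin r → GaussianInt) (ha : ∀ l, a l ≠ 0) (S : Finset (Fin r)) :
    ((g0fam a S : GaussianInt) : ℂ) = (D0fam a : ℂ) * ∏ l ∈ S, rot (a l) := by
  have h1 : ∏ l ∈ S, rot (a l) = ∏ l, (if l ∈ S then rot (a l) else 1) := by
    rw [Finset.prod_ite_mem, Finset.univ_inter]
  rw [h1, D0fam, g0fam, map_prod]
  push_cast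
  rw [← Finset.prod_mul_distrib]
  apply Finset.prod_congr rfl
  intro l _
  rw [natAbs_norm_cast]
  by_cases hl : l ∈ S
  · rw [if_pos hl, if_pos hl, norm_mul_rot _ (ha l)]
  · rw [if_neg hl, if_neg hl, mul_one]
    simp

theorem D0fam_pos {r : ℕ} (a : Fin r → GaussianInt) (ha : ∀ l, a l ≠ 0) : 0 < D0fam a := by
  apply Finset.prod_pos
  intro l _
  have := norm_pos_of_ne (ha l)
  omega

theorem not_dvd_D0fam {r : ℕ} (a : Fin r → GaussianInt) (p : ℕ) (hp : p.Prime)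
    (h : ∀ l, ¬ (p : ℤ) ∣ (a l).norm) : ¬ p ∣ D0fam a := by
  intro hd
  rw [D0fam, (Nat.Prime.prime hp).dvd_finsetProd_iff] at hd
  obtain ⟨l, _, hl⟩ := hd
  exact h l (Int.natCast_dvd.mpr hl)

theorem norm_le_of_box {Y : ℕ} {a : GaussianInt}
    (h : 1 ≤ a.re ∧ a.re ≤ Y ∧ 1 ≤ a.im ∧ a.im ≤ Y) : a.norm ≤ 2 * Y ^ 2 := by
  have e3 : a.norm = a.re * a.re + a.im * a.im := by
    rw [Zsqrtd.norm_def]; ring
  rw [e3]
  nlinarith [h.1, h.2.1, h.2.2.1, h.2.2.2]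

theorem D0fam_le {r Y : ℕ} (a : Fin r → GaussianInt)
    (h : ∀ l, 1 ≤ (a l).re ∧ (a l).re ≤ Y ∧ 1 ≤ (a l).im ∧ (a l).im ≤ Y) :
    D0fam a ≤ (2 * Y ^ 2) ^ r := by
  calc D0fam a ≤ ∏ _l : Fin r, (2 * Y ^ 2) := by
        apply Finset.prod_le_prod' 
        intro l _
        have := norm_le_of_box (h l)
        have h0 := GaussianInt.norm_nonneg (a l)
        zify
        rw [abs_of_nonneg h0]
        exact this
    _ = _ := by simp

theorem rl_norm_pa (n : ℕ) (y : ℤ) : (pa n y).norm = (2 * y + 1) ^ 2 + 4 ^ (n + 1) := by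
  rw [Zsqrtd.norm_def]
  simp only [pa]
  have : (4 : ℤ) ^ (n + 1) = 2 ^ (n + 1) * 2 ^ (n + 1) := by
    rw [← mul_pow]; norm_num
  rw [this]; ring

theorem norm_pa_le (n : ℕ) (y : ℤ) (hy : y ∈ pop n) : (pa n y).norm ≤ 2 ^ (2 * n + 3) := by
  rw [rl_norm_pa]
  rw [pop, mem_Ico] at hy
  have h1 : (2 : ℤ) ^ (2 * n + 3) = 2 ^ (2 * (n + 1)) + 4 ^ (n + 1) := by
    rw [show (4 : ℤ) = 2 ^ 2 by norm_num, ← pow_mul]; ring
  have h2 : (2 * y + 1) ^ 2 ≤ (2 : ℤ) ^ (2 * (n + 1)) := by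
    have h3 : (2 : ℤ) ^ (2 * (n + 1)) = (2 ^ (n + 1)) ^ 2 := by rw [← pow_mul, mul_comm]
    rw [h3]
    apply sq_le_sq'
    · rw [pow_succ]; linarith [hy.1]
    · rw [pow_succ]; linarith [hy.2]
  linarith

end Pyj
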