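import Pool.Agent.Helper79.Pyj.Defs
import Pool.Agent.Helper79.Pyj.Greedy

/-! M3: from positive hitting density in the box to a small hitting set -/

namespace Pyj

open Complex Finset

theorem Lat.mono {𝒟 : Finset ℕ} {A A' D : ℕ} {u : ℂ} (h : Lat 𝒟 A D u) (hA : A ≤ A') :
    Lat 𝒟 A' D u := by
  obtain ⟨a, ha, hu⟩ := h
  exact ⟨a, fun b S => (ha b S).trans (by exact_mod_cast hA), hu⟩

theorem Lat.one (𝒟 : Finset ℕ) : Lat 𝒟 1 1 1 := by
  classical
  refine ⟨fun b S => if b = false ∧ S = ∅ then 1 else 0, ?_, ?_⟩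
  · intro b S
    dsimp only
    split_ifs <;> simp
  · have h : ∀ b : Bool, ∑ S ∈ 𝒟.powerset,
        (((if b = false ∧ S = ∅ then 1 else 0 : ℤ)) : ℂ) * om b S = if b = false then 1 else 0 := by
      intro b
      cases b
      · rw [Finset.sum_eq_single_of_mem ∅ (Finset.empty_mem_powerset _)]
        · simp [om]
        · intro S _ hS
          simp [hS]
      · simp
    simp only [h, Fintype.sum_bool]
    simp

/-- multiply numerator and denominator by `C`. -/
theorem Lat.scale {𝒟 : Finset ℕ} {A D : ℕ} {u : ℂ} (h : Lat 𝒟 A D u) (C : ℕ) :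
    Lat 𝒟 (A * C) (D * C) u := by
  obtain ⟨a, ha, hu⟩ := h
  refine ⟨fun b S => C * a b S, ?_, ?_⟩
  · intro b S
    rw [abs_mul]
    have : |(C : ℤ)| = C := abs_of_nonneg (by positivity)
    rw [this]
    push_cast
    rw [mul_comm]
    exact mul_le_mul_of_nonneg_right (ha b S) (by positivity)
  · push_cast
    have : (D : ℂ) * C * u = C * ((D : ℂ) * u) := by ring
    rw [this, hu, Finset.mul_sum]
    refine Finset.sum_congr rfl fun b _ => ?_
    rw [Finset.mul_sum]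
    refine Finset.sum_congr rfl fun S _ => ?_
    ring

/-- Multiplication of a basis vector by `i √d`. -/
theorem om_mul (b : Bool) (S : Finset ℕ) (d : ℕ) :
    om b S * (I * ((Real.sqrt d : ℝ) : ℂ)) =
      ((if b then -1 else 1 : ℤ) : ℂ) * ((if d ∈ S then (d : ℤ) else 1 : ℤ) : ℂ) *
        om (!b) (symmDiff S {d}) := by
  classical
  have hs : (((Real.sqrt d : ℝ) : ℂ)) * ((Real.sqrt d : ℝ) : ℂ) = d := by
    rw [← Complex.ofReal_mul, Real.mul_self_sqrt (Nat.cast_nonneg d)]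
    simp
  have hprod : (∏ x ∈ S, ((Real.sqrt x : ℝ) : ℂ)) * ((Real.sqrt d : ℝ) : ℂ)
      = ((if d ∈ S then (d : ℤ) else 1 : ℤ) : ℂ) * ∏ x ∈ symmDiff S {d}, ((Real.sqrt x : ℝ) : ℂ) := by
    by_cases hd : d ∈ S
    · rw [if_pos hd]
      have h1 : symmDiff S {d} = S.erase d := by
        ext x
        rw [Finset.mem_symmDiff, Finset.mem_singleton, Finset.mem_erase]
        constructor
        · rintro (⟨h, h'⟩ | ⟨h, h'⟩)
          · exact ⟨h', h⟩
          · exact absurd (h ▸ hd) h'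
        · rintro ⟨h, h'⟩
          exact Or.inl ⟨h', h⟩
      rw [h1, ← Finset.mul_prod_erase S _ hd]
      push_cast
      linear_combination (∏ x ∈ S.erase d, ((Real.sqrt x : ℝ) : ℂ)) * hs
    · rw [if_neg hd]
      have h1 : symmDiff S {d} = insert d S := by
        ext x
        rw [Finset.mem_symmDiff, Finset.mem_singleton, Finset.mem_insert]
        constructor
        · rintro (⟨h, h'⟩ | ⟨h, h'⟩)
          · exact Or.inr h
          · exact Or.inl h
        · rintro (h | h)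
          · exact Or.inr ⟨h, h ▸ hd⟩
          · exact Or.inl ⟨h, fun h' => hd (h' ▸ h)⟩
      rw [h1, Finset.prod_insert hd]
      push_cast
      ring
  unfold om
  cases b
  · simp only [Bool.false_eq_true, if_false, Bool.not_false, if_true]
    have : 1 * (∏ d ∈ S, ((Real.sqrt d : ℝ) : ℂ)) * (I * ((Real.sqrt d : ℝ) : ℂ))
        = I * ((∏ x ∈ S, ((Real.sqrt x : ℝ) : ℂ)) * ((Real.sqrt d : ℝ) : ℂ)) := by ring
    rw [this, hprod]
    push_cast
    ring
  · simp only [if_true, Bool.not_true, Bool.false_eq_true, if_false]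
    have : I * (∏ d ∈ S, ((Real.sqrt d : ℝ) : ℂ)) * (I * ((Real.sqrt d : ℝ) : ℂ))
        = (I * I) * ((∏ x ∈ S, ((Real.sqrt x : ℝ) : ℂ)) * ((Real.sqrt d : ℝ) : ℂ)) := by ring
    rw [this, hprod, Complex.I_mul_I]
    push_cast
    ring

theorem Lat.mul_gen {𝒟 : Finset ℕ} {A D : ℕ} {u : ℂ} (h : Lat 𝒟 A D u) (A₀ B₀ : ℤ) (C d Λ : ℕ)
    (hd : d ∈ 𝒟) (hd0 : 0 < d) (hΛ : |A₀| + |B₀| * d ≤ Λ) (g : ℂ)
    (hg : (C : ℂ) * g = A₀ + B₀ * (I * ((Real.sqrt d : ℝ) : ℂ))) :
    Lat 𝒟 (A * Λ) (D * C) (u * g) := by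
  classical
  obtain ⟨a, ha, hu⟩ := h
  refine ⟨fun b S => A₀ * a b S + B₀ * ((if !b then -1 else 1) *
    (if d ∈ symmDiff S {d} then (d : ℤ) else 1) * a (!b) (symmDiff S {d})), ?_, ?_⟩
  · intro b S
    have h1 : |(if !b then (-1 : ℤ) else 1) * (if d ∈ symmDiff S {d} then (d : ℤ) else 1) *
        a (!b) (symmDiff S {d})| ≤ d * A := by
      rw [abs_mul, abs_mul]
      have e1 : |(if !b then (-1 : ℤ) else 1)| = 1 := by split_ifs <;> simp
      have e2 : |(if d ∈ symmDiff S {d} then (d : ℤ) else 1)| ≤ d := by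
        split_ifs
        · simp
        · simp only [abs_one]; exact_mod_cast hd0
      rw [e1, one_mul]
      exact mul_le_mul e2 (ha _ _) (abs_nonneg _) (by positivity)
    calc _ ≤ |A₀ * a b S| + |B₀ * ((if !b then (-1 : ℤ) else 1) *
          (if d ∈ symmDiff S {d} then (d : ℤ) else 1) * a (!b) (symmDiff S {d}))| := abs_add_le _ _
      _ = |A₀| * |a b S| + |B₀| * |(if !b then (-1 : ℤ) else 1) *
          (if d ∈ symmDiff S {d} then (d : ℤ) else 1) * a (!b) (symmDiff S {d})| := by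
          rw [abs_mul, abs_mul B₀]
      _ ≤ |A₀| * A + |B₀| * (d * A) := by
          gcongr
          exact ha b S
      _ = A * (|A₀| + |B₀| * d) := by ring
      _ ≤ A * Λ := by gcongr
      _ = ((A * Λ : ℕ) : ℤ) := by push_cast; ring
  · have h1 : ((D * C : ℕ) : ℂ) * (u * g) = ((D : ℂ) * u) * ((C : ℂ) * g) := by push_cast; ring
    rw [h1, hu, hg, Finset.sum_mul]
    have hR : ∀ b : Bool, ∑ S ∈ 𝒟.powerset, (((A₀ * a b S + B₀ * ((if !b then -1 else 1) *
          (if d ∈ symmDiff S {d} then (d : ℤ) else 1) * a (!b) (symmDiff S {d})) : ℤ)) : ℂ) * om b S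
        = A₀ * ∑ S ∈ 𝒟.powerset, (a b S : ℂ) * om b S
          + B₀ * ∑ S ∈ 𝒟.powerset, (a (!b) S : ℂ) * (om (!b) S * (I * ((Real.sqrt d : ℝ) : ℂ))) := by
      intro b
      have h2 : ∑ S ∈ 𝒟.powerset, (a (!b) S : ℂ) * (om (!b) S * (I * ((Real.sqrt d : ℝ) : ℂ)))
          = ∑ S ∈ 𝒟.powerset, (a (!b) (symmDiff S {d}) : ℂ) *
            (om (!b) (symmDiff S {d}) * (I * ((Real.sqrt d : ℝ) : ℂ))) := by
        have hmem : ∀ S ∈ 𝒟.powerset, symmDiff S {d} ∈ 𝒟.powerset := by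
          intro S hS
          rw [Finset.mem_powerset] at hS ⊢
          intro x hx
          rw [Finset.mem_symmDiff, Finset.mem_singleton] at hx
          rcases hx with ⟨h, _⟩ | ⟨h, _⟩
          · exact hS h
          · exact h ▸ hd
        symm
        refine Finset.sum_nbij' (fun S => symmDiff S {d}) (fun S => symmDiff S {d}) hmem hmem
          ?_ ?_ ?_
        · intro S _; exact symmDiff_symmDiff_cancel_right _ _
        · intro S _; exact symmDiff_symmDiff_cancel_right _ _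
        · intro S _; rfl
      rw [h2, Finset.mul_sum, Finset.mul_sum, ← Finset.sum_add_distrib]
      refine Finset.sum_congr rfl fun S _ => ?_
      rw [om_mul, symmDiff_symmDiff_cancel_right, Bool.not_not]
      push_cast
      ring
    rw [Finset.sum_congr rfl fun b _ => hR b]
    rw [Fintype.sum_bool, Fintype.sum_bool]
    simp only [Bool.not_true, Bool.not_false]
    have hS : ∀ b : Bool, ∑ S ∈ 𝒟.powerset, (a b S : ℂ) * (om b S * (I * ((Real.sqrt d : ℝ) : ℂ)))
        = (∑ S ∈ 𝒟.powerset, (a b S : ℂ) * om b S) * (I * ((Real.sqrt d : ℝ) : ℂ)) := by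
      intro b
      rw [Finset.sum_mul]
      exact Finset.sum_congr rfl fun S _ => by ring
    rw [hS, hS]
    ring

/-- one generator raised to a power at most `L`, with the common denominator `C ^ L`. -/
theorem Lat.mul_pow {𝒟 : Finset ℕ} {A D : ℕ} {u : ℂ} (h : Lat 𝒟 A D u) (A₀ B₀ : ℤ) (C d Λ : ℕ)
    (hCΛ : C ≤ Λ)
    (hd : d ∈ 𝒟) (hd0 : 0 < d) (hΛ : |A₀| + |B₀| * d ≤ Λ) (g : ℂ)
    (hg : (C : ℂ) * g = A₀ + B₀ * (I * ((Real.sqrt d : ℝ) : ℂ))) (L e : ℕ) (he : e ≤ L) :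
    Lat 𝒟 (A * Λ ^ L) (D * C ^ L) (u * g ^ e) := by
  induction L generalizing e with
  | zero =>
    have : e = 0 := by omega
    subst this
    simpa using h
  | succ L ih =>
    rcases Nat.lt_or_ge e (L + 1) with h1 | h1
    · have h2 := (ih e (by omega)).scale C
      have h3 := h2.mono (A' := A * Λ ^ (L + 1)) (by
        rw [pow_succ, ← mul_assoc]; exact Nat.mul_le_mul_left _ hCΛ)
      have e2 : D * C ^ (L + 1) = D * C ^ L * C := by ring
      rw [e2]
      exact h3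
    · have h4 : e = L + 1 := by omega
      subst h4
      have h2 := (ih L le_rfl).mul_gen A₀ B₀ C d Λ hd hd0 hΛ g hg
      rw [pow_succ, pow_succ, pow_succ, ← mul_assoc, ← mul_assoc, ← mul_assoc]
      exact h2

theorem lat_box (𝒟 : Finset ℕ) (𝒢 : Finset ℂ) (Λ L : ℕ)
    (hgen : ∀ g ∈ 𝒢, Gen 𝒟 Λ g ∧ ‖g‖ = 1) :
    ∃ D : ℕ, 0 < D ∧ ∀ e : 𝒢 → Fin L,
      Lat 𝒟 (Λ ^ (𝒢.card * L)) D (box (fun g : 𝒢 => (g : ℂ)) e) := by
  classical
  have hch : ∀ g : 𝒢, ∃ (A₀ B₀ : ℤ) (C d : ℕ), 0 < C ∧ C ≤ Λ ∧ d ∈ 𝒟 ∧ 0 < d ∧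
      |A₀| + |B₀| * d ≤ Λ ∧ (C : ℂ) * (g : ℂ) = A₀ + B₀ * (I * ((Real.sqrt d : ℝ) : ℂ)) :=
    fun g => (hgen g g.2).1
  choose A₀ B₀ C d hC0 hCΛ hd hd0 hΛ hg using hch
  have key : ∀ s : Finset 𝒢, ∀ e : 𝒢 → Fin L,
      Lat 𝒟 (Λ ^ (s.card * L)) (∏ g ∈ s, C g ^ L) (∏ g ∈ s, (g : ℂ) ^ (e g : ℕ)) := by
    intro s e
    induction s using Finset.induction_on with
    | empty => simpa using Lat.one 𝒟
    | insert g s hgs ih =>
      have h := ih.mul_pow (A₀ g) (B₀ g) (C g) (d g) Λ (hCΛ g) (hd g) (hd0 g) (hΛ g) (g : ℂ)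
        (hg g) L (e g) (e g).2.le
      rw [Finset.prod_insert hgs, Finset.prod_insert hgs, Finset.card_insert_of_notMem hgs,
        mul_comm (C g ^ L), mul_comm ((g : ℂ) ^ (e g : ℕ)), add_mul, one_mul, pow_add]
      exact h
  refine ⟨∏ g : 𝒢, C g ^ L, Finset.prod_pos fun g _ => pow_pos (hC0 g) _, fun e => ?_⟩
  have h := key Finset.univ e
  rw [Finset.card_univ, Fintype.card_coe] at h
  exact h

theorem sampling_box (𝒟 : Finset ℕ) (𝒢 : Finset ℂ) (Λ L : ℕ) (hL : 0 < L) (hΛ : 1 ≤ Λ)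
    (hgen : ∀ g ∈ 𝒢, Gen 𝒟 Λ g ∧ ‖g‖ = 1) (ε : ℝ) (hε : 0 < ε) (k0 μ : ℕ)
    (hhit : ∀ z : ℂ, L ^ 𝒢.card ≤ k0 * cnt (fun g : 𝒢 => (g : ℂ)) L (fun u => Hit ε (z * u).re))
    (hμ : (2 : ℝ) ^ (𝒟.card + 1) * (Λ : ℝ) ^ (𝒢.card * L) ≤ ε * 2 ^ μ) :
    ∃ U : Finset ℂ, (∀ u ∈ U, ‖u‖ = 1) ∧ U.card ≤ k0 * (2 ^ (𝒟.card + 1) * μ + 1) ∧
      ∀ z : ℂ, ∃ u ∈ U, Hit (2 * ε) (z * u).re := by
  classical
  obtain ⟨D, hD0, hD⟩ := lat_box 𝒟 𝒢 Λ L hgen
  have : Nonempty (Fin L) := ⟨⟨0, hL⟩⟩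
  set m : ℕ := 2 ^ μ with hm
  have hmpos : 0 < m := by positivity
  have hmR : (0 : ℝ) < m := by exact_mod_cast hmpos
  have hDR : (0 : ℝ) < D := by exact_mod_cast hD0
  -- coordinates
  let y : ℂ → (Bool × 𝒟.powerset) → ℝ := fun z i => (z * om i.1 i.2).re / D
  let cell : ℂ → (Bool × 𝒟.powerset) → Fin m := fun z i =>
    ⟨⌊(m : ℝ) * Int.fract (y z i)⌋₊, by
      have h1 : (m : ℝ) * Int.fract (y z i) < m := by
        have := Int.fract_lt_one (y z i)
        nlinarith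
      have h0 : (0 : ℝ) ≤ (m : ℝ) * Int.fract (y z i) := mul_nonneg hmR.le (Int.fract_nonneg _)
      exact (Nat.floor_lt h0).mpr h1⟩
  have hcell : ∀ z z' : ℂ, cell z = cell z' → ∀ i,
      |Int.fract (y z i) - Int.fract (y z' i)| ≤ 1 / m := by
    intro z z' h i
    have h1 : ⌊(m : ℝ) * Int.fract (y z i)⌋₊ = ⌊(m : ℝ) * Int.fract (y z' i)⌋₊ := by
      have := congrFun h i
      exact congrArg Fin.val this
    have h0 : (0 : ℝ) ≤ (m : ℝ) * Int.fract (y z i) := mul_nonneg hmR.le (Int.fract_nonneg _)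
    have h0' : (0 : ℝ) ≤ (m : ℝ) * Int.fract (y z' i) := mul_nonneg hmR.le (Int.fract_nonneg _)
    have h2 := Nat.floor_le h0
    have h3 := Nat.lt_floor_add_one ((m : ℝ) * Int.fract (y z i))
    have h4 := Nat.floor_le h0'
    have h5 := Nat.lt_floor_add_one ((m : ℝ) * Int.fract (y z' i))
    rw [h1] at h2 h3
    rw [le_div_iff₀ hmR]
    have h6 : |Int.fract (y z i) - Int.fract (y z' i)| * m
        = |(m : ℝ) * Int.fract (y z i) - m * Int.fract (y z' i)| := by
      rw [← mul_sub, abs_mul, abs_of_pos hmR]; ring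
    rw [h6, abs_le]
    constructor <;> linarith
  -- representatives
  have hrep : ∀ c : (Bool × 𝒟.powerset) → Fin m, ∃ z : ℂ, (∃ z', cell z' = c) → cell z = c := by
    intro c
    by_cases h : ∃ z', cell z' = c
    · obtain ⟨z', hz'⟩ := h
      exact ⟨z', fun _ => hz'⟩
    · exact ⟨0, fun h' => absurd h' h⟩
  choose rep hrep using hrep
  set T : Finset ((Bool × 𝒟.powerset) → Fin m) := Finset.univ with hT
  have hTc : T.card < 2 ^ (2 ^ (𝒟.card + 1) * μ + 1) := by
    rw [hT, Finset.card_univ, Fintype.card_fun, Fintype.card_fin, Fintype.card_prod,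
      Fintype.card_bool, Fintype.card_coe, Finset.card_powerset]
    have : m ^ (2 * 2 ^ 𝒟.card) = 2 ^ (2 ^ (𝒟.card + 1) * μ) := by
      rw [hm, ← pow_mul]
      congr 1
      rw [pow_succ]; ring
    rw [this]
    exact Nat.pow_lt_pow_right (by norm_num) (Nat.lt_succ_self _)
  obtain ⟨W, -, hWc, hW⟩ := greedy_cover (Finset.univ : Finset (𝒢 → Fin L)) T
    (fun c e => Hit ε (rep c * box (fun g : 𝒢 => (g : ℂ)) e).re) k0
    (2 ^ (𝒟.card + 1) * μ + 1) Finset.univ_nonempty hTc (by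
      intro c _
      rw [Finset.card_univ, Fintype.card_fun, Fintype.card_fin, Fintype.card_coe]
      have hh := hhit (rep c)
      unfold cnt at hh
      refine hh.trans (Nat.mul_le_mul_left _ (Finset.card_le_card ?_))
      intro e he
      exact Finset.mem_filter.2 ⟨Finset.mem_univ _, (Finset.mem_filter.1 he).2⟩)
  refine ⟨W.image fun e => box (fun g : 𝒢 => (g : ℂ)) e, ?_, Finset.card_image_le.trans hWc, ?_⟩
  · intro u hu
    rw [Finset.mem_image] at hu
    obtain ⟨e, _, rfl⟩ := hu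
    unfold box
    rw [norm_prod]
    apply Finset.prod_eq_one
    intro g _
    rw [norm_pow, (hgen g g.2).2, one_pow]
  · intro z
    obtain ⟨e, heW, k, hk⟩ := hW (cell z) (Finset.mem_univ _)
    refine ⟨box (fun g : 𝒢 => (g : ℂ)) e, Finset.mem_image_of_mem _ heW, ?_⟩
    have hcz : cell (rep (cell z)) = cell z := hrep (cell z) ⟨z, rfl⟩
    obtain ⟨a, ha, hau⟩ := hD e
    set u : ℂ := box (fun g : 𝒢 => (g : ℂ)) e with hu
    set z' : ℂ := rep (cell z) with hz'
    have hexp : ∀ w : ℂ, (w * u).re = ∑ i : Bool × 𝒟.powerset, (a i.1 i.2 : ℝ) * y w i := by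
      intro w
      have hDC : (D : ℂ) ≠ 0 := by exact_mod_cast hD0.ne'
      have h1 : w * u = ∑ i : Bool × 𝒟.powerset, ((a i.1 i.2 : ℝ) : ℂ) * (w * om i.1 i.2) / D := by
        rw [Fintype.sum_prod_type]
        have h2 : w * u = w * ((D : ℂ) * u) / D := by field_simp
        rw [h2, hau, Finset.mul_sum, Finset.sum_div]
        refine Finset.sum_congr rfl fun b _ => ?_
        rw [← Finset.sum_coe_sort 𝒟.powerset, Finset.mul_sum, Finset.sum_div]
        refine Finset.sum_congr rfl fun S _ => ?_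
        push_cast
        ring
      rw [h1, Complex.re_sum]
      refine Finset.sum_congr rfl fun i _ => ?_
      have h3 : ((a i.1 i.2 : ℝ) : ℂ) * (w * om i.1 i.2) / D
          = ((a i.1 i.2 : ℝ) : ℂ) * ((w * om i.1 i.2) / ((D : ℝ) : ℂ)) := by
        push_cast; ring
      rw [h3, Complex.re_ofReal_mul, Complex.div_ofReal_re]
    -- the integer part of the difference
    let N : ℤ := ∑ i : Bool × 𝒟.powerset, a i.1 i.2 * (⌊y z i⌋ - ⌊y z' i⌋)
    have hdiff : (z * u).re - (z' * u).re - N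
        = ∑ i : Bool × 𝒟.powerset, (a i.1 i.2 : ℝ) * (Int.fract (y z i) - Int.fract (y z' i)) := by
      rw [hexp z, hexp z', ← Finset.sum_sub_distrib]
      push_cast [N]
      rw [← Finset.sum_sub_distrib]
      refine Finset.sum_congr rfl fun i _ => ?_
      rw [Int.fract, Int.fract]
      ring
    have hsmall : |(z * u).re - (z' * u).re - N| ≤ ε := by
      rw [hdiff]
      calc |∑ i : Bool × 𝒟.powerset, (a i.1 i.2 : ℝ) * (Int.fract (y z i) - Int.fract (y z' i))|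
          ≤ ∑ i : Bool × 𝒟.powerset,
            |(a i.1 i.2 : ℝ) * (Int.fract (y z i) - Int.fract (y z' i))| :=
            Finset.abs_sum_le_sum_abs _ _
        _ ≤ ∑ i : Bool × 𝒟.powerset, ((Λ : ℝ) ^ (𝒢.card * L) * (1 / m)) := by
            refine Finset.sum_le_sum fun i _ => ?_
            rw [abs_mul]
            apply mul_le_mul _ (hcell z z' hcz.symm i) (abs_nonneg _) (by positivity)
            have := ha i.1 i.2
            exact_mod_cast this
        _ = (2 : ℝ) ^ (𝒟.card + 1) * (Λ : ℝ) ^ (𝒢.card * L) / m := by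
            rw [Finset.sum_const, Finset.card_univ, Fintype.card_prod,
              Fintype.card_bool, Fintype.card_coe, Finset.card_powerset, nsmul_eq_mul]
            push_cast
            ring
        _ ≤ ε := by
            rw [div_le_iff₀ hmR]
            rw [hm]
            push_cast
            exact hμ
    refine ⟨k + N, ?_⟩
    push_cast
    calc |(z * u).re - ((k : ℝ) + N)| = |((z * u).re - (z' * u).re - N) + ((z' * u).re - k)| := by
          congr 1; ring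
      _ ≤ |(z * u).re - (z' * u).re - N| + |(z' * u).re - k| := abs_add_le _ _
      _ ≤ ε + ε := add_le_add hsmall hk
      _ = 2 * ε := by ring

end Pyj
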