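import Pool.Agent.Helper79.Pyj.Defs

/-! M9a: killing a prime of the denominator -/

namespace Pyj

open Complex Finset

/-- a Gaussian integer of complex norm `< 1` vanishes. -/
theorem gauss_eq_zero_of_norm_lt (x : GaussianInt) (h : ‖(x : ℂ)‖ < 1) : x = 0 := by
  have h1 : (x.norm : ℝ) = Complex.normSq (x : ℂ) := GaussianInt.intCast_real_norm x
  have h2 : Complex.normSq (x : ℂ) < 1 := by
    rw [Complex.normSq_eq_norm_sq]
    have := norm_nonneg (x : ℂ)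
    nlinarith
  have h3 : x.norm < 1 := by
    have : (x.norm : ℝ) < 1 := by rw [h1]; exact h2
    exact_mod_cast this
  have h4 := GaussianInt.norm_nonneg x
  exact GaussianInt.norm_eq_zero.mp (by omega)

theorem exists_prim (M Qb Γ : ℕ) (z : ℂ) (h : Tor M Qb Γ z) :
    ∃ Q : ℕ, 1 ≤ Q ∧ Q ≤ Qb ∧ ∃ g : GaussianInt, Rep M Γ z Q g ∧ Prim Q g := by
  classical
  have hex : ∃ Q : ℕ, 1 ≤ Q ∧ Q ≤ Qb ∧ ∃ g : GaussianInt, Rep M Γ z Q g := h
  obtain ⟨Q, ⟨hQ1, hQb, g, hg⟩, hmin⟩ : ∃ Q : ℕ, (1 ≤ Q ∧ Q ≤ Qb ∧ ∃ g : GaussianInt, Rep M Γ z Q g) ∧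
      ∀ Q' < Q, ¬ (1 ≤ Q' ∧ Q' ≤ Qb ∧ ∃ g : GaussianInt, Rep M Γ z Q' g) :=
    ⟨Nat.find hex, Nat.find_spec hex, fun Q' h => Nat.find_min hex h⟩
  refine ⟨Q, hQ1, hQb, g, hg, ?_⟩
  rintro q hq ⟨Q', rfl⟩ ⟨⟨a, ha⟩, ⟨b, hb⟩⟩
  have hq2 := hq.two_le
  have hQ'1 : 1 ≤ Q' := by
    rcases Nat.eq_zero_or_pos Q' with h0 | h0
    · rw [h0] at hQ1; omega
    · exact h0
  apply hmin Q' (by nlinarith)
  refine ⟨hQ'1, by nlinarith, ⟨a, b⟩, ?_⟩
  have hgq : g = (q : GaussianInt) * ⟨a, b⟩ := by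
    apply Zsqrtd.ext
    · simp [ha]
    · simp [hb]
  unfold Rep at hg ⊢
  have hqc : ((q * Q' : ℕ) : ℂ) * z - (M : ℂ) * ((g : GaussianInt) : ℂ)
      = (q : ℂ) * ((Q' : ℂ) * z - (M : ℂ) * (((⟨a, b⟩ : GaussianInt)) : ℂ)) := by
    rw [hgq, GaussianInt.toComplex_mul, map_natCast]
    push_cast
    ring
  rw [hqc, norm_mul, Complex.norm_natCast] at hg
  have hq2' : (2 : ℝ) ≤ q := by exact_mod_cast hq2
  have hnn := norm_nonneg ((Q' : ℂ) * z - (M : ℂ) * (((⟨a, b⟩ : GaussianInt)) : ℂ))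
  nlinarith

/-- the exact linear relation between three consecutive approximations. -/
theorem three_term (M Qb Γ : ℕ) (z w : ℂ) (hw : ‖w‖ = 1) (C : ℕ) (b : ℤ)
    (hCb : (C : ℂ) * (w + w⁻¹) = b) (hM : 4 * C * Qb ^ 2 * Γ < M)
    (Q Qm Qp : ℕ) (g gm gp : GaussianInt) (hQ : Q ≤ Qb) (hQm : Qm ≤ Qb) (hQp : Qp ≤ Qb)
    (h : Rep M Γ z Q g) (hm : Rep M Γ (z * w⁻¹) Qm gm) (hp : Rep M Γ (z * w) Qp gp) :
    (C : GaussianInt) * (gm * Qp * Q + gp * Qm * Q) = (b : GaussianInt) * (g * Qm * Qp) := by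
  have hMpos : (0 : ℝ) < M := by
    have : 0 < M := by omega
    exact_mod_cast this
  have hw0 : w ≠ 0 := by
    intro h0
    rw [h0, norm_zero] at hw
    exact zero_ne_one hw
  have hb : |(b : ℝ)| ≤ 2 * C := by
    have h1 : ‖(b : ℂ)‖ ≤ C * (1 + 1) := by
      rw [← hCb, norm_mul, Complex.norm_natCast]
      apply mul_le_mul_of_nonneg_left _ (Nat.cast_nonneg _)
      calc ‖w + w⁻¹‖ ≤ ‖w‖ + ‖w⁻¹‖ := norm_add_le _ _
        _ = 1 + 1 := by rw [norm_inv, hw, inv_one]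
    rw [Complex.norm_intCast] at h1
    linarith
  set X : GaussianInt := (C : GaussianInt) * (gm * Qp * Q + gp * Qm * Q)
    - (b : GaussianInt) * (g * Qm * Qp) with hX
  have hXc : (M : ℂ) * (X : ℂ) =
      (b : ℂ) * (Qm * Qp) * ((Q : ℂ) * z - M * (g : ℂ))
      - (C : ℂ) * (Qp * Q) * ((Qm : ℂ) * (z * w⁻¹) - M * (gm : ℂ))
      - (C : ℂ) * (Qm * Q) * ((Qp : ℂ) * (z * w) - M * (gp : ℂ)) := by
    rw [hX, GaussianInt.toComplex_sub, GaussianInt.toComplex_mul, GaussianInt.toComplex_mul,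
      GaussianInt.toComplex_add, GaussianInt.toComplex_mul, GaussianInt.toComplex_mul,
      GaussianInt.toComplex_mul, GaussianInt.toComplex_mul, GaussianInt.toComplex_mul,
      GaussianInt.toComplex_mul, map_natCast, map_natCast, map_natCast, map_natCast, map_intCast,
      ← hCb]
    ring
  unfold Rep at h hm hp
  have hQ' : (Q : ℝ) ≤ Qb := by exact_mod_cast hQ
  have hQm' : (Qm : ℝ) ≤ Qb := by exact_mod_cast hQm
  have hQp' : (Qp : ℝ) ≤ Qb := by exact_mod_cast hQp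
  have hQ0 : (0 : ℝ) ≤ Q := Nat.cast_nonneg _
  have hQm0 : (0 : ℝ) ≤ Qm := Nat.cast_nonneg _
  have hQp0 : (0 : ℝ) ≤ Qp := Nat.cast_nonneg _
  have hQb0 : (0 : ℝ) ≤ Qb := Nat.cast_nonneg _
  have hΓ0 : (0 : ℝ) ≤ Γ := Nat.cast_nonneg _
  have hC0 : (0 : ℝ) ≤ C := Nat.cast_nonneg _
  have hbound : ‖(M : ℂ) * (X : ℂ)‖ ≤ 4 * C * Qb ^ 2 * Γ := by
    rw [hXc]
    have t1 : ‖(b : ℂ) * (Qm * Qp) * ((Q : ℂ) * z - M * (g : ℂ))‖ ≤ (2 * C) * (Qb * Qb) * Γ := by
      rw [norm_mul, norm_mul, norm_mul, Complex.norm_intCast, Complex.norm_natCast,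
        Complex.norm_natCast]
      gcongr
    have t2 : ‖(C : ℂ) * (Qp * Q) * ((Qm : ℂ) * (z * w⁻¹) - M * (gm : ℂ))‖
        ≤ C * (Qb * Qb) * Γ := by
      rw [norm_mul, norm_mul, norm_mul, Complex.norm_natCast, Complex.norm_natCast,
        Complex.norm_natCast]
      gcongr
    have t3 : ‖(C : ℂ) * (Qm * Q) * ((Qp : ℂ) * (z * w) - M * (gp : ℂ))‖
        ≤ C * (Qb * Qb) * Γ := by
      rw [norm_mul, norm_mul, norm_mul, Complex.norm_natCast, Complex.norm_natCast,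
        Complex.norm_natCast]
      gcongr
    calc _ ≤ ‖(b : ℂ) * (Qm * Qp) * ((Q : ℂ) * z - M * (g : ℂ))
            - (C : ℂ) * (Qp * Q) * ((Qm : ℂ) * (z * w⁻¹) - M * (gm : ℂ))‖
            + ‖(C : ℂ) * (Qm * Q) * ((Qp : ℂ) * (z * w) - M * (gp : ℂ))‖ := norm_sub_le _ _
      _ ≤ (‖(b : ℂ) * (Qm * Qp) * ((Q : ℂ) * z - M * (g : ℂ))‖
            + ‖(C : ℂ) * (Qp * Q) * ((Qm : ℂ) * (z * w⁻¹) - M * (gm : ℂ))‖)
            + ‖(C : ℂ) * (Qm * Q) * ((Qp : ℂ) * (z * w) - M * (gp : ℂ))‖ := by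
              gcongr
              exact norm_sub_le _ _
      _ ≤ 4 * C * Qb ^ 2 * Γ := by nlinarith
  have hX0 : X = 0 := by
    apply gauss_eq_zero_of_norm_lt
    rw [norm_mul, Complex.norm_natCast] at hbound
    have hM' : (4 * C * Qb ^ 2 * Γ : ℝ) < M := by exact_mod_cast hM
    by_contra hge
    push Not at hge
    nlinarith
  exact sub_eq_zero.mp hX0

theorem kill (M Qb Γ F : ℕ) (z w : ℂ) (hw : ‖w‖ = 1) (C : ℕ) (b : ℤ) (hC : 0 < C)
    (hCb : (C : ℂ) * (w + w⁻¹) = b) (q : ℕ) (hq : q.Prime) (hqC : q ∣ C) (hqb : ¬ (q : ℤ) ∣ b)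
    (hF : Qb < 2 ^ (F + 1)) (hM : 4 * C * Qb ^ 2 * Γ < M)
    (htor : ∀ j : ℤ, |j| ≤ F → Tor M Qb Γ (z * w ^ j))
    (Q : ℕ) (g : GaussianInt) (hQ1 : 1 ≤ Q) (hQb : Q ≤ Qb) (hrep : Rep M Γ z Q g)
    (hprim : Prim Q g) : ¬ q ∣ Q := by
  classical
  have hw0 : w ≠ 0 := by
    intro h0
    rw [h0, norm_zero] at hw
    exact zero_ne_one hw
  -- the approximations along the orbit
  have hchoice : ∀ j : ℤ, ∃ p : ℕ × GaussianInt, |j| ≤ F →
      (1 ≤ p.1 ∧ p.1 ≤ Qb ∧ Rep M Γ (z * w ^ j) p.1 p.2 ∧ (j = 0 → p = (Q, g))) := by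
    intro j
    by_cases hj : |j| ≤ F
    · by_cases h0 : j = 0
      · refine ⟨(Q, g), fun _ => ⟨hQ1, hQb, ?_, fun _ => rfl⟩⟩
        rw [h0, zpow_zero, mul_one]
        exact hrep
      · obtain ⟨Q', h1, h2, g', h3⟩ := htor j hj
        exact ⟨(Q', g'), fun _ => ⟨h1, h2, h3, fun h => absurd h h0⟩⟩
    · exact ⟨(0, 0), fun h => absurd h hj⟩
  choose p hp using hchoice
  have hqI : Prime (q : ℤ) := Nat.prime_iff_prime_int.mp hq
  obtain ⟨C', hC'⟩ := hqC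
  -- the relation
  have hrel : ∀ j : ℤ, |j| + 1 ≤ F →
      (C : GaussianInt) * ((p (j - 1)).2 * (p (j + 1)).1 * (p j).1
        + (p (j + 1)).2 * (p (j - 1)).1 * (p j).1)
      = (b : GaussianInt) * ((p j).2 * (p (j - 1)).1 * (p (j + 1)).1) := by
    intro j hj
    have hjm : |j - 1| ≤ F := by
      have := abs_sub j 1
      simp only [abs_one] at this
      omega
    have hjp : |j + 1| ≤ F := by
      have := abs_add_le j 1
      simp only [abs_one] at this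
      omega
    have hj0 : |j| ≤ F := by omega
    apply three_term M Qb Γ (z * w ^ j) w hw C b hCb hM _ _ _ _ _ _ (hp j hj0).2.1
      (hp _ hjm).2.1 (hp _ hjp).2.1 (hp j hj0).2.2.1
    · have h1 := (hp _ hjm).2.2.1
      rw [zpow_sub_one₀ hw0, ← mul_assoc] at h1
      exact h1
    · have h1 := (hp _ hjp).2.2.1
      rw [zpow_add_one₀ hw0, ← mul_assoc] at h1
      exact h1
  -- the downward induction
  have hI : ∀ k : ℕ, k ≤ F → ∀ j : ℤ, |j| ≤ (F - k : ℕ) →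
      ∃ m : ℤ, ¬ (q : ℤ) ∣ m ∧
        (((p j).1 : ℕ) : GaussianInt) ∣ (m : GaussianInt) * (q : GaussianInt) ^ (F - k) * (p j).2 := by
    intro k
    induction k with
    | zero =>
      intro _ j hj
      rw [Nat.sub_zero] at hj ⊢
      obtain ⟨h1, h2, _, _⟩ := hp j hj
      -- write the denominator as a power of `q` times a coprime part
      obtain ⟨m, hm, hQm⟩ : ∃ m : ℕ, ¬ q ∣ m ∧ (p j).1 ∣ m * q ^ F := by
        obtain ⟨v, m, hm, hQm⟩ := Nat.exists_eq_pow_mul_and_not_dvd (n := (p j).1) (by omega) q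
          hq.ne_one
        refine ⟨m, hm, ?_⟩
        have hv : v ≤ F := by
          by_contra hv
          push Not at hv
          have h3 : 2 ^ (F + 1) ≤ q ^ v :=
            (Nat.pow_le_pow_left hq.two_le _).trans (Nat.pow_le_pow_right hq.pos hv)
          have h4 : q ^ v ≤ (p j).1 := Nat.le_of_dvd (by omega) ⟨m, hQm⟩
          omega
        rw [hQm, mul_comm]
        exact mul_dvd_mul_left _ (pow_dvd_pow _ hv)
      refine ⟨m, ?_, ?_⟩
      · intro h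
        exact hm (by exact_mod_cast h)
      · apply Dvd.dvd.mul_right
        have h5 : (((p j).1 : ℕ) : GaussianInt) ∣ ((m * q ^ F : ℕ) : GaussianInt) :=
          Nat.cast_dvd_cast hQm
        push_cast at h5 ⊢
        exact h5
    | succ k ih =>
      intro hk j hj
      have ih' := ih (by omega)
      obtain ⟨f, hf⟩ : ∃ f : ℕ, F - k = f + 1 := ⟨F - k - 1, by omega⟩
      have hf' : F - (k + 1) = f := by omega
      rw [hf'] at hj ⊢
      rw [hf] at ih'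
      have hjm : |j - 1| ≤ (f + 1 : ℕ) := by
        have := abs_sub j 1
        simp only [abs_one] at this
        push_cast
        omega
      have hjp : |j + 1| ≤ (f + 1 : ℕ) := by
        have := abs_add_le j 1
        simp only [abs_one] at this
        push_cast
        omega
      obtain ⟨mm, hmm, hm, hhm⟩ := ih' (j - 1) hjm
      obtain ⟨mp, hmp, h', hhp⟩ := ih' (j + 1) hjp
      have hr := hrel j (by omega)
      have hjmF : |j - 1| ≤ F := by omega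
      have hjpF : |j + 1| ≤ F := by omega
      have hQm0 : (((p (j - 1)).1 : ℕ) : GaussianInt) ≠ 0 := by
        have := (hp (j - 1) hjmF).1
        exact_mod_cast (by omega : (p (j - 1)).1 ≠ 0)
      have hQp0 : (((p (j + 1)).1 : ℕ) : GaussianInt) ≠ 0 := by
        have := (hp (j + 1) hjpF).1
        exact_mod_cast (by omega : (p (j + 1)).1 ≠ 0)
      refine ⟨b * (mm * mp), ?_, ?_⟩
      · intro h
        rcases hqI.dvd_or_dvd h with h | h
        · exact hqb h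
        · rcases hqI.dvd_or_dvd h with h | h
          · exact hmm h
          · exact hmp h
      · refine ⟨(C' : GaussianInt) * (mp * hm + mm * h'), ?_⟩
        apply mul_left_cancel₀ (mul_ne_zero hQm0 hQp0)
        rw [hC'] at hr
        push_cast at hr ⊢
        linear_combination (-(mm : GaussianInt) * mp * q ^ f) * hr
          + ((C' : GaussianInt) * mp * (p (j + 1)).1 * (p j).1) * hhm
          + ((C' : GaussianInt) * mm * (p (j - 1)).1 * (p j).1) * hhp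
  -- conclusion at the centre
  obtain ⟨m, hm, hdvd⟩ := hI F le_rfl 0 (by simp)
  rw [Nat.sub_self, pow_zero, mul_one] at hdvd
  have hp0 : p 0 = (Q, g) := (hp 0 (by simp)).2.2.2 rfl
  rw [hp0] at hdvd
  intro hqQ
  have h1 : ((q : ℤ) : GaussianInt) ∣ (m : GaussianInt) * g := by
    refine dvd_trans ?_ hdvd
    have : ((q : ℕ) : GaussianInt) ∣ ((Q : ℕ) : GaussianInt) := Nat.cast_dvd_cast hqQ
    rw [Int.cast_natCast]
    exact this
  rw [Zsqrtd.intCast_dvd] at h1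
  obtain ⟨h2, h3⟩ := h1
  rw [Zsqrtd.re_mul] at h2
  rw [Zsqrtd.im_mul] at h3
  simp only [Zsqrtd.re_intCast, Zsqrtd.im_intCast, mul_zero, zero_mul, add_zero] at h2 h3
  exact hprim q hq hqQ ⟨(hqI.dvd_or_dvd h2).resolve_left hm, (hqI.dvd_or_dvd h3).resolve_left hm⟩

end Pyj
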