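import Pool.Agent.Helper79.Pyj.Defs
import Pool.Agent.Helper79.Pyj.Kill

/-! M9b: exact transfer of the rational approximation -/

namespace Pyj

open Complex Finset

theorem pa_norm (n : ℕ) (y : ℤ) : (pa n y).norm = (2 * y + 1) ^ 2 + 4 ^ (n + 1) := by
  have h4 : (4 : ℤ) ^ (n + 1) = 2 ^ (n + 1) * 2 ^ (n + 1) := by
    rw [← mul_pow]; norm_num
  rw [Zsqrtd.norm_def, pa, h4]
  ring

theorem pa_norm_pos (n : ℕ) (y : ℤ) : 1 ≤ (pa n y).norm := by
  rw [pa_norm]
  have : (1 : ℤ) ≤ 4 ^ (n + 1) := one_le_pow₀ (by norm_num)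
  nlinarith [sq_nonneg (2 * y + 1)]

theorem pa_ne_zero (n : ℕ) (y : ℤ) : ((pa n y : GaussianInt) : ℂ) ≠ 0 := by
  intro h
  have h1 : pa n y = 0 := GaussianInt.toComplex_eq_zero.mp h
  have h2 := pa_norm_pos n y
  rw [h1, Zsqrtd.norm_zero] at h2
  omega

theorem star_ne_zero' (a : GaussianInt) (h : ((a : GaussianInt) : ℂ) ≠ 0) :
    ((star a : GaussianInt) : ℂ) ≠ 0 := by
  rw [GaussianInt.toComplex_star]
  exact (map_ne_zero _).mpr h

theorem norm_star_cplx (a : GaussianInt) : ‖((star a : GaussianInt) : ℂ)‖ = ‖((a : GaussianInt) : ℂ)‖ := by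
  rw [GaussianInt.toComplex_star, Complex.norm_conj]

theorem rot_norm (a : GaussianInt) (h : ((a : GaussianInt) : ℂ) ≠ 0) : ‖rot a‖ = 1 := by
  rw [rot, norm_div, norm_star_cplx, div_self]
  exact norm_ne_zero_iff.mpr h

theorem star_mul_rot (a : GaussianInt) (h : ((a : GaussianInt) : ℂ) ≠ 0) :
    ((star a : GaussianInt) : ℂ) * rot a = (a : ℂ) := by
  rw [rot, ← mul_div_assoc, mul_comm, mul_div_assoc, div_self (star_ne_zero' a h), mul_one]

/-- `N(a) (w + w⁻¹) = 2 Re(a²)` -/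
theorem pa_trace (n : ℕ) (y : ℤ) :
    (((pa n y).norm.toNat : ℕ) : ℂ) * (rot (pa n y) + (rot (pa n y))⁻¹)
      = ((2 * ((2 * y + 1) ^ 2 - 4 ^ (n + 1)) : ℤ) : ℂ) := by
  have ha := pa_ne_zero n y
  have hs := star_ne_zero' _ ha
  have h1 : (((pa n y).norm.toNat : ℕ) : ℂ) = ((pa n y : GaussianInt) : ℂ) * ((star (pa n y) : GaussianInt) : ℂ) := by
    have h2 : (((pa n y).norm.toNat : ℕ) : ℤ) = (pa n y).norm :=
      Int.toNat_of_nonneg (by have := pa_norm_pos n y; omega)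
    have h3 : (((pa n y).norm.toNat : ℕ) : ℂ) = (((pa n y).norm : ℤ) : ℂ) := by
      have h3' := congrArg (Int.cast : ℤ → ℂ) h2
      rwa [Int.cast_natCast] at h3'
    rw [h3, ← GaussianInt.toComplex_mul, ← Zsqrtd.norm_eq_mul_conj, map_intCast]
  rw [h1, rot, inv_div]
  have h4 : ((pa n y : GaussianInt) : ℂ) * ((star (pa n y) : GaussianInt) : ℂ)
      * (((pa n y : GaussianInt) : ℂ) / ((star (pa n y) : GaussianInt) : ℂ)
        + ((star (pa n y) : GaussianInt) : ℂ) / ((pa n y : GaussianInt) : ℂ))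
      = ((pa n y : GaussianInt) : ℂ) ^ 2 + ((star (pa n y) : GaussianInt) : ℂ) ^ 2 := by
    field_simp
  rw [h4]
  have h5 : pa n y ^ 2 + star (pa n y) ^ 2 = ((2 * ((2 * y + 1) ^ 2 - 4 ^ (n + 1)) : ℤ) : GaussianInt) := by
    have h4 : (4 : ℤ) ^ (n + 1) = 2 ^ (n + 1) * 2 ^ (n + 1) := by
      rw [← mul_pow]; norm_num
    rw [h4]
    apply Zsqrtd.ext
    · rw [Zsqrtd.re_intCast]
      simp only [pow_two, Zsqrtd.re_add, Zsqrtd.re_mul, Zsqrtd.re_star, Zsqrtd.im_star, pa]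
      ring
    · rw [Zsqrtd.im_intCast]
      simp only [pow_two, Zsqrtd.im_add, Zsqrtd.im_mul, Zsqrtd.re_star, Zsqrtd.im_star, pa]
      ring
  have h6 := congrArg (fun t : GaussianInt => (t : ℂ)) h5
  simp only [GaussianInt.toComplex_add, map_intCast] at h6
  rw [← h6, pow_two, pow_two, pow_two, pow_two, GaussianInt.toComplex_mul, GaussianInt.toComplex_mul]

/-- primes dividing the norm do not divide the trace. -/
theorem pa_prime (n : ℕ) (y : ℤ) (q : ℕ) (hq : q.Prime) (h : q ∣ (pa n y).norm.toNat) :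
    ¬ (q : ℤ) ∣ 2 * ((2 * y + 1) ^ 2 - 4 ^ (n + 1)) := by
  have hqI : Prime (q : ℤ) := Nat.prime_iff_prime_int.mp hq
  have h2 : (((pa n y).norm.toNat : ℕ) : ℤ) = (pa n y).norm :=
    Int.toNat_of_nonneg (by have := pa_norm_pos n y; omega)
  have h3 : (q : ℤ) ∣ (2 * y + 1) ^ 2 + 4 ^ (n + 1) := by
    rw [← pa_norm, ← h2]
    exact_mod_cast h
  have hodd : ¬ (2 : ℤ) ∣ (2 * y + 1) ^ 2 + 4 ^ (n + 1) := by
    have h4 : (4 : ℤ) ^ (n + 1) = 2 * (2 * 4 ^ n) := by
      rw [pow_succ]; ring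
    rw [h4]
    intro h5
    have h6 : (2 : ℤ) ∣ (2 * y + 1) ^ 2 := (dvd_add_left (Dvd.intro _ rfl)).mp h5
    have h7 : (2 : ℤ) ∣ 2 * y + 1 := Int.prime_two.dvd_of_dvd_pow h6
    omega
  have hq2 : ¬ (q : ℤ) ∣ 2 := by
    intro h4
    have h5 : q ∣ 2 := by exact_mod_cast h4
    have h6 : q = 2 := (Nat.prime_dvd_prime_iff_eq hq Nat.prime_two).mp h5
    apply hodd
    rw [h6] at h3
    exact_mod_cast h3
  intro h4
  rcases hqI.dvd_or_dvd h4 with h5 | h5
  · exact hq2 h5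
  · have h6 : (q : ℤ) ∣ 2 * 4 ^ (n + 1) := by
      have h7 := dvd_sub h3 h5
      have h8 : (2 * y + 1) ^ 2 + 4 ^ (n + 1) - ((2 * y + 1) ^ 2 - 4 ^ (n + 1)) = 2 * 4 ^ (n + 1) := by
        ring
      rwa [h8] at h7
    rcases hqI.dvd_or_dvd h6 with h7 | h7
    · exact hq2 h7
    · have h8 : (q : ℤ) ∣ 2 * 2 := by
        have := hqI.dvd_of_dvd_pow h7
        norm_num
        exact this
      rcases hqI.dvd_or_dvd h8 with h9 | h9 <;> exact hq2 h9

theorem prim_dvd (Q D : ℕ) (g : GaussianInt) (hprim : Prim Q g)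
    (h1 : (Q : ℤ) ∣ D * g.re) (h2 : (Q : ℤ) ∣ D * g.im) : Q ∣ D := by
  have h1' : Q ∣ D * g.re.natAbs := by
    have := Int.natAbs_dvd_natAbs.mpr h1
    simpa [Int.natAbs_mul] using this
  have h2' : Q ∣ D * g.im.natAbs := by
    have := Int.natAbs_dvd_natAbs.mpr h2
    simpa [Int.natAbs_mul] using this
  have h3 : Q ∣ D * Nat.gcd g.re.natAbs g.im.natAbs := by
    rw [← Nat.gcd_mul_left]
    exact Nat.dvd_gcd h1' h2'
  have hcop : Nat.Coprime Q (Nat.gcd g.re.natAbs g.im.natAbs) := by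
    rw [Nat.coprime_iff_gcd_eq_one]
    by_contra hne
    obtain ⟨q, hq, hqd⟩ := Nat.exists_prime_and_dvd hne
    have hqQ : q ∣ Q := hqd.trans (Nat.gcd_dvd_left _ _)
    have hqg : q ∣ Nat.gcd g.re.natAbs g.im.natAbs := hqd.trans (Nat.gcd_dvd_right _ _)
    exact hprim q hq hqQ ⟨Int.natCast_dvd.mpr (hqg.trans (Nat.gcd_dvd_left _ _)),
      Int.natCast_dvd.mpr (hqg.trans (Nat.gcd_dvd_right _ _))⟩
  exact hcop.dvd_of_dvd_mul_right h3

theorem transfer (M Qb Γ F n : ℕ) (z : ℂ) (y : ℤ) (hF : Qb < 2 ^ (F + 1))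
    (hM : 4 * (pa n y).norm * Qb ^ 2 * Γ < M)
    (htor : ∀ j : ℤ, |j| ≤ F + 1 → Tor M Qb Γ (z * rot (pa n y) ^ j))
    (Q : ℕ) (g : GaussianInt) (hQ1 : 1 ≤ Q) (hQb : Q ≤ Qb) (hrep : Rep M Γ z Q g)
    (hprim : Prim Q g) :
    IsCoprime (Q : ℤ) (pa n y).norm ∧
      ∃ G : GaussianInt, star (pa n y) * G = pa n y * g := by
  have ha := pa_ne_zero n y
  have hs := star_ne_zero' _ ha
  have hw := rot_norm _ ha
  have hw0 : rot (pa n y) ≠ 0 := by
    intro h0
    rw [h0, norm_zero] at hw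
    exact zero_ne_one hw
  set C : ℕ := (pa n y).norm.toNat with hC
  have hCn : ((C : ℕ) : ℤ) = (pa n y).norm :=
    Int.toNat_of_nonneg (by have := pa_norm_pos n y; omega)
  have hC1 : 1 ≤ C := by
    have := pa_norm_pos n y
    rw [← hCn] at this
    exact_mod_cast this
  have hM' : 4 * C * Qb ^ 2 * Γ < M := by
    rw [← hCn] at hM
    exact_mod_cast hM
  have hkill : ∀ (z' : ℂ), (∀ j : ℤ, |j| ≤ F → Tor M Qb Γ (z' * rot (pa n y) ^ j)) →
      ∀ (Q' : ℕ) (g' : GaussianInt), 1 ≤ Q' → Q' ≤ Qb → Rep M Γ z' Q' g' → Prim Q' g' →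
      Nat.Coprime Q' C := by
    intro z' ht Q' g' h1 h2 h3 h4
    rw [Nat.coprime_iff_gcd_eq_one]
    by_contra hne
    obtain ⟨q, hq, hqd⟩ := Nat.exists_prime_and_dvd hne
    exact kill M Qb Γ F z' (rot (pa n y)) hw C _ hC1 (pa_trace n y) q hq
      (hqd.trans (Nat.gcd_dvd_right _ _)) (pa_prime n y q hq (hqd.trans (Nat.gcd_dvd_right _ _)))
      hF hM' ht Q' g' h1 h2 h3 h4 (hqd.trans (Nat.gcd_dvd_left _ _))
  have hcop0 : Nat.Coprime Q C := hkill z (fun j hj => htor j (by omega)) Q g hQ1 hQb hrep hprim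
  refine ⟨?_, ?_⟩
  · rw [← hCn, Nat.isCoprime_iff_coprime]
    exact hcop0
  · -- the neighbour
    have ht1 : Tor M Qb Γ (z * rot (pa n y)) := by
      have := htor 1 (by simp)
      rwa [zpow_one] at this
    obtain ⟨Q1, hQ11, hQ1b, g1, hrep1, hprim1⟩ := exists_prim M Qb Γ _ ht1
    have hcop1 : Nat.Coprime Q1 C := by
      apply hkill (z * rot (pa n y)) _ Q1 g1 hQ11 hQ1b hrep1 hprim1
      intro j hj
      have h1 := htor (j + 1) (by
        have := abs_add_le j 1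
        simp only [abs_one] at this
        omega)
      rw [zpow_add_one₀ hw0, mul_comm (rot (pa n y) ^ j), ← mul_assoc] at h1
      exact h1
    -- exactness
    have hex : star (pa n y) * g1 * Q = pa n y * g * Q1 := by
      rw [← sub_eq_zero]
      apply gauss_eq_zero_of_norm_lt
      have hMpos : (0 : ℝ) < M := by
        have : 0 < M := by omega
        exact_mod_cast this
      have hXc : (M : ℂ) * ((star (pa n y) * g1 * Q - pa n y * g * Q1 : GaussianInt) : ℂ) =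
          ((pa n y : GaussianInt) : ℂ) * Q1 * ((Q : ℂ) * z - M * (g : ℂ))
          - ((star (pa n y) : GaussianInt) : ℂ) * Q * ((Q1 : ℂ) * (z * rot (pa n y)) - M * (g1 : ℂ)) := by
        rw [GaussianInt.toComplex_sub, GaussianInt.toComplex_mul, GaussianInt.toComplex_mul,
          GaussianInt.toComplex_mul, GaussianInt.toComplex_mul, map_natCast, map_natCast]
        linear_combination ((Q : ℂ) * Q1 * z) * (star_mul_rot _ ha)
      have hnorm : ‖((pa n y : GaussianInt) : ℂ)‖ ≤ C := by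
        have h1 : ‖((pa n y : GaussianInt) : ℂ)‖ ^ 2 = C := by
          rw [← Complex.normSq_eq_norm_sq, ← GaussianInt.intCast_real_norm, ← hCn]
          simp
        have h2 : (1 : ℝ) ≤ C := by exact_mod_cast hC1
        have h3 := norm_nonneg ((pa n y : GaussianInt) : ℂ)
        by_contra hlt
        push Not at hlt
        nlinarith
      unfold Rep at hrep hrep1
      have hQ1' : (Q1 : ℝ) ≤ Qb := by exact_mod_cast hQ1b
      have hQ' : (Q : ℝ) ≤ Qb := by exact_mod_cast hQb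
      have hQb1 : (1 : ℝ) ≤ Qb := by
        have : 1 ≤ Qb := by omega
        exact_mod_cast this
      have t1 : ‖((pa n y : GaussianInt) : ℂ) * Q1 * ((Q : ℂ) * z - M * (g : ℂ))‖ ≤ C * Qb * Γ := by
        rw [norm_mul, norm_mul, Complex.norm_natCast]
        gcongr
      have t2 : ‖((star (pa n y) : GaussianInt) : ℂ) * Q
          * ((Q1 : ℂ) * (z * rot (pa n y)) - M * (g1 : ℂ))‖ ≤ C * Qb * Γ := by
        rw [norm_mul, norm_mul, Complex.norm_natCast, norm_star_cplx]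
        gcongr
      have hbound : ‖(M : ℂ) * ((star (pa n y) * g1 * Q - pa n y * g * Q1 : GaussianInt) : ℂ)‖
          ≤ 2 * C * Qb * Γ := by
        rw [hXc]
        calc _ ≤ _ := norm_sub_le _ _
          _ ≤ C * Qb * Γ + C * Qb * Γ := add_le_add t1 t2
          _ = 2 * C * Qb * Γ := by ring
      have hM'' : (4 * C * Qb ^ 2 * Γ : ℝ) < M := by exact_mod_cast hM'
      have hle : (2 * C * Qb * Γ : ℝ) ≤ 4 * C * Qb ^ 2 * Γ := by
        have h1 : (0 : ℝ) ≤ C * Γ := by positivity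
        have h2 : (Qb : ℝ) ≤ Qb ^ 2 := by nlinarith
        nlinarith [mul_le_mul_of_nonneg_left h2 h1, mul_nonneg h1 (by linarith : (0 : ℝ) ≤ Qb)]
      rw [norm_mul, Complex.norm_natCast] at hbound
      by_contra hge
      push Not at hge
      nlinarith
    -- `Q1 ∣ Q`
    have hnormeq : star (pa n y) * pa n y = (C : GaussianInt) := by
      rw [mul_comm, ← Zsqrtd.norm_eq_mul_conj, ← hCn]
      simp
    have hdvd : ((Q1 : ℤ) : GaussianInt) ∣ ((C * Q : ℕ) : GaussianInt) * g1 := by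
      refine ⟨pa n y * pa n y * g, ?_⟩
      push_cast
      rw [← hnormeq]
      linear_combination (pa n y) * hex
    rw [Zsqrtd.intCast_dvd] at hdvd
    obtain ⟨h1, h2⟩ := hdvd
    rw [Zsqrtd.re_mul] at h1
    rw [Zsqrtd.im_mul] at h2
    simp only [Zsqrtd.re_natCast, Zsqrtd.im_natCast, mul_zero, zero_mul, add_zero] at h1 h2
    have hQ1CQ : Q1 ∣ C * Q := prim_dvd Q1 (C * Q) g1 hprim1 h1 h2
    have hQ1Q : Q1 ∣ Q := hcop1.dvd_of_dvd_mul_left hQ1CQ
    obtain ⟨Q2, hQ2⟩ := hQ1Q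
    refine ⟨Q2 * g1, ?_⟩
    have hQ10 : ((Q1 : ℕ) : GaussianInt) ≠ 0 := by exact_mod_cast (by omega : Q1 ≠ 0)
    apply mul_right_cancel₀ hQ10
    rw [hQ2] at hex
    push_cast at hex
    linear_combination hex

end Pyj
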