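import Pool.Agent.Helper79.Pyj.FinalWords
import Pool.Agent.Helper79.Pyj.RotLemmas
import Pool.Agent.Helper79.Pyj.Sampling
import Pool.Agent.Helper79.Pyj.Box
import Pool.Agent.Helper79.Pyj.Level
import Pool.Agent.Helper79.Pyj.Recur
import Pool.Agent.Helper79.Pyj.Transfer
import Pool.Agent.Helper79.Pyj.Fields

/-! The core of the assembly: all modules put together, numerical conditions as hypotheses. -/

namespace Pyj

open Complex Finset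

/-- the torsion statement at a point all of whose relevant translates are bad. -/
theorem tor_of_good {t r : ℕ} {Y : ℕ} (ht : 40 ≤ t) (P P' : Finset ℕ)
    (hP : ∀ p ∈ P, p.Prime ∧ p % 4 = 1 ∧ 2 ^ (2 * t + 2) < p ∧ p ≤ Y)
    (hP' : ∀ p ∈ P', p.Prime ∧ p % 4 = 1 ∧ p ≤ Y)
    (a : Fin r → GaussianInt)
    (ha : ∀ l, 1 ≤ (a l).re ∧ (a l).re ≤ Y ∧ 1 ≤ (a l).im ∧ (a l).im ≤ Y)
    (ha' : ∀ l, ∀ p ∈ P, ¬ (p : ℤ) ∣ (a l).norm)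
    (hrich : ∀ p ∈ P, Rich (g0fam a) p (18 * P.card))
    (hcs : 2 * (((2 * Y ^ 2) ^ r * 2 ^ (t + 2)) ^ 2 *
      (4 * (2 ^ (2 * t + 2)) ^ 2 * (18 * P.card)) ^ (2 * P.card)) ≤ 2 ^ P'.card)
    (z : ℂ) (𝒮 : Finset (Finset ℕ)) (h𝒮 : 𝒮 ⊆ P'.powerset) (hc : P'.powerset.card < 2 * 𝒮.card)
    (hz : ∀ S ∈ 𝒮, ∀ p ∈ P,
      BadW (fun S : Finset (Fin r) => ∏ l ∈ S, rot (a l)) ((1 / 2) ^ t)
        (1 / (4 * ((2 ^ (2 * t + 2) : ℕ) : ℝ))) ((z * ∏ p ∈ S, rot (aa p)) * rot (aa p)) ∧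
      BadW (fun S : Finset (Fin r) => ∏ l ∈ S, rot (a l)) ((1 / 2) ^ t)
        (1 / (4 * ((2 ^ (2 * t + 2) : ℕ) : ℝ))) ((z * ∏ p ∈ S, rot (aa p)) * (rot (aa p))⁻¹)) :
    Tor (D0fam a * ∏ p ∈ P, p) (4 * (∏ p ∈ P', p) ^ 2) ((∏ p ∈ P', p) ^ 2) z := by
  have ha0 : ∀ l, a l ≠ 0 := by
    intro l h
    have := (ha l).1
    rw [h] at this
    simp at this
  set K : ℕ := 2 ^ (2 * t + 2) with hKdef
  set ε : ℝ := (1 / 2) ^ t with hε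
  set τ : ℝ := 1 / (4 * (K : ℝ)) with hτ
  have hcov := cov_all (fun S : Finset (Fin r) => ∏ l ∈ S, rot (a l)) (g0fam a) (D0fam a) K
    (18 * P.card) t ε τ hε P aa (D0fam_pos a ha0)
    (fun p hp => ⟨(hP p hp).1, by
      rintro rfl
      have := (hP 2 hp).2.1
      omega, norm_aa p (hP p hp).1 (hP p hp).2.1,
      not_dvd_D0fam a p (hP p hp).1 (fun l => ha' l p hp), (hP p hp).2.2.1, hrich p hp⟩)
    (by
      intro S
      rw [norm_prod]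
      exact Finset.prod_eq_one fun l _ => fw_norm_rot (ha0 l))
    (fun S => g0fam_eq a ha0 S)
    (by
      rw [hε, hKdef]
      push_cast
      have h1 : ((1 : ℝ) / 2) ^ t = 1 / 2 ^ t := by rw [div_pow, one_pow]
      rw [h1, div_pow, one_pow, ← pow_mul, div_div_eq_mul_div, div_one, pow_add, mul_comm t 2]
      norm_num
      linarith [pow_pos (show (0 : ℝ) < 2 by norm_num) (2 * t)])
    le_rfl
  have hD0 := D0fam_le (Y := Y) a ha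
  refine recurrence _ _ (ε / 2) _ hcov ?_ P' aa
    (fun p hp => ⟨(hP' p hp).1, by
      rintro rfl
      have := (hP' 2 hp).2.1
      omega, norm_aa p (hP' p hp).1 (hP' p hp).2.1⟩) z 𝒮
    (fun S hS => mem_powerset.mp (h𝒮 hS)) ?_ ?_
  · have h1 : ε ≤ (1 / 2) ^ 1 :=
      pow_le_pow_of_le_one (by norm_num) (by norm_num) (by omega)
    linarith
  · rw [card_powerset] at hc
    have h1 : (D0fam a * 2 ^ (t + 2)) ^ 2 * (4 * K ^ 2 * (18 * P.card)) ^ (2 * P.card)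
        ≤ ((2 * Y ^ 2) ^ r * 2 ^ (t + 2)) ^ 2 * (4 * K ^ 2 * (18 * P.card)) ^ (2 * P.card) := by
      gcongr
    omega
  · intro S hS p hp
    exact hz S hS p hp

theorem exists_gens {t r n l Λ Y : ℕ} {P P' : Finset ℕ}
    (hP : ∀ p ∈ P, p.Prime ∧ p % 4 = 1 ∧ 2 ^ (2 * t + 2) < p ∧ p ≤ Y)
    (hP' : ∀ p ∈ P', p.Prime ∧ p % 4 = 1 ∧ p ≤ Y)
    (h60 : 2 ^ (60 * (t + 1)) ≤ 2 ^ (2 * n + 3))
    (hΛ1 : 2 ^ (2 * n + 4) ≤ Λ) (hΛ2 : 4 * Y ^ 2 ≤ Λ)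
    (a : Fin r → GaussianInt)
    (ha : ∀ l, 1 ≤ (a l).re ∧ (a l).re ≤ Y ∧ 1 ≤ (a l).im ∧ (a l).im ≤ Y)
    (ha0 : ∀ l, a l ≠ 0)
    (𝒟 : Finset ℕ) (h𝒟1 : 1 ∈ 𝒟) (wq : ℕ → ℂ)
    (hwq1 : ∀ q : ℕ, q.Prime → q ≤ 2 ^ (9 * (t + 1)) → ‖wq q‖ = 1)
    (hwq2 : ∀ q : ℕ, q.Prime → q ≤ 2 ^ (9 * (t + 1)) → Gen 𝒟 (2 ^ (60 * (t + 1))) (wq q))
    (W : Finset ℤ) (hWpop : W ⊆ pop n) (hWc : W.card ≤ 2 ^ (3 * (t + 1)) * l) :
    ∃ 𝒢 : Finset ℂ,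
      𝒢.card ≤ r + P.card + P'.card + (2 ^ (9 * (t + 1)) + 1) + 2 ^ (3 * (t + 1)) * l ∧
      (∀ l : Fin r, rot (a l) ∈ 𝒢) ∧ (∀ p ∈ P, rot (aa p) ∈ 𝒢) ∧ (∀ p ∈ P', rot (aa p) ∈ 𝒢) ∧
      (∀ q : ℕ, q.Prime → q ≤ 2 ^ (9 * (t + 1)) → wq q ∈ 𝒢) ∧
      (∀ y ∈ W, rot (pa n y) ∈ 𝒢) ∧ ∀ g ∈ 𝒢, Gen 𝒟 Λ g ∧ ‖g‖ = 1 := by
  classical
  have haa : ∀ p ∈ P, aa p ≠ 0 := fun p hp =>
    ne_zero_of_norm (hP p hp).1.pos (norm_aa p (hP p hp).1 (hP p hp).2.1)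
  have haa' : ∀ p ∈ P', aa p ≠ 0 := fun p hp =>
    ne_zero_of_norm (hP' p hp).1.pos (norm_aa p (hP' p hp).1 (hP' p hp).2.1)
  obtain ⟨Qs, hQs⟩ : ∃ Qs : Finset ℕ,
      Qs = (range (2 ^ (9 * (t + 1)) + 1)).filter Nat.Prime := ⟨_, rfl⟩
  have hQs' : ∀ q, q ∈ Qs ↔ q.Prime ∧ q ≤ 2 ^ (9 * (t + 1)) := by
    intro q
    rw [hQs, mem_filter, mem_range]
    constructor
    · rintro ⟨h1, h2⟩; exact ⟨h2, by omega⟩
    · rintro ⟨h1, h2⟩; exact ⟨by omega, h1⟩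
  have hQsc : Qs.card ≤ 2 ^ (9 * (t + 1)) + 1 := by
    rw [hQs]
    exact (card_filter_le _ _).trans (by rw [card_range])
  have hX1c : (univ.image (fun l : Fin r => rot (a l))).card ≤ r := card_image_le.trans (by simp)
  have hX2c : (P.image (fun p => rot (aa p))).card ≤ P.card := card_image_le
  have hX3c : (P'.image (fun p => rot (aa p))).card ≤ P'.card := card_image_le
  have hX4c : (Qs.image wq).card ≤ 2 ^ (9 * (t + 1)) + 1 := card_image_le.trans hQsc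
  have hX5c : (W.image (fun y => rot (pa n y))).card ≤ 2 ^ (3 * (t + 1)) * l :=
    card_image_le.trans hWc
  refine ⟨univ.image (fun l : Fin r => rot (a l)) ∪ P.image (fun p => rot (aa p)) ∪
    P'.image (fun p => rot (aa p)) ∪ Qs.image wq ∪ W.image (fun y => rot (pa n y)),
    ?_, ?_, ?_, ?_, ?_, ?_, ?_⟩
  · refine (card_union_le _ _).trans (add_le_add ?_ hX5c)
    refine (card_union_le _ _).trans (add_le_add ?_ hX4c)
    refine (card_union_le _ _).trans (add_le_add ?_ hX3c)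
    exact (card_union_le _ _).trans (add_le_add hX1c hX2c)
  · intro l
    simp only [mem_union, mem_image, mem_univ, true_and]
    exact Or.inl (Or.inl (Or.inl (Or.inl ⟨l, rfl⟩)))
  · intro p hp
    simp only [mem_union, mem_image]
    exact Or.inl (Or.inl (Or.inl (Or.inr ⟨p, hp, rfl⟩)))
  · intro p hp
    simp only [mem_union, mem_image]
    exact Or.inl (Or.inl (Or.inr ⟨p, hp, rfl⟩))
  · intro q hq hq'
    simp only [mem_union, mem_image]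
    exact Or.inl (Or.inr ⟨q, (hQs' q).mpr ⟨hq, hq'⟩, rfl⟩)
  · intro y hy
    simp only [mem_union, mem_image]
    exact Or.inr ⟨y, hy, rfl⟩
  · have hYY : (Y : ℤ) ≤ Y ^ 2 := by
      have : Y ≤ Y ^ 2 := Nat.le_self_pow (by norm_num) Y
      exact_mod_cast this
    have hΛ2' : (4 : ℤ) * Y ^ 2 ≤ Λ := by exact_mod_cast hΛ2
    intro g hg
    simp only [mem_union] at hg
    rcases hg with (((hg | hg) | hg) | hg) | hg
    · obtain ⟨l, _, rfl⟩ := mem_image.mp hg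
      refine ⟨gen_rot h𝒟1 (ha0 l) ?_, fw_norm_rot (ha0 l)⟩
      have := norm_le_of_box (ha l)
      linarith
    · obtain ⟨p, hp, rfl⟩ := mem_image.mp hg
      refine ⟨gen_rot h𝒟1 (haa p hp) ?_, fw_norm_rot (haa p hp)⟩
      rw [norm_aa p (hP p hp).1 (hP p hp).2.1]
      have : (p : ℤ) ≤ Y := by exact_mod_cast (hP p hp).2.2.2
      nlinarith
    · obtain ⟨p, hp, rfl⟩ := mem_image.mp hg
      refine ⟨gen_rot h𝒟1 (haa' p hp) ?_, fw_norm_rot (haa' p hp)⟩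
      rw [norm_aa p (hP' p hp).1 (hP' p hp).2.1]
      have : (p : ℤ) ≤ Y := by exact_mod_cast (hP' p hp).2.2
      nlinarith
    · obtain ⟨q, hq, rfl⟩ := mem_image.mp hg
      have hq' := (hQs' q).mp hq
      refine ⟨?_, hwq1 q hq'.1 hq'.2⟩
      have h1 := hwq2 q hq'.1 hq'.2
      have h2 : 2 ^ (60 * (t + 1)) ≤ Λ :=
        h60.trans ((Nat.pow_le_pow_right (by norm_num) (by omega)).trans hΛ1)
      obtain ⟨A₀, B₀, C, d, e1, e2, e3, e4, e5, e6⟩ := h1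
      refine ⟨A₀, B₀, C, d, e1, e2.trans h2, e3, e4, e5.trans ?_, e6⟩
      exact Int.ofNat_le.mpr h2
    · obtain ⟨y, hy, rfl⟩ := mem_image.mp hg
      refine ⟨gen_rot h𝒟1 (fw_pa_ne_zero n y) ?_, fw_norm_rot (fw_pa_ne_zero n y)⟩
      have h1 := norm_pa_le n y (hWpop hy)
      have h2 : ((2 ^ (2 * n + 4) : ℕ) : ℤ) ≤ Λ := Int.ofNat_le.mpr hΛ1
      have h3 : ((2 ^ (2 * n + 4) : ℕ) : ℤ) = 2 * 2 ^ (2 * n + 3) := by push_cast; ring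
      linarith

open Classical in
theorem density {t r n l F L Y N H : ℕ} {P P' : Finset ℕ} (ht : 40 ≤ t)
    (hP : ∀ p ∈ P, p.Prime ∧ p % 4 = 1 ∧ 2 ^ (2 * t + 2) < p ∧ p ≤ Y)
    (hP' : ∀ p ∈ P', p.Prime ∧ p % 4 = 1 ∧ p ≤ Y)
    (hcs : 2 * (((2 * Y ^ 2) ^ r * 2 ^ (t + 2)) ^ 2 *
      (4 * (2 ^ (2 * t + 2)) ^ 2 * (18 * P.card)) ^ (2 * P.card)) ≤ 2 ^ P'.card)
    (hH : H = ∏ p ∈ P', p)
    (hF : 4 * H ^ 2 < 2 ^ (F + 1))
    (hM : 4 * 2 ^ (2 * n + 3) * (4 * H ^ 2) ^ 2 * H ^ 2 < ∏ p ∈ P, p)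
    (h60 : 2 ^ (60 * (t + 1)) ≤ 2 ^ (2 * n + 3))
    (hL : 0 < L)
    (hN : r + 1 + P'.card + (F + 1) + 1 ≤ N)
    (hsmall : (((2 ^ (3 * (t + 1)) * l : ℕ) : ℝ) +
      2 * (((2 ^ (9 * (t + 1)) + 1 + 2 ^ (3 * (t + 1)) * l) * (2 * (F + 1) + 1) : ℕ) : ℝ) *
        ((2 * P.card : ℕ) : ℝ) * (4 * ((2 ^ (2 * t + 2) : ℕ) : ℝ))) *
      (1 / 2 ^ (20 * t) + N / L) < 1)
    (a : Fin r → GaussianInt)
    (ha : ∀ l, 1 ≤ (a l).re ∧ (a l).re ≤ Y ∧ 1 ≤ (a l).im ∧ (a l).im ≤ Y)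
    (ha0 : ∀ l, a l ≠ 0)
    (ha' : ∀ l, ∀ p ∈ P, ¬ (p : ℤ) ∣ (a l).norm)
    (hrich : ∀ p ∈ P, Rich (g0fam a) p (18 * P.card))
    (wq : ℕ → ℂ)
    (hwq1 : ∀ q : ℕ, q.Prime → q ≤ 2 ^ (9 * (t + 1)) → ‖wq q‖ = 1)
    (hwq3 : ∀ q : ℕ, q.Prime → q ≤ 2 ^ (9 * (t + 1)) →
      ∃ (C : ℕ) (b : ℤ), 0 < C ∧ C ≤ 2 ^ (60 * (t + 1)) ∧ q ∣ C ∧ ¬ (q : ℤ) ∣ b ∧
          (C : ℂ) * (wq q + (wq q)⁻¹) = b)
    (W : Finset ℤ) (hWpop : W ⊆ pop n) (hWc : W.card ≤ 2 ^ (3 * (t + 1)) * l)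
    (hW : ∀ (M : ℕ) (z0 : ℂ) (Q : ℕ) (g : GaussianInt), 0 < M → 1 ≤ Q → Q ≤ 4 * H ^ 2 →
        Rep M (H ^ 2) z0 Q g →
        Prim Q g → (∀ q : ℕ, q.Prime → q ∣ Q → 2 ^ (9 * (t + 1)) < q) →
        (∀ y ∈ W, IsCoprime (Q : ℤ) (pa n y).norm ∧
          ∃ G : GaussianInt, star (pa n y) * G = pa n y * g) →
        ∃ y ∈ W, Hit ((1 / 2) ^ t) (z0 * rot (pa n y)).re)
    (𝒢 : Finset ℂ)
    (hmem1 : ∀ l : Fin r, rot (a l) ∈ 𝒢) (hmem2 : ∀ p ∈ P, rot (aa p) ∈ 𝒢)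
    (hmem3 : ∀ p ∈ P', rot (aa p) ∈ 𝒢)
    (hmem4 : ∀ q : ℕ, q.Prime → q ≤ 2 ^ (9 * (t + 1)) → wq q ∈ 𝒢)
    (hmem5 : ∀ y ∈ W, rot (pa n y) ∈ 𝒢) (hnorm : ∀ g ∈ 𝒢, ‖g‖ = 1) (z : ℂ) :
    L ^ 𝒢.card ≤ 2 ^ (20 * t) * cnt (fun g : 𝒢 => (g : ℂ)) L
      (fun u => Hit ((1 / 2) ^ t) (z * u).re) := by
  by_contra hcon
  push Not at hcon
  have h2le : 2 ≤ 2 ^ (9 * (t + 1)) := by
    calc 2 = 2 ^ 1 := by norm_num
      _ ≤ 2 ^ (9 * (t + 1)) := Nat.pow_le_pow_right (by norm_num) (by omega)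
  have hw2 : wq 2 ∈ 𝒢 := hmem4 2 Nat.prime_two h2le
  have : Nonempty 𝒢 := ⟨⟨wq 2, hw2⟩⟩
  obtain ⟨g, hg⟩ : ∃ g : 𝒢 → ℂ, g = fun x : 𝒢 => (x : ℂ) := ⟨_, rfl⟩
  rw [← hg] at hcon
  have hgnorm : ∀ i, ‖g i‖ = 1 := by
    intro i
    rw [hg]
    exact hnorm _ i.2
  have hWg : ∀ x ∈ 𝒢, Word g 1 x := by
    intro x hx
    have := Word.gen g ⟨x, hx⟩
    rwa [hg] at this ⊢
  obtain ⟨Us, hUs⟩ : ∃ Us : Finset ℂ,
    Us = P.image (fun p => rot (aa p)) ∪ P.image (fun p => (rot (aa p))⁻¹) := ⟨_, rfl⟩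
  have hUsc : Us.card ≤ 2 * P.card := by
    rw [hUs]
    have h1 := card_union_le (P.image (fun p => rot (aa p))) (P.image (fun p => (rot (aa p))⁻¹))
    have h2 : (P.image (fun p => rot (aa p))).card ≤ P.card := card_image_le
    have h3 : (P.image (fun p => (rot (aa p))⁻¹)).card ≤ P.card := card_image_le
    omega
  obtain ⟨Qs, hQs⟩ : ∃ Qs : Finset ℕ,
      Qs = (range (2 ^ (9 * (t + 1)) + 1)).filter Nat.Prime := ⟨_, rfl⟩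
  have hQs' : ∀ q, q ∈ Qs ↔ q.Prime ∧ q ≤ 2 ^ (9 * (t + 1)) := by
    intro q
    rw [hQs, mem_filter, mem_range]
    constructor
    · rintro ⟨h1, h2⟩; exact ⟨h2, by omega⟩
    · rintro ⟨h1, h2⟩; exact ⟨by omega, h1⟩
  have hQsc : Qs.card ≤ 2 ^ (9 * (t + 1)) + 1 := by
    rw [hQs]
    exact (card_filter_le _ _).trans (by rw [card_range])
  obtain ⟨X, hX⟩ : ∃ X : Finset ℂ, X = Qs.image wq ∪ W.image (fun y => rot (pa n y)) :=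
    ⟨_, rfl⟩
  have hXc : X.card ≤ 2 ^ (9 * (t + 1)) + 1 + 2 ^ (3 * (t + 1)) * l := by
    rw [hX]
    exact (card_union_le _ _).trans
      (add_le_add (card_image_le.trans hQsc) (card_image_le.trans hWc))
  have hXG : ∀ x ∈ X, x ∈ 𝒢 := by
    intro x hx
    rw [hX, mem_union, mem_image, mem_image] at hx
    rcases hx with ⟨q, hq, rfl⟩ | ⟨y, hy, rfl⟩
    · exact hmem4 q ((hQs' q).mp hq).1 ((hQs' q).mp hq).2
    · exact hmem5 y hy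
  obtain ⟨V, hV⟩ : ∃ V : Finset ℂ,
    V = (X ×ˢ (Icc (-((F + 1 : ℕ) : ℤ)) ((F + 1 : ℕ) : ℤ))).image (fun x => x.1 ^ x.2) :=
    ⟨_, rfl⟩
  have hVc : V.card ≤ (2 ^ (9 * (t + 1)) + 1 + 2 ^ (3 * (t + 1)) * l) * (2 * (F + 1) + 1) := by
    rw [hV]
    refine card_image_le.trans ?_
    rw [card_product, Int.card_Icc]
    have h1 : ((F + 1 : ℕ) + 1 - (-((F + 1 : ℕ) : ℤ))).toNat = 2 * (F + 1) + 1 := by omega
    rw [h1]
    exact Nat.mul_le_mul_right _ hXc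
  have hVmem : ∀ x ∈ X, ∀ j : ℤ, |j| ≤ F + 1 → x ^ j ∈ V := by
    intro x hx j hj
    rw [hV, mem_image]
    refine ⟨(x, j), mem_product.mpr ⟨hx, ?_⟩, rfl⟩
    rw [abs_le] at hj
    rw [mem_Icc]
    push_cast
    exact hj
  obtain ⟨Wf, hWf⟩ : ∃ Wf : Finset ℂ, Wf = W.image (fun y => rot (pa n y)) := ⟨_, rfl⟩
  have hWfc : Wf.card ≤ 2 ^ (3 * (t + 1)) * l := by
    rw [hWf]; exact card_image_le.trans hWc
  obtain ⟨K, hK⟩ : ∃ K : ℕ, K = 2 ^ (2 * t + 2) := ⟨_, rfl⟩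
  have hKpos : (0 : ℝ) < K := by rw [hK]; positivity
  have hLpos : (0 : ℝ) < L := by exact_mod_cast hL
  obtain ⟨z0, hz1, hz2⟩ := good_point g hgnorm L hL
    (fun S : Finset (Fin r) => ∏ l ∈ S, rot (a l)) r
    (by
      intro S
      have h1 := Word.prod (g := g) (n := 1) S (fun l => rot (a l))
        (fun l _ => hWg _ (hmem1 l))
      refine h1.mono ?_
      rw [mul_one]
      exact (card_le_univ S).trans (by simp))
    Us 1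
    (by
      intro u hu
      rw [hUs, mem_union, mem_image, mem_image] at hu
      rcases hu with ⟨p, hp, rfl⟩ | ⟨p, hp, rfl⟩
      · exact hWg _ (hmem2 p hp)
      · exact (hWg _ (hmem2 p hp)).inv)
    P'.powerset ⟨∅, empty_mem_powerset _⟩ (fun S => ∏ p ∈ S, rot (aa p)) P'.card
    (by
      intro S hS
      have h1 := Word.prod (g := g) (n := 1) S (fun p => rot (aa p))
        (fun p hp => hWg _ (hmem3 p (mem_powerset.mp hS hp)))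
      refine h1.mono ?_
      rw [mul_one]
      exact card_le_card (mem_powerset.mp hS))
    V (F + 1)
    (by
      intro v' hv'
      rw [hV, mem_image] at hv'
      obtain ⟨⟨x, j⟩, hxj, rfl⟩ := hv'
      rw [mem_product, mem_Icc] at hxj
      have h1 := Word.zpow (hWg x (hXG x hxj.1)) j (F + 1) (abs_le.mpr hxj.2)
      rwa [mul_one] at h1)
    Wf 1
    (by
      intro w' hw'
      rw [hWf, mem_image] at hw'
      obtain ⟨y, hy, rfl⟩ := hw'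
      exact hWg _ (hmem5 y hy))
    ((1 / 2) ^ t) (1 / (4 * (K : ℝ))) (1 / 2 ^ (20 * t)) (by positivity) z N hN
    (by
      have h1 : ((2 ^ (20 * t) * cnt g L (fun u => Hit ((1 / 2) ^ t) (z * u).re) : ℕ) : ℝ)
          ≤ ((L ^ 𝒢.card : ℕ) : ℝ) := by exact_mod_cast hcon.le
      push_cast at h1
      rw [Fintype.card_coe, div_mul_eq_mul_div, one_mul, le_div_iff₀ (by positivity)]
      linarith)
    (by
      refine lt_of_le_of_lt ?_ hsmall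
      rw [← hK]
      have h1 : (Wf.card : ℝ) ≤ ((2 ^ (3 * (t + 1)) * l : ℕ) : ℝ) := by exact_mod_cast hWfc
      have h2 : (V.card : ℝ) ≤
          (((2 ^ (9 * (t + 1)) + 1 + 2 ^ (3 * (t + 1)) * l) * (2 * (F + 1) + 1) : ℕ) : ℝ) := by
        exact_mod_cast hVc
      have h3 : (Us.card : ℝ) ≤ ((2 * P.card : ℕ) : ℝ) := by exact_mod_cast hUsc
      rw [div_div_eq_mul_div, div_one]
      gcongr)
  -- torsion at all the needed points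
  have htor : ∀ x ∈ X, ∀ j : ℤ, |j| ≤ F + 1 →
      Tor (D0fam a * ∏ p ∈ P, p) (4 * H ^ 2) (H ^ 2) (z0 * x ^ j) := by
    intro x hx j hj
    have h1 := hz2 _ (hVmem x hx j hj)
    rw [hH]
    refine tor_of_good (t := t) ht P P' hP hP' a ha ha' hrich hcs (z0 * x ^ j) _
      (filter_subset _ _) h1 ?_
    intro S hS p hp
    have h2 := (mem_filter.mp hS).2
    rw [← hK]
    refine ⟨h2 _ ?_, h2 _ ?_⟩
    · rw [hUs, mem_union, mem_image]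
      exact Or.inl ⟨p, hp, rfl⟩
    · rw [hUs, mem_union, mem_image, mem_image]
      exact Or.inr ⟨p, hp, rfl⟩
  obtain ⟨M, hMdef⟩ : ∃ M : ℕ, M = D0fam a * ∏ p ∈ P, p := ⟨_, rfl⟩
  rw [← hMdef] at htor
  have hMbig : 4 * 2 ^ (2 * n + 3) * (4 * H ^ 2) ^ 2 * H ^ 2 < M := by
    have h1 : 1 ≤ D0fam a := D0fam_pos a ha0
    have h2 : ∏ p ∈ P, p ≤ D0fam a * ∏ p ∈ P, p := Nat.le_mul_of_pos_left _ h1
    rw [hMdef]
    exact lt_of_lt_of_le hM h2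
  have hMpos : 0 < M := lt_of_le_of_lt (Nat.zero_le _) hMbig
  have h2Q : (2 : ℕ) ∈ Qs := (hQs' 2).mpr ⟨Nat.prime_two, h2le⟩
  have hXq : ∀ q ∈ Qs, wq q ∈ X := by
    intro q hq
    rw [hX, mem_union, mem_image]
    exact Or.inl ⟨q, hq, rfl⟩
  have hXy : ∀ y ∈ W, rot (pa n y) ∈ X := by
    intro y hy
    rw [hX, mem_union, mem_image, mem_image]
    exact Or.inr ⟨y, hy, rfl⟩
  have hTor0 : Tor M (4 * H ^ 2) (H ^ 2) z0 := by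
    have h1 := htor (wq 2) (hXq 2 h2Q) 0 (by rw [abs_zero]; positivity)
    rwa [zpow_zero, mul_one] at h1
  obtain ⟨Q, hQ1, hQb, g', hrep, hprim⟩ := exists_prim _ _ _ _ hTor0
  have hQbig : ∀ q : ℕ, q.Prime → q ∣ Q → 2 ^ (9 * (t + 1)) < q := by
    intro q hq hqQ
    by_contra hle
    push Not at hle
    obtain ⟨C, b, hC, hCle, hqC, hqb, hCb⟩ := hwq3 q hq hle
    refine kill M (4 * H ^ 2) (H ^ 2) F z0 (wq q) (hwq1 q hq hle) C b hC hCb q hq hqC hqb hF ?_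
      ?_ Q g' hQ1 hQb hrep hprim hqQ
    · refine lt_of_le_of_lt ?_ hMbig
      have h1 : C ≤ 2 ^ (2 * n + 3) := hCle.trans h60
      gcongr
    · intro j hj
      exact htor _ (hXq q ((hQs' q).mpr ⟨hq, hle⟩)) j (by linarith)
  have hWy : ∀ y ∈ W, IsCoprime (Q : ℤ) (pa n y).norm ∧
      ∃ G : GaussianInt, star (pa n y) * G = pa n y * g' := by
    intro y hy
    refine transfer M (4 * H ^ 2) (H ^ 2) F n z0 y hF ?_ ?_ Q g' hQ1 hQb hrep hprim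
    · have h1 := norm_pa_le n y (hWpop hy)
      have h2 : ((4 * 2 ^ (2 * n + 3) * (4 * H ^ 2) ^ 2 * H ^ 2 : ℕ) : ℤ) < M :=
        Int.ofNat_lt.mpr hMbig
      refine lt_of_le_of_lt ?_ h2
      push_cast
      gcongr
    · intro j hj
      exact htor _ (hXy y hy) j hj
  obtain ⟨y, hy, hhit⟩ := hW M z0 Q g' hMpos hQ1 hQb hrep hprim hQbig hWy
  refine hz1 (rot (pa n y)) ?_ hhit
  rw [hWf, mem_image]
  exact ⟨y, hy, rfl⟩

end Pyj
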