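import Pool.Agent.Helper79.Pyj.Core

namespace Pyj

open Complex Finset


theorem core (t r n l F Λ L μ Y N H k𝒢 : ℕ) (P P' : Finset ℕ) (ht : 40 ≤ t)
    (hY : 1 ≤ Y) (hr : Y ≤ 2 ^ r)
    (hP : ∀ p ∈ P, p.Prime ∧ p % 4 = 1 ∧ 2 ^ (2 * t + 2) < p ∧ p ≤ Y)
    (hsum : ∑ p ∈ P, (8 : ℝ) / p ≤ 1 / 2)
    (hP' : ∀ p ∈ P', p.Prime ∧ p % 4 = 1 ∧ p ≤ Y)
    (hcs : 2 * (((2 * Y ^ 2) ^ r * 2 ^ (t + 2)) ^ 2 *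
      (4 * (2 ^ (2 * t + 2)) ^ 2 * (18 * P.card)) ^ (2 * P.card)) ≤ 2 ^ P'.card)
    (hH : H = ∏ p ∈ P', p)
    (hF : 4 * H ^ 2 < 2 ^ (F + 1))
    (hM : 4 * 2 ^ (2 * n + 3) * (4 * H ^ 2) ^ 2 * H ^ 2 < ∏ p ∈ P, p)
    (h60 : 2 ^ (60 * (t + 1)) ≤ 2 ^ (2 * n + 3))
    (hn : (4 * H ^ 2) * (2 * H ^ 2) * 2 ^ (t + 1 + 10) ≤ 2 ^ n)
    (hl : (4 * H ^ 2) * ((4 * H ^ 2) * (4 * H ^ 2)) *
      ((2 * (2 * H ^ 2 * 2 ^ (t + 2)) + 1) * (2 * (2 * H ^ 2 * 2 ^ (t + 2)) + 1)) < 2 ^ l)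
    (hΛ1 : 2 ^ (2 * n + 4) ≤ Λ) (hΛ2 : 4 * Y ^ 2 ≤ Λ)
    (h𝒢 : r + P.card + P'.card + (2 ^ (9 * (t + 1)) + 1) + 2 ^ (3 * (t + 1)) * l ≤ k𝒢)
    (hL : 0 < L)
    (hN : r + 1 + P'.card + (F + 1) + 1 ≤ N)
    (hsmall : (((2 ^ (3 * (t + 1)) * l : ℕ) : ℝ) +
      2 * (((2 ^ (9 * (t + 1)) + 1 + 2 ^ (3 * (t + 1)) * l) * (2 * (F + 1) + 1) : ℕ) : ℝ) *
        ((2 * P.card : ℕ) : ℝ) * (4 * ((2 ^ (2 * t + 2) : ℕ) : ℝ))) *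
      (1 / 2 ^ (20 * t) + N / L) < 1)
    (hμ : (2 : ℝ) ^ (60 * (t + 1) + 1) * (Λ : ℝ) ^ (k𝒢 * L) ≤ (1 / 2) ^ t * 2 ^ μ) :
    ∃ U : Finset ℂ, (∀ u ∈ U, ‖u‖ = 1) ∧
      U.card ≤ 2 ^ (20 * t) * (2 ^ (60 * (t + 1) + 1) * μ + 1) ∧
      ∀ z : ℂ, ∃ u ∈ U, Hit (2 * (1 / 2 : ℝ) ^ t) (z * u).re := by
  -- sampling family
  obtain ⟨a, ha, ha', hrich⟩ := exists_W0 P Y r hY
    (fun p hp => ⟨(hP p hp).1, by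
      rintro rfl
      have := (hP 2 hp).2.1
      omega, (hP p hp).2.2.2⟩) hsum hr
  have ha0 : ∀ l, a l ≠ 0 := by
    intro l h
    have := (ha l).1
    rw [h] at this
    simp at this
  -- fields
  obtain ⟨𝒟, h𝒟c, h𝒟1, h𝒟⟩ := fields (t + 1) (by omega)
  choose! wq hwq1 hwq2 hwq3 using h𝒟
  have hHpos : 0 < H := by
    rw [hH]
    exact Finset.prod_pos fun p hp => (hP' p hp).1.pos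
  -- final words
  obtain ⟨W, hWpop, hWc, hW⟩ := final_words t n (4 * H ^ 2) (H ^ 2) l ht
    (Nat.one_le_pow _ _ hHpos) hn hl
  obtain ⟨𝒢, h𝒢c, hmem1, hmem2, hmem3, hmem4, hmem5, hgen⟩ := exists_gens hP hP' h60 hΛ1 hΛ2
    a ha ha0 𝒟 h𝒟1 wq hwq1 hwq2 W hWpop hWc
  have h𝒢c' := h𝒢c.trans h𝒢
  -- apply the sampling theorem
  have hΛpos : 1 ≤ Λ := le_trans Nat.one_le_two_pow hΛ1
  have hμ' : (2 : ℝ) ^ (𝒟.card + 1) * (Λ : ℝ) ^ (𝒢.card * L) ≤ (1 / 2) ^ t * 2 ^ μ := by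
    refine le_trans ?_ hμ
    have hΛ1' : (1 : ℝ) ≤ Λ := by exact_mod_cast hΛpos
    gcongr
    · norm_num
  obtain ⟨U, hU1, hU2, hU3⟩ := sampling_box 𝒟 𝒢 Λ L hL hΛpos hgen ((1 / 2) ^ t) (by positivity)
    (2 ^ (20 * t)) μ
    (fun z => density ht hP hP' hcs hH hF hM h60 hL hN hsmall a ha ha0 ha' hrich wq hwq1 hwq3
      W hWpop hWc hW 𝒢 hmem1 hmem2 hmem3 hmem4 hmem5 (fun g hg => (hgen g hg).2) z) hμ'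
  have h1 : 2 ^ (𝒟.card + 1) ≤ 2 ^ (60 * (t + 1) + 1) :=
    Nat.pow_le_pow_right (by norm_num) (by omega)
  exact ⟨U, hU1, hU2.trans (Nat.mul_le_mul_left _
    (Nat.add_le_add_right (Nat.mul_le_mul_right _ h1) 1)), hU3⟩

end Pyj
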