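import Mathlib

/-!
# Definitions for the polynomial pyjama bound (MP_5b7aa2_co, S08955)
-/

namespace Pyj

open Complex

/-- `x` is within `ε` of an integer. -/
def Hit (ε x : ℝ) : Prop := ∃ k : ℤ, |x - k| ≤ ε

/-! ### The ambient lattice spanned by `i^b ∏_{d ∈ S} √d` -/

/-- `i^b * ∏_{d ∈ S} √d`. -/
noncomputable def om (b : Bool) (S : Finset ℕ) : ℂ :=
  (if b then I else 1) * ∏ d ∈ S, ((Real.sqrt d : ℝ) : ℂ)

/-- `D * u` is an integral combination of the `om b S`, `S ⊆ 𝒟`, with coefficients of size `≤ A`. -/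
def Lat (𝒟 : Finset ℕ) (A D : ℕ) (u : ℂ) : Prop :=
  ∃ a : Bool → Finset ℕ → ℤ, (∀ b S, |a b S| ≤ A) ∧
    (D : ℂ) * u = ∑ b : Bool, ∑ S ∈ 𝒟.powerset, (a b S : ℂ) * om b S

/-- Generators: `C * g = A₀ + B₀ i √d` with `d ∈ 𝒟`, `d > 0`, and everything bounded by `Λ`. -/
def Gen (𝒟 : Finset ℕ) (Λ : ℕ) (g : ℂ) : Prop :=
  ∃ (A₀ B₀ : ℤ) (C d : ℕ), 0 < C ∧ C ≤ Λ ∧ d ∈ 𝒟 ∧ 0 < d ∧ |A₀| + |B₀| * d ≤ Λ ∧
    (C : ℂ) * g = A₀ + B₀ * (I * ((Real.sqrt d : ℝ) : ℂ))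

/-! ### Words and the box -/

/-- `Word g n v`: `v` is a product of at most `n` factors `g i` or `(g i)⁻¹`. -/
inductive Word {κ : Type*} (g : κ → ℂ) : ℕ → ℂ → Prop
  | one (n : ℕ) : Word g n 1
  | mul {n : ℕ} {v : ℂ} (i : κ) : Word g n v → Word g (n + 1) (v * g i)
  | div {n : ℕ} {v : ℂ} (i : κ) : Word g n v → Word g (n + 1) (v * (g i)⁻¹)

/-- the element `∏ g_i ^ e_i` of the box. -/
noncomputable def box {κ : Type*} [Fintype κ] (g : κ → ℂ) {L : ℕ} (e : κ → Fin L) : ℂ :=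
  ∏ i, g i ^ (e i : ℕ)

open Classical in
/-- number of exponent vectors `e` in the box with `P (∏ g_i ^ e_i)`. -/
noncomputable def cnt {κ : Type*} [Fintype κ] (g : κ → ℂ) (L : ℕ) (P : ℂ → Prop) : ℕ :=
  (Finset.univ.filter fun e : κ → Fin L => P (box g e)).card

/-! ### Bad points, coverings, torsion -/

open Classical in
/-- `α` is *bad* for the family `w`: few of the `Re (α w_i)` are near integers. -/
def BadW {ι : Type*} [Fintype ι] (w : ι → ℂ) (ε τ : ℝ) (α : ℂ) : Prop :=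
  ((Finset.univ.filter fun i => Hit ε (α * w i).re).card : ℝ) ≤ τ * Fintype.card ι

/-- `A` is covered by `c` balls of radius `r` modulo `M ℤ[i]`. -/
def Cov (A : Set ℂ) (M : ℕ) (r : ℝ) (c : ℕ) : Prop :=
  ∃ F : Finset ℂ, F.card ≤ c ∧
    ∀ α ∈ A, ∃ β ∈ F, ∃ g : GaussianInt, ‖α - β - (M : ℂ) * (g : ℂ)‖ ≤ r

open Classical in
/-- Collision bound for the reductions of `g0` modulo the primes of `ℤ[i]` above `p`. -/
def Rich {ι : Type*} [Fintype ι] (g0 : ι → GaussianInt) (p B : ℕ) : Prop :=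
  ∀ φ : GaussianInt →+* ZMod p,
    p * (Finset.univ.filter fun x : ι × ι => φ (g0 x.1) = φ (g0 x.2)).card
      ≤ B * Fintype.card ι ^ 2

/-- `rot a = a / ā`. -/
noncomputable def rot (a : GaussianInt) : ℂ := (a : ℂ) / ((star a : GaussianInt) : ℂ)

/-- `Q z` is within `Γ` of `M g`. -/
def Rep (M Γ : ℕ) (z : ℂ) (Q : ℕ) (g : GaussianInt) : Prop :=
  ‖(Q : ℂ) * z - (M : ℂ) * (g : ℂ)‖ ≤ Γ

/-- `z` is near `M` times a Gaussian rational with denominator `≤ Qb`. -/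
def Tor (M Qb Γ : ℕ) (z : ℂ) : Prop :=
  ∃ Q : ℕ, 1 ≤ Q ∧ Q ≤ Qb ∧ ∃ g : GaussianInt, Rep M Γ z Q g

/-- no prime of `Q` divides `g` (in `ℤ[i]`): the fraction `g / Q` is reduced. -/
def Prim (Q : ℕ) (g : GaussianInt) : Prop :=
  ∀ q : ℕ, q.Prime → q ∣ Q → ¬ ((q : ℤ) ∣ g.re ∧ (q : ℤ) ∣ g.im)

/-! ### The final population -/

/-- `a = (2y+1) + 2^(n+1) i`. -/
def pa (n : ℕ) (y : ℤ) : GaussianInt := ⟨2 * y + 1, 2 ^ (n + 1)⟩

/-- the population `y ∈ [-2^n, 2^n)`. -/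
noncomputable def pop (n : ℕ) : Finset ℤ := Finset.Ico (-2 ^ n) (2 ^ n)

/-- the arithmetic part of a test at `y`: for every inverse `N'` of `N(a)` modulo `Q`
(if there is one) the number `Re (b a²) N' / Q + ρ` is within `ε` of an integer. -/
def ATest (n : ℕ) (ε : ℝ) (Q : ℕ) (b : GaussianInt) (ρ : ℝ) (y : ℤ) : Prop :=
  ∀ N' : ℤ, (Q : ℤ) ∣ N' * (pa n y).norm - 1 →
    Hit ε ((((b * pa n y ^ 2).re * N' : ℤ) : ℝ) / Q + ρ)

/-- a test: as `ATest` with `ρ = Re (γ a / ā)`. -/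
def Test (n : ℕ) (ε : ℝ) (Q : ℕ) (b : GaussianInt) (γ : ℂ) (y : ℤ) : Prop :=
  ATest n ε Q b (γ * rot (pa n y)).re y

end Pyj
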