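import Pool.Agent.Helper79.Pyj.Defs
import Pool.Prelude.Def_F_fc5f667c

/-! M2: reduction of the frozen statement to finite hitting sets -/

namespace Pyj

open Complex Finset

/-- A finite hitting set of unit complex numbers bounds the number of copies. -/
lemma minCopies_le_card (ε : ℝ) (U : Finset ℂ) (hU : ∀ u ∈ U, ‖u‖ = 1)
    (h : ∀ z : ℂ, ∃ u ∈ U, Hit ε (z * u).re) : N29694b66.minCopies ε ≤ U.card := by
  classical
  have h1 : N29694b66.minCopies ε ≤ (U.image (fun u => -arg u)).card := by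
    apply Nat.sInf_le
    refine ⟨U.image (fun u => -arg u), rfl, ?_⟩
    rw [Set.eq_univ_iff_forall]
    intro z
    obtain ⟨u, hu, k, hk⟩ := h z
    rw [Set.mem_iUnion₂]
    refine ⟨-arg u, Finset.mem_image.2 ⟨u, hu, rfl⟩, ?_⟩
    rw [Set.mem_smul_set]
    refine ⟨z * u, ⟨k, hk⟩, ?_⟩
    have hnorm := hU u hu
    have hu1 : Complex.exp (arg u * I) = u := by
      have := norm_mul_exp_arg_mul_I u
      rw [hnorm] at this
      simpa using this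
    have hu0 : u ≠ 0 := by
      intro h0
      rw [h0] at hnorm
      simp at hnorm
    have hu2 : Complex.exp (((-arg u : ℝ) : ℂ) * I) = u⁻¹ := by
      rw [Complex.ofReal_neg, neg_mul, Complex.exp_neg, hu1]
    rw [hu2, smul_eq_mul]
    field_simp
  exact h1.trans card_image_le

theorem final_of_cover (C t0 : ℕ)
    (h : ∀ t ≥ t0, ∃ U : Finset ℂ, (∀ u ∈ U, ‖u‖ = 1) ∧ U.card ≤ 2 ^ (C * t) ∧
      ∀ z : ℂ, ∃ u ∈ U, Hit (2 * (1 / 2 : ℝ) ^ t) (z * u).re) :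
    ∃ C : ℝ, ∃ ε₀ > 0, ∀ ε ∈ Set.Ioc 0 ε₀,
      (N29694b66.minCopies ε : ℝ) ≤ ε ^ (-C) := by
  refine ⟨2 * C, (1 / 2 : ℝ) ^ (t0 + 2), by positivity, ?_⟩
  rintro ε ⟨hε0, hε⟩
  have hε14 : ε ≤ 1 / 4 := by
    refine hε.trans ?_
    rw [pow_add]
    have : (1 / 2 : ℝ) ^ t0 ≤ 1 := pow_le_one₀ (by norm_num) (by norm_num)
    nlinarith
  obtain ⟨n, hn1, hn2⟩ := exists_nat_pow_near_of_lt_one hε0 (by linarith : ε ≤ 1)
    (by norm_num : (0 : ℝ) < 1 / 2) (by norm_num : (1 / 2 : ℝ) < 1)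
  have hnt : t0 + 2 < n + 1 := by
    have h1 : (1 / 2 : ℝ) ^ (n + 1) < (1 / 2 : ℝ) ^ (t0 + 2) := lt_of_lt_of_le hn1 hε
    exact (pow_lt_pow_iff_right_of_lt_one₀ (by norm_num) (by norm_num)).1 h1
  obtain ⟨U, hU1, hU2, hU3⟩ := h (n + 2) (by omega)
  have h2 : (2 : ℝ) * (1 / 2) ^ (n + 2) ≤ ε := by
    have : (2 : ℝ) * (1 / 2) ^ (n + 2) = (1 / 2) ^ (n + 1) := by
      rw [pow_succ _ (n + 1)]
      ring
    rw [this]
    exact hn1.le
  have h3 : N29694b66.minCopies ε ≤ U.card := by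
    refine minCopies_le_card ε U hU1 fun z => ?_
    obtain ⟨u, hu, k, hk⟩ := hU3 z
    exact ⟨u, hu, k, hk.trans h2⟩
  have h4 : (2 : ℝ) ^ (n + 2) ≤ ε⁻¹ ^ 2 := by
    have h5 : (2 : ℝ) ^ n * ε ≤ 1 := by
      have h6 : (2 : ℝ) ^ n * (1 / 2 : ℝ) ^ n = 1 := by
        rw [← mul_pow]
        norm_num
      calc (2 : ℝ) ^ n * ε ≤ (2 : ℝ) ^ n * (1 / 2 : ℝ) ^ n :=
            mul_le_mul_of_nonneg_left hn2 (by positivity)
        _ = 1 := h6
    rw [inv_pow, le_inv_comm₀ (by positivity) (by positivity), ← one_div,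
      le_div_iff₀ (by positivity)]
    rw [pow_add]
    nlinarith [mul_le_mul_of_nonneg_right h5 hε0.le]
  calc (N29694b66.minCopies ε : ℝ) ≤ (U.card : ℝ) := by exact_mod_cast h3
    _ ≤ ((2 ^ (C * (n + 2)) : ℕ) : ℝ) := by exact_mod_cast hU2
    _ = ((2 : ℝ) ^ (n + 2)) ^ C := by
      push_cast
      rw [← pow_mul, mul_comm]
    _ ≤ (ε⁻¹ ^ 2) ^ C := pow_le_pow_left₀ (by positivity) h4 C
    _ = ε ^ (-(2 * C : ℝ)) := by
      rw [← pow_mul, Real.rpow_neg hε0.le, ← Real.inv_rpow hε0.le, ← Real.rpow_natCast]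
      push_cast
      rfl

end Pyj
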