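import Pool.Agent.Helper79.Pyj.Defs
import Pool.Agent.Helper79.Pyj.BlockC
import Pool.Agent.Helper79.Pyj.BlockD

/-! M10d: a full window -/

namespace Pyj

open Complex Finset

/-- A nontrivial quadratic over a field with `2 ≠ 0`, in the variable `2 r + 1`, has at most two
roots. -/
private lemma window_roots {K : Type*} [Field K] (h2 : (2 : K) ≠ 0) (α β γ : K)
    (h : ¬ (α = 0 ∧ β = 0)) (s : Finset K)
    (hs : ∀ r ∈ s, α * (2 * r + 1) ^ 2 + β * (2 * r + 1) + γ = 0) : s.card ≤ 2 := by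
  classical
  by_contra hcc
  push Not at hcc
  obtain ⟨a, ha, b, hb, c, hc, hab, hac, hbc⟩ := Finset.two_lt_card.1 hcc
  have key : ∀ x y : K, x ≠ y → α * (2 * x + 1) ^ 2 + β * (2 * x + 1) + γ = 0 →
      α * (2 * y + 1) ^ 2 + β * (2 * y + 1) + γ = 0 → α * (2 * x + 1 + (2 * y + 1)) + β = 0 := by
    intro x y hxy hx hy
    have h1 : (2 * (x - y)) * (α * (2 * x + 1 + (2 * y + 1)) + β) = 0 := by
      linear_combination hx - hy
    rcases mul_eq_zero.1 h1 with h3 | h3
    · exact absurd h3 (mul_ne_zero h2 (sub_ne_zero.2 hxy))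
    · exact h3
  have k1 := key a b hab (hs a ha) (hs b hb)
  have k2 := key a c hac (hs a ha) (hs c hc)
  have h3 : (2 * (b - c)) * α = 0 := by linear_combination k1 - k2
  have hα : α = 0 := by
    rcases mul_eq_zero.1 h3 with h4 | h4
    · exact absurd h4 (mul_ne_zero h2 (sub_ne_zero.2 hbc))
    · exact h4
  have hβ : β = 0 := by
    rw [hα] at k1
    linear_combination k1
  exact h ⟨hα, hβ⟩

open Classical in
private lemma window_lift_card (q : ℕ) (P : ℤ → Prop) :
    (((do let a ← range q; pure (a : ℤ)) : Finset ℤ).filter P).card =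
      ((range q).filter fun j : ℕ => P j).card := by
  have h : ((do let a ← range q; pure (a : ℤ)) : Finset ℤ) =
      (range q).map ⟨fun j : ℕ => (j : ℤ), Nat.cast_injective⟩ := by
    ext x
    simp [Finset.bind_def, Finset.pure_def, eq_comm]
  rw [h, Finset.filter_map, Finset.card_map]
  rfl

open Classical in
/-- Splitting a window of length `q * E` into `E` progressions. -/
private lemma window_split (q E : ℕ) (hE : 0 < E) (W : ℤ) (P : ℤ → Prop) :
    ∑ y0 ∈ Ico W (W + E), ((range q).filter fun j : ℕ => P (y0 + E * j)).card ≤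
      ((Ico W (W + (q * E : ℕ))).filter P).card := by
  rw [← Finset.card_sigma]
  refine Finset.card_le_card_of_injOn (fun x => x.1 + E * (x.2 : ℤ)) ?_ ?_
  · rintro ⟨y0, j⟩ hx
    simp only [Finset.coe_sigma, Set.mem_sigma_iff, Finset.coe_Ico, Set.mem_Ico, Finset.coe_filter,
      Finset.mem_range, Set.mem_ofPred_eq] at hx
    obtain ⟨⟨h1, h2⟩, h3, h4⟩ := hx
    simp only [Finset.coe_filter, Finset.mem_Ico, Set.mem_ofPred_eq]
    refine ⟨⟨?_, ?_⟩, h4⟩
    · have : (0 : ℤ) ≤ E * (j : ℤ) := by positivity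
      linarith
    · have h5 : (j : ℤ) + 1 ≤ q := by exact_mod_cast h3
      have h6 : (E : ℤ) * ((j : ℤ) + 1) ≤ E * q := mul_le_mul_of_nonneg_left h5 (by positivity)
      push_cast
      nlinarith
  · rintro ⟨y0, j⟩ hx ⟨y1, k⟩ hy hxy
    simp only [Finset.coe_sigma, Set.mem_sigma_iff, Finset.coe_Ico, Set.mem_Ico, Finset.coe_filter,
      Finset.mem_range, Set.mem_ofPred_eq] at hx hy
    have hxy' : y0 + E * (j : ℤ) = y1 + E * (k : ℤ) := hxy
    have hEz : (0 : ℤ) < E := by exact_mod_cast hE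
    have h0 : (y0 - W) % E = y0 - W := Int.emod_eq_of_lt (by linarith [hx.1.1]) (by linarith [hx.1.2])
    have h1 : (y1 - W) % E = y1 - W := Int.emod_eq_of_lt (by linarith [hy.1.1]) (by linarith [hy.1.2])
    have h2 : (y0 - W) % E = (y1 - W) % E := by
      have : y0 - W = (y1 - W) + E * ((k : ℤ) - j) := by linarith
      rw [this, Int.add_mul_emod_self_left]
    have h3 : y0 = y1 := by rw [h0, h1] at h2; linarith
    subst h3
    have h4 : (j : ℤ) = k := by
      have : (E : ℤ) * (j : ℤ) = E * k := by linarith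
      exact mul_left_cancel₀ (ne_of_gt hEz) this
    have h5 : j = k := by exact_mod_cast h4
    subst h5
    rfl

/-- Number of integers of a given residue class modulo `q` in an interval of length `q * F`. -/
private lemma window_residue (q F : ℕ) (hq : 0 < q) (W : ℤ) (r : ZMod q) :
    ((Ico W (W + (q * F : ℕ))).filter fun y => ((y : ℤ) : ZMod q) = r).card ≤ F := by
  classical
  rcases Finset.eq_empty_or_nonempty
    ((Ico W (W + (q * F : ℕ))).filter fun y => ((y : ℤ) : ZMod q) = r) with h | ⟨v, hv⟩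
  · rw [h]; simp
  · have hvr : ((v : ℤ) : ZMod q) = r := (Finset.mem_filter.1 hv).2
    have h1 : ((Ico W (W + (q * F : ℕ))).filter fun y => ((y : ℤ) : ZMod q) = r) =
        (Ico W (W + (q * F : ℕ))).filter fun y => y ≡ v [ZMOD q] := by
      apply Finset.filter_congr
      intro y _
      rw [← hvr, ZMod.intCast_eq_intCast_iff]
    rw [h1]
    have h2 := Int.Ico_filter_modEq_card W (W + (q * F : ℕ)) (by exact_mod_cast hq : (0 : ℤ) < q) v
    have hq' : (q : ℚ) ≠ 0 := by exact_mod_cast hq.ne'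
    have h3 : (((W + (q * F : ℕ) : ℤ) - v : ℚ) / (q : ℤ)) = ((W - v : ℚ) / (q : ℤ)) + (F : ℤ) := by
      push_cast
      field_simp
      ring
    have h4 : (((Ico W (W + (q * F : ℕ))).filter fun y => y ≡ v [ZMOD q]).card : ℤ) ≤ F := by
      rw [h2, h3, Int.ceil_add_intCast]
      have : (0 : ℤ) ≤ F := by positivity
      simp
    exact_mod_cast h4

open Classical in
theorem window (t n Q : ℕ) (ht : 40 ≤ t) (hQ1 : 1 < Q)
    (hQ : ∀ q, q.Prime → q ∣ Q → 2 ^ (9 * t) < q) (b : GaussianInt) (hb : Prim Q b)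
    (ρ : ℝ) (W : ℤ) :
    (Q : ℝ) ≤ 2 ^ (2 * t + 5) *
      ((Ico W (W + Q)).filter fun y => ATest n ((1 / 2) ^ (t + 1)) Q b ρ y).card := by
  obtain ⟨q, hq, E, rfl⟩ : ∃ q, q.Prime ∧ ∃ E, Q = q * E :=
    ⟨Q.minFac, Nat.minFac_prime (by omega), Q.minFac_dvd⟩
  have hqt : 2 ^ (9 * t) < q := hQ q hq (Dvd.intro _ rfl)
  have hbq := hb q hq (Dvd.intro _ rfl)
  have hE : 0 < E := by
    rcases Nat.eq_zero_or_pos E with h | h
    · subst h; simp at hQ1
    · exact h
  have hsplit := window_split q E hE W (fun y => ATest n ((1 / 2) ^ (t + 1)) (q * E) b ρ y)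
  have hq4 : 4 ≤ q := by
    have : 2 ^ 2 ≤ 2 ^ (9 * t) := Nat.pow_le_pow_right (by norm_num) (by omega)
    omega
  set cnt : ℤ → ℕ := fun y0 =>
    ((range q).filter fun j : ℕ => ATest n ((1 / 2) ^ (t + 1)) (q * E) b ρ (y0 + E * j)).card
    with hcnt
  have hsplit' : (∑ y0 ∈ Ico W (W + E), (cnt y0 : ℝ)) ≤
      (((Ico W (W + (q * E : ℕ))).filter fun y => ATest n ((1 / 2) ^ (t + 1)) (q * E) b ρ y).card
        : ℝ) := by
    exact_mod_cast hsplit
  -- number of good starting points
  obtain ⟨G, hGsub, hGcard, hG⟩ : ∃ G : Finset ℤ, G ⊆ Ico W (W + E) ∧ E ≤ 2 * G.card ∧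
      ∀ y0 ∈ G, (q : ℝ) ≤ 2 ^ (2 * t + 4) * (cnt y0 : ℝ) := by
    by_cases hqE : q ∣ E
    · refine ⟨(Ico W (W + E)).filter fun y0 =>
        ¬ (q : ℤ) ∣ b.im * (2 * y0 + 1) ^ 2 + 2 ^ (n + 2) * b.re * (2 * y0 + 1)
          - b.im * 4 ^ (n + 1), Finset.filter_subset _ _, ?_, ?_⟩
      · obtain ⟨F, rfl⟩ := hqE
        have : Fact q.Prime := ⟨hq⟩
        have h2 : (2 : ZMod q) ≠ 0 := by
          intro h
          have : ((2 : ℕ) : ZMod q) = 0 := by exact_mod_cast h
          rw [ZMod.natCast_eq_zero_iff] at this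
          have := Nat.le_of_dvd (by norm_num) this
          omega
        set B := (Ico W (W + (q * F : ℕ))).filter fun y0 =>
          (q : ℤ) ∣ b.im * (2 * y0 + 1) ^ 2 + 2 ^ (n + 2) * b.re * (2 * y0 + 1)
          - b.im * 4 ^ (n + 1) with hB
        have hBcard : B.card ≤ F * (B.image fun y : ℤ => (y : ZMod q)).card := by
          apply Finset.card_le_mul_card_image
          intro r _
          refine le_trans (Finset.card_le_card ?_) (window_residue q F hq.pos W r)
          intro y hy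
          rw [Finset.mem_filter] at hy ⊢
          exact ⟨(Finset.mem_filter.1 hy.1).1, hy.2⟩
        have hroots : (B.image fun y : ℤ => (y : ZMod q)).card ≤ 2 := by
          apply window_roots h2 (b.im : ZMod q) (2 ^ (n + 2) * (b.re : ZMod q))
            (-((b.im : ZMod q) * 4 ^ (n + 1)))
          · rintro ⟨h3, h4⟩
            apply hbq
            have h5 : (b.re : ZMod q) = 0 := by
              rcases mul_eq_zero.1 h4 with h6 | h6
              · exact absurd h6 (pow_ne_zero _ h2)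
              · exact h6
            exact ⟨(ZMod.intCast_zmod_eq_zero_iff_dvd _ _).1 h5,
              (ZMod.intCast_zmod_eq_zero_iff_dvd _ _).1 h3⟩
          · intro r hr
            obtain ⟨y, hy, rfl⟩ := Finset.mem_image.1 hr
            have h3 := (Finset.mem_filter.1 hy).2
            rw [← ZMod.intCast_zmod_eq_zero_iff_dvd] at h3
            push_cast at h3
            linear_combination h3
        have htot := Finset.card_filter_add_card_filter_not (s := Ico W (W + (q * F : ℕ)))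
          (fun y0 => (q : ℤ) ∣ b.im * (2 * y0 + 1) ^ 2 + 2 ^ (n + 2) * b.re * (2 * y0 + 1)
          - b.im * 4 ^ (n + 1))
        rw [Int.card_Ico] at htot
        have h6 : (W + ((q * F : ℕ) : ℤ) - W).toNat = q * F := by
          rw [add_sub_cancel_left]; exact Int.toNat_natCast _
        rw [h6] at htot
        have h7 : B.card ≤ F * 2 := le_trans hBcard (Nat.mul_le_mul_left _ hroots)
        have h8 : 4 * F ≤ q * F := Nat.mul_le_mul_right _ hq4
        change B.card + _ = q * F at htot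
        omega
      · intro y0 hy0
        have h := block_dvd t n q E ht hq hqt hE hqE b hbq ρ y0 (Finset.mem_filter.1 hy0).2
        first
          | exact h
          | (rw [window_lift_card] at h; exact h)
    · refine ⟨Ico W (W + E), Finset.Subset.refl _, ?_, ?_⟩
      · rw [Int.card_Ico, add_sub_cancel_left, Int.toNat_natCast]; omega
      · intro y0 _
        have h := block_coprime t n q E ht hq hqt hE hqE b hbq ρ y0
        first
          | exact h
          | (rw [window_lift_card] at h; exact h)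
  have h1 : (G.card : ℝ) * q ≤ 2 ^ (2 * t + 4) * ∑ y0 ∈ Ico W (W + E), (cnt y0 : ℝ) := by
    calc (G.card : ℝ) * q = ∑ y0 ∈ G, (q : ℝ) := by rw [Finset.sum_const, nsmul_eq_mul]
      _ ≤ ∑ y0 ∈ G, 2 ^ (2 * t + 4) * (cnt y0 : ℝ) := Finset.sum_le_sum hG
      _ = 2 ^ (2 * t + 4) * ∑ y0 ∈ G, (cnt y0 : ℝ) := by rw [Finset.mul_sum]
      _ ≤ 2 ^ (2 * t + 4) * ∑ y0 ∈ Ico W (W + E), (cnt y0 : ℝ) := by
          apply mul_le_mul_of_nonneg_left _ (by positivity)
          exact Finset.sum_le_sum_of_subset_of_nonneg hGsub (fun _ _ _ => Nat.cast_nonneg _)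
  have h2 : (E : ℝ) ≤ 2 * (G.card : ℝ) := by exact_mod_cast hGcard
  have hqpos : (0 : ℝ) ≤ q := Nat.cast_nonneg _
  have h3 : ((q * E : ℕ) : ℝ) ≤ 2 * ((G.card : ℝ) * q) := by
    push_cast
    nlinarith
  calc ((q * E : ℕ) : ℝ) ≤ 2 * ((G.card : ℝ) * q) := h3
    _ ≤ 2 * (2 ^ (2 * t + 4) * ∑ y0 ∈ Ico W (W + E), (cnt y0 : ℝ)) := by linarith
    _ = 2 ^ (2 * t + 5) * ∑ y0 ∈ Ico W (W + E), (cnt y0 : ℝ) := by ring
    _ ≤ _ := mul_le_mul_of_nonneg_left hsplit' (by positivity)

end Pyj
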