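import Pool.Agent.Helper79.Pyj.Defs
import Pool.Agent.Helper79.Pyj.Window
import Pool.Agent.Helper79.Pyj.Arc

/-! M10f: every test is passed by a good proportion of the population -/

namespace Pyj

open Complex Finset

private lemma pop_card (n : ℕ) : (pop n).card = 2 ^ (n + 1) := by
  unfold pop
  rw [Int.card_Ico]
  have : (2 : ℤ) ^ n - -2 ^ n = ((2 ^ (n + 1) : ℕ) : ℤ) := by push_cast; ring
  rw [this, Int.toNat_natCast]

private lemma re_rot_sub_le (n : ℕ) (γ : ℂ) (y y' : ℤ) :
    |(γ * rot (pa n y)).re - (γ * rot (pa n y')).re| ≤ ‖γ‖ * (2 * |(y : ℝ) - y'| / 2 ^ n) := by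
  rw [← Complex.sub_re, ← mul_sub]
  refine le_trans (Complex.abs_re_le_norm _) ?_
  rw [norm_mul]
  exact mul_le_mul_of_nonneg_left (rot_lipschitz n y y') (norm_nonneg _)

open Classical in
/-- disjoint windows `[W + i Q, W + (i + 1) Q)`, `i < k`. -/
private lemma windows_sum (W : ℤ) (Q k : ℕ) (P : ℤ → Prop) :
    ∑ i ∈ range k, ((Ico (W + (i * Q : ℕ)) (W + (i * Q : ℕ) + Q)).filter P).card =
      ((Ico W (W + (k * Q : ℕ))).filter P).card := by
  induction k with
  | zero => simp
  | succ k ih =>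
    rw [Finset.sum_range_succ, ih, ← Finset.card_union_of_disjoint, ← Finset.filter_union,
      Finset.Ico_union_Ico_eq_Ico]
    · congr 3
      push_cast
      ring
    · have : (0 : ℤ) ≤ ((k * Q : ℕ) : ℤ) := Int.natCast_nonneg _
      linarith
    · have : (0 : ℤ) ≤ (Q : ℤ) := Int.natCast_nonneg _
      linarith
    · apply Finset.disjoint_filter_filter
      exact Finset.Ico_disjoint_Ico_consecutive _ _ _

open Classical in
theorem hit_pop (t n Qb Γ : ℕ) (ht : 40 ≤ t) (hΓ : 1 ≤ Γ) (hn : Qb * Γ * 2 ^ (t + 10) ≤ 2 ^ n)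
    (Q : ℕ) (hQ1 : 1 ≤ Q) (hQb : Q ≤ Qb) (hQ : ∀ q, q.Prime → q ∣ Q → 2 ^ (9 * t) < q)
    (b : GaussianInt) (hb : Prim Q b) (γ : ℂ) (hγ : ‖γ‖ ≤ Γ) :
    (pop n).card ≤ 2 ^ (3 * t) *
      ((pop n).filter fun y => Test n ((1 / 2) ^ t) Q b γ y).card := by
  have hnR : (Qb : ℝ) * Γ * 2 ^ (t + 10) ≤ 2 ^ n := by exact_mod_cast hn
  have hQbR : (Q : ℝ) ≤ Qb := by exact_mod_cast hQb
  have hQ1R : (1 : ℝ) ≤ Q := by exact_mod_cast hQ1
  have hΓR : (1 : ℝ) ≤ Γ := by exact_mod_cast hΓ
  rcases eq_or_lt_of_le hQ1 with h1 | h1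
  · -- Q = 1
    subst h1
    have hγ' : ‖γ‖ * 2 ^ (t + 10) ≤ 2 ^ n := by
      refine le_trans ?_ hnR
      apply mul_le_mul_of_nonneg_right _ (by positivity)
      calc ‖γ‖ ≤ 1 * (Γ : ℝ) := by rw [one_mul]; exact hγ
        _ ≤ Qb * Γ := mul_le_mul_of_nonneg_right (by simpa using hQbR) (by positivity)
    have harc := arc t n ht γ hγ'
    have hsub : ((pop n).filter fun y => Hit ((1 / 2) ^ t) (γ * rot (pa n y)).re) ⊆
        ((pop n).filter fun y => Test n ((1 / 2) ^ t) 1 b γ y) := by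
      intro y hy
      rw [Finset.mem_filter] at hy ⊢
      refine ⟨hy.1, ?_⟩
      obtain ⟨k, hk⟩ := hy.2
      intro N' _
      refine ⟨(b * pa n y ^ 2).re * N' + k, ?_⟩
      push_cast
      have : (((b * pa n y ^ 2).re : ℝ) * (N' : ℝ)) / 1 + (γ * rot (pa n y)).re -
          (((b * pa n y ^ 2).re : ℝ) * (N' : ℝ) + k) = (γ * rot (pa n y)).re - k := by ring
      rw [this]
      exact hk
    have hcard := Finset.card_le_card hsub
    have h2 : (pop n).card ≤ 2 ^ (t + 10) *
        ((pop n).filter fun y => Hit ((1 / 2) ^ t) (γ * rot (pa n y)).re).card := by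
      exact_mod_cast harc
    calc (pop n).card ≤ 2 ^ (t + 10) *
        ((pop n).filter fun y => Hit ((1 / 2) ^ t) (γ * rot (pa n y)).re).card := h2
      _ ≤ 2 ^ (3 * t) * ((pop n).filter fun y => Test n ((1 / 2) ^ t) 1 b γ y).card :=
        Nat.mul_le_mul (Nat.pow_le_pow_right (by norm_num) (by omega)) hcard
  · -- Q > 1
    set k := 2 ^ (n + 1) / Q with hk
    have hkQ : k * Q ≤ 2 ^ (n + 1) := Nat.div_mul_le_self _ _
    have hkQ' : 2 ^ (n + 1) < (k + 1) * Q := by
      have := Nat.lt_div_mul_add (a := 2 ^ (n + 1)) (show 0 < Q by omega)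
      rw [← hk] at this
      rw [add_mul, one_mul]; exact this
    have hQn : Q ≤ 2 ^ n := by
      refine le_trans hQb (le_trans ?_ hn)
      calc Qb = Qb * 1 * 1 := by ring
        _ ≤ Qb * Γ * 2 ^ (t + 10) :=
          Nat.mul_le_mul (Nat.mul_le_mul_left _ hΓ) Nat.one_le_two_pow
    have hkey : 2 ^ n ≤ k * Q := by
      rw [add_mul, one_mul, pow_succ] at hkQ'
      omega
    have hwin : ∀ i ∈ range k, (Q : ℝ) ≤ 2 ^ (2 * t + 5) *
        (((Ico ((-2 ^ n : ℤ) + (i * Q : ℕ)) ((-2 ^ n : ℤ) + (i * Q : ℕ) + Q)).filter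
          fun y => Test n ((1 / 2) ^ t) Q b γ y).card : ℝ) := by
      intro i _
      set W : ℤ := (-2 ^ n : ℤ) + (i * Q : ℕ) with hW
      refine le_trans (window t n Q ht h1 hQ b hb (γ * rot (pa n W)).re W) ?_
      apply mul_le_mul_of_nonneg_left _ (by positivity)
      have : ((Ico W (W + Q)).filter fun y =>
          ATest n ((1 / 2) ^ (t + 1)) Q b (γ * rot (pa n W)).re y) ⊆
          ((Ico W (W + Q)).filter fun y => Test n ((1 / 2) ^ t) Q b γ y) := by
        intro y hy
        rw [Finset.mem_filter] at hy ⊢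
        refine ⟨hy.1, ?_⟩
        intro N' hN'
        obtain ⟨m, hm⟩ := hy.2 N' hN'
        refine ⟨m, ?_⟩
        have hy1 := (Finset.mem_Ico.1 hy.1)
        have hd : |(y : ℝ) - W| ≤ Q := by
          have h3 : (W : ℝ) ≤ y := by exact_mod_cast hy1.1
          have h4 : (y : ℝ) ≤ W + Q := by exact_mod_cast hy1.2.le
          rw [abs_le]
          constructor <;> linarith
        have h5 := re_rot_sub_le n γ y W
        have h6 : ‖γ‖ * (2 * |(y : ℝ) - W| / 2 ^ n) ≤ (1 / 2) ^ (t + 1) := by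
          have h2n : (0 : ℝ) < 2 ^ n := by positivity
          calc ‖γ‖ * (2 * |(y : ℝ) - W| / 2 ^ n) ≤ Γ * (2 * Q / 2 ^ n) := by
                apply mul_le_mul hγ _ (by positivity) (by positivity)
                apply div_le_div_of_nonneg_right _ h2n.le
                linarith
            _ = 2 * (Q * Γ) / 2 ^ n := by ring
            _ ≤ (1 / 2) ^ (t + 1) := by
                rw [div_le_iff₀ h2n]
                have h7 : (Q : ℝ) * Γ * 2 ^ (t + 10) ≤ 2 ^ n := by
                  refine le_trans ?_ hnR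
                  apply mul_le_mul_of_nonneg_right _ (by positivity)
                  exact mul_le_mul_of_nonneg_right hQbR (by positivity)
                have h8 : (1 / 2 : ℝ) ^ (t + 1) * ((Q : ℝ) * Γ * 2 ^ (t + 10)) ≤
                    (1 / 2) ^ (t + 1) * 2 ^ n := mul_le_mul_of_nonneg_left h7 (by positivity)
                have h9 : (1 / 2 : ℝ) ^ (t + 1) * ((Q : ℝ) * Γ * 2 ^ (t + 10)) =
                    512 * ((Q : ℝ) * Γ) := by
                  have : (1 / 2 : ℝ) ^ (t + 1) * 2 ^ (t + 1) = 1 := by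
                    rw [← mul_pow]; norm_num
                  calc (1 / 2 : ℝ) ^ (t + 1) * ((Q : ℝ) * Γ * 2 ^ (t + 10)) =
                      ((1 / 2 : ℝ) ^ (t + 1) * 2 ^ (t + 1)) * (512 * ((Q : ℝ) * Γ)) := by
                        rw [show t + 10 = (t + 1) + 9 by ring, pow_add (2 : ℝ) (t + 1) 9]
                        ring
                    _ = 512 * ((Q : ℝ) * Γ) := by rw [this, one_mul]
                rw [h9] at h8
                have h10 : (0 : ℝ) ≤ (Q : ℝ) * Γ := by positivity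
                linarith
        have h11 : ((1 / 2 : ℝ)) ^ t = (1 / 2) ^ (t + 1) + (1 / 2) ^ (t + 1) := by
          rw [pow_succ]; ring
        rw [h11]
        have h12 : (((b * pa n y ^ 2).re * N' : ℤ) : ℝ) / Q + (γ * rot (pa n y)).re - m =
            ((((b * pa n y ^ 2).re * N' : ℤ) : ℝ) / Q + (γ * rot (pa n W)).re - m) +
            ((γ * rot (pa n y)).re - (γ * rot (pa n W)).re) := by ring
        rw [h12]
        exact le_trans (abs_add_le _ _) (add_le_add hm (le_trans h5 h6))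
      exact_mod_cast Finset.card_le_card this
    have hsum : (k : ℝ) * Q ≤ 2 ^ (2 * t + 5) *
        (((Ico (-2 ^ n : ℤ) ((-2 ^ n : ℤ) + (k * Q : ℕ))).filter
          fun y => Test n ((1 / 2) ^ t) Q b γ y).card : ℝ) := by
      rw [← windows_sum]
      push_cast
      rw [Finset.mul_sum]
      calc (k : ℝ) * Q = ∑ i ∈ range k, (Q : ℝ) := by
            rw [Finset.sum_const, Finset.card_range, nsmul_eq_mul]
        _ ≤ _ := by
            refine Finset.sum_le_sum fun i hi => ?_
            have := hwin i hi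
            push_cast at this
            exact this
    have hsub : ((Ico (-2 ^ n : ℤ) ((-2 ^ n : ℤ) + (k * Q : ℕ))).filter
          fun y => Test n ((1 / 2) ^ t) Q b γ y) ⊆
        ((pop n).filter fun y => Test n ((1 / 2) ^ t) Q b γ y) := by
      apply Finset.filter_subset_filter
      unfold pop
      apply Finset.Ico_subset_Ico le_rfl
      have : ((k * Q : ℕ) : ℤ) ≤ 2 ^ (n + 1) := by exact_mod_cast hkQ
      rw [pow_succ] at this
      linarith
    have hsumN : k * Q ≤ 2 ^ (2 * t + 5) *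
        ((Ico (-2 ^ n : ℤ) ((-2 ^ n : ℤ) + (k * Q : ℕ))).filter
          fun y => Test n ((1 / 2) ^ t) Q b γ y).card := by exact_mod_cast hsum
    calc (pop n).card = 2 * 2 ^ n := by rw [pop_card, pow_succ]; ring
      _ ≤ 2 * (k * Q) := Nat.mul_le_mul_left _ hkey
      _ ≤ 2 * (2 ^ (2 * t + 5) * ((pop n).filter fun y => Test n ((1 / 2) ^ t) Q b γ y).card) :=
          Nat.mul_le_mul_left _ (le_trans hsumN (Nat.mul_le_mul_left _ (Finset.card_le_card hsub)))
      _ = 2 ^ (2 * t + 6) * ((pop n).filter fun y => Test n ((1 / 2) ^ t) Q b γ y).card := by ring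
      _ ≤ 2 ^ (3 * t) * ((pop n).filter fun y => Test n ((1 / 2) ^ t) Q b γ y).card :=
          Nat.mul_le_mul_right _ (Nat.pow_le_pow_right (by norm_num) (by omega))

end Pyj
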