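import Pool.Agent.Helper79.Pyj.Defs
import Pool.Agent.Helper79.Pyj.Greedy
import Pool.Agent.Helper79.Pyj.HitPop

/-! Selection of the final words (finite set `W` of the population hitting every reduced point). -/

namespace Pyj

open Complex Finset

theorem fw_add_int {ε x : ℝ} (h : Hit ε x) (k : ℤ) : Hit ε (x + k) := by
  obtain ⟨m, hm⟩ := h
  refine ⟨m + k, ?_⟩
  push_cast
  rwa [add_sub_add_right_eq_sub]

theorem Hit.of_close {ε δ x y : ℝ} (h : Hit ε x) (hxy : |y - x| ≤ δ) : Hit (ε + δ) y := by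
  obtain ⟨m, hm⟩ := h
  refine ⟨m, ?_⟩
  have : y - m = (y - x) + (x - m) := by ring
  rw [this]
  calc |(y - x) + (x - m)| ≤ |y - x| + |x - m| := abs_add_le _ _
    _ ≤ ε + δ := by linarith

theorem star_ne_zero {a : GaussianInt} (ha : a ≠ 0) : ((star a : GaussianInt) : ℂ) ≠ 0 := by
  intro h
  rw [GaussianInt.toComplex_eq_zero] at h
  exact ha (star_eq_zero.mp h)

theorem norm_toComplex_star (a : GaussianInt) :
    ‖((star a : GaussianInt) : ℂ)‖ = ‖(a : ℂ)‖ := by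
  rw [GaussianInt.toComplex_star]
  exact Complex.norm_conj _

theorem fw_norm_rot {a : GaussianInt} (ha : a ≠ 0) : ‖rot a‖ = 1 := by
  unfold rot
  rw [norm_div, norm_toComplex_star]
  apply div_self
  rw [norm_ne_zero_iff]
  intro h
  rw [GaussianInt.toComplex_eq_zero] at h
  exact ha h

theorem fw_pa_ne_zero (n : ℕ) (y : ℤ) : pa n y ≠ 0 := by
  intro h
  have := congrArg Zsqrtd.im h
  simp [pa] at this

theorem norm_le_of_parts {z : ℂ} {δ : ℝ} (h1 : |z.re| ≤ δ) (h2 : |z.im| ≤ δ) : ‖z‖ ≤ 2 * δ := by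
  calc ‖z‖ ≤ |z.re| + |z.im| := Complex.norm_le_abs_re_add_abs_im z
    _ ≤ 2 * δ := by linarith

open Classical in
theorem final_words (t n Qb Γ l : ℕ) (ht : 40 ≤ t) (hΓ : 1 ≤ Γ)
    (hn : Qb * (2 * Γ) * 2 ^ (t + 1 + 10) ≤ 2 ^ n)
    (hl : Qb * (Qb * Qb) * ((2 * (2 * Γ * 2 ^ (t + 2)) + 1) * (2 * (2 * Γ * 2 ^ (t + 2)) + 1))
      < 2 ^ l) :
    ∃ W ⊆ pop n, W.card ≤ 2 ^ (3 * (t + 1)) * l ∧
      ∀ (M : ℕ) (z0 : ℂ) (Q : ℕ) (g : GaussianInt), 0 < M → 1 ≤ Q → Q ≤ Qb → Rep M Γ z0 Q g →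
        Prim Q g → (∀ q : ℕ, q.Prime → q ∣ Q → 2 ^ (9 * (t + 1)) < q) →
        (∀ y ∈ W, IsCoprime (Q : ℤ) (pa n y).norm ∧
          ∃ G : GaussianInt, star (pa n y) * G = pa n y * g) →
        ∃ y ∈ W, Hit ((1 / 2) ^ t) (z0 * rot (pa n y)).re := by
  set R : ℕ := 2 * Γ * 2 ^ (t + 2) with hR
  let gam : ℤ × ℤ → ℂ := fun k =>
    (((k.1 : ℝ) / 2 ^ (t + 2) : ℝ) : ℂ) + (((k.2 : ℝ) / 2 ^ (t + 2) : ℝ) : ℂ) * I
  have gam_re : ∀ k, (gam k).re = (k.1 : ℝ) / 2 ^ (t + 2) := by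
    intro k
    simp only [gam, add_re, mul_re, ofReal_re, ofReal_im, I_re, I_im]
    ring
  have gam_im : ∀ k, (gam k).im = (k.2 : ℝ) / 2 ^ (t + 2) := by
    intro k
    simp only [gam, add_im, mul_im, ofReal_re, ofReal_im, I_re, I_im]
    ring
  let valid : ℕ × (ℤ × ℤ) × (ℤ × ℤ) → Prop := fun τ =>
    1 ≤ τ.1 ∧ τ.1 ≤ Qb ∧ (∀ q : ℕ, q.Prime → q ∣ τ.1 → 2 ^ (9 * (t + 1)) < q) ∧
      Prim τ.1 ⟨τ.2.1.1, τ.2.1.2⟩ ∧ ‖gam τ.2.2‖ ≤ ((2 * Γ : ℕ) : ℝ)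
  let T0 : Finset (ℕ × (ℤ × ℤ) × (ℤ × ℤ)) :=
    (Icc 1 Qb) ×ˢ ((Ico (0 : ℤ) Qb) ×ˢ (Ico (0 : ℤ) Qb)) ×ˢ
      ((Icc (-(R : ℤ)) R) ×ˢ (Icc (-(R : ℤ)) R))
  let T := T0.filter valid
  have hTcard : T.card < 2 ^ l := by
    calc T.card ≤ T0.card := card_filter_le _ _
      _ = Qb * (Qb * Qb) * ((2 * R + 1) * (2 * R + 1)) := by
        simp only [T0, card_product, Nat.card_Icc, Int.card_Ico, Int.card_Icc]
        have e1 : Qb + 1 - 1 = Qb := by omega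
        have e2 : ((Qb : ℤ) - 0).toNat = Qb := by simp
        have e3 : ((R : ℤ) + 1 - (-(R : ℤ))).toNat = 2 * R + 1 := by omega
        rw [e1, e2, e3, mul_assoc, mul_assoc, mul_assoc]
      _ < 2 ^ l := hl
  have hpop : (pop n).Nonempty := by
    refine ⟨0, ?_⟩
    simp only [pop, mem_Ico]
    have : (0 : ℤ) < 2 ^ n := by positivity
    constructor <;> linarith
  obtain ⟨W, hW, hWc, hWT⟩ := greedy_cover (pop n) T
    (fun τ y => Test n ((1 / 2) ^ (t + 1)) τ.1 ⟨τ.2.1.1, τ.2.1.2⟩ (gam τ.2.2) y)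
    (2 ^ (3 * (t + 1))) l hpop hTcard (by
      intro τ hτ
      obtain ⟨h1, h2, h3, h4, h5⟩ := (mem_filter.mp hτ).2
      exact hit_pop (t + 1) n Qb (2 * Γ) (by omega) (by omega) hn τ.1 h1 h2 h3 _ h4 _ h5)
  refine ⟨W, hW, hWc, ?_⟩
  intro M z0 Q g hM hQ1 hQb hrep hprim hq hWG
  -- reduced fraction
  have hdpos : 0 < Nat.gcd Q M := Nat.gcd_pos_of_pos_left _ (by omega)
  obtain ⟨Q', hQ'⟩ := Nat.gcd_dvd_left Q M
  obtain ⟨M', hM'⟩ := Nat.gcd_dvd_right Q M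
  set d := Nat.gcd Q M with hd
  have hQ'1 : 1 ≤ Q' := by
    rcases Nat.eq_zero_or_pos Q' with h | h
    · rw [h] at hQ'; omega
    · exact h
  have hcop : Nat.Coprime Q' M' := by
    have h1 : Q / d = Q' := by rw [hQ']; exact Nat.mul_div_cancel_left _ hdpos
    have h2 : M / d = M' := by rw [hM']; exact Nat.mul_div_cancel_left _ hdpos
    rw [← h1, ← h2, hd]
    exact Nat.coprime_div_gcd_div_gcd hdpos
  have hQ'Q : Q' ∣ Q := ⟨d, by rw [mul_comm]; exact hQ'⟩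
  have hQ'b : Q' ≤ Qb := le_trans (Nat.le_of_dvd (by omega) hQ'Q) hQb
  have hQpos : (0 : ℝ) < Q := by exact_mod_cast hQ1
  have hQ0 : (Q : ℂ) ≠ 0 := by exact_mod_cast (by omega : Q ≠ 0)
  have hQ'0 : (Q' : ℂ) ≠ 0 := by exact_mod_cast (by omega : Q' ≠ 0)
  have hd0 : (d : ℂ) ≠ 0 := by exact_mod_cast (by omega : d ≠ 0)
  set γ : ℂ := z0 - M * g / Q with hγ
  have hγn : ‖γ‖ ≤ Γ := by
    have h1 : γ = (Q * z0 - M * g) / Q := by
      rw [hγ]; field_simp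
    rw [h1, norm_div]
    have h2 : ‖(Q : ℂ)‖ = Q := by simp
    rw [h2, div_le_iff₀ hQpos]
    calc ‖(Q : ℂ) * z0 - M * g‖ ≤ Γ := hrep
      _ ≤ Γ * Q := by
        have : (1 : ℝ) ≤ Q := by exact_mod_cast hQ1
        have h3 : (0 : ℝ) ≤ Γ := by positivity
        nlinarith
  -- rounding
  have h2t : (0 : ℝ) < 2 ^ (t + 2) := by positivity
  let k : ℤ × ℤ := (⌊γ.re * 2 ^ (t + 2)⌋, ⌊γ.im * 2 ^ (t + 2)⌋)
  have hround : ∀ x : ℝ, |x - (⌊x * 2 ^ (t + 2)⌋ : ℝ) / 2 ^ (t + 2)| ≤ (1 / 2) ^ (t + 2) := by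
    intro x
    have h1 : x - (⌊x * 2 ^ (t + 2)⌋ : ℝ) / 2 ^ (t + 2)
        = (x * 2 ^ (t + 2) - ⌊x * 2 ^ (t + 2)⌋) / 2 ^ (t + 2) := by
      field_simp
    rw [h1, abs_div, abs_of_pos h2t, div_le_iff₀ h2t, ← mul_pow]
    norm_num
    rw [abs_of_nonneg (Int.fract_nonneg _)]
    exact (Int.fract_lt_one _).le
  have hγgam : ‖γ - gam k‖ ≤ (1 / 2) ^ (t + 1) := by
    have := norm_le_of_parts (z := γ - gam k) (δ := (1 / 2) ^ (t + 2)) (by
      rw [sub_re, gam_re]; exact hround _) (by rw [sub_im, gam_im]; exact hround _)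
    calc ‖γ - gam k‖ ≤ 2 * (1 / 2) ^ (t + 2) := this
      _ = (1 / 2) ^ (t + 1) := by rw [pow_succ]; ring
  have hgamn : ‖gam k‖ ≤ ((2 * Γ : ℕ) : ℝ) := by
    have h1 : ‖gam k‖ ≤ ‖γ‖ + ‖γ - gam k‖ := by
      have : gam k = γ - (γ - gam k) := by ring
      rw [this]
      simpa using norm_sub_le γ (γ - gam k)
    have h2 : ((1 : ℝ) / 2) ^ (t + 1) ≤ 1 := pow_le_one₀ (by norm_num) (by norm_num)
    have h3 : (1 : ℝ) ≤ Γ := by exact_mod_cast hΓ
    push_cast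
    linarith
  have hkR : ∀ x : ℝ, |x / 2 ^ (t + 2)| ≤ ((2 * Γ : ℕ) : ℝ) → |x| ≤ R := by
    intro x hx
    rw [abs_div, abs_of_pos h2t, div_le_iff₀ h2t] at hx
    rw [hR]; push_cast at hx ⊢; exact hx
  have hk1 : |(k.1 : ℝ)| ≤ R := by
    apply hkR
    rw [← gam_re]
    exact le_trans (Complex.abs_re_le_norm _) hgamn
  have hk2 : |(k.2 : ℝ)| ≤ R := by
    apply hkR
    rw [← gam_im]
    exact le_trans (Complex.abs_im_le_norm _) hgamn
  have hk1' : k.1 ∈ Icc (-(R : ℤ)) R := by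
    rw [mem_Icc]
    rw [abs_le] at hk1
    exact ⟨by exact_mod_cast hk1.1, by exact_mod_cast hk1.2⟩
  have hk2' : k.2 ∈ Icc (-(R : ℤ)) R := by
    rw [mem_Icc]
    rw [abs_le] at hk2
    exact ⟨by exact_mod_cast hk2.1, by exact_mod_cast hk2.2⟩
  -- the residues
  set b1 : ℤ := (M' * g.re) % Q' with hb1
  set b2 : ℤ := (M' * g.im) % Q' with hb2
  have hQ'pos : (0 : ℤ) < Q' := by exact_mod_cast hQ'1
  have hc1 : (Q' : ℤ) ∣ (M' * g.re) - b1 := Int.dvd_self_sub_emod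
  have hc2 : (Q' : ℤ) ∣ (M' * g.im) - b2 := Int.dvd_self_sub_emod
  have hprimb : Prim Q' ⟨b1, b2⟩ := by
    intro q hqp hqQ' hqb
    have hqQ'z : (q : ℤ) ∣ Q' := by exact_mod_cast hqQ'
    have hqM : ¬ (q : ℤ) ∣ M' := by
      intro h
      have h' : q ∣ M' := by exact_mod_cast h
      have := Nat.dvd_gcd hqQ' h'
      rw [hcop.gcd_eq_one] at this
      exact hqp.one_lt.ne' (Nat.dvd_one.mp this)
    have hqint : Prime (q : ℤ) := Nat.prime_iff_prime_int.mp hqp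
    refine hprim q hqp (hqQ'.trans hQ'Q) ⟨?_, ?_⟩
    · have h1 : (q : ℤ) ∣ M' * g.re := by
        have := dvd_add (hqQ'z.trans hc1) hqb.1
        simpa using this
      exact (hqint.dvd_or_dvd h1).resolve_left hqM
    · have h1 : (q : ℤ) ∣ M' * g.im := by
        have := dvd_add (hqQ'z.trans hc2) hqb.2
        simpa using this
      exact (hqint.dvd_or_dvd h1).resolve_left hqM
  have hmem : ((Q', (b1, b2), k) : ℕ × (ℤ × ℤ) × (ℤ × ℤ)) ∈ T := by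
    refine mem_filter.mpr ⟨?_, hQ'1, hQ'b, fun q hqp hqQ' => hq q hqp (hqQ'.trans hQ'Q),
      hprimb, hgamn⟩
    have hb1' : b1 ∈ Ico (0 : ℤ) Qb := by
      rw [mem_Ico]
      refine ⟨Int.emod_nonneg _ hQ'pos.ne', lt_of_lt_of_le (Int.emod_lt_of_pos _ hQ'pos) ?_⟩
      exact_mod_cast hQ'b
    have hb2' : b2 ∈ Ico (0 : ℤ) Qb := by
      rw [mem_Ico]
      refine ⟨Int.emod_nonneg _ hQ'pos.ne', lt_of_lt_of_le (Int.emod_lt_of_pos _ hQ'pos) ?_⟩
      exact_mod_cast hQ'b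
    simp only [T0, mem_product]
    exact ⟨mem_Icc.mpr ⟨hQ'1, hQ'b⟩, ⟨hb1', hb2'⟩, hk1', hk2'⟩
  obtain ⟨y, hyW, hy⟩ := hWT _ hmem
  refine ⟨y, hyW, ?_⟩
  obtain ⟨hcopN, G, hG⟩ := hWG y hyW
  set a := pa n y with ha
  have ha0 : a ≠ 0 := fw_pa_ne_zero n y
  -- inverse of the norm
  obtain ⟨u, v, huv⟩ := hcopN
  have hQ'Qz : (Q' : ℤ) ∣ Q := by exact_mod_cast hQ'Q
  have hinv : (Q' : ℤ) ∣ v * a.norm - 1 := by
    have : v * a.norm - 1 = (Q : ℤ) * (-u) := by linear_combination huv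
    rw [this]
    exact hQ'Qz.mul_right _
  have hhit := hy v hinv
  simp only at hhit
  -- compare
  have hNG : (a.norm : GaussianInt) * (M' * G) = a ^ 2 * (M' * g) := by
    have h1 : (a.norm : GaussianInt) = a * star a := Zsqrtd.norm_eq_mul_conj a
    rw [h1]
    calc a * star a * (M' * G) = a * M' * (star a * G) := by ring
      _ = a * M' * (a * g) := by rw [hG]
      _ = a ^ 2 * (M' * g) := by ring
  have hNGre : a.norm * ((M' : GaussianInt) * G).re = (((M' : GaussianInt) * g) * a ^ 2).re := by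
    have := congrArg Zsqrtd.re hNG
    rw [mul_comm (a ^ 2)] at this
    rw [← this]
    simp
  have hcong : (Q' : ℤ) ∣ ((((M' : GaussianInt) * g) * a ^ 2).re
      - ((⟨b1, b2⟩ : GaussianInt) * a ^ 2).re) := by
    have h1 : (((M' : GaussianInt) * g) * a ^ 2).re - ((⟨b1, b2⟩ : GaussianInt) * a ^ 2).re
        = (M' * g.re - b1) * (a ^ 2).re - (M' * g.im - b2) * (a ^ 2).im := by
      simp only [Zsqrtd.re_mul, Zsqrtd.im_mul, Zsqrtd.re_natCast, Zsqrtd.im_natCast]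
      ring
    rw [h1]
    exact dvd_sub (hc1.mul_right _) (hc2.mul_right _)
  have hdiff : (Q' : ℤ) ∣ ((M' : GaussianInt) * G).re - ((⟨b1, b2⟩ : GaussianInt) * a ^ 2).re * v := by
    have h1 : ((M' : GaussianInt) * G).re - ((⟨b1, b2⟩ : GaussianInt) * a ^ 2).re * v
        = -((M' : GaussianInt) * G).re * (v * a.norm - 1)
          + v * ((((M' : GaussianInt) * g) * a ^ 2).re
            - ((⟨b1, b2⟩ : GaussianInt) * a ^ 2).re) := by
      rw [← hNGre]; ring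
    rw [h1]
    exact dvd_add (hinv.mul_left _) (hcong.mul_left _)
  obtain ⟨m, hm⟩ := hdiff
  have hz : (z0 * rot a).re = (((((⟨b1, b2⟩ : GaussianInt) * a ^ 2).re * v : ℤ) : ℝ) / Q'
      + (γ * rot a).re) + m := by
    have h1 : z0 * rot a = (M' * G : ℂ) / Q' + γ * rot a := by
      have h2 : z0 = M * g / Q + γ := by rw [hγ]; ring
      have h3 : (M : ℂ) * g / Q * rot a = (M' * G : ℂ) / Q' := by
        have h4 : ((star a : GaussianInt) : ℂ) * (G : ℂ) = (a : ℂ) * (g : ℂ) := by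
          have := congrArg GaussianInt.toComplex hG
          simpa only [map_mul] using this
        have h5 := star_ne_zero ha0
        have h6 : (M : ℂ) = d * M' := by rw [hM']; push_cast; rfl
        have h7 : (Q : ℂ) = d * Q' := by rw [hQ']; push_cast; rfl
        unfold rot
        rw [h6, h7]
        field_simp
        linear_combination (M' : ℂ) * (-h4)
      rw [h2, add_mul, h3]
    have h8 : ((M' * G : ℂ) / Q').re = ((((M' : GaussianInt) * G).re : ℤ) : ℝ) / Q' := by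
      have h9 : (M' * G : ℂ) = (((M' : GaussianInt) * G : GaussianInt) : ℂ) := by
        rw [map_mul]; simp
      rw [h9]
      have h10 : (Q' : ℂ) = ((Q' : ℝ) : ℂ) := by simp
      rw [h10, Complex.div_ofReal_re, ← GaussianInt.intCast_re]
    rw [h1, add_re, h8]
    have h11 : ((((M' : GaussianInt) * G).re : ℤ) : ℝ)
        = ((((⟨b1, b2⟩ : GaussianInt) * a ^ 2).re * v : ℤ) : ℝ) + Q' * m := by
      have : ((M' : GaussianInt) * G).re
          = ((⟨b1, b2⟩ : GaussianInt) * a ^ 2).re * v + Q' * m := by linear_combination hm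
      rw [this]; push_cast; ring
    rw [h11]
    have h12 : (Q' : ℝ) ≠ 0 := by exact_mod_cast (by omega : Q' ≠ 0)
    field_simp
    ring
  rw [hz]
  apply fw_add_int
  have hfin := hhit.of_close (δ := (1 / 2) ^ (t + 1))
    (y := ((((⟨b1, b2⟩ : GaussianInt) * a ^ 2).re * v : ℤ) : ℝ) / Q' + (γ * rot a).re) (by
      rw [add_sub_add_left_eq_sub, ← sub_re, ← sub_mul]
      calc |((γ - gam k) * rot a).re| ≤ ‖(γ - gam k) * rot a‖ := Complex.abs_re_le_norm _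
        _ = ‖γ - gam k‖ := by rw [norm_mul, fw_norm_rot ha0, mul_one]
        _ ≤ _ := hγgam)
  have he : ((1 : ℝ) / 2) ^ (t + 1) + (1 / 2) ^ (t + 1) = (1 / 2) ^ t := by rw [pow_succ]; ring
  rwa [he] at hfin

end Pyj
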