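import Pool.Agent.Helper79.Pyj.Defs

/-! M7: supply of primes `≡ 1 mod 4` -/

namespace Pyj

open Complex Finset

namespace Supply

/-- upper Mertens bound -/
theorem mertens_upper (n : ℕ) (hn : 1 ≤ n) :
    ∑ p ∈ n.primesLE, Real.log p / p ≤ Real.log n + Real.log 4 := by
  have h1 : ∑ p ∈ n.primesLE, ((n / p : ℕ) : ℝ) * Real.log p ≤ Real.log (n.factorial : ℕ) := by
    rw [Real.log_nat_eq_sum_factorization, Finsupp.sum]
    have hsub : n.primesLE ⊆ (n.factorial).factorization.support := by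
      intro p hp
      rw [Nat.mem_primesLE] at hp
      rw [Nat.support_factorization, Nat.mem_primeFactors]
      exact ⟨hp.2, hp.2.dvd_factorial.2 hp.1, Nat.factorial_ne_zero n⟩
    refine le_trans ?_ (Finset.sum_le_sum_of_subset_of_nonneg hsub
      (fun p _ _ => mul_nonneg (Nat.cast_nonneg _) (Real.log_natCast_nonneg p)))
    refine Finset.sum_le_sum fun p hp => ?_
    rw [Nat.mem_primesLE] at hp
    refine mul_le_mul_of_nonneg_right ?_ (Real.log_natCast_nonneg p)
    have hfac := Nat.factorization_factorial hp.2 (n := n) (b := Nat.log p n + 1) (by omega)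
    rw [hfac]
    have hlog : 1 ≤ Nat.log p n := Nat.log_pos hp.2.one_lt hp.1
    have : n / p ^ 1 ≤ ∑ i ∈ Ico 1 (Nat.log p n + 1), n / p ^ i :=
      Finset.single_le_sum (f := fun i => n / p ^ i) (fun i _ => Nat.zero_le _)
        (Finset.mem_Ico.2 ⟨le_rfl, by omega⟩)
    rw [pow_one] at this
    exact_mod_cast this
  have h2 : Real.log (n.factorial : ℕ) ≤ n * Real.log n := by
    have : ((n.factorial : ℕ) : ℝ) ≤ (n : ℝ) ^ n := by exact_mod_cast Nat.factorial_le_pow n
    rw [← Real.log_pow]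
    exact Real.log_le_log (by exact_mod_cast Nat.factorial_pos n) this
  have h3 : ∑ p ∈ n.primesLE, Real.log p ≤ Real.log 4 * n := by
    rw [← Chebyshev.theta_eq_sum_primesLE_log]
    exact Chebyshev.theta_le_log4_mul_x (by positivity)
  have h4 : (n : ℝ) * ∑ p ∈ n.primesLE, Real.log p / p ≤
      ∑ p ∈ n.primesLE, ((n / p : ℕ) : ℝ) * Real.log p + ∑ p ∈ n.primesLE, Real.log p := by
    rw [Finset.mul_sum, ← Finset.sum_add_distrib]
    refine Finset.sum_le_sum fun p hp => ?_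
    rw [Nat.mem_primesLE] at hp
    have hp0 : (0 : ℝ) < p := by exact_mod_cast hp.2.pos
    have hlog := Real.log_natCast_nonneg p
    have hdiv : (n : ℝ) / p ≤ ((n / p : ℕ) : ℝ) + 1 := by
      rw [div_le_iff₀ hp0]
      have h5 := Nat.div_add_mod n p
      have h6 := Nat.mod_lt n hp.2.pos
      have h7 : n ≤ (n / p + 1) * p := by nlinarith
      exact_mod_cast h7
    calc (n : ℝ) * (Real.log p / p) = (n : ℝ) / p * Real.log p := by ring
      _ ≤ (((n / p : ℕ) : ℝ) + 1) * Real.log p := mul_le_mul_of_nonneg_right hdiv hlog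
      _ = _ := by ring
  have hn0 : (0 : ℝ) < n := by exact_mod_cast hn
  have h5 : (n : ℝ) * ∑ p ∈ n.primesLE, Real.log p / p ≤ n * (Real.log n + Real.log 4) := by
    nlinarith
  exact le_of_mul_le_mul_left h5 hn0

/-- at most `N / r + 1` elements of a residue class in `[1, N]` -/
theorem card_class (N r : ℕ) (hr : 0 < r) (v : ℤ) :
    (((Ioc (0 : ℤ) N).filter fun x => x ≡ v [ZMOD r]).card : ℝ) ≤ (N : ℝ) / r + 1 := by
  have h := Int.Ioc_filter_modEq_card (0 : ℤ) N (r := r) (by exact_mod_cast hr) v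
  have h' : ((((Ioc (0 : ℤ) N).filter fun x => x ≡ v [ZMOD r]).card : ℤ) : ℚ) ≤ (N : ℚ) / r + 1 := by
    rw [h]
    push_cast
    refine max_le ?_ (by positivity)
    have h1 := Int.floor_le (((N : ℚ) - v) / r)
    have h2 := Int.lt_floor_add_one (((0 : ℚ) - v) / r)
    have h3 : ((N : ℚ) - v) / r - ((0 : ℚ) - v) / r = N / r := by ring
    push_cast at h1 h2 h3 ⊢
    linarith
  have h'' : (((((Ioc (0 : ℤ) N).filter fun x => x ≡ v [ZMOD r]).card : ℤ) : ℚ) : ℝ) ≤
      (((N : ℚ) / r + 1 : ℚ) : ℝ) := by exact_mod_cast h'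
  push_cast at h''
  exact h''

/-- few solutions of `4n²+1 ≡ 0` modulo an odd prime power -/
theorem card_sol (N p j : ℕ) (hp : p.Prime) (hp2 : p ≠ 2) :
    ((((Icc 1 N).filter fun n => p ^ j ∣ 4 * n ^ 2 + 1).card : ℕ) : ℝ) ≤
      2 * ((N : ℝ) / (p ^ j : ℕ) + 1) := by
  classical
  rcases ((Icc 1 N).filter fun n => p ^ j ∣ 4 * n ^ 2 + 1).eq_empty_or_nonempty with h0 | ⟨n0, h0⟩
  · rw [h0]; simp; positivity
  · rw [Finset.mem_filter] at h0
    have hpj : 0 < p ^ j := pow_pos hp.pos j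
    have hkey : ∀ n ∈ ((Icc 1 N).filter fun n => p ^ j ∣ 4 * n ^ 2 + 1),
        ((n : ℤ) ≡ (n0 : ℤ) [ZMOD (p ^ j : ℕ)]) ∨ ((n : ℤ) ≡ -(n0 : ℤ) [ZMOD (p ^ j : ℕ)]) := by
      intro n hn
      rw [Finset.mem_filter] at hn
      rcases Nat.eq_zero_or_pos j with hj | hj
      · subst hj
        left
        simp [Int.modEq_one]
      have hpZ : Prime (p : ℤ) := Nat.prime_iff_prime_int.1 hp
      have d1 : ((p ^ j : ℕ) : ℤ) ∣ 4 * (n : ℤ) ^ 2 + 1 := by exact_mod_cast hn.2
      have d2 : ((p ^ j : ℕ) : ℤ) ∣ 4 * (n0 : ℤ) ^ 2 + 1 := by exact_mod_cast h0.2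
      have d3 : ((p ^ j : ℕ) : ℤ) ∣ 4 * (((n : ℤ) - n0) * (n + n0)) := by
        have := dvd_sub d1 d2
        have e : 4 * (n : ℤ) ^ 2 + 1 - (4 * (n0 : ℤ) ^ 2 + 1) = 4 * (((n : ℤ) - n0) * (n + n0)) := by
          ring
        rwa [e] at this
      have hcop4 : IsCoprime ((p ^ j : ℕ) : ℤ) 4 := by
        have : Nat.Coprime (p ^ j) 4 := by
          apply Nat.Coprime.pow_left
          rw [hp.coprime_iff_not_dvd]
          intro h4
          have h5 : p ∣ 2 := hp.dvd_of_dvd_pow (show p ∣ 2 ^ 2 by norm_num; exact h4)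
          exact hp2 ((Nat.prime_dvd_prime_iff_eq hp Nat.prime_two).1 h5)
        exact_mod_cast Nat.isCoprime_iff_coprime.2 this
      have d4 := hcop4.dvd_of_dvd_mul_left d3
      by_cases hc : (p : ℤ) ∣ (n : ℤ) - n0
      · left
        have hnc : ¬ (p : ℤ) ∣ (n : ℤ) + n0 := by
          intro hc2
          have h2n : (p : ℤ) ∣ 2 * n := by
            have := dvd_add hc hc2
            have e : (n : ℤ) - n0 + (n + n0) = 2 * n := by ring
            rwa [e] at this
          have hpd : (p : ℤ) ∣ 4 * (n : ℤ) ^ 2 + 1 :=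
            dvd_trans (by rw [Nat.cast_pow]; exact dvd_pow_self _ (by omega)) d1
          have h1 : (p : ℤ) ∣ 1 := by
            have e : (1 : ℤ) = (4 * (n : ℤ) ^ 2 + 1) - (2 * n) * (2 * n) := by ring
            rw [e]
            exact dvd_sub hpd (Dvd.dvd.mul_left h2n _)
          exact hpZ.not_isUnit (isUnit_of_dvd_one h1)
        have hcop : IsCoprime ((p ^ j : ℕ) : ℤ) ((n : ℤ) + n0) := by
          rw [Nat.cast_pow]
          exact IsCoprime.pow_left ((Prime.coprime_iff_not_dvd hpZ).2 hnc)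
        have := hcop.dvd_of_dvd_mul_right d4
        exact (Int.modEq_iff_dvd.2 (by
          have e : (n0 : ℤ) - n = -((n : ℤ) - n0) := by ring
          rw [e]; exact this.neg_right))
      · right
        have hcop : IsCoprime ((p ^ j : ℕ) : ℤ) ((n : ℤ) - n0) := by
          rw [Nat.cast_pow]
          exact IsCoprime.pow_left ((Prime.coprime_iff_not_dvd hpZ).2 hc)
        have := hcop.dvd_of_dvd_mul_left d4
        exact (Int.modEq_iff_dvd.2 (by
          have e : -(n0 : ℤ) - n = -((n : ℤ) + n0) := by ring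
          rw [e]; exact this.neg_right))
    have hsub : (((Icc 1 N).filter fun n => p ^ j ∣ 4 * n ^ 2 + 1).map Nat.castEmbedding) ⊆
        ((Ioc (0 : ℤ) N).filter fun x => x ≡ (n0 : ℤ) [ZMOD (p ^ j : ℕ)]) ∪
        ((Ioc (0 : ℤ) N).filter fun x => x ≡ -(n0 : ℤ) [ZMOD (p ^ j : ℕ)]) := by
      intro x hx
      rw [Finset.mem_map] at hx
      obtain ⟨n, hn, rfl⟩ := hx
      have hk := hkey n hn
      rw [Finset.mem_filter, Finset.mem_Icc] at hn
      rw [Finset.mem_union, Finset.mem_filter, Finset.mem_filter, Finset.mem_Ioc]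
      have hr : (0 : ℤ) < (Nat.castEmbedding n : ℤ) ∧ (Nat.castEmbedding n : ℤ) ≤ N := by
        simp only [Nat.castEmbedding_apply]
        omega
      rcases hk with hk | hk
      · left; exact ⟨hr, hk⟩
      · right; exact ⟨hr, hk⟩
    have hc := Finset.card_le_card hsub
    rw [Finset.card_map] at hc
    have hc2 := le_trans hc (Finset.card_union_le _ _)
    have hc3 : ((((Icc 1 N).filter fun n => p ^ j ∣ 4 * n ^ 2 + 1).card : ℕ) : ℝ) ≤
        (((Ioc (0 : ℤ) N).filter fun x => x ≡ (n0 : ℤ) [ZMOD (p ^ j : ℕ)]).card : ℝ) +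
        (((Ioc (0 : ℤ) N).filter fun x => x ≡ -(n0 : ℤ) [ZMOD (p ^ j : ℕ)]).card : ℝ) := by
      exact_mod_cast hc2
    have a1 := card_class N (p ^ j) hpj (n0 : ℤ)
    have a2 := card_class N (p ^ j) hpj (-(n0 : ℤ))
    linarith

/-- the primes `≡ 1 mod 4` up to `4N²+1` -/
def PP (N : ℕ) : Finset ℕ := (range (4 * N ^ 2 + 2)).filter fun p => p.Prime ∧ p % 4 = 1

theorem mem_PP {N p : ℕ} : p ∈ PP N ↔ p ≤ 4 * N ^ 2 + 1 ∧ p.Prime ∧ p % 4 = 1 := by
  unfold PP
  rw [Finset.mem_filter, Finset.mem_range]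
  constructor
  · rintro ⟨h1, h2⟩; exact ⟨by omega, h2⟩
  · rintro ⟨h1, h2⟩; exact ⟨by omega, h2⟩

theorem primeFactors_sub {N n : ℕ} (hn : n ≤ N) : (4 * n ^ 2 + 1).primeFactors ⊆ PP N := by
  intro p hp
  have hpp := Nat.prime_of_mem_primeFactors hp
  have hd := Nat.dvd_of_mem_primeFactors hp
  rw [mem_PP]
  refine ⟨?_, hpp, ?_⟩
  · have h1 := Nat.le_of_dvd (by omega) hd
    have h2 : n ^ 2 ≤ N ^ 2 := Nat.pow_le_pow_left hn 2
    omega
  · have : Fact p.Prime := ⟨hpp⟩
    have h3 : p % 4 ≠ 3 := by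
      apply ZMod.mod_four_ne_three_of_sq_eq_neg_one (y := ((2 * n : ℕ) : ZMod p))
      have : ((4 * n ^ 2 + 1 : ℕ) : ZMod p) = 0 := (ZMod.natCast_eq_zero_iff _ _).2 hd
      push_cast at this ⊢
      linear_combination this
    have h2 : p ≠ 2 := by
      rintro rfl
      omega
    have hodd := hpp.eq_two_or_odd
    omega

theorem log_eq {N n : ℕ} (hn : n ≤ N) : Real.log ((4 * n ^ 2 + 1 : ℕ) : ℝ) =
    ∑ p ∈ PP N, ∑ j ∈ Ico 1 (Nat.log p (4 * N ^ 2 + 1) + 1),
      (if p ^ j ∣ 4 * n ^ 2 + 1 then Real.log p else 0) := by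
  rw [Real.log_nat_eq_sum_factorization]
  rw [Finsupp.sum_of_support_subset _ (s := PP N) (by
    rw [Nat.support_factorization]; exact primeFactors_sub hn) _ (by simp)]
  refine Finset.sum_congr rfl fun p hp => ?_
  rw [mem_PP] at hp
  have hb : 4 * n ^ 2 + 1 < p ^ (Nat.log p (4 * N ^ 2 + 1) + 1) := by
    have h2 : n ^ 2 ≤ N ^ 2 := Nat.pow_le_pow_left hn 2
    have h3 : 4 * N ^ 2 + 1 < p ^ (Nat.log p (4 * N ^ 2 + 1) + 1) :=
      Nat.lt_pow_succ_log_self hp.2.1.one_lt (4 * N ^ 2 + 1)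
    omega
  rw [Nat.factorization_eq_card_pow_dvd_of_lt hp.2.1 (by omega) hb, Finset.card_filter,
    Nat.cast_sum, Finset.sum_mul]
  refine Finset.sum_congr rfl fun j _ => ?_
  split_ifs <;> simp

theorem upper_one (N p : ℕ) (hp : p ∈ PP N) :
    ∑ j ∈ Ico 1 (Nat.log p (4 * N ^ 2 + 1) + 1), (2 * ((N : ℝ) / (p ^ j : ℕ) + 1)) * Real.log p ≤
      (5 / 2) * N * (Real.log p / p) + 2 * Real.log ((4 * N ^ 2 + 1 : ℕ) : ℝ) := by
  rw [mem_PP] at hp
  have hp5 : 5 ≤ p := by
    have := hp.2.1.two_le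
    have := hp.2.2
    omega
  have hp0 : (0 : ℝ) < p := by positivity
  have hp5' : (5 : ℝ) ≤ p := by exact_mod_cast hp5
  have hlog := Real.log_natCast_nonneg p
  have h1 : ∑ j ∈ Ico 1 (Nat.log p (4 * N ^ 2 + 1) + 1), (N : ℝ) / (p ^ j : ℕ) ≤ (5 / 4) * (N / p) := by
    have hg := geom_sum_Ico_le_of_lt_one (x := (1 : ℝ) / p) (m := 1)
      (n := Nat.log p (4 * N ^ 2 + 1) + 1) (by positivity) (by
        rw [div_lt_one hp0]; linarith)
    have e : ∑ j ∈ Ico 1 (Nat.log p (4 * N ^ 2 + 1) + 1), (N : ℝ) / (p ^ j : ℕ) =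
        N * ∑ j ∈ Ico 1 (Nat.log p (4 * N ^ 2 + 1) + 1), ((1 : ℝ) / p) ^ j := by
      rw [Finset.mul_sum]
      refine Finset.sum_congr rfl fun j _ => ?_
      push_cast
      rw [div_pow, one_pow]
      ring
    rw [e]
    have h3 : ((1 : ℝ) / p) ^ 1 / (1 - 1 / p) ≤ (5 / 4) * (1 / p) := by
      rw [pow_one, div_le_iff₀ (by
        have : (1 : ℝ) / p < 1 := by rw [div_lt_one hp0]; linarith
        linarith)]
      have h4 : (1 : ℝ) / p ≤ 1 / 5 := one_div_le_one_div_of_le (by norm_num) hp5'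
      have h5 : (0 : ℝ) < 1 / p := by positivity
      nlinarith
    calc (N : ℝ) * _ ≤ N * ((5 / 4) * (1 / p)) :=
          mul_le_mul_of_nonneg_left (le_trans hg h3) (by positivity)
      _ = _ := by ring
  have h2 : ((Nat.log p (4 * N ^ 2 + 1) : ℕ) : ℝ) * Real.log p ≤
      Real.log ((4 * N ^ 2 + 1 : ℕ) : ℝ) := by
    rw [← Real.log_pow]
    refine Real.log_le_log (by positivity) ?_
    exact_mod_cast Nat.pow_log_le_self p (by omega)
  have e : ∑ j ∈ Ico 1 (Nat.log p (4 * N ^ 2 + 1) + 1),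
      (2 * ((N : ℝ) / (p ^ j : ℕ) + 1)) * Real.log p =
      2 * (∑ j ∈ Ico 1 (Nat.log p (4 * N ^ 2 + 1) + 1), (N : ℝ) / (p ^ j : ℕ)) * Real.log p +
      2 * (((Nat.log p (4 * N ^ 2 + 1) : ℕ) : ℝ) * Real.log p) := by
    rw [← Finset.sum_mul, ← Finset.mul_sum, Finset.sum_add_distrib, Finset.sum_const,
      Nat.card_Ico]
    simp only [Nat.add_sub_cancel, nsmul_eq_mul, mul_one]
    ring
  rw [e]
  have h3 := mul_le_mul_of_nonneg_right h1 hlog
  have e2 : (5 / 2) * (N : ℝ) * (Real.log p / p) = 2 * ((5 / 4) * (N / p) * Real.log p) := by ring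
  rw [e2]
  linarith

theorem main_ineq (N : ℕ) :
    ∑ n ∈ Icc 1 N, Real.log ((4 * n ^ 2 + 1 : ℕ) : ℝ) ≤
      (5 / 2) * N * (∑ p ∈ PP N, Real.log p / p) +
        2 * (PP N).card * Real.log ((4 * N ^ 2 + 1 : ℕ) : ℝ) := by
  have h1 : ∑ n ∈ Icc 1 N, Real.log ((4 * n ^ 2 + 1 : ℕ) : ℝ) =
      ∑ p ∈ PP N, ∑ j ∈ Ico 1 (Nat.log p (4 * N ^ 2 + 1) + 1),
        ((((Icc 1 N).filter fun n => p ^ j ∣ 4 * n ^ 2 + 1).card : ℕ) : ℝ) * Real.log p := by
    rw [Finset.sum_congr rfl fun n hn => log_eq (Finset.mem_Icc.1 hn).2, Finset.sum_comm]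
    refine Finset.sum_congr rfl fun p _ => ?_
    rw [Finset.sum_comm]
    refine Finset.sum_congr rfl fun j _ => ?_
    rw [← Finset.sum_filter, Finset.sum_const, nsmul_eq_mul]
  rw [h1]
  have h2 : ∀ p ∈ PP N, ∑ j ∈ Ico 1 (Nat.log p (4 * N ^ 2 + 1) + 1),
        ((((Icc 1 N).filter fun n => p ^ j ∣ 4 * n ^ 2 + 1).card : ℕ) : ℝ) * Real.log p ≤
      (5 / 2) * N * (Real.log p / p) + 2 * Real.log ((4 * N ^ 2 + 1 : ℕ) : ℝ) := by
    intro p hp
    refine le_trans (Finset.sum_le_sum fun j _ => ?_) (upper_one N p hp)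
    rw [mem_PP] at hp
    exact mul_le_mul_of_nonneg_right (card_sol N p j hp.2.1 (by
      rintro rfl; omega)) (Real.log_natCast_nonneg p)
  refine le_trans (Finset.sum_le_sum h2) (le_of_eq ?_)
  rw [Finset.sum_add_distrib, ← Finset.mul_sum, Finset.sum_const, nsmul_eq_mul]
  ring

theorem lower (N : ℕ) (hN : 1 ≤ N) :
    2 * N * Real.log N - 2 * N + 2 * N * Real.log 2 ≤
      ∑ n ∈ Icc 1 N, Real.log ((4 * n ^ 2 + 1 : ℕ) : ℝ) := by
  have hN0 : (0 : ℝ) < N := by exact_mod_cast hN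
  have h1 : ∑ n ∈ Icc 1 N, (2 * Real.log 2 + 2 * Real.log n) ≤
      ∑ n ∈ Icc 1 N, Real.log ((4 * n ^ 2 + 1 : ℕ) : ℝ) := by
    refine Finset.sum_le_sum fun n hn => ?_
    have hn1 := (Finset.mem_Icc.1 hn).1
    have hn0 : (0 : ℝ) < n := by exact_mod_cast hn1
    have e : 2 * Real.log 2 + 2 * Real.log n = Real.log ((2 * (n : ℝ)) ^ 2) := by
      rw [Real.log_pow, Real.log_mul (by norm_num) hn0.ne']
      push_cast; ring
    rw [e]
    refine Real.log_le_log (by positivity) ?_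
    push_cast
    nlinarith
  refine le_trans ?_ h1
  rw [Finset.sum_add_distrib, Finset.sum_const, Nat.card_Icc, nsmul_eq_mul, ← Finset.mul_sum]
  have h2 : ∑ n ∈ Icc 1 N, Real.log n = Real.log (N.factorial : ℕ) := by
    clear h1 hN hN0
    induction N with
    | zero => simp
    | succ m ih =>
      rw [Finset.sum_Icc_succ_top (by omega), ih, Nat.factorial_succ, Nat.cast_mul,
        Real.log_mul (by positivity) (by positivity)]
      ring
  rw [h2]
  have h3 : (N : ℝ) * Real.log N - N ≤ Real.log (N.factorial : ℕ) := by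
    have hs := Stirling.le_factorial_stirling N
    have hsq : 1 ≤ √(2 * Real.pi * N) := by
      rw [Real.one_le_sqrt]
      have := Real.pi_gt_three
      have h1N : (1 : ℝ) ≤ N := by exact_mod_cast hN
      nlinarith
    have h4 : ((N : ℝ) / Real.exp 1) ^ N ≤ (N.factorial : ℝ) :=
      le_trans (le_mul_of_one_le_left (by positivity) hsq) hs
    have h5 := Real.log_le_log (by positivity) h4
    rw [Real.log_pow, Real.log_div hN0.ne' (Real.exp_pos 1).ne', Real.log_exp] at h5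
    linarith
  have e : ((N + 1 - 1 : ℕ) : ℝ) = N := by simp
  rw [e]
  linarith

end Supply

open Supply in
theorem supply : ∃ N0 : ℕ, ∀ N ≥ N0,
    N ≤ ((range (4 * N ^ 2 + 2)).filter fun p => p.Prime ∧ p % 4 = 1).card ^ 3 := by
  refine ⟨3 ^ 61, fun N hN => ?_⟩
  have hN2 : 2 ≤ N := le_trans (by norm_num) hN
  change N ≤ (PP N).card ^ 3
  by_contra hcon
  push Not at hcon
  set k := (PP N).card with hk
  have hN0 : (0 : ℝ) < N := by positivity
  -- two primes
  have hk2 : 2 ≤ k := by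
    have h5 : ({5, 13} : Finset ℕ) ⊆ PP N := by
      intro p hp
      have hNN : 4 ≤ N ^ 2 := by nlinarith
      rw [Finset.mem_insert, Finset.mem_singleton] at hp
      rw [mem_PP]
      rcases hp with rfl | rfl
      · exact ⟨by omega, by norm_num, by norm_num⟩
      · exact ⟨by omega, by norm_num, by norm_num⟩
    have := Finset.card_le_card h5
    simpa using this
  have hk0 : (0 : ℝ) < k := by positivity
  have hk2' : (2 : ℝ) ≤ k := by exact_mod_cast hk2
  have hlogk : 0 ≤ Real.log k := Real.log_natCast_nonneg k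
  have hlogN : 3 * Real.log k ≤ Real.log N := by
    have : Real.log ((k : ℝ) ^ 3) ≤ Real.log N := by
      refine Real.log_le_log (by positivity) ?_
      exact_mod_cast hcon.le
    rw [Real.log_pow] at this
    push_cast at this
    linarith
  have hsumPP : ∑ p ∈ PP N, Real.log p / p ≤ 2 * Real.log k + Real.log 4 + 2 := by
    have hm := mertens_upper (k ^ 2) (by nlinarith)
    have hsplit : ∑ p ∈ PP N, Real.log p / p ≤
        ∑ p ∈ (k ^ 2).primesLE, Real.log p / p +
        ∑ p ∈ (PP N).filter (fun p => ¬ p ≤ k ^ 2), Real.log p / p := by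
      rw [← Finset.sum_filter_add_sum_filter_not (PP N) (fun p => p ≤ k ^ 2)]
      refine add_le_add ?_ le_rfl
      refine Finset.sum_le_sum_of_subset_of_nonneg ?_ (fun p _ _ =>
        div_nonneg (Real.log_natCast_nonneg p) (Nat.cast_nonneg p))
      intro p hp
      rw [Finset.mem_filter, mem_PP] at hp
      rw [Nat.mem_primesLE]
      exact ⟨hp.2, hp.1.2.1⟩
    have hbig : ∑ p ∈ (PP N).filter (fun p => ¬ p ≤ k ^ 2), Real.log p / p ≤ 2 := by
      have h1 : ∀ p ∈ (PP N).filter (fun p => ¬ p ≤ k ^ 2), Real.log p / p ≤ 2 / k := by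
        intro p hp
        rw [Finset.mem_filter] at hp
        push Not at hp
        have hk4 : Real.exp 1 ≤ ((k : ℝ)) ^ 2 := by
          have := Real.exp_one_lt_d9
          nlinarith
        have hpk : ((k : ℝ)) ^ 2 ≤ p := by exact_mod_cast hp.2.le
        have hanti := Real.log_div_self_antitoneOn (Set.mem_Ici.2 hk4)
          (Set.mem_Ici.2 (le_trans hk4 hpk)) hpk
        simp only at hanti
        refine le_trans hanti ?_
        rw [Real.log_pow]
        have hlk : Real.log k ≤ k := by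
          have := Real.log_le_sub_one_of_pos hk0
          linarith
        rw [div_le_div_iff₀ (by positivity) hk0]
        push_cast
        nlinarith
      calc _ ≤ ∑ p ∈ (PP N).filter (fun p => ¬ p ≤ k ^ 2), (2 : ℝ) / k := Finset.sum_le_sum h1
        _ = ((PP N).filter (fun p => ¬ p ≤ k ^ 2)).card * ((2 : ℝ) / k) := by
            rw [Finset.sum_const, nsmul_eq_mul]
        _ ≤ k * ((2 : ℝ) / k) := by
            refine mul_le_mul_of_nonneg_right ?_ (by positivity)
            exact_mod_cast Finset.card_filter_le _ _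
        _ = 2 := by field_simp
    have e : Real.log ((k ^ 2 : ℕ) : ℝ) = 2 * Real.log k := by
      push_cast
      rw [Real.log_pow]; push_cast; ring
    rw [e] at hm
    linarith
  have hmain := main_ineq N
  have hlow := lower N (by omega)
  rw [← hk] at hmain
  -- bound of the last term
  have hlogy : Real.log ((4 * N ^ 2 + 1 : ℕ) : ℝ) ≤ Real.log 5 + 2 * Real.log N := by
    have e : Real.log 5 + 2 * Real.log N = Real.log (5 * (N : ℝ) ^ 2) := by
      rw [Real.log_mul (by norm_num) (by positivity), Real.log_pow]; push_cast; ring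
    rw [e]
    refine Real.log_le_log (by positivity) ?_
    push_cast
    have h1N : (1 : ℝ) ≤ N := by exact_mod_cast (by omega : 1 ≤ N)
    nlinarith
  have hkN : (k : ℝ) ≤ N := by
    have : k ≤ k ^ 3 := Nat.le_self_pow (by norm_num) k
    exact_mod_cast (by omega : k ≤ N)
  have hklog : (k : ℝ) * Real.log N ≤ 2 * N := by
    have hsq : (k : ℝ) ≤ √N := by
      rw [Real.le_sqrt hk0.le hN0.le]
      have : k ^ 2 ≤ k ^ 3 := Nat.pow_le_pow_right (by omega) (by norm_num)
      exact_mod_cast (by omega : k ^ 2 ≤ N)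
    have hlog2 : Real.log N ≤ 2 * √N := by
      have h1 : Real.log (√N) ≤ √N - 1 := Real.log_le_sub_one_of_pos (Real.sqrt_pos.2 hN0)
      have h2 : Real.log (√N) = Real.log N / 2 := Real.log_sqrt hN0.le
      rw [h2] at h1
      linarith
    have hs0 : 0 ≤ √(N : ℝ) := Real.sqrt_nonneg _
    calc (k : ℝ) * Real.log N ≤ √N * (2 * √N) :=
          mul_le_mul hsq hlog2 (Real.log_natCast_nonneg N) hs0
      _ = 2 * (√N * √N) := by ring
      _ = 2 * N := by rw [Real.mul_self_sqrt hN0.le]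
  have hlast : 2 * (k : ℝ) * Real.log ((4 * N ^ 2 + 1 : ℕ) : ℝ) ≤
      2 * N * Real.log 5 + 8 * N := by
    have h1 : 2 * (k : ℝ) * Real.log ((4 * N ^ 2 + 1 : ℕ) : ℝ) ≤
        2 * (k : ℝ) * (Real.log 5 + 2 * Real.log N) :=
      mul_le_mul_of_nonneg_left hlogy (by positivity)
    have h5 : 0 ≤ Real.log 5 := Real.log_nonneg (by norm_num)
    have h6 : (k : ℝ) * Real.log 5 ≤ N * Real.log 5 := mul_le_mul_of_nonneg_right hkN h5
    nlinarith
  have hmid : (5 / 2) * (N : ℝ) * (∑ p ∈ PP N, Real.log p / p) ≤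
      (5 / 2) * (N : ℝ) * ((2 / 3) * Real.log N + Real.log 4 + 2) := by
    refine mul_le_mul_of_nonneg_left ?_ (by positivity)
    linarith
  have htot : 2 * (N : ℝ) * Real.log N - 2 * N + 2 * N * Real.log 2 ≤
      (5 / 2) * (N : ℝ) * ((2 / 3) * Real.log N + Real.log 4 + 2) + (2 * N * Real.log 5 + 8 * N) := by
    linarith
  have htot2 : (N : ℝ) * (2 * Real.log N - 2 + 2 * Real.log 2) ≤
      N * ((5 / 2) * ((2 / 3) * Real.log N + Real.log 4 + 2) + (2 * Real.log 5 + 8)) := by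
    linarith
  have htot3 := le_of_mul_le_mul_left htot2 hN0
  have hl4 : Real.log 4 = 2 * Real.log 2 := by
    rw [show (4 : ℝ) = 2 ^ 2 by norm_num, Real.log_pow]; push_cast; ring
  have hl2 : Real.log 2 < 0.6931471808 := Real.log_two_lt_d9
  have hl2' : 0.6931471803 < Real.log 2 := Real.log_two_gt_d9
  have hl5 : Real.log 5 ≤ 2 := by
    have : Real.log 5 ≤ Real.log 8 := Real.log_le_log (by norm_num) (by norm_num)
    have h8 : Real.log 8 = 3 * Real.log 2 := by
      rw [show (8 : ℝ) = 2 ^ 3 by norm_num, Real.log_pow]; push_cast; ring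
    have h52 : Real.log 5 ≤ 2.1 := by linarith
    have h5a : Real.log 5 ≤ 2 := by
      rw [Real.log_le_iff_le_exp (by norm_num)]
      have h1 : (2.7 : ℝ) ≤ Real.exp 1 := by
        have := Real.exp_one_gt_d9
        linarith
      have h2 : Real.exp 2 = Real.exp 1 * Real.exp 1 := by
        rw [← Real.exp_add]; norm_num
      rw [h2]
      nlinarith
    exact h5a
  have hfinal : Real.log N ≤ 64 := by linarith
  have hlogN' : 61 * Real.log 3 ≤ Real.log N := by
    have : Real.log ((3 : ℝ) ^ 61) ≤ Real.log N := by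
      refine Real.log_le_log (by positivity) ?_
      exact_mod_cast hN
    rw [Real.log_pow] at this
    push_cast at this
    exact this
  have hl3 : 1.05 ≤ Real.log 3 := by
    rw [Real.le_log_iff_exp_le (by norm_num)]
    have h1 : Real.exp 1 < 2.7182818286 := Real.exp_one_lt_d9
    have h2 : Real.exp 0.05 ≤ 1.06 := by
      have := Real.exp_bound_div_one_sub_of_interval (x := 0.05) (by norm_num) (by norm_num)
      refine le_trans this ?_
      norm_num
    have h3 : Real.exp 1.05 = Real.exp 1 * Real.exp 0.05 := by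
      rw [← Real.exp_add]; norm_num
    rw [h3]
    have h4 := Real.exp_pos 0.05
    have h5 := Real.exp_pos 1
    nlinarith
  linarith

end Pyj
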