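import Pool.Agent.Helper79.Pyj.Defs
import Pool.Agent.Helper79.Pyj.Supply

/-! Corollaries of the supply theorem, and growth comparisons. -/

namespace Pyj

open Finset Filter

theorem poly_le_exp (k c : ℕ) : ∀ᶠ t : ℕ in atTop, c * t ^ k ≤ 2 ^ t := by
  have h := tendsto_pow_const_div_const_pow_of_one_lt k (r := (2 : ℝ)) (by norm_num)
  have h2 : ∀ᶠ t : ℕ in atTop, (t : ℝ) ^ k / 2 ^ t < 1 / ((c : ℝ) + 1) :=
    h.eventually (gt_mem_nhds (by positivity))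
  filter_upwards [h2] with t ht
  have hc : (0 : ℝ) < (c : ℝ) + 1 := by positivity
  rw [div_lt_div_iff₀ (by positivity) hc] at ht
  have h3 : (c : ℝ) * (t : ℝ) ^ k ≤ 2 ^ t := by
    have : (0 : ℝ) ≤ (t : ℝ) ^ k := by positivity
    nlinarith
  exact_mod_cast h3

theorem supply_small : ∀ᶠ t : ℕ in atTop, ∃ P : Finset ℕ, P.card = 11 * t ^ 7 + 2 ∧
    ∀ p ∈ P, p.Prime ∧ p % 4 = 1 ∧ p ≤ 2 ^ t := by
  obtain ⟨N0, hN0⟩ := supply
  filter_upwards [poly_le_exp 42 (13 ^ 6 * 16), eventually_ge_atTop (2 * N0 + 10)] with t h1 h2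
  set s := (t - 3) / 2 with hs
  have hs1 : 2 * s + 2 ≤ t - 1 := by omega
  have hs2 : t - 4 ≤ 2 * s := by omega
  have hsN : N0 ≤ 2 ^ s := by
    have : N0 ≤ s := by omega
    exact this.trans (Nat.lt_two_pow_self).le
  have hk := hN0 (2 ^ s) hsN
  set P0 := (range (4 * (2 ^ s) ^ 2 + 2)).filter fun p => p.Prime ∧ p % 4 = 1 with hP0
  have ht1 : 1 ≤ t := by omega
  have hX : (11 * t ^ 7 + 2) ^ 3 ≤ 2 ^ s := by
    have e1 : 11 * t ^ 7 + 2 ≤ 13 * t ^ 7 := by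
      have : 1 ≤ t ^ 7 := Nat.one_le_pow _ _ ht1
      omega
    have e2 : (11 * t ^ 7 + 2) ^ 3 ≤ (13 * t ^ 7) ^ 3 := Nat.pow_le_pow_left e1 3
    have e3 : ((13 * t ^ 7) ^ 3) ^ 2 * 16 ≤ 2 ^ t := by
      calc ((13 * t ^ 7) ^ 3) ^ 2 * 16 = 13 ^ 6 * 16 * t ^ 42 := by ring
        _ ≤ 2 ^ t := h1
    have e4 : ((13 * t ^ 7) ^ 3) ^ 2 ≤ (2 ^ s) ^ 2 := by
      have h16 : (2 : ℕ) ^ t = 2 ^ (t - 4) * 16 := by
        rw [show (16 : ℕ) = 2 ^ 4 by norm_num, ← pow_add]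
        congr 1; omega
      rw [h16] at e3
      have e5 := Nat.le_of_mul_le_mul_right e3 (by norm_num)
      calc ((13 * t ^ 7) ^ 3) ^ 2 ≤ 2 ^ (t - 4) := e5
        _ ≤ 2 ^ (2 * s) := Nat.pow_le_pow_right (by norm_num) hs2
        _ = (2 ^ s) ^ 2 := by rw [← pow_mul, mul_comm]
    exact e2.trans ((Nat.pow_le_pow_iff_left (by norm_num)).mp e4)
  have hcard : 11 * t ^ 7 + 2 ≤ P0.card :=
    (Nat.pow_le_pow_iff_left (n := 3) (by norm_num)).mp (hX.trans hk)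
  obtain ⟨P, hP, hPc⟩ := Finset.exists_subset_card_eq hcard
  refine ⟨P, hPc, fun p hp => ?_⟩
  have hp0 := mem_filter.mp (hP hp)
  refine ⟨hp0.2.1, hp0.2.2, ?_⟩
  have h3 : p ≤ 4 * (2 ^ s) ^ 2 + 1 := by
    have := mem_range.mp hp0.1
    omega
  have h4 : 4 * (2 ^ s) ^ 2 = 2 ^ (2 * s + 2) := by
    rw [pow_add, ← pow_mul, mul_comm s 2]; ring
  have h5 : 2 ^ (2 * s + 2) ≤ 2 ^ (t - 1) := Nat.pow_le_pow_right (by norm_num) hs1
  have h6 : 2 ^ t = 2 ^ (t - 1) + 2 ^ (t - 1) := by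
    have : t = (t - 1) + 1 := by omega
    rw [this, pow_succ]; simp; ring
  have h7 : 1 ≤ 2 ^ (t - 1) := Nat.one_le_two_pow
  omega

theorem supply_big : ∀ᶠ t : ℕ in atTop, ∃ P : Finset ℕ, P.card = t ^ 6 ∧
    ∀ p ∈ P, p.Prime ∧ p % 4 = 1 ∧ 2 ^ (t ^ 3) < p ∧ p ≤ 2 ^ (9 * t ^ 3) := by
  obtain ⟨N0, hN0⟩ := supply
  filter_upwards [poly_le_exp 6 2, eventually_ge_atTop (N0 + 10)] with t h1 h2
  have ht3 : t ≤ t ^ 3 := Nat.le_self_pow (by norm_num) t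
  have ht1 : 1 ≤ t := by omega
  have hsN : N0 ≤ 2 ^ (4 * t ^ 3) := by
    have : N0 ≤ 4 * t ^ 3 := by omega
    exact this.trans (Nat.lt_two_pow_self).le
  have hk := hN0 (2 ^ (4 * t ^ 3)) hsN
  set P0 := (range (4 * (2 ^ (4 * t ^ 3)) ^ 2 + 2)).filter fun p => p.Prime ∧ p % 4 = 1 with hP0
  set P1 := P0.filter fun p => 2 ^ (t ^ 3) < p with hP1
  have hcard : t ^ 6 ≤ P1.card := by
    by_contra hcon
    push Not at hcon
    have e1 : P0.card ≤ P1.card + (2 ^ (t ^ 3) + 1) := by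
      have e2 : P0 ⊆ P1 ∪ range (2 ^ (t ^ 3) + 1) := by
        intro p hp
        rw [mem_union]
        by_cases h : 2 ^ (t ^ 3) < p
        · exact Or.inl (mem_filter.mpr ⟨hp, h⟩)
        · right; rw [mem_range]; omega
      calc P0.card ≤ (P1 ∪ range (2 ^ (t ^ 3) + 1)).card := card_le_card e2
        _ ≤ P1.card + (range (2 ^ (t ^ 3) + 1)).card := card_union_le _ _
        _ = _ := by rw [card_range]
    have e3 : t ^ 6 ≤ 2 ^ (t ^ 3) := by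
      calc t ^ 6 ≤ 2 * t ^ 6 := by omega
        _ ≤ 2 ^ t := h1
        _ ≤ 2 ^ (t ^ 3) := Nat.pow_le_pow_right (by norm_num) ht3
    have e4 : P0.card ≤ 2 * 2 ^ (t ^ 3) := by omega
    have e5 : P0.card ^ 3 ≤ (2 * 2 ^ (t ^ 3)) ^ 3 := Nat.pow_le_pow_left e4 3
    have e6 : (2 * 2 ^ (t ^ 3)) ^ 3 < 2 ^ (4 * t ^ 3) := by
      rw [← pow_succ', ← pow_mul]
      apply Nat.pow_lt_pow_right (by norm_num)
      nlinarith
    omega
  obtain ⟨P, hP, hPc⟩ := Finset.exists_subset_card_eq hcard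
  refine ⟨P, hPc, fun p hp => ?_⟩
  have hp1 := mem_filter.mp (hP hp)
  have hp0 := mem_filter.mp hp1.1
  refine ⟨hp0.2.1, hp0.2.2, hp1.2, ?_⟩
  have h3 : p ≤ 4 * (2 ^ (4 * t ^ 3)) ^ 2 + 1 := by
    have := mem_range.mp hp0.1
    omega
  have h4 : 4 * (2 ^ (4 * t ^ 3)) ^ 2 = 2 ^ (8 * t ^ 3 + 2) := by
    rw [pow_add, ← pow_mul]; ring
  have h5 : 2 ^ (8 * t ^ 3 + 2) < 2 ^ (9 * t ^ 3) := by
    apply Nat.pow_lt_pow_right (by norm_num)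
    omega
  omega

end Pyj
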