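import Pool.Agent.Helper79.Pyj.Core2
import Pool.Agent.Helper79.Pyj.SupplyCor

/-! Choice of the parameters: the polynomial bound. -/

namespace Pyj

open Complex Finset Filter

theorem hcs_num (t : ℕ) (ht : 400 ≤ t) (h1 : 2000 * t ^ 8 ≤ 2 ^ t) (P P' : Finset ℕ)
    (hPc : P.card = t ^ 6) (hP'c : P'.card = 11 * t ^ 7 + 2) :
    2 * (((2 * (2 ^ (9 * t ^ 3)) ^ 2) ^ (9 * t ^ 3) * 2 ^ (t + 2)) ^ 2 *
      (4 * (2 ^ (2 * t + 2)) ^ 2 * (18 * P.card)) ^ (2 * P.card)) ≤ 2 ^ P'.card := by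
  rw [hPc, hP'c]
  have e1 : 4 * (2 ^ (2 * t + 2)) ^ 2 * (18 * t ^ 6) ≤ 2 ^ (5 * t) := by
    have e2 : 1152 * t ^ 6 ≤ 2 ^ t := by
      have : t ^ 6 ≤ t ^ 8 := Nat.pow_le_pow_right (by omega) (by norm_num)
      omega
    calc 4 * (2 ^ (2 * t + 2)) ^ 2 * (18 * t ^ 6) = 2 ^ (4 * t) * (1152 * t ^ 6) := by
          rw [← pow_mul, show (2 * t + 2) * 2 = 4 * t + 4 by ring, pow_add]; ring
      _ ≤ 2 ^ (4 * t) * 2 ^ t := Nat.mul_le_mul_left _ e2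
      _ = 2 ^ (5 * t) := by rw [← pow_add]; congr 1; ring
  have e3 : (4 * (2 ^ (2 * t + 2)) ^ 2 * (18 * t ^ 6)) ^ (2 * t ^ 6) ≤ 2 ^ (10 * t ^ 7) := by
    calc (4 * (2 ^ (2 * t + 2)) ^ 2 * (18 * t ^ 6)) ^ (2 * t ^ 6)
        ≤ (2 ^ (5 * t)) ^ (2 * t ^ 6) := Nat.pow_le_pow_left e1 _
      _ = 2 ^ (10 * t ^ 7) := by rw [← pow_mul]; congr 1; ring
  have e4 : ((2 * (2 ^ (9 * t ^ 3)) ^ 2) ^ (9 * t ^ 3) * 2 ^ (t + 2)) ^ 2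
      = 2 ^ (324 * t ^ 6 + 18 * t ^ 3 + 2 * t + 4) := by
    have e5 : 2 * (2 ^ (9 * t ^ 3)) ^ 2 = 2 ^ (18 * t ^ 3 + 1) := by
      rw [← pow_mul, ← pow_succ']; congr 1; ring
    rw [e5, ← pow_mul, ← pow_add, ← pow_mul]
    congr 1; ring
  rw [e4]
  calc 2 * (2 ^ (324 * t ^ 6 + 18 * t ^ 3 + 2 * t + 4) *
        (4 * (2 ^ (2 * t + 2)) ^ 2 * (18 * t ^ 6)) ^ (2 * t ^ 6))
      ≤ 2 * (2 ^ (324 * t ^ 6 + 18 * t ^ 3 + 2 * t + 4) * 2 ^ (10 * t ^ 7)) := by gcongr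
    _ = 2 ^ (1 + (324 * t ^ 6 + 18 * t ^ 3 + 2 * t + 4 + 10 * t ^ 7)) := by
        rw [← pow_add, ← pow_succ']; congr 1; ring
    _ ≤ 2 ^ (11 * t ^ 7 + 2) := by
        apply Nat.pow_le_pow_right (by norm_num)
        have h3 : t ^ 3 ≤ t ^ 6 := Nat.pow_le_pow_right (by omega) (by norm_num)
        have h4 : t ≤ t ^ 6 := Nat.le_self_pow (by norm_num) t
        have h5 : 400 * t ^ 6 ≤ t ^ 7 := by
          rw [pow_succ t 6, mul_comm]; exact Nat.mul_le_mul_left _ ht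
        omega

theorem pow_facts (t : ℕ) (ht : 400 ≤ t) :
    t ≤ t ^ 7 ∧ t ^ 3 ≤ t ^ 7 ∧ t ^ 6 ≤ t ^ 7 ∧ 400 * t ^ 7 ≤ t ^ 8 ∧ 400 * t ^ 8 ≤ t ^ 9 ∧
      2 * t + 2 ≤ t ^ 3 ∧ t ^ 6 ≤ t ^ 8 ∧ 400 ≤ t ^ 7 := by
  have h4 : t ≤ t ^ 7 := Nat.le_self_pow (by norm_num) t
  refine ⟨h4, Nat.pow_le_pow_right (by omega) (by norm_num),
    Nat.pow_le_pow_right (by omega) (by norm_num), ?_, ?_, ?_,
    Nat.pow_le_pow_right (by omega) (by norm_num), ht.trans h4⟩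
  · rw [pow_succ t 7, mul_comm]; exact Nat.mul_le_mul_left _ ht
  · rw [pow_succ t 8, mul_comm]; exact Nat.mul_le_mul_left _ ht
  · have h1 : t * t ≤ t ^ 3 := by
      rw [pow_succ, pow_two]; exact Nat.le_mul_of_pos_right _ (by omega)
    nlinarith

theorem hsmall_num (t : ℕ) (ht : 400 ≤ t) (h1 : 2000 * t ^ 8 ≤ 2 ^ t) (P : Finset ℕ)
    (hPc : P.card = t ^ 6) :
    (((2 ^ (3 * (t + 1)) * (124 * t ^ 8) : ℕ) : ℝ) +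
      2 * (((2 ^ (9 * (t + 1)) + 1 + 2 ^ (3 * (t + 1)) * (124 * t ^ 8)) *
        (2 * (25 * t ^ 8 + 1) + 1) : ℕ) : ℝ) *
        ((2 * P.card : ℕ) : ℝ) * (4 * ((2 ^ (2 * t + 2) : ℕ) : ℝ))) *
      (1 / 2 ^ (20 * t) + ((26 * t ^ 8 : ℕ) : ℝ) / ((2 ^ (21 * t) : ℕ) : ℝ)) < 1 := by
  obtain ⟨f1, f2, f3, f4, f5, f6, f7, f8⟩ := pow_facts t ht
  rw [hPc]
  -- natural number bounds
  have a1 : 2 ^ (3 * (t + 1)) * (124 * t ^ 8) ≤ 2 ^ (4 * t + 3) := by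
    calc 2 ^ (3 * (t + 1)) * (124 * t ^ 8) ≤ 2 ^ (3 * (t + 1)) * 2 ^ t :=
          Nat.mul_le_mul_left _ (by omega)
      _ = 2 ^ (4 * t + 3) := by rw [← pow_add]; congr 1; ring
  have a2 : 2 ^ (9 * (t + 1)) + 1 + 2 ^ (3 * (t + 1)) * (124 * t ^ 8) ≤ 2 ^ (10 * t) := by
    have b1 : 2 ^ (9 * (t + 1)) ≤ 2 ^ (10 * t - 2) := Nat.pow_le_pow_right (by norm_num) (by omega)
    have b2 : 2 ^ (4 * t + 3) ≤ 2 ^ (10 * t - 2) := Nat.pow_le_pow_right (by norm_num) (by omega)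
    have b3 : 2 ^ (10 * t) = 2 ^ (10 * t - 2) * 4 := by
      rw [show (4 : ℕ) = 2 ^ 2 by norm_num, ← pow_add]; congr 1; omega
    have b4 : 1 ≤ 2 ^ (10 * t - 2) := Nat.one_le_two_pow
    omega
  have a3 : 2 * (25 * t ^ 8 + 1) + 1 ≤ 2 ^ t := by omega
  have a4 : 2 * t ^ 6 ≤ 2 ^ t := by omega
  have a5 : (2 ^ (9 * (t + 1)) + 1 + 2 ^ (3 * (t + 1)) * (124 * t ^ 8)) *
        (2 * (25 * t ^ 8 + 1) + 1) ≤ 2 ^ (10 * t) * 2 ^ t := Nat.mul_le_mul a2 a3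
  have a6 : 2 ^ (3 * (t + 1)) * (124 * t ^ 8) +
      2 * ((2 ^ (9 * (t + 1)) + 1 + 2 ^ (3 * (t + 1)) * (124 * t ^ 8)) *
        (2 * (25 * t ^ 8 + 1) + 1)) * (2 * t ^ 6) * (4 * 2 ^ (2 * t + 2)) ≤ 2 ^ (14 * t + 6) := by
    calc 2 ^ (3 * (t + 1)) * (124 * t ^ 8) +
      2 * ((2 ^ (9 * (t + 1)) + 1 + 2 ^ (3 * (t + 1)) * (124 * t ^ 8)) *
        (2 * (25 * t ^ 8 + 1) + 1)) * (2 * t ^ 6) * (4 * 2 ^ (2 * t + 2))
        ≤ 2 ^ (4 * t + 3) + 2 * (2 ^ (10 * t) * 2 ^ t) * 2 ^ t * (4 * 2 ^ (2 * t + 2)) := by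
          gcongr
      _ = 2 ^ (4 * t + 3) + 2 ^ (14 * t + 5) := by
          have e1 : 2 * (2 ^ (10 * t) * 2 ^ t) * 2 ^ t * (4 * 2 ^ (2 * t + 2))
              = 2 ^ (14 * t + 5) := by
            have e2 : 14 * t + 5 = 1 + (10 * t + t) + t + (2 + (2 * t + 2)) := by ring
            rw [e2]
            simp only [pow_add]
            norm_num
          rw [e1]
      _ ≤ 2 ^ (14 * t + 5) + 2 ^ (14 * t + 5) := by
          have := Nat.pow_le_pow_right (n := 2) (by norm_num)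
            (show 4 * t + 3 ≤ 14 * t + 5 by omega)
          omega
      _ = 2 ^ (14 * t + 6) := by rw [pow_succ 2 (14 * t + 5)]; ring
  have a7 : (((2 ^ (3 * (t + 1)) * (124 * t ^ 8) : ℕ) : ℝ) +
      2 * (((2 ^ (9 * (t + 1)) + 1 + 2 ^ (3 * (t + 1)) * (124 * t ^ 8)) *
        (2 * (25 * t ^ 8 + 1) + 1) : ℕ) : ℝ) *
        ((2 * t ^ 6 : ℕ) : ℝ) * (4 * ((2 ^ (2 * t + 2) : ℕ) : ℝ))) ≤ 2 ^ (14 * t + 6) := by
    exact_mod_cast a6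
  have a8 : (1 / 2 ^ (20 * t) + ((26 * t ^ 8 : ℕ) : ℝ) / ((2 ^ (21 * t) : ℕ) : ℝ))
      ≤ 2 / 2 ^ (20 * t) := by
    have c1 : ((26 * t ^ 8 : ℕ) : ℝ) ≤ 2 ^ t := by
      have : 26 * t ^ 8 ≤ 2 ^ t := by omega
      exact_mod_cast this
    have c2 : ((2 ^ (21 * t) : ℕ) : ℝ) = 2 ^ (20 * t) * 2 ^ t := by
      push_cast
      rw [← pow_add]; congr 1; ring
    rw [c2]
    have c3 : ((26 * t ^ 8 : ℕ) : ℝ) / (2 ^ (20 * t) * 2 ^ t) ≤ 1 / 2 ^ (20 * t) := by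
      rw [div_le_div_iff₀ (by positivity) (by positivity)]
      have : (0 : ℝ) < 2 ^ (20 * t) := by positivity
      nlinarith
    have c4 : (2 : ℝ) / 2 ^ (20 * t) = 1 / 2 ^ (20 * t) + 1 / 2 ^ (20 * t) := by ring
    linarith
  calc _ ≤ (2 : ℝ) ^ (14 * t + 6) * (2 / 2 ^ (20 * t)) := by
        apply mul_le_mul a7 a8 (by positivity) (by positivity)
    _ < 1 := by
        rw [mul_div_assoc', div_lt_one (by positivity), ← pow_succ]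
        exact pow_lt_pow_right₀ (by norm_num) (by omega)

theorem hmu_num (t : ℕ) (ht : 400 ≤ t) (h1 : 2000 * t ^ 8 ≤ 2 ^ t) :
    (2 : ℝ) ^ (60 * (t + 1) + 1) * ((2 ^ (130 * t ^ 8) : ℕ) : ℝ) ^ (2 ^ (10 * t) * 2 ^ (21 * t))
      ≤ (1 / 2) ^ t * 2 ^ (2 ^ (32 * t)) := by
  obtain ⟨f1, f2, f3, f4, f5, f6, f7, f8⟩ := pow_facts t ht
  have h2 : ((1 : ℝ) / 2) ^ t = 1 / 2 ^ t := by rw [div_pow, one_pow]
  rw [h2, div_mul_eq_mul_div, one_mul, le_div_iff₀ (by positivity)]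
  push_cast
  rw [← pow_mul, ← pow_add, ← pow_add, ← pow_add]
  apply pow_le_pow_right₀ (by norm_num)
  have e1 : 2 ^ (32 * t) = 2 ^ t * 2 ^ (10 * t + 21 * t) := by
    rw [← pow_add]; congr 1; ring
  rw [e1]
  have e2 : 1 ≤ 2 ^ (10 * t + 21 * t) := Nat.one_le_two_pow
  calc 60 * (t + 1) + 1 + 130 * t ^ 8 * 2 ^ (10 * t + 21 * t) + t
      ≤ (61 * t + 61) * 2 ^ (10 * t + 21 * t) + 130 * t ^ 8 * 2 ^ (10 * t + 21 * t) := by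
        nlinarith
    _ = (130 * t ^ 8 + 61 * t + 61) * 2 ^ (10 * t + 21 * t) := by ring
    _ ≤ 2 ^ t * 2 ^ (10 * t + 21 * t) := Nat.mul_le_mul_right _ (by omega)

theorem main_at (t : ℕ) (ht : 400 ≤ t) (h1 : 2000 * t ^ 8 ≤ 2 ^ t)
    (hs : ∃ P : Finset ℕ, P.card = 11 * t ^ 7 + 2 ∧ ∀ p ∈ P, p.Prime ∧ p % 4 = 1 ∧ p ≤ 2 ^ t)
    (hb : ∃ P : Finset ℕ, P.card = t ^ 6 ∧
      ∀ p ∈ P, p.Prime ∧ p % 4 = 1 ∧ 2 ^ (t ^ 3) < p ∧ p ≤ 2 ^ (9 * t ^ 3)) :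
    ∃ U : Finset ℂ, (∀ u ∈ U, ‖u‖ = 1) ∧ U.card ≤ 2 ^ (120 * t) ∧
      ∀ z : ℂ, ∃ u ∈ U, Hit (2 * (1 / 2 : ℝ) ^ t) (z * u).re := by
  obtain ⟨f1, f2, f3, f4, f5, f6, f7, f8⟩ := pow_facts t ht
  obtain ⟨P', hP'c, hP'⟩ := hs
  obtain ⟨P, hPc, hP⟩ := hb
  obtain ⟨H, hH⟩ : ∃ H : ℕ, H = ∏ p ∈ P', p := ⟨_, rfl⟩
  have hHpos : 1 ≤ H := by
    rw [hH]
    exact Finset.prod_pos fun p hp => (hP' p hp).1.pos
  have hHle : H ≤ 2 ^ (11 * t ^ 8 + 2 * t) := by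
    rw [hH]
    calc ∏ p ∈ P', p ≤ ∏ _p ∈ P', 2 ^ t := Finset.prod_le_prod' fun p hp => (hP' p hp).2.2
      _ = (2 ^ t) ^ (11 * t ^ 7 + 2) := by rw [Finset.prod_const, hP'c]
      _ = 2 ^ (11 * t ^ 8 + 2 * t) := by rw [← pow_mul]; congr 1; ring
  have hHk : ∀ k : ℕ, H ^ k ≤ 2 ^ ((11 * t ^ 8 + 2 * t) * k) := by
    intro k
    rw [pow_mul]
    exact Nat.pow_le_pow_left hHle k
  have hPprod : 2 ^ (t ^ 9) ≤ ∏ p ∈ P, p := by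
    calc 2 ^ (t ^ 9) = (2 ^ (t ^ 3)) ^ (t ^ 6) := by rw [← pow_mul]; congr 1; ring
      _ = ∏ _p ∈ P, 2 ^ (t ^ 3) := by rw [Finset.prod_const, hPc]
      _ ≤ ∏ p ∈ P, p := Finset.prod_le_prod' fun p hp => (hP p hp).2.2.1.le
  obtain ⟨U, hU1, hU2, hU3⟩ := core t (9 * t ^ 3) (60 * t ^ 8) (124 * t ^ 8) (25 * t ^ 8)
    (2 ^ (130 * t ^ 8)) (2 ^ (21 * t)) (2 ^ (32 * t)) (2 ^ (9 * t ^ 3)) (26 * t ^ 8) H
    (2 ^ (10 * t)) P P' (by omega) Nat.one_le_two_pow le_rfl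
    (fun p hp => ⟨(hP p hp).1, (hP p hp).2.1,
      lt_of_le_of_lt (Nat.pow_le_pow_right (by norm_num) f6) (hP p hp).2.2.1, (hP p hp).2.2.2⟩)
    (by
      have hb : ∀ p ∈ P, (8 : ℝ) / p ≤ 8 / 2 ^ (t ^ 3) := by
        intro p hp
        have : ((2 ^ (t ^ 3) : ℕ) : ℝ) ≤ p := by exact_mod_cast (hP p hp).2.2.1.le
        push_cast at this
        gcongr
      calc ∑ p ∈ P, (8 : ℝ) / p ≤ ∑ _p ∈ P, (8 : ℝ) / 2 ^ (t ^ 3) := Finset.sum_le_sum hb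
        _ = (t ^ 6 : ℕ) * (8 / 2 ^ (t ^ 3)) := by rw [Finset.sum_const, hPc, nsmul_eq_mul]
        _ ≤ 1 / 2 := by
          have h3 : 16 * t ^ 6 ≤ 2 ^ (t ^ 3) := by
            calc 16 * t ^ 6 ≤ 2 ^ t := by omega
              _ ≤ 2 ^ (t ^ 3) := Nat.pow_le_pow_right (by norm_num) (by omega)
          have h4 : (16 : ℝ) * ((t ^ 6 : ℕ) : ℝ) ≤ 2 ^ (t ^ 3) := by exact_mod_cast h3
          rw [mul_div_assoc', div_le_div_iff₀ (by positivity) (by norm_num)]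
          linarith)
    (fun p hp => ⟨(hP' p hp).1, (hP' p hp).2.1,
      (hP' p hp).2.2.trans (Nat.pow_le_pow_right (by norm_num) (by omega))⟩)
    (hcs_num t ht h1 P P' hPc hP'c) hH
    (by
      calc 4 * H ^ 2 ≤ 4 * 2 ^ ((11 * t ^ 8 + 2 * t) * 2) := Nat.mul_le_mul_left _ (hHk 2)
        _ = 2 ^ ((11 * t ^ 8 + 2 * t) * 2 + 2) := by rw [pow_add]; ring
        _ < 2 ^ (25 * t ^ 8 + 1) := Nat.pow_lt_pow_right (by norm_num) (by omega))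
    (by
      refine lt_of_lt_of_le ?_ hPprod
      calc 4 * 2 ^ (2 * (60 * t ^ 8) + 3) * (4 * H ^ 2) ^ 2 * H ^ 2
          = 2 ^ (2 * (60 * t ^ 8) + 9) * H ^ 6 := by
            rw [show 2 * (60 * t ^ 8) + 9 = 2 * (60 * t ^ 8) + 3 + 6 by ring, pow_add _ _ 6]; ring
        _ ≤ 2 ^ (2 * (60 * t ^ 8) + 9) * 2 ^ ((11 * t ^ 8 + 2 * t) * 6) :=
            Nat.mul_le_mul_left _ (hHk 6)
        _ = 2 ^ (2 * (60 * t ^ 8) + 9 + (11 * t ^ 8 + 2 * t) * 6) := by rw [← pow_add]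
        _ < 2 ^ (t ^ 9) := Nat.pow_lt_pow_right (by norm_num) (by omega))
    (Nat.pow_le_pow_right (by norm_num) (by omega))
    (by
      calc (4 * H ^ 2) * (2 * H ^ 2) * 2 ^ (t + 1 + 10) = 2 ^ (t + 14) * H ^ 4 := by
            rw [show t + 14 = t + 1 + 10 + 3 by ring, pow_add _ _ 3]; ring
        _ ≤ 2 ^ (t + 14) * 2 ^ ((11 * t ^ 8 + 2 * t) * 4) := Nat.mul_le_mul_left _ (hHk 4)
        _ = 2 ^ (t + 14 + (11 * t ^ 8 + 2 * t) * 4) := by rw [← pow_add]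
        _ ≤ 2 ^ (60 * t ^ 8) := Nat.pow_le_pow_right (by norm_num) (by omega))
    (by
      have g1 : 2 * (2 * H ^ 2 * 2 ^ (t + 2)) + 1 ≤ 2 ^ (t + 5) * H ^ 2 := by
        have g2 : 1 ≤ 2 ^ (t + 4) * H ^ 2 := Nat.mul_pos (by positivity) (by positivity)
        calc 2 * (2 * H ^ 2 * 2 ^ (t + 2)) + 1 = 2 ^ (t + 4) * H ^ 2 + 1 := by
              rw [show t + 4 = t + 2 + 2 by ring, pow_add _ _ 2]; ring
          _ ≤ 2 ^ (t + 4) * H ^ 2 + 2 ^ (t + 4) * H ^ 2 := by omega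
          _ = 2 ^ (t + 5) * H ^ 2 := by rw [pow_succ 2 (t + 4)]; ring
      calc (4 * H ^ 2) * ((4 * H ^ 2) * (4 * H ^ 2)) *
          ((2 * (2 * H ^ 2 * 2 ^ (t + 2)) + 1) * (2 * (2 * H ^ 2 * 2 ^ (t + 2)) + 1))
          ≤ (4 * H ^ 2) * ((4 * H ^ 2) * (4 * H ^ 2)) *
            ((2 ^ (t + 5) * H ^ 2) * (2 ^ (t + 5) * H ^ 2)) :=
            Nat.mul_le_mul_left _ (Nat.mul_le_mul g1 g1)
        _ = 2 ^ (2 * t + 16) * H ^ 10 := by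
            rw [show 2 * t + 16 = (t + 5) + (t + 5) + 6 by ring, pow_add _ _ 6, pow_add]; ring
        _ ≤ 2 ^ (2 * t + 16) * 2 ^ ((11 * t ^ 8 + 2 * t) * 10) := Nat.mul_le_mul_left _ (hHk 10)
        _ = 2 ^ (2 * t + 16 + (11 * t ^ 8 + 2 * t) * 10) := by rw [← pow_add]
        _ < 2 ^ (124 * t ^ 8) := Nat.pow_lt_pow_right (by norm_num) (by omega))
    (Nat.pow_le_pow_right (by norm_num) (by omega))
    (by
      calc 4 * (2 ^ (9 * t ^ 3)) ^ 2 = 2 ^ (18 * t ^ 3 + 2) := by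
            rw [← pow_mul, pow_add]; ring
        _ ≤ 2 ^ (130 * t ^ 8) := Nat.pow_le_pow_right (by norm_num) (by omega))
    (by
      rw [hPc, hP'c]
      have b1 : 2 ^ (9 * (t + 1)) ≤ 2 ^ (10 * t - 2) :=
        Nat.pow_le_pow_right (by norm_num) (by omega)
      have b2 : 2 ^ (3 * (t + 1)) * (124 * t ^ 8) ≤ 2 ^ (10 * t - 2) := by
        calc 2 ^ (3 * (t + 1)) * (124 * t ^ 8) ≤ 2 ^ (3 * (t + 1)) * 2 ^ t :=
              Nat.mul_le_mul_left _ (by omega)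
          _ = 2 ^ (3 * (t + 1) + t) := by rw [← pow_add]
          _ ≤ 2 ^ (10 * t - 2) := Nat.pow_le_pow_right (by norm_num) (by omega)
      have b3 : 2 ^ (10 * t) = 2 ^ (10 * t - 2) * 4 := by
        rw [show (4 : ℕ) = 2 ^ 2 by norm_num, ← pow_add]; congr 1; omega
      have b4 : 2 ^ t ≤ 2 ^ (10 * t - 2) := Nat.pow_le_pow_right (by norm_num) (by omega)
      omega)
    (by positivity)
    (by rw [hP'c]; omega)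
    (hsmall_num t ht h1 P hPc)
    (hmu_num t ht h1)
  refine ⟨U, hU1, hU2.trans ?_, hU3⟩
  calc 2 ^ (20 * t) * (2 ^ (60 * (t + 1) + 1) * 2 ^ (32 * t) + 1)
      ≤ 2 ^ (20 * t) * (2 ^ (60 * (t + 1) + 1) * 2 ^ (32 * t)
        + 2 ^ (60 * (t + 1) + 1) * 2 ^ (32 * t)) := by
        have : 1 ≤ 2 ^ (60 * (t + 1) + 1) * 2 ^ (32 * t) := by
          rw [← pow_add]; exact Nat.one_le_two_pow
        exact Nat.mul_le_mul_left _ (by omega)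
    _ = 2 ^ (20 * t + (60 * (t + 1) + 1 + 32 * t) + 1) := by
        simp only [pow_add]; ring
    _ ≤ 2 ^ (120 * t) := Nat.pow_le_pow_right (by norm_num) (by omega)

theorem main_bound : ∃ t0 : ℕ, ∀ t ≥ t0, ∃ U : Finset ℂ, (∀ u ∈ U, ‖u‖ = 1) ∧
    U.card ≤ 2 ^ (120 * t) ∧ ∀ z : ℂ, ∃ u ∈ U, Hit (2 * (1 / 2 : ℝ) ^ t) (z * u).re := by
  have h := (eventually_ge_atTop 400).and ((poly_le_exp 8 2000).and
    (supply_small.and supply_big))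
  obtain ⟨t0, ht0⟩ := eventually_atTop.mp h
  exact ⟨t0, fun t ht => main_at t (ht0 t ht).1 (ht0 t ht).2.1 (ht0 t ht).2.2.1
    (ht0 t ht).2.2.2⟩

end Pyj
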